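import Pool.Agent.LibAD67.VDef

/-!
# Families of germs on a finite covering of `{F ≠ 0} ⊆ ℂ^d` (MP_eeb1a4_ag, all dimensions)

Interfaces: `ACurve` (an algebraic curve in `ℂ^d` of degree `R` through the points of `S`, presented
as the set `sol t` of its points over `t ∈ ℂ`), `HFam` (the functions attached to a variation).
-/

open Matrix Complex Filter Topology
open scoped ContDiff
open UpperHalfPlane hiding I

namespace AD67

open SP38 US38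

/-- A curve in `ℂ^d` of degree `R` through the points of `S`: `τ` is a linear form, injective on
`S`, `sol t` is the set of the points `v` of the curve with `τ v = t`. Outside a finite set `B` there
are `R` of them, they move holomorphically (`br t v` is the branch through `v ∈ sol t`), and they lie
in `{F ≠ 0}`. For some `t₀` they all lie in `E`. -/
structure ACurve {d : ℕ} (R : ℕ) (F : MvPolynomial (Fin d) ℂ) (S : Finset (Fin d → ℂ))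
    (E : Set (Fin d → ℂ)) where
  τ : (Fin d → ℂ) →ₗ[ℂ] ℂ
  sol : ℂ → Finset (Fin d → ℂ)
  B : Finset ℂ
  br : ℂ → (Fin d → ℂ) → ℂ → (Fin d → ℂ)
  mem : ∀ t, ∀ v ∈ sol t, τ v = t
  card : ∀ t ∉ B, (sol t).card = R
  ne : ∀ t ∉ B, ∀ v ∈ sol t, MvPolynomial.eval v F ≠ 0
  bd : ∃ C : ℝ, ∀ t, ∀ v ∈ sol t, ‖v‖ ≤ C * (1 + ‖t‖)
  an : ∀ t ∉ B, ∀ v ∈ sol t, AnalyticAt ℂ (br t v) t
  start : ∀ t ∉ B, ∀ v ∈ sol t, br t v t = v
  loc : ∀ t ∉ B, ∀ᶠ t' in 𝓝 t, sol t' = (sol t).image fun v => br t v t'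
  base : ∃ t₀ ∉ B, ∀ v ∈ sol t₀, v ∈ E
  inj : Set.InjOn τ S
  near : ∀ s ∈ S, ∃ C : ℝ, ∀ᶠ t in 𝓝[≠] (τ s), ∏ v ∈ sol t, ‖v - s‖ ≤ C * ‖t - τ s‖

/-- A finite family (index `J`) of nonnegative functions `N`, forms `T` of type `(1,0)` and a
function `u` near every point of `X`, which are compatible up to a permutation. `G x b t` says that
the disc `b` in `ℂ^d` with `b t = π x` is generic. `T x j v ξ` is the value of the form at `v` on the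
vector `ξ`. -/
structure HFam {X : Type} [TopologicalSpace X] {d : ℕ} (π : X → Fin d → ℂ) (J : Type)
    [Fintype J] (A : ℝ) where
  N : X → J → (Fin d → ℂ) → ℝ
  T : X → J → (Fin d → ℂ) → (Fin d → ℂ) → ℂ
  u : X → (Fin d → ℂ) → ℝ
  G : X → (ℂ → (Fin d → ℂ)) → ℂ → Prop
  nn : ∀ x j, ∀ᶠ v in 𝓝 (π x), 0 ≤ N x j v
  compat : ∀ x, ∀ᶠ x' in 𝓝 x, ∃ σ : Equiv.Perm J, ∀ᶠ v in 𝓝 (π x'),
    (∀ j, N x' (σ j) v = N x j v ∧ ∀ ξ, T x' (σ j) v ξ = T x j v ξ) ∧ u x' v = u x v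
  G_germ : ∀ x b b' t, b =ᶠ[𝓝 t] b' → G x b t → G x b' t
  G_loc : ∀ x b t, AnalyticAt ℂ b t → b t = π x →
    ∀ᶠ q : ℂ × X in 𝓝 (t, x), b q.1 = π q.2 → (G x b t ↔ G q.2 b q.1)
  G_base : ∀ᶠ v in residual (Fin d → ℂ), ∀ x, π x = v → ∀ b t, AnalyticAt ℂ b t → b t = v →
    G x b t
  smN : ∀ x b t, AnalyticAt ℂ b t → b t = π x → G x b t → ∀ j,
    ContDiffAt ℝ ∞ (fun t => N x j (b t)) t
  smT : ∀ x b t, AnalyticAt ℂ b t → b t = π x → G x b t → ∀ j,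
    ContDiffAt ℝ ∞ (fun t => T x j (b t) (deriv b t)) t
  smu : ∀ x b t, AnalyticAt ℂ b t → b t = π x → G x b t → ContDiffAt ℝ ∞ (fun t => u x (b t)) t
  iso : ∀ x b t, AnalyticAt ℂ b t → b t = π x → G x b t → ∀ j, ∀ᶠ t' in 𝓝[≠] t, N x j (b t') ≠ 0
  ineq : ∀ x b t, AnalyticAt ℂ b t → b t = π x → G x b t → ∃ hh : J → ℝ, (∀ j, 0 ≤ hh j) ∧
    (∀ j, ‖T x j (b t) (deriv b t)‖ ≤ √(hh j) * N x j (b t)) ∧
    (∀ j (ε : ℝ), 0 < ε → -(2 * hh j) ≤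
      rho (jj (fun t => ((N x j (b t) : ℝ) : ℂ)) (fun t => T x j (b t) (deriv b t)) ε) t) ∧
    3 * ∑ j, hh j ≤ (dzb (dz (fun t => ((u x (b t) : ℝ) : ℂ))) t).re
  growth : ∃ C : ℝ, ∀ x, (∑ j, Real.log (1 + N x j (π x))) + u x (π x) ≤
    C + A * Real.log (1 + ‖π x‖)

end AD67
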