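import Pool.Agent.LibAD67.ADef

/-!
Row A1: the polynomials `P_i` are reduced. ONLY Mathlib.

PLAN. `r = qq a i - X i.succ ^ k + (X 0 - C t₀) * g i`. Factor by factor (induction on the finset in
`∏ j, (X i.succ - C (a j))`): qq = X^card + r', r' of totalDegree < card (or ≤ card - 1) and only in
the variable i.succ; ∑_j m j.succ ≤ degree of m = `m.sum fun _ e => e` ≤ totalDegree
(`MvPolynomial.le_totalDegree`). For the second term: support of (X 0 - C t₀) * g: each m in it is
m' + single 0 1 or m' with m' ∈ g.support (`support_X_mul`, `support_C_mul`-type lemmas,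
`support_mul`, `support_sub`), and the exponents at j.succ are those of m', their sum is ≤ degree of
m' ≤ totalDegree g < k. Total degree: `totalDegree_mul`, `totalDegree_add`, `totalDegree_sub`.
-/

open MvPolynomial Filter Topology

namespace AD67

theorem A1_sum_le {n : ℕ} (m : Fin (n + 1) →₀ ℕ) : ∑ j : Fin n, m j.succ ≤ m.sum fun _ e => e := by
  rw [Finsupp.sum_fintype _ _ (fun _ => rfl), Fin.sum_univ_succ]
  exact Nat.le_add_left _ _

theorem A1_qq {n k : ℕ} (hk : 0 < k) (a : Fin n → Fin k → ℂ) (i : Fin n) :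
    ∃ r : MvPolynomial (Fin (n + 1)) ℂ, qq a i = X i.succ ^ k + r ∧ r.totalDegree < k := by
  set p : Polynomial ℂ := ∏ j, (Polynomial.X - Polynomial.C (a i j)) with hp
  have hm : p.Monic := Polynomial.monic_prod_of_monic _ _ fun j _ => Polynomial.monic_X_sub_C _
  have hd : p.natDegree = k := by
    rw [hp, Polynomial.natDegree_prod_of_monic _ _ fun j _ => Polynomial.monic_X_sub_C _]
    simp
  have h1 : qq a i = Polynomial.aeval (X i.succ : MvPolynomial (Fin (n + 1)) ℂ) p := by
    rw [hp, map_prod]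
    unfold qq
    refine Finset.prod_congr rfl fun j _ => ?_
    simp [MvPolynomial.algebraMap_eq]
  have h2 := hm.as_sum
  rw [hd] at h2
  refine ⟨∑ l ∈ Finset.range k, C (p.coeff l) * X i.succ ^ l, ?_, ?_⟩
  · rw [h1]
    conv_lhs => rw [h2]
    simp [MvPolynomial.algebraMap_eq]
  · refine lt_of_le_of_lt (totalDegree_finsetSum _ _) ?_
    rw [Finset.sup_lt_iff (by exact hk)]
    intro l hl
    refine lt_of_le_of_lt (totalDegree_mul _ _) ?_
    rw [totalDegree_C, zero_add, totalDegree_X_pow]
    exact Finset.mem_range.1 hl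

theorem PP_red {n k : ℕ} (hk : 0 < k) (a : Fin n → Fin k → ℂ) (t₀ : ℂ)
    {g : Fin n → MvPolynomial (Fin (n + 1)) ℂ} (hg : ∀ i, (g i).totalDegree < k) :
    Red k (PP a t₀ g) := by
  intro i
  obtain ⟨r, hr1, hr2⟩ := A1_qq hk a i
  refine ⟨r + (X 0 - C t₀) * g i, ?_, ?_, ?_⟩
  · unfold PP
    rw [hr1]
    ring
  · intro m hm
    have h0 : coeff m (r + (X 0 - C t₀) * g i) ≠ 0 := mem_support_iff.1 hm
    have h3 : m ∈ r.support ∨ m ∈ (X 0 * g i).support ∨ m ∈ (g i).support := by
      by_contra hcon
      push Not at hcon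
      obtain ⟨c1, c2, c3⟩ := hcon
      apply h0
      rw [coeff_add, sub_mul, coeff_sub, coeff_C_mul, notMem_support_iff.1 c1,
        notMem_support_iff.1 c2, notMem_support_iff.1 c3]
      ring
    rcases h3 with h3 | h3 | h3
    · exact lt_of_le_of_lt ((A1_sum_le m).trans (le_totalDegree h3)) hr2
    · rw [support_X_mul, Finset.mem_map] at h3
      obtain ⟨m', hm', rfl⟩ := h3
      have h4 : ∑ j : Fin n, (addLeftEmbedding (Finsupp.single (0 : Fin (n + 1)) 1) m') j.succ =
          ∑ j : Fin n, m' j.succ := by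
        refine Finset.sum_congr rfl fun j _ => ?_
        rw [addLeftEmbedding_apply, Finsupp.add_apply, Finsupp.single_eq_of_ne (Fin.succ_ne_zero j)]
        simp
      rw [h4]
      exact lt_of_le_of_lt ((A1_sum_le m').trans (le_totalDegree hm')) (hg i)
    · exact lt_of_le_of_lt ((A1_sum_le m).trans (le_totalDegree h3)) (hg i)
  · refine (totalDegree_add _ _).trans (max_le hr2.le ?_)
    refine (totalDegree_mul _ _).trans ?_
    have h5 : (X 0 - C t₀ : MvPolynomial (Fin (n + 1)) ℂ).totalDegree ≤ 1 := by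
      refine (totalDegree_sub _ _).trans (max_le ?_ ?_)
      · rw [totalDegree_X]
      · rw [totalDegree_C]; exact zero_le_one
    have h6 := hg i
    omega

end AD67
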