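import Pool.Agent.LibAD67.ADef

/-!
Row A10: linear changes of coordinates. ONLY Mathlib.

PLAN. `exists_lin`: the linear form ℓ_c(v) = ∑_j c^j v_j (c : ℂ) is injective on S for all c outside of
a finite set (for s ≠ s' the polynomial ∑_j X^j (s_j - s'_j) is not zero). L v = Fin.cons (ℓ_c v)
(fun i => v i.succ): invertible because the coefficient of v 0 in ℓ_c is c^0 = 1.
`exists_subst`: F' = aeval (fun i => ∑_j C (coefficient of L.symm) * X j) F (`MvPolynomial.bind₁`),
(L.symm (Pi.single j 1)) i are the coefficients; totalDegree of a substitution of forms of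
degree ≤ 1: sum over the support, products (`totalDegree_finset_sum`, `totalDegree_finset_prod`,
`totalDegree_pow`).
-/

open MvPolynomial Filter Topology

namespace AD67

/-- The linear form `∑ c^j v_j`. -/
noncomputable def A10_l {n : ℕ} (c : ℂ) (v : Fin (n + 1) → ℂ) : ℂ := ∑ j : Fin (n + 1), c ^ (j : ℕ) * v j

theorem A10_inj {n : ℕ} (S : Finset (Fin (n + 1) → ℂ)) :
    ∃ c : ℂ, Set.InjOn (fun v : Fin (n + 1) → ℂ => A10_l c v) (S : Set (Fin (n + 1) → ℂ)) := by
  classical
  obtain ⟨P, hP⟩ : ∃ P : (Fin (n + 1) → ℂ) × (Fin (n + 1) → ℂ) → Polynomial ℂ,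
      P = fun q => ∑ j : Fin (n + 1), Polynomial.monomial (j : ℕ) (q.1 j - q.2 j) := ⟨_, rfl⟩
  have hPc : ∀ q (j : Fin (n + 1)), (P q).coeff (j : ℕ) = q.1 j - q.2 j := by
    intro q j
    rw [hP]
    simp only [Polynomial.finsetSum_coeff, Polynomial.coeff_monomial]
    rw [Finset.sum_eq_single j]
    · simp
    · intro b _ hb
      have : (b : ℕ) ≠ j := fun h => hb (Fin.ext h)
      simp [this]
    · simp
  have hPe : ∀ q c, (P q).eval c = A10_l c q.1 - A10_l c q.2 := by
    intro q c
    rw [hP]
    unfold A10_l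
    simp only [Polynomial.eval_finset_sum, Polynomial.eval_monomial]
    rw [← Finset.sum_sub_distrib]
    refine Finset.sum_congr rfl fun j _ => ?_
    ring
  have hP0 : ∀ q : (Fin (n + 1) → ℂ) × (Fin (n + 1) → ℂ), q.1 ≠ q.2 → P q ≠ 0 := by
    intro q hq h0
    apply hq
    funext j
    have := hPc q j
    rw [h0, Polynomial.coeff_zero] at this
    exact (sub_eq_zero.1 this.symm)
  obtain ⟨c, hc⟩ := Set.Infinite.exists_notMem_finset (Set.infinite_univ (α := ℂ))
    ((S ×ˢ S).biUnion fun q => (P q).roots.toFinset)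
  refine ⟨c, ?_⟩
  intro s hs s' hs' he
  by_contra hne
  have he : A10_l c s = A10_l c s' := he
  apply hc.2
  rw [Finset.mem_biUnion]
  refine ⟨(s, s'), Finset.mem_product.2 ⟨hs, hs'⟩, ?_⟩
  rw [Multiset.mem_toFinset, Polynomial.mem_roots (hP0 (s, s') hne)]
  show (P (s, s')).eval c = 0
  rw [hPe]
  simp only
  rw [he, sub_self]

theorem exists_lin {n : ℕ} (S : Finset (Fin (n + 1) → ℂ)) :
    ∃ L : (Fin (n + 1) → ℂ) ≃ₗ[ℂ] (Fin (n + 1) → ℂ), Set.InjOn (fun v => L v 0) S := by
  obtain ⟨c, hc⟩ := A10_inj S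
  have hl : ∀ v : Fin (n + 1) → ℂ, A10_l c v = v 0 + ∑ i : Fin n, c ^ ((i : ℕ) + 1) * v i.succ := by
    intro v
    unfold A10_l
    rw [Fin.sum_univ_succ]
    simp
  have hadd : ∀ u v : Fin (n + 1) → ℂ, A10_l c (u + v) = A10_l c u + A10_l c v := by
    intro u v
    unfold A10_l
    rw [← Finset.sum_add_distrib]
    refine Finset.sum_congr rfl fun j _ => ?_
    rw [Pi.add_apply]; ring
  have hsmul : ∀ (a : ℂ) (v : Fin (n + 1) → ℂ), A10_l c (a • v) = a * A10_l c v := by
    intro a v
    unfold A10_l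
    rw [Finset.mul_sum]
    refine Finset.sum_congr rfl fun j _ => ?_
    rw [Pi.smul_apply, smul_eq_mul]; ring
  let L : (Fin (n + 1) → ℂ) →ₗ[ℂ] (Fin (n + 1) → ℂ) :=
    { toFun := fun v => Fin.cons (A10_l c v) (fun i : Fin n => v i.succ)
      map_add' := by
        intro u v
        funext j
        refine Fin.cases ?_ (fun i => ?_) j
        · simp [hadd]
        · simp
      map_smul' := by
        intro a v
        funext j
        refine Fin.cases ?_ (fun i => ?_) j
        · simp [hsmul]
        · simp }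
  have hinj : Function.Injective L := by
    intro u v huv
    have h1 : ∀ i : Fin n, u i.succ = v i.succ := by
      intro i
      have := congrFun huv i.succ
      simpa [L] using this
    have h2 : A10_l c u = A10_l c v := by
      have := congrFun huv 0
      simpa [L] using this
    rw [hl u, hl v] at h2
    have h3 : ∑ i : Fin n, c ^ ((i : ℕ) + 1) * u i.succ = ∑ i : Fin n, c ^ ((i : ℕ) + 1) * v i.succ :=
      Finset.sum_congr rfl fun i _ => by rw [h1 i]
    rw [h3] at h2
    funext j
    refine Fin.cases ?_ (fun i => ?_) j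
    · exact add_right_cancel h2
    · exact h1 i
  refine ⟨LinearEquiv.ofInjectiveEndo L hinj, ?_⟩
  intro s hs s' hs' he
  apply hc hs hs'
  have h1 : ∀ v, (LinearEquiv.ofInjectiveEndo L hinj) v 0 = A10_l c v := by
    intro v
    rw [LinearEquiv.coe_ofInjectiveEndo]
    simp [L]
  simp only [h1] at he
  exact he

theorem exists_subst {d : ℕ} (L : (Fin d → ℂ) ≃ₗ[ℂ] (Fin d → ℂ)) (F : MvPolynomial (Fin d) ℂ) :
    ∃ F' : MvPolynomial (Fin d) ℂ, (∀ v, eval (L v) F' = eval v F) ∧
      F'.totalDegree ≤ F.totalDegree := by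
  classical
  obtain ⟨f, hf⟩ : ∃ f : Fin d → MvPolynomial (Fin d) ℂ,
      f = fun i => ∑ j, C ((L.symm (Pi.single j 1)) i) * X j := ⟨_, rfl⟩
  refine ⟨aeval f F, ?_, ?_⟩
  · intro v
    have h1 : eval (L v) (aeval f F) = eval (fun i => eval (L v) (f i)) F := by
      rw [aeval_def, eval₂_eq', map_sum, eval_eq']
      refine Finset.sum_congr rfl fun m _ => ?_
      rw [map_mul, map_prod]
      simp
    rw [h1]
    congr 2
    funext i
    have h2 : L.symm (L v) = v := L.symm_apply_apply v
    have h3 : (L.symm (L v)) i = ∑ j, (L v) j * (L.symm (Pi.single j 1)) i := by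
      have := LinearMap.pi_apply_eq_sum_univ (L.symm : (Fin d → ℂ) →ₗ[ℂ] (Fin d → ℂ)) (L v)
      have h4 := congrFun this i
      rw [Finset.sum_apply] at h4
      simp only [Pi.smul_apply, smul_eq_mul, LinearEquiv.coe_coe] at h4
      rw [h4]
      refine Finset.sum_congr rfl fun j _ => ?_
      have h5 : (fun k => if j = k then (1:ℂ) else 0) = Pi.single j 1 := by
        funext k
        simp [Pi.single_apply, eq_comm]
      rw [h5]
    rw [hf]
    simp only [map_sum, map_mul, eval_C, eval_X]
    rw [← h2, h3, L.symm_apply_apply v]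
    refine Finset.sum_congr rfl fun j _ => ?_
    ring
  · rw [aeval_def, eval₂_eq']
    apply totalDegree_finsetSum_le
    intro m hm
    have hdeg : ∀ i, (f i).totalDegree ≤ 1 := by
      intro i
      rw [hf]
      apply totalDegree_finsetSum_le
      intro j _
      refine (totalDegree_mul _ _).trans ?_
      rw [totalDegree_C, totalDegree_X]
    refine (totalDegree_mul _ _).trans ?_
    rw [show (algebraMap ℂ (MvPolynomial (Fin d) ℂ)) (coeff m F) = C (coeff m F) from rfl,
      totalDegree_C, zero_add]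
    refine (totalDegree_finset_prod _ _).trans ?_
    calc ∑ i, (f i ^ m i).totalDegree ≤ ∑ i, m i := by
          refine Finset.sum_le_sum fun i _ => ?_
          refine (totalDegree_pow _ _).trans ?_
          calc m i * (f i).totalDegree ≤ m i * 1 := Nat.mul_le_mul_left _ (hdeg i)
            _ = m i := mul_one _
      _ = m.sum fun _ e => e := by rw [Finsupp.sum_fintype _ _ (fun _ => rfl)]
      _ ≤ F.totalDegree := le_totalDegree hm

end AD67
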