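import Pool.Agent.LibAD67.ADef

/-!
Row A11: a set which is not in a hypersurface of degree less than `k` contains an interpolation set.
ONLY Mathlib.

PLAN. V = {g : totalDegree g < k} (for k > 0: `MvPolynomial.restrictTotalDegree (Fin d) ℂ (k - 1)`),
finite dimensional; evaluations at the points of Y: if no nonzero element of V vanishes on Y, the
evaluation functionals span the dual of V (their common kernel is 0), so a basis of the dual can
be chosen among them (`exists_linearIndependent`, finite dimensional): S with S.card = dim V,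
the evaluation map V → (S → ℂ) injective, hence bijective.
Dimension: a basis of V are the monomials m with degree < k (`MvPolynomial.basisRestrictSupport`
or linear independence of monomials), and k^d ≤ d! * #{m : Fin d → ℕ | ∑ m < k}. Count: by
induction on d: #(d+1, k) = ∑_{i<k} #(d, k - i) ≥ ∑_{i=1}^k i^d / d! ≥ k^{d+1} / (d+1)!
((i+1)^{d+1} - i^{d+1} ≤ (d+1)(i+1)^d). Or via `Sym` / stars and bars and
`Nat.ascFactorial` (`Finset.card_finsuppAntidiag`-type lemmas, `Nat.pow_le_ascFactorial`).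
-/

open MvPolynomial Filter Topology

namespace AD67

private theorem A11_select {ι : Type} (s : Set ι) : ∀ (d : ℕ) (V : Type) [AddCommGroup V]
    [Module ℂ V] [FiniteDimensional ℂ V] (T : V →ₗ[ℂ] (ι → ℂ)), Module.finrank ℂ V = d →
    (∀ t, (∀ i ∈ s, T t i = 0) → t = 0) →
    ∃ J : Fin d → ι, (∀ l, J l ∈ s) ∧ ∀ t : V, (∀ l, T t (J l) = 0) → t = 0 := by
  intro d
  induction d with
  | zero =>
    intro V _ _ _ T hV _
    have : Subsingleton V := Module.finrank_zero_iff.1 hV
    exact ⟨Fin.elim0, fun l => l.elim0, fun t _ => Subsingleton.elim _ _⟩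
  | succ d ih =>
    intro V _ _ _ T hV hT
    have hnt : Nontrivial V := Module.nontrivial_of_finrank_pos (R := ℂ) (by omega)
    obtain ⟨v, hv⟩ := exists_ne (0 : V)
    obtain ⟨i, hi, hvi⟩ : ∃ i ∈ s, T v i ≠ 0 := by
      by_contra hcon
      push Not at hcon
      exact hv (hT v hcon)
    let φ : V →ₗ[ℂ] ℂ := (LinearMap.proj i) ∘ₗ T
    have hφ : ∀ t, φ t = T t i := fun t => rfl
    have hr : LinearMap.range φ = ⊤ := by
      refine LinearMap.range_eq_top.2 fun y => ?_
      refine ⟨(y / T v i) • v, ?_⟩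
      rw [map_smul, hφ, smul_eq_mul, div_mul_cancel₀ _ hvi]
    have hK : Module.finrank ℂ (LinearMap.ker φ) = d := by
      have h1 := LinearMap.finrank_range_add_finrank_ker φ
      rw [hr, finrank_top, Module.finrank_self, hV] at h1
      omega
    obtain ⟨J, hJ, hJ'⟩ := ih (LinearMap.ker φ) (T ∘ₗ (LinearMap.ker φ).subtype) hK
      (fun t ht => Subtype.ext (hT t fun i hi => ht i hi))
    refine ⟨Fin.cons i J, fun l => ?_, fun t ht => ?_⟩
    · refine Fin.cases ?_ (fun l => ?_) l
      · rw [Fin.cons_zero]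
        exact hi
      · rw [Fin.cons_succ]
        exact hJ l
    · have h0 : φ t = 0 := by
        rw [hφ]
        have := ht 0
        rwa [Fin.cons_zero] at this
      have h1 := hJ' ⟨t, h0⟩ fun l => by
        have := ht l.succ
        rwa [Fin.cons_succ] at this
      exact congrArg Subtype.val h1

private theorem A11_select' {ι : Type} (s : Set ι) (V : Type) [AddCommGroup V]
    [Module ℂ V] [FiniteDimensional ℂ V] (T : V →ₗ[ℂ] (ι → ℂ))
    (hT : ∀ t, (∀ i ∈ s, T t i = 0) → t = 0) :
    ∃ S : Finset ι, (S : Set ι) ⊆ s ∧ S.card = Module.finrank ℂ V ∧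
      ∀ f : ι → ℂ, ∃ t, ∀ i ∈ S, T t i = f i := by
  obtain ⟨J, hJ, hJ'⟩ := A11_select s _ V T rfl hT
  let A : V →ₗ[ℂ] (Fin (Module.finrank ℂ V) → ℂ) :=
    LinearMap.pi fun l => (LinearMap.proj (J l)) ∘ₗ T
  have hA : ∀ t l, A t l = T t (J l) := fun t l => rfl
  have hinj : Function.Injective A := by
    refine (injective_iff_map_eq_zero A).2 fun t ht => hJ' t fun l => ?_
    rw [← hA, ht]
    rfl
  have hsur : Function.Surjective A :=
    (LinearMap.injective_iff_surjective_of_finrank_eq_finrank (by simp)).1 hinj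
  have hq : ∀ q : Fin (Module.finrank ℂ V) → ℂ, ∃ t, ∀ l, T t (J l) = q l := fun q => by
    obtain ⟨t, ht⟩ := hsur q
    exact ⟨t, fun l => by rw [← hA, ht]⟩
  have hJi : Function.Injective J := by
    intro l l' hll
    by_contra hne
    obtain ⟨t, ht⟩ := hq (Pi.single l 1)
    have h1 := ht l
    have h2 := ht l'
    rw [hll, h2, Pi.single_eq_same, Pi.single_eq_of_ne (Ne.symm hne)] at h1
    exact zero_ne_one h1
  refine ⟨Finset.univ.map ⟨J, hJi⟩, ?_, ?_, fun f => ?_⟩
  · intro i hi
    obtain ⟨l, -, rfl⟩ := Finset.mem_map.1 (Finset.mem_coe.1 hi)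
    exact hJ l
  · rw [Finset.card_map, Finset.card_univ, Fintype.card_fin]
  · obtain ⟨t, ht⟩ := hq fun l => f (J l)
    refine ⟨t, fun i hi => ?_⟩
    obtain ⟨l, -, rfl⟩ := Finset.mem_map.1 hi
    exact ht l

private theorem A11_count {d k : ℕ} (hk : 0 < k) :
    k ^ d ≤ d.factorial * Nat.card {m : Fin d →₀ ℕ | (m.sum fun _ e => e) ≤ k - 1} := by
  have hfin : Finite {m : Fin d →₀ ℕ | (m.sum fun _ e => e) ≤ k - 1} := by
    have h1 : Finite {f : Fin d →₀ ℕ | ∀ a, f a ≤ k - 1} :=
      ((Set.Finite.pi' fun _ ↦ Set.finite_le_nat _).preimage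
        DFunLike.coe_injective.injOn).to_subtype
    rw [Set.finite_coe_iff] at h1 ⊢
    exact h1.subset fun n hn i ↦ (eq_or_ne (n i) 0).elim
      (fun h ↦ h.trans_le (Nat.zero_le _)) fun h ↦
        (Finset.single_le_sum (fun _ _ ↦ Nat.zero_le _) <| Finsupp.mem_support_iff.mpr h).trans hn
  have hsum : ∀ f ∈ (Finset.univ : Finset (Fin (d + 1))).finsuppAntidiag (k - 1),
      f 0 + ∑ i : Fin d, f i.succ = k - 1 := by
    intro f hf
    have h1 := (Finset.mem_finsuppAntidiag.1 hf).1
    rwa [Fin.sum_univ_succ] at h1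
  have hts : ∀ f : Fin (d + 1) →₀ ℕ, ((Finsupp.tail f).sum fun _ e => e) = ∑ i : Fin d, f i.succ := by
    intro f
    rw [Finsupp.sum_fintype _ _ fun _ => rfl]
    rfl
  let F : ((Finset.univ : Finset (Fin (d + 1))).finsuppAntidiag (k - 1)) →
      {m : Fin d →₀ ℕ | (m.sum fun _ e => e) ≤ k - 1} := fun f =>
    ⟨Finsupp.tail f.1, by
      have h1 := hsum f.1 f.2
      have h2 := hts f.1
      simp only [Set.mem_ofPred_eq]
      omega⟩
  have hF : Function.Injective F := by
    intro f g hfg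
    have h1 : Finsupp.tail f.1 = Finsupp.tail g.1 := congrArg Subtype.val hfg
    have h2 : ∀ i : Fin d, f.1 i.succ = g.1 i.succ := fun i => by
      have := DFunLike.congr_fun h1 i
      rwa [Finsupp.tail_apply, Finsupp.tail_apply] at this
    have h3 := hsum f.1 f.2
    have h4 := hsum g.1 g.2
    rw [Finset.sum_congr rfl fun i _ => h2 i] at h3
    refine Subtype.ext (Finsupp.ext fun i => ?_)
    refine Fin.cases ?_ h2 i
    omega
  have hc := Nat.card_le_card_of_injective F hF
  rw [Nat.card_eq_fintype_card, Fintype.card_coe, Finset.card_finsuppAntidiag_nat_eq_choose,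
    Finset.card_univ, Fintype.card_fin] at hc
  have h5 : (d + 1 + (k - 1) - 1).choose (k - 1) = (k + d - 1).choose d := by
    have h6 : d + 1 + (k - 1) - 1 = d + (k - 1) := by omega
    have h7 : k + d - 1 = d + (k - 1) := by omega
    rw [h6, h7]
    exact (Nat.choose_symm_add (a := d) (b := k - 1)).symm
  rw [h5] at hc
  calc k ^ d ≤ k.ascFactorial d := Nat.pow_succ_le_ascFactorial k d
    _ = d.factorial * (k + d - 1).choose d := Nat.ascFactorial_eq_factorial_mul_choose' _ _
    _ ≤ _ := Nat.mul_le_mul_left _ hc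

theorem unisolvent {d k : ℕ} (hk : 0 < k) (Y : Set (Fin d → ℂ))
    (hY : ∀ G : MvPolynomial (Fin d) ℂ, G.totalDegree < k → (∀ y ∈ Y, eval y G = 0) → G = 0) :
    ∃ S : Finset (Fin d → ℂ), (S : Set (Fin d → ℂ)) ⊆ Y ∧ k ^ d ≤ d.factorial * S.card ∧
      ∀ f : (Fin d → ℂ) → ℂ, ∃ g : MvPolynomial (Fin d) ℂ, g.totalDegree < k ∧
        ∀ s ∈ S, eval s g = f s := by
  let T : restrictTotalDegree (Fin d) ℂ (k - 1) →ₗ[ℂ] ((Fin d → ℂ) → ℂ) :=
    { toFun := fun G y => eval y G.1
      map_add' := fun G H => funext fun y => by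
        rw [Submodule.coe_add, map_add, Pi.add_apply]
      map_smul' := fun c G => funext fun y => by
        rw [Submodule.coe_smul, smul_eval, RingHom.id_apply, Pi.smul_apply, smul_eq_mul] }
  have hTe : ∀ G y, T G y = eval y G.1 := fun G y => rfl
  have hdeg : ∀ G : restrictTotalDegree (Fin d) ℂ (k - 1), G.1.totalDegree < k := fun G => by
    have := (mem_restrictTotalDegree _ _ _).1 G.2
    omega
  obtain ⟨S, hS1, hS2, hS3⟩ := A11_select' Y (restrictTotalDegree (Fin d) ℂ (k - 1)) T
    fun G hG => Subtype.ext (hY G.1 (hdeg G) hG)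
  refine ⟨S, hS1, ?_, fun f => ?_⟩
  · rw [hS2]
    have h1 : Module.finrank ℂ (restrictTotalDegree (Fin d) ℂ (k - 1)) =
        Nat.card {m : Fin d →₀ ℕ | (m.sum fun _ e => e) ≤ k - 1} :=
      Module.finrank_eq_nat_card_basis (basisRestrictSupport ℂ _)
    rw [h1]
    exact A11_count hk
  · obtain ⟨G, hG⟩ := hS3 f
    exact ⟨G.1, hdeg G, fun s hs => hG s hs⟩

end AD67
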