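import Pool.Agent.LibAD67.ADef

/-!
Row A4: the solutions grow at most linearly. ONLY Mathlib.

PLAN. Let v ∈ Sol P t, m = max_i ‖v i.succ‖ attained at i. If m ≤ 1 + ‖t‖ done. Otherwise
v_i^k = - eval v r, and |eval v r| ≤ ∑ |coeff| (1 + ‖t‖)^{m' 0} m^{∑ m' j.succ} with
m' 0 + ∑ m' j.succ ≤ k and ∑ m' j.succ ≤ k - 1, so as 1 + ‖t‖ ≤ m each term is
≤ |coeff| (1 + ‖t‖) m^{k-1} (if k = 0 the hypothesis on the support gives r = 0; then P i = 1 has no
zeros, when n > 0). Hence m^k ≤ C (1 + ‖t‖) m^{k-1}, m ≤ C (1 + ‖t‖). ‖v‖ = max (‖t‖, m).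
-/

open MvPolynomial Filter Topology

namespace AD67

theorem A4_term {n k : ℕ} (hk : 0 < k) (v : Fin (n + 1) → ℂ) (s m : ℝ) (hs : 1 ≤ s) (hsm : s ≤ m)
    (h0 : ‖v 0‖ ≤ s) (hv : ∀ j : Fin n, ‖v j.succ‖ ≤ m) (e : Fin (n + 1) →₀ ℕ)
    (h1 : ∑ j : Fin n, e j.succ < k) (h2 : e 0 + ∑ j : Fin n, e j.succ ≤ k) :
    ∏ j, ‖v j‖ ^ e j ≤ s * m ^ (k - 1) := by
  rw [Fin.prod_univ_succ]
  have hm : 1 ≤ m := hs.trans hsm
  have hm0 : 0 ≤ m := by linarith
  have hs0 : 0 ≤ s := by linarith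
  have hb : ∏ j : Fin n, ‖v j.succ‖ ^ e j.succ ≤ m ^ (∑ j : Fin n, e j.succ) := by
    rw [← Finset.prod_pow_eq_pow_sum]
    exact Finset.prod_le_prod (fun _ _ => by positivity) fun j _ =>
      pow_le_pow_left₀ (norm_nonneg _) (hv j) _
  have ha : ‖v 0‖ ^ e 0 ≤ s ^ e 0 := pow_le_pow_left₀ (norm_nonneg _) h0 _
  have hprod : 0 ≤ ∏ j : Fin n, ‖v j.succ‖ ^ e j.succ := Finset.prod_nonneg fun _ _ => by positivity
  calc ‖v 0‖ ^ e 0 * ∏ j : Fin n, ‖v j.succ‖ ^ e j.succ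
      ≤ s ^ e 0 * m ^ (∑ j : Fin n, e j.succ) := mul_le_mul ha hb hprod (by positivity)
    _ ≤ s * m ^ (k - 1) := by
      rcases Nat.eq_zero_or_pos (e 0) with he | he
      · rw [he, pow_zero, one_mul]
        calc m ^ (∑ j : Fin n, e j.succ) ≤ m ^ (k - 1) := pow_le_pow_right₀ hm (by omega)
          _ = 1 * m ^ (k - 1) := (one_mul _).symm
          _ ≤ s * m ^ (k - 1) := by gcongr
      · obtain ⟨q, hq⟩ : ∃ q, e 0 = q + 1 := ⟨e 0 - 1, by omega⟩
        rw [hq, pow_succ, mul_comm (s ^ q) s, mul_assoc]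
        have h3 : s ^ q * m ^ (∑ j : Fin n, e j.succ) ≤ m ^ (k - 1) := by
          calc s ^ q * m ^ (∑ j : Fin n, e j.succ) ≤ m ^ q * m ^ (∑ j : Fin n, e j.succ) := by gcongr
            _ = m ^ (q + ∑ j : Fin n, e j.succ) := (pow_add _ _ _).symm
            _ ≤ m ^ (k - 1) := pow_le_pow_right₀ hm (by omega)
        gcongr

theorem sol_bdd {n k : ℕ} {P : Fin n → MvPolynomial (Fin (n + 1)) ℂ} (hk : 0 < k) (hP : Red k P) :
    ∃ C : ℝ, ∀ t, ∀ v ∈ Sol P t, ‖v‖ ≤ C * (1 + ‖t‖) := by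
  choose r hr1 hr2 hr3 using hP
  set A : Fin n → ℝ := fun i => ∑ e ∈ (r i).support, ‖coeff e (r i)‖ with hA
  have hA0 : ∀ i, 0 ≤ A i := fun i => Finset.sum_nonneg fun _ _ => norm_nonneg _
  set C : ℝ := 1 + ∑ i, A i with hC
  have hAC : ∀ i, A i ≤ C := by
    intro i
    have : A i ≤ ∑ i, A i := Finset.single_le_sum (fun i _ => hA0 i) (Finset.mem_univ i)
    linarith
  have hC1 : 1 ≤ C := by
    have : 0 ≤ ∑ i, A i := Finset.sum_nonneg fun i _ => hA0 i
    linarith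
  refine ⟨C, ?_⟩
  intro t v hv
  obtain ⟨hv0, hvP⟩ := hv
  set s : ℝ := 1 + ‖t‖ with hs
  have hs1 : 1 ≤ s := by
    have := norm_nonneg t
    linarith
  have hts : ‖t‖ ≤ s := by linarith
  have hCs : s ≤ C * s := le_mul_of_one_le_left (by linarith) hC1
  -- bound of the coordinates
  have key : ∀ i : Fin n, ‖v i.succ‖ ≤ C * s := by
    intro i0
    have hne : (Finset.univ : Finset (Fin n)).Nonempty := ⟨i0, Finset.mem_univ _⟩
    obtain ⟨i, -, hi⟩ := Finset.exists_max_image Finset.univ (fun i : Fin n => ‖v i.succ‖) hne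
    refine (hi i0 (Finset.mem_univ _)).trans ?_
    by_cases hcase : ‖v i.succ‖ ≤ s
    · exact hcase.trans hCs
    push Not at hcase
    set m : ℝ := ‖v i.succ‖ with hm
    have hm1 : 1 ≤ m := hs1.trans hcase.le
    have hm0 : 0 < m := by linarith
    have h1 := hvP i
    rw [hr1 i, map_add, map_pow, eval_X] at h1
    have h2 : ‖v i.succ ^ k‖ = ‖eval v (r i)‖ := by
      rw [eq_neg_of_add_eq_zero_left h1, norm_neg]
    have h3 : ‖eval v (r i)‖ ≤ A i * (s * m ^ (k - 1)) := by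
      rw [eval_eq']
      refine (norm_sum_le _ _).trans ?_
      rw [hA, Finset.sum_mul]
      refine Finset.sum_le_sum fun e he => ?_
      rw [norm_mul, norm_prod]
      have h4 : ∏ j, ‖v j ^ e j‖ ≤ s * m ^ (k - 1) := by
        simp only [norm_pow]
        refine A4_term hk v s m hs1 hcase.le (by rw [hv0]; exact hts)
          (fun j => hi j (Finset.mem_univ _)) e (hr2 i e he) ?_
        have h5 := (le_totalDegree he).trans (hr3 i)
        rw [Finsupp.sum_fintype _ _ (fun _ => rfl), Fin.sum_univ_succ] at h5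
        exact h5
      exact mul_le_mul_of_nonneg_left h4 (norm_nonneg _)
    have h6 : m ^ k ≤ A i * (s * m ^ (k - 1)) := by
      rw [norm_pow] at h2
      rw [← hm] at h2
      rw [h2]
      exact h3
    have h7 : m * m ^ (k - 1) ≤ (A i * s) * m ^ (k - 1) := by
      calc m * m ^ (k - 1) = m ^ k := by
            rw [← pow_succ']
            congr 1
            omega
        _ ≤ A i * (s * m ^ (k - 1)) := h6
        _ = (A i * s) * m ^ (k - 1) := by ring
    have h8 : m ≤ A i * s := le_of_mul_le_mul_right h7 (by positivity)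
    refine h8.trans ?_
    exact mul_le_mul_of_nonneg_right (hAC i) (by linarith)
  rw [pi_norm_le_iff_of_nonneg (by positivity)]
  intro j
  refine Fin.cases ?_ (fun i => key i) j
  rw [hv0]
  exact hts.trans hCs

end AD67
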