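import Pool.Agent.LibAD67.ADef

/-!
Row A5: the implicit function theorem at a simple solution. ONLY Mathlib.

PLAN. Θ : (Fin (n+1) → ℂ) → (Fin (n+1) → ℂ), Θ v = Fin.cons (v 0) (fun i => eval v (P i)), is
polynomial, `ContDiff ℂ ∞` (or ω); its derivative at v₁ is invertible: if (w 0 = 0 and
∑_j ∂_j P_i w_j = 0 for all i) then w = 0 because det (∂P_i/∂z_j) ≠ 0 (`Matrix.eq_zero_of_mulVec_eq_zero`;
derivative of a polynomial function: search `MvPolynomial.hasStrictFDerivAt` or prove by
`MvPolynomial.induction_on`, fderiv = ∑ pderiv). Local inverse: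
`ContDiffAt.toOpenPartialHomeomorph`, `ContDiffAt.to_localInverse` (over ℂ, the inverse is C^n), or
`HasStrictFDerivAt.toOpenPartialHomeomorph`. b t = inverse (Fin.cons t 0): differentiable over ℂ near t₁,
hence analytic (`DifferentiableOn.analyticAt` in one variable, values in a Banach space). O = the
source: if v ∈ O, v ∈ Sol P t then Θ v = Fin.cons t 0 so v = b t.
-/

open MvPolynomial Filter Topology

namespace AD67

/-- the derivative of a polynomial -/
noncomputable def A5_D {n : ℕ} (p : MvPolynomial (Fin (n + 1)) ℂ) (v : Fin (n + 1) → ℂ) :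
    (Fin (n + 1) → ℂ) →L[ℂ] ℂ := ∑ j, eval v (pderiv j p) • ContinuousLinearMap.proj j

theorem A5_D_apply {n : ℕ} (p : MvPolynomial (Fin (n + 1)) ℂ) (v w : Fin (n + 1) → ℂ) :
    A5_D p v w = ∑ j, eval v (pderiv j p) * w j := by
  simp [A5_D]

theorem A5_hasFDeriv {n : ℕ} (p : MvPolynomial (Fin (n + 1)) ℂ) (v : Fin (n + 1) → ℂ) :
    HasFDerivAt (fun v => eval v p) (A5_D p v) v := by
  induction p using MvPolynomial.induction_on with
  | C a =>
    have : A5_D (C a) v = 0 := by
      refine ContinuousLinearMap.ext fun w => ?_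
      rw [A5_D_apply]
      simp
    rw [this]
    simp only [eval_C]
    exact hasFDerivAt_const a v
  | add p q hp hq =>
    have : A5_D (p + q) v = A5_D p v + A5_D q v := by
      refine ContinuousLinearMap.ext fun w => ?_
      rw [ContinuousLinearMap.add_apply, A5_D_apply, A5_D_apply, A5_D_apply]
      simp only [map_add, add_mul, Finset.sum_add_distrib]
    rw [this]
    simp only [map_add]
    exact hp.add hq
  | mul_X p i hp =>
    have h1 : A5_D (p * X i) v = eval v p •
        (ContinuousLinearMap.proj (R := ℂ) (φ := fun _ : Fin (n + 1) => ℂ) i) + v i • A5_D p v := by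
      refine ContinuousLinearMap.ext fun w => ?_
      rw [ContinuousLinearMap.add_apply, ContinuousLinearMap.smul_apply, ContinuousLinearMap.smul_apply,
        A5_D_apply, A5_D_apply, ContinuousLinearMap.proj_apply, smul_eq_mul, smul_eq_mul]
      simp only [Derivation.leibniz, pderiv_X, smul_eq_mul, map_add, map_mul, eval_X, add_mul,
        Finset.sum_add_distrib]
      congr 1
      · rw [Finset.sum_eq_single i]
        · simp
        · intro j _ hj
          rw [Pi.single_eq_of_ne hj.symm]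
          simp
        · simp
      · rw [Finset.mul_sum]
        refine Finset.sum_congr rfl fun j _ => ?_
        ring
    rw [h1]
    simp only [map_mul, eval_X]
    exact hp.mul (ContinuousLinearMap.proj (R := ℂ) (φ := fun _ : Fin (n + 1) => ℂ) i).hasFDerivAt

/-- the map -/
noncomputable def A5_T {n : ℕ} (P : Fin n → MvPolynomial (Fin (n + 1)) ℂ) (v : Fin (n + 1) → ℂ) :
    Fin (n + 1) → ℂ := Fin.cons (v 0) (fun i => eval v (P i))

theorem branch {n : ℕ} {P : Fin n → MvPolynomial (Fin (n + 1)) ℂ} {t₁ : ℂ}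
    {v₁ : Fin (n + 1) → ℂ} (hv : v₁ ∈ Sol P t₁) (hJ : eval v₁ (Jac P) ≠ 0) :
    ∃ b : ℂ → (Fin (n + 1) → ℂ), AnalyticAt ℂ b t₁ ∧ b t₁ = v₁ ∧ (∀ᶠ t in 𝓝 t₁, b t ∈ Sol P t) ∧
      ∃ O ∈ 𝓝 v₁, ∀ᶠ t in 𝓝 t₁, ∀ v ∈ Sol P t, v ∈ O → v = b t := by
  -- the derivative
  set L : (Fin (n + 1) → ℂ) →L[ℂ] (Fin (n + 1) → ℂ) :=
    ContinuousLinearMap.pi (Fin.cons (ContinuousLinearMap.proj 0) (fun i => A5_D (P i) v₁)) with hL
  have hT : HasFDerivAt (A5_T P) L v₁ := by
    rw [hasFDerivAt_pi']
    intro j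
    refine Fin.cases ?_ (fun i => ?_) j
    · have : (ContinuousLinearMap.proj (0 : Fin (n + 1))).comp L =
          ContinuousLinearMap.proj (R := ℂ) (φ := fun _ : Fin (n + 1) => ℂ) 0 := by
        ext w
        simp [hL]
      rw [this]
      exact (ContinuousLinearMap.proj (R := ℂ) (φ := fun _ : Fin (n + 1) => ℂ) 0).hasFDerivAt
    · have : (ContinuousLinearMap.proj (i.succ : Fin (n + 1))).comp L = A5_D (P i) v₁ := by
        ext w
        simp [hL]
      rw [this]
      exact A5_hasFDeriv (P i) v₁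
  have hinj : Function.Injective L := by
    rw [← ContinuousLinearMap.coe_coe, ← LinearMap.ker_eq_bot, LinearMap.ker_eq_bot']
    intro w hw
    have hw0 : w 0 = 0 := by
      have := congrFun hw 0
      simpa [hL] using this
    have hwi : ∀ i : Fin n, ∑ j : Fin n, eval v₁ (pderiv j.succ (P i)) * w j.succ = 0 := by
      intro i
      have := congrFun hw i.succ
      simp only [hL, ContinuousLinearMap.coe_coe, ContinuousLinearMap.coe_pi', Fin.cons_succ, A5_D_apply,
        Pi.zero_apply] at this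
      rw [Fin.sum_univ_succ, hw0, mul_zero, zero_add] at this
      exact this
    have hdet : (Matrix.of fun i j : Fin n => eval v₁ (pderiv j.succ (P i))).det ≠ 0 := by
      have : eval v₁ (Jac P) = (Matrix.of fun i j : Fin n => eval v₁ (pderiv j.succ (P i))).det := by
        unfold Jac
        rw [RingHom.map_det]
        rfl
      rw [← this]
      exact hJ
    have hz := Matrix.eq_zero_of_mulVec_eq_zero hdet (v := fun j : Fin n => w j.succ) (by
      ext i
      simp only [Matrix.mulVec, dotProduct, Matrix.of_apply, Pi.zero_apply]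
      exact hwi i)
    ext j
    refine Fin.cases hw0 (fun i => congrFun hz i) j
  set E : (Fin (n + 1) → ℂ) ≃L[ℂ] (Fin (n + 1) → ℂ) :=
    (LinearEquiv.ofInjectiveEndo (L : (Fin (n + 1) → ℂ) →ₗ[ℂ] (Fin (n + 1) → ℂ)) hinj).toContinuousLinearEquiv
    with hE
  have hEL : (E : (Fin (n + 1) → ℂ) →L[ℂ] (Fin (n + 1) → ℂ)) = L := by
    ext w j
    rfl
  have hcd : ContDiffAt ℂ ⊤ (A5_T P) v₁ := by
    rw [contDiffAt_pi]
    intro j
    refine Fin.cases ?_ (fun i => ?_) j
    · exact (ContinuousLinearMap.proj (R := ℂ) (φ := fun _ : Fin (n + 1) => ℂ) 0).contDiff.contDiffAt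
    · exact (AnalyticOnNhd.eval_mvPolynomial (P i) v₁ (Set.mem_univ _)).contDiffAt
  have hT' : HasFDerivAt (A5_T P) (E : (Fin (n + 1) → ℂ) →L[ℂ] (Fin (n + 1) → ℂ)) v₁ := by
    rw [hEL]; exact hT
  have hne : (⊤ : WithTop ℕ∞) ≠ 0 := by simp
  have hstrict := hcd.hasStrictFDerivAt' hT' hne
  set g := hcd.localInverse hT' hne with hg
  have hgA : ContDiffAt ℂ ⊤ g (A5_T P v₁) := hcd.to_localInverse hT' hne
  have hTv : A5_T P v₁ = Fin.cons t₁ 0 := by
    unfold A5_T
    rw [hv.1]
    congr 1
    ext i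
    exact hv.2 i
  have hcons : ContDiff ℂ ⊤ (fun t : ℂ => (Fin.cons t 0 : Fin (n + 1) → ℂ)) := by
    rw [contDiff_pi]
    intro j
    refine Fin.cases ?_ (fun i => ?_) j
    · simp only [Fin.cons_zero]
      exact contDiff_id
    · simp only [Fin.cons_succ]
      exact contDiff_const
  have hcont : Tendsto (fun t : ℂ => (Fin.cons t 0 : Fin (n + 1) → ℂ)) (𝓝 t₁) (𝓝 (A5_T P v₁)) := by
    rw [hTv]
    exact hcons.continuous.continuousAt
  refine ⟨fun t => g (Fin.cons t 0), ?_, ?_, ?_, ?_⟩
  · have : ContDiffAt ℂ ⊤ (fun t : ℂ => g (Fin.cons t 0)) t₁ := by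
      rw [hTv] at hgA
      exact hgA.comp t₁ hcons.contDiffAt
    exact this.analyticAt
  · show g (Fin.cons t₁ 0) = v₁
    rw [← hTv]
    exact hcd.localInverse_apply_image hT' hne
  · have h1 : ∀ᶠ y in 𝓝 (A5_T P v₁), A5_T P (g y) = y := hstrict.eventually_right_inverse
    filter_upwards [hcont.eventually h1] with t ht
    constructor
    · have := congrFun ht 0
      simpa [A5_T] using this
    · intro i
      have := congrFun ht i.succ
      simpa [A5_T] using this
  · have h1 : ∀ᶠ x in 𝓝 v₁, g (A5_T P x) = x := hstrict.eventually_left_inverse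
    refine ⟨{x | g (A5_T P x) = x}, h1, Filter.Eventually.of_forall fun t v hvt hvO => ?_⟩
    have h2 : A5_T P v = Fin.cons t 0 := by
      unfold A5_T
      rw [hvt.1]
      congr 1
      ext i
      exact hvt.2 i
    show v = g (Fin.cons t 0)
    rw [← h2]
    exact hvO.symm

end AD67
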