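import Pool.Agent.LibAD67.A3
import Pool.Agent.LibAD67.A4
import Pool.Agent.LibAD67.A5

/-!
Row A6: the local structure and the number of solutions. ONLY Mathlib.
-/

open MvPolynomial Filter Topology

namespace AD67

variable {n k : ℕ} {P : Fin n → MvPolynomial (Fin (n + 1)) ℂ}

private theorem A6_closed (P : Fin n → MvPolynomial (Fin (n + 1)) ℂ) :
    IsClosed {z : ℂ × (Fin (n + 1) → ℂ) | z.2 ∈ Sol P z.1} := by
  have h1 : {z : ℂ × (Fin (n + 1) → ℂ) | z.2 ∈ Sol P z.1} =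
      {z : ℂ × (Fin (n + 1) → ℂ) | z.2 0 = z.1} ∩
        ⋂ i, {z : ℂ × (Fin (n + 1) → ℂ) | eval z.2 (P i) = 0} := by
    ext z
    simp only [Sol, Set.mem_ofPred_eq, Set.mem_inter_iff, Set.mem_iInter]
  rw [h1]
  refine IsClosed.inter ?_ (isClosed_iInter fun i => ?_)
  · exact isClosed_eq ((continuous_apply 0).comp continuous_snd) continuous_fst
  · exact isClosed_eq ((MvPolynomial.continuous_eval (P i)).comp continuous_snd) continuous_const

theorem local_struct (hk : 0 < k) (hP : Red k P) {t₁ : ℂ}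
    (hs : ∀ v ∈ Sol P t₁, eval v (Jac P) ≠ 0) :
    ∃ b : (Fin (n + 1) → ℂ) → ℂ → (Fin (n + 1) → ℂ),
      (∀ v ∈ Sol P t₁, AnalyticAt ℂ (b v) t₁ ∧ b v t₁ = v) ∧
      ∀ᶠ t in 𝓝 t₁, Sol P t = (fun v => b v t) '' Sol P t₁ ∧
        Set.InjOn (fun v => b v t) (Sol P t₁) := by
  have hfin := (sol_card hk hP t₁).1
  have hb : ∀ v : Fin (n + 1) → ℂ, ∃ (b : ℂ → (Fin (n + 1) → ℂ)) (O : Set (Fin (n + 1) → ℂ)),
      v ∈ Sol P t₁ → AnalyticAt ℂ b t₁ ∧ b t₁ = v ∧ (∀ᶠ t in 𝓝 t₁, b t ∈ Sol P t) ∧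
        O ∈ 𝓝 v ∧ ∀ᶠ t in 𝓝 t₁, ∀ w ∈ Sol P t, w ∈ O → w = b t := by
    intro v
    by_cases hv : v ∈ Sol P t₁
    · obtain ⟨b, h1, h2, h3, O, h4, h5⟩ := branch hv (hs v hv)
      exact ⟨b, O, fun _ => ⟨h1, h2, h3, h4, h5⟩⟩
    · exact ⟨fun _ => 0, Set.univ, fun h => absurd h hv⟩
  choose b O hbO using hb
  refine ⟨b, fun v hv => ⟨(hbO v hv).1, (hbO v hv).2.1⟩, ?_⟩
  -- all branches are solutions
  have e1 : ∀ᶠ t in 𝓝 t₁, ∀ v ∈ Sol P t₁, b v t ∈ Sol P t :=
    (eventually_all_finite hfin).2 fun v hv => (hbO v hv).2.2.1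
  -- uniqueness near each solution
  have e2 : ∀ᶠ t in 𝓝 t₁, ∀ v ∈ Sol P t₁, ∀ w ∈ Sol P t, w ∈ O v → w = b v t :=
    (eventually_all_finite hfin).2 fun v hv => (hbO v hv).2.2.2.2
  -- the branches are distinct
  have e3 : ∀ᶠ t in 𝓝 t₁, ∀ v ∈ Sol P t₁, ∀ w ∈ Sol P t₁, v ≠ w → b v t ≠ b w t := by
    refine (eventually_all_finite hfin).2 fun v hv => (eventually_all_finite hfin).2 fun w hw => ?_
    by_cases hvw : v = w
    · exact Eventually.of_forall fun t h => absurd hvw h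
    · have h1 : ContinuousAt (b v) t₁ := (hbO v hv).1.continuousAt
      have h2 : ContinuousAt (b w) t₁ := (hbO w hw).1.continuousAt
      have h3 : b v t₁ ≠ b w t₁ := by
        rw [(hbO v hv).2.1, (hbO w hw).2.1]
        exact hvw
      filter_upwards [(h1.sub h2).eventually_ne (sub_ne_zero.2 h3)] with t ht _
      exact sub_ne_zero.1 ht
  -- compactness
  obtain ⟨C, hC⟩ := sol_bdd hk hP
  set R : ℝ := |C| * (2 + ‖t₁‖) with hR
  set K : Set (Fin (n + 1) → ℂ) := Metric.closedBall 0 R \ ⋃ v ∈ Sol P t₁, interior (O v) with hK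
  have hKc : IsCompact K := by
    refine (isCompact_closedBall (0 : Fin (n + 1) → ℂ) R).diff ?_
    exact isOpen_biUnion fun v _ => isOpen_interior
  have e4 : ∀ᶠ t in 𝓝 t₁, ∀ w ∈ K, w ∉ Sol P t := by
    refine hKc.eventually_forall_of_forall_eventually (P := fun t w => w ∉ Sol P t) ?_
    intro w hw
    have h1 : (t₁, w) ∈ {z : ℂ × (Fin (n + 1) → ℂ) | z.2 ∈ Sol P z.1}ᶜ := by
      intro h2
      apply hw.2
      have h3 : w ∈ Sol P t₁ := h2
      exact Set.mem_biUnion h3 (mem_interior_iff_mem_nhds.2 (hbO w h3).2.2.2.1)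
    exact (A6_closed P).isOpen_compl.mem_nhds h1
  have e5 : ∀ᶠ t in 𝓝 t₁, ‖t‖ < ‖t₁‖ + 1 :=
    continuous_norm.continuousAt.eventually_lt continuousAt_const (by simp)
  filter_upwards [e1, e2, e3, e4, e5] with t h1 h2 h3 h4 h5
  constructor
  · ext w
    constructor
    · intro hw
      have hnorm : ‖w‖ ≤ R := by
        refine (hC t w hw).trans ?_
        calc C * (1 + ‖t‖) ≤ |C| * (1 + ‖t‖) :=
              mul_le_mul_of_nonneg_right (le_abs_self C) (by positivity)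
          _ ≤ |C| * (2 + ‖t₁‖) := mul_le_mul_of_nonneg_left (by linarith) (abs_nonneg C)
      have h6 : w ∉ K := fun hwK => h4 w hwK hw
      have h7 : w ∈ ⋃ v ∈ Sol P t₁, interior (O v) := by
        by_contra h8
        exact h6 ⟨by simpa using hnorm, h8⟩
      obtain ⟨v, hv, hwv⟩ := Set.mem_iUnion₂.1 h7
      exact ⟨v, hv, (h2 v hv w hw (interior_subset hwv)).symm⟩
    · rintro ⟨v, hv, rfl⟩
      exact h1 v hv
  · intro v hv w hw hvw
    by_contra hne
    exact h3 v hv w hw hne hvw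

theorem card_const (hk : 0 < k) (hP : Red k P) {t₀ : ℂ} (F : MvPolynomial (Fin (n + 1)) ℂ)
    (h0 : (Sol P t₀).ncard = k ^ n)
    (h1 : ∀ v ∈ Sol P t₀, eval v (Jac P) ≠ 0 ∧ eval v F ≠ 0) :
    ∃ B : Finset ℂ, t₀ ∉ B ∧ ∀ t ∉ B, (Sol P t).ncard = k ^ n ∧
      ∀ v ∈ Sol P t, eval v (Jac P) ≠ 0 ∧ eval v F ≠ 0 := by
  obtain ⟨M, hM⟩ := exists_mat hk hP (Jac P * F)
  have hD0 : M.det.eval t₀ ≠ 0 := by
    rw [det_mat hk hP hM h0]
    refine Finset.prod_ne_zero_iff.2 fun v hv => ?_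
    have hv' : v ∈ Sol P t₀ := (sol_card hk hP t₀).1.mem_toFinset.1 hv
    rw [map_mul]
    exact mul_ne_zero (h1 v hv').1 (h1 v hv').2
  have hD : M.det ≠ 0 := by
    intro h
    rw [h, Polynomial.eval_zero] at hD0
    exact hD0 rfl
  have hB : ∀ t, t ∉ M.det.roots.toFinset → M.det.eval t ≠ 0 := by
    intro t ht h
    apply ht
    rw [Multiset.mem_toFinset, Polynomial.mem_roots hD]
    exact h
  have hgood : ∀ t ∉ M.det.roots.toFinset, ∀ v ∈ Sol P t, eval v (Jac P) ≠ 0 ∧ eval v F ≠ 0 := by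
    intro t ht v hv
    have h2 : eval v (Jac P * F) ≠ 0 := fun h => hB t ht (det_zero hk hM hv h)
    rw [map_mul] at h2
    exact ⟨left_ne_zero_of_mul h2, right_ne_zero_of_mul h2⟩
  have ht0 : t₀ ∉ M.det.roots.toFinset := by
    intro h
    rw [Multiset.mem_toFinset, Polynomial.mem_roots hD] at h
    exact hD0 h
  refine ⟨M.det.roots.toFinset, ht0, fun t ht => ⟨?_, hgood t ht⟩⟩
  have hconn : IsConnected ((M.det.roots.toFinset : Set ℂ)ᶜ) := by
    refine Set.Countable.isConnected_compl_of_one_lt_rank ?_ (Finset.countable_toSet _)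
    rw [Complex.rank_real_complex]
    exact Nat.one_lt_ofNat
  have hcont : ContinuousOn (fun t => (Sol P t).ncard) ((M.det.roots.toFinset : Set ℂ)ᶜ) := by
    intro t₁ ht₁
    have ht₁' : t₁ ∉ M.det.roots.toFinset := by simpa using ht₁
    obtain ⟨b, -, hb⟩ := local_struct hk hP (t₁ := t₁) fun v hv => (hgood t₁ ht₁' v hv).1
    have h2 : (fun t => (Sol P t).ncard) =ᶠ[𝓝 t₁] fun _ => (Sol P t₁).ncard := by
      filter_upwards [hb] with t ht
      rw [ht.1, ht.2.ncard_image]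
    exact (continuousAt_const.congr h2.symm).continuousWithinAt
  have h3 := hconn.isPreconnected.constant hcont (x := t) (y := t₀) (by simpa using ht) (by simpa using ht0)
  exact h3.trans h0

end AD67
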