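import Pool.Agent.LibAD67.A3

/-!
Row A7: the curve passes through the point `s`: the norm estimate. ONLY Mathlib.

PLAN. (a) For c : ℕ let ℓ_c(w) = ∑_{j : Fin (n+1)} c^j w_j. Vandermonde: there is δ > 0 such that for
every w the set of c ∈ {1, ..., D} with |ℓ_c(w)| < δ ‖w‖ has at most n elements (for each
subset of n + 1 values of c the Vandermonde matrix is invertible, so ‖w‖ ≤ C max |ℓ_c(w)|; w = 0:
the set is empty). (b) D = n * k^n + 1: for any at most k^n vectors w there is c with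
|ℓ_c(w)| ≥ δ ‖w‖ for all of them. (c) f_c = ∑_j c^j (X j - C (s j)), M_c from exists_mat:
det M_c(s 0) = 0 (det_zero, f_c(s) = 0), so det M_c = (X - C (s 0)) * R and
|det M_c(t)| ≤ C |t - s 0| for t near s 0; for t ∉ B it is ∏ |ℓ_c(v - s)| (det_mat). Choose c as in (b)
for t: δ^{k^n} ∏ ‖v - s‖ ≤ max_c |det M_c(t)| ≤ C |t - s 0|. t near s 0, t ≠ s 0 is not in the
finite set B.
-/

open MvPolynomial Filter Topology

namespace AD67

private noncomputable def A7_ell {n : ℕ} (c : ℕ) (w : Fin (n + 1) → ℂ) : ℂ :=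
  ∑ j : Fin (n + 1), (c : ℂ) ^ (j : ℕ) * w j

private theorem A7_inv {n : ℕ} (c : Fin (n + 1) → ℕ) (hc : Function.Injective c) :
    ∃ K : ℝ, 0 ≤ K ∧ ∀ w : Fin (n + 1) → ℂ, ∀ ρ : ℝ, 0 ≤ ρ →
      (∀ i, ‖A7_ell (c i) w‖ ≤ ρ) → ‖w‖ ≤ K * ρ := by
  let V : Matrix (Fin (n + 1)) (Fin (n + 1)) ℂ := Matrix.vandermonde fun i => (c i : ℂ)
  have hV : V.det ≠ 0 := Matrix.det_vandermonde_ne_zero_iff.2 (Nat.cast_injective.comp hc)
  refine ⟨∑ i, ∑ j, ‖V⁻¹ i j‖, by positivity, fun w ρ hρ h => ?_⟩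
  refine (pi_norm_le_iff_of_nonneg (by positivity)).2 fun i => ?_
  have h1 : V⁻¹.mulVec (V.mulVec w) = w := by
    rw [Matrix.mulVec_mulVec, Matrix.nonsing_inv_mul _ (isUnit_iff_ne_zero.2 hV),
      Matrix.one_mulVec]
  have h3 : ∀ j, V.mulVec w j = A7_ell (c j) w := fun j => rfl
  rw [← congrFun h1 i, Matrix.mulVec, dotProduct]
  calc ‖∑ j, V⁻¹ i j * V.mulVec w j‖ ≤ ∑ j, ‖V⁻¹ i j‖ * ρ := by
        refine norm_sum_le_of_le _ fun j _ => ?_
        rw [norm_mul, h3]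
        exact mul_le_mul_of_nonneg_left (h j) (norm_nonneg _)
    _ = (∑ j, ‖V⁻¹ i j‖) * ρ := by rw [Finset.sum_mul]
    _ ≤ _ := by
        refine mul_le_mul_of_nonneg_right ?_ hρ
        exact Finset.single_le_sum (f := fun i => ∑ j, ‖V⁻¹ i j‖)
          (fun i _ => Finset.sum_nonneg fun j _ => norm_nonneg _) (Finset.mem_univ i)

private theorem A7_delta (n D : ℕ) : ∃ δ : ℝ, 0 < δ ∧ ∀ w : Fin (n + 1) → ℂ,
    ((Finset.range (D + 1)).filter fun c => ‖A7_ell c w‖ < δ * ‖w‖).card ≤ n := by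
  classical
  choose K hK0 hK using fun c : {c : Fin (n + 1) → Fin (D + 1) // Function.Injective c} =>
    A7_inv (fun i => (c.1 i : ℕ)) (Fin.val_injective.comp c.2)
  have hK' : 0 ≤ ∑ c, K c := Finset.sum_nonneg fun c _ => hK0 c
  refine ⟨1 / (∑ c, K c + 1), by positivity, fun w => ?_⟩
  by_contra hcon
  push Not at hcon
  obtain ⟨S, hS, hSc⟩ := Finset.exists_subset_card_eq (Nat.succ_le_of_lt hcon)
  have he : ∀ i, S.orderEmbOfFin hSc i ∈ S := Finset.orderEmbOfFin_mem S hSc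
  have he1 : ∀ i, S.orderEmbOfFin hSc i < D + 1 := fun i =>
    Finset.mem_range.1 (Finset.mem_filter.1 (hS (he i))).1
  have he2 : ∀ i, ‖A7_ell (S.orderEmbOfFin hSc i) w‖ < 1 / (∑ c, K c + 1) * ‖w‖ := fun i =>
    (Finset.mem_filter.1 (hS (he i))).2
  have hci : Function.Injective fun i => (⟨S.orderEmbOfFin hSc i, he1 i⟩ : Fin (D + 1)) := by
    intro i j hij
    exact (S.orderEmbOfFin hSc).injective (congrArg Fin.val hij)
  have h1 := hK ⟨_, hci⟩ w (1 / (∑ c, K c + 1) * ‖w‖) (by positivity) fun i => (he2 i).le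
  have h2 : K ⟨_, hci⟩ ≤ ∑ c, K c :=
    Finset.single_le_sum (f := K) (fun c _ => hK0 c) (Finset.mem_univ _)
  have h3 : ‖w‖ ≤ (∑ c, K c) * (1 / (∑ c, K c + 1) * ‖w‖) :=
    h1.trans (mul_le_mul_of_nonneg_right h2 (by positivity))
  have h4 : (∑ c, K c) * (1 / (∑ c, K c + 1) * ‖w‖) = ‖w‖ - ‖w‖ / (∑ c, K c + 1) := by
    field_simp
    ring
  have h5 : ‖w‖ / (∑ c, K c + 1) ≤ 0 := by linarith
  have h6 := he2 0
  have h7 := norm_nonneg (A7_ell (S.orderEmbOfFin hSc 0) w)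
  have h8 : 1 / (∑ c, K c + 1) * ‖w‖ = ‖w‖ / (∑ c, K c + 1) := by ring
  rw [h8] at h6
  linarith

private theorem A7_choose (n m : ℕ) : ∃ (D : ℕ) (δ : ℝ), 0 < δ ∧ ∀ W : Finset (Fin (n + 1) → ℂ),
    W.card ≤ m → ∃ c ∈ Finset.range (D + 1), ∀ w ∈ W, δ * ‖w‖ ≤ ‖A7_ell c w‖ := by
  classical
  obtain ⟨δ, hδ, h⟩ := A7_delta n (m * n)
  refine ⟨m * n, δ, hδ, fun W hW => ?_⟩
  by_contra hcon
  push Not at hcon
  have h1 : Finset.range (m * n + 1) ⊆ W.biUnion fun w =>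
      (Finset.range (m * n + 1)).filter fun c => ‖A7_ell c w‖ < δ * ‖w‖ := by
    intro c hc
    obtain ⟨w, hw, hcw⟩ := hcon c hc
    exact Finset.mem_biUnion.2 ⟨w, hw, Finset.mem_filter.2 ⟨hc, hcw⟩⟩
  have h2 := Finset.card_le_card h1
  have h3 := h2.trans (Finset.card_biUnion_le_card_mul W _ n fun w _ => h w)
  rw [Finset.card_range] at h3
  have h4 := Nat.mul_le_mul_right n hW
  omega

private noncomputable def A7_f {n : ℕ} (s : Fin (n + 1) → ℂ) (c : ℕ) :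
    MvPolynomial (Fin (n + 1)) ℂ := ∑ j : Fin (n + 1), C ((c : ℂ) ^ (j : ℕ)) * (X j - C (s j))

private theorem A7_eval {n : ℕ} (s v : Fin (n + 1) → ℂ) (c : ℕ) :
    eval v (A7_f s c) = A7_ell c (v - s) := by
  unfold A7_f A7_ell
  rw [map_sum]
  exact Finset.sum_congr rfl fun j _ => by
    rw [map_mul, eval_C, map_sub, eval_X, eval_C, Pi.sub_apply]

private theorem A7_root (p : Polynomial ℂ) (a : ℂ) (h : p.eval a = 0) :
    ∃ C : ℝ, 0 ≤ C ∧ ∀ᶠ t in 𝓝 a, ‖p.eval t‖ ≤ C * ‖t - a‖ := by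
  obtain ⟨R, hR⟩ := Polynomial.dvd_iff_isRoot.2 h
  refine ⟨‖R.eval a‖ + 1, by positivity, ?_⟩
  have h1 : Tendsto (fun t => ‖R.eval t‖) (𝓝 a) (𝓝 ‖R.eval a‖) :=
    (R.continuous.tendsto a).norm
  filter_upwards [h1.eventually (eventually_lt_nhds (lt_add_one _))] with t ht
  rw [hR, Polynomial.eval_mul, Polynomial.eval_sub, Polynomial.eval_X, Polynomial.eval_C,
    norm_mul, mul_comm]
  exact mul_le_mul_of_nonneg_right ht.le (norm_nonneg _)

theorem near_point {n k : ℕ} {P : Fin n → MvPolynomial (Fin (n + 1)) ℂ} (hk : 0 < k)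
    (hP : Red k P) {B : Finset ℂ} (hB : ∀ t ∉ B, (Sol P t).ncard = k ^ n)
    {s : Fin (n + 1) → ℂ} (hs : s ∈ Sol P (s 0)) :
    ∃ C : ℝ, ∀ᶠ t in 𝓝[≠] (s 0),
      ∏ v ∈ (sol_card hk hP t).1.toFinset, ‖v - s‖ ≤ C * ‖t - s 0‖ := by
  classical
  obtain ⟨D, δ, hδ, hc⟩ := A7_choose n (k ^ n)
  choose M hM using fun c : ℕ => exists_mat hk hP (A7_f s c)
  have hroot : ∀ c, (M c).det.eval (s 0) = 0 := fun c => by
    refine det_zero hk (hM c) hs ?_
    rw [A7_eval, sub_self]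
    simp [A7_ell]
  choose K hK0 hK using fun c : ℕ => A7_root (M c).det (s 0) (hroot c)
  have hev : ∀ᶠ t in 𝓝 (s 0), ∀ c ∈ Finset.range (D + 1),
      ‖(M c).det.eval t‖ ≤ K c * ‖t - s 0‖ :=
    (Filter.eventually_all_finset _).2 fun c _ => hK c
  have hB' : ∀ᶠ t in 𝓝 (s 0), t ∉ B.erase (s 0) := by
    have h1 : IsOpen ((B.erase (s 0) : Set ℂ)ᶜ) := (Finset.finite_toSet _).isClosed.isOpen_compl
    exact h1.mem_nhds (by simp)
  refine ⟨(∑ c ∈ Finset.range (D + 1), K c) / δ ^ (k ^ n), ?_⟩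
  filter_upwards [hev.filter_mono nhdsWithin_le_nhds, hB'.filter_mono nhdsWithin_le_nhds,
    self_mem_nhdsWithin] with t ht1 ht2 ht3
  have htB : t ∉ B := fun h => ht2 (Finset.mem_erase.2 ⟨ht3, h⟩)
  have hcard : (sol_card hk hP t).1.toFinset.card = k ^ n := by
    rw [← Set.ncard_eq_toFinset_card _ (sol_card hk hP t).1]
    exact hB t htB
  obtain ⟨c, hcD, hcw⟩ := hc ((sol_card hk hP t).1.toFinset.image fun v => v - s)
    (Finset.card_image_le.trans hcard.le)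
  have h1 : ∏ v ∈ (sol_card hk hP t).1.toFinset, (δ * ‖v - s‖) ≤ ‖(M c).det.eval t‖ := by
    rw [det_mat hk hP (hM c) (hB t htB), norm_prod]
    refine Finset.prod_le_prod (fun v _ => by positivity) fun v hv => ?_
    rw [A7_eval]
    exact hcw _ (Finset.mem_image.2 ⟨v, hv, rfl⟩)
  rw [Finset.prod_mul_distrib, Finset.prod_const, hcard] at h1
  have h2 := h1.trans (ht1 c hcD)
  have h3 : K c ≤ ∑ c ∈ Finset.range (D + 1), K c :=
    Finset.single_le_sum (f := K) (fun c _ => hK0 c) hcD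
  have h4 := h2.trans (mul_le_mul_of_nonneg_right h3 (norm_nonneg _))
  rw [div_mul_eq_mul_div, le_div_iff₀ (by positivity)]
  linarith

end AD67
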