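import Pool.Agent.LibAD67.ADef

/-!
Row A8: the fibre over `t₀` is the grid, and interpolation. ONLY Mathlib.

PLAN. Over t₀: eval v (PP a t₀ g i) = ∏_j (v i.succ - a i j), so v ∈ Sol iff v = Fin.cons t₀ (fun i =>
a i (α i)) for some α (unique as a i is injective): ncard = card (Fin n → Fin k) = k^n.
Jac at such a point: the matrix of pderiv j.succ (PP i) evaluated at v with v 0 = t₀ is diagonal, with
entries q_i'(v i.succ) = ∏_{j ≠ α i} (a i (α i) - a i j) ≠ 0 (derivative of a product at a zero; the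
term (X 0 - C t₀) * g contributes (v 0 - t₀) * ... = 0, pderiv j.succ of (X 0 - C t₀) is 0);
`Matrix.det_diagonal`, `RingHom.map_det`.
Interpolation: g_i with g_i(s) = - q_i(s) / (s 0 - t₀) for s ∈ S.
-/

open MvPolynomial Filter Topology

namespace AD67

theorem A8_eval_qq {n k : ℕ} (a : Fin n → Fin k → ℂ) (i : Fin n) (v : Fin (n + 1) → ℂ) :
    eval v (qq a i) = ∏ j, (v i.succ - a i j) := by
  rw [qq, map_prod]
  refine Finset.prod_congr rfl fun j _ => ?_
  rw [map_sub, eval_X, eval_C]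

theorem A8_eval_PP {n k : ℕ} (a : Fin n → Fin k → ℂ) (t₀ : ℂ)
    (g : Fin n → MvPolynomial (Fin (n + 1)) ℂ) (i : Fin n) (v : Fin (n + 1) → ℂ) :
    eval v (PP a t₀ g i) = ∏ j, (v i.succ - a i j) + (v 0 - t₀) * eval v (g i) := by
  rw [PP, map_add, A8_eval_qq, map_mul, map_sub, eval_X, eval_C]

theorem A8_pderiv_lin {n : ℕ} {i j : Fin (n + 1)} (h : i ≠ j) (c : ℂ) :
    pderiv j (X i - C c : MvPolynomial (Fin (n + 1)) ℂ) = 0 := by
  rw [map_sub, pderiv_C, sub_zero, pderiv_X_of_ne h]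

theorem A8_pderiv_prod {n : ℕ} {ι : Type} (s : Finset ι)
    (f : ι → MvPolynomial (Fin (n + 1)) ℂ) (j : Fin (n + 1))
    (h : ∀ l ∈ s, pderiv j (f l) = 0) : pderiv j (∏ l ∈ s, f l) = 0 := by
  classical
  induction s using Finset.induction_on with
  | empty => simp
  | insert l s hl ih =>
    rw [Finset.prod_insert hl, pderiv_mul, h l (Finset.mem_insert_self _ _),
      ih fun l hl => h l (Finset.mem_insert_of_mem hl)]
    simp

theorem A8_entry {n k : ℕ} {a : Fin n → Fin k → ℂ} (t₀ : ℂ)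
    (g : Fin n → MvPolynomial (Fin (n + 1)) ℂ) {v : Fin (n + 1) → ℂ} (hv : v 0 = t₀)
    {α : Fin n → Fin k} (hα : ∀ i, v i.succ = a i (α i)) (i j : Fin n) :
    eval v (pderiv j.succ (PP a t₀ g i)) =
      if i = j then ∏ l ∈ Finset.univ.erase (α i), (a i (α i) - a i l) else 0 := by
  have h0 : eval v (pderiv j.succ ((X 0 - C t₀) * g i)) = 0 := by
    rw [pderiv_mul, A8_pderiv_lin (Fin.succ_ne_zero j).symm, zero_mul, zero_add, map_mul, map_sub,
      eval_X, eval_C, hv, sub_self, zero_mul]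
  rw [PP, map_add, map_add, h0, add_zero]
  split_ifs with hij
  · subst hij
    rw [qq, ← Finset.mul_prod_erase Finset.univ _ (Finset.mem_univ (α i)), pderiv_mul, map_add,
      map_mul, map_mul, map_sub, pderiv_X_self, pderiv_C, sub_zero, map_one, one_mul, map_prod,
      map_sub, eval_X, eval_C, hα i, sub_self, zero_mul, add_zero]
    refine Finset.prod_congr rfl fun l _ => ?_
    rw [map_sub, eval_X, eval_C, hα i]
  · rw [qq, A8_pderiv_prod _ _ _ fun l _ => A8_pderiv_lin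
      (fun h => hij (Fin.succ_injective _ h)) _, map_zero]

theorem sol_grid {n k : ℕ} {a : Fin n → Fin k → ℂ} (ha : ∀ i, Function.Injective (a i)) (t₀ : ℂ)
    (g : Fin n → MvPolynomial (Fin (n + 1)) ℂ) :
    Sol (PP a t₀ g) t₀ = Set.range (fun α : Fin n → Fin k => (Fin.cons t₀ (fun i => a i (α i)) :
      Fin (n + 1) → ℂ)) ∧ (Sol (PP a t₀ g) t₀).ncard = k ^ n ∧
      ∀ v ∈ Sol (PP a t₀ g) t₀, eval v (Jac (PP a t₀ g)) ≠ 0 := by
  have h1 : ∀ v : Fin (n + 1) → ℂ, v ∈ Sol (PP a t₀ g) t₀ ↔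
      v 0 = t₀ ∧ ∃ α : Fin n → Fin k, ∀ i, v i.succ = a i (α i) := by
    intro v
    constructor
    · rintro ⟨h0, hv⟩
      refine ⟨h0, ?_⟩
      have h2 : ∀ i, ∃ j, v i.succ = a i j := by
        intro i
        have h3 := hv i
        rw [A8_eval_PP, h0, sub_self, zero_mul, add_zero, Finset.prod_eq_zero_iff] at h3
        obtain ⟨j, -, hj⟩ := h3
        exact ⟨j, sub_eq_zero.1 hj⟩
      choose α hα using h2
      exact ⟨α, hα⟩
    · rintro ⟨h0, α, hα⟩
      refine ⟨h0, fun i => ?_⟩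
      rw [A8_eval_PP, h0, sub_self, zero_mul, add_zero]
      exact Finset.prod_eq_zero (Finset.mem_univ (α i)) (sub_eq_zero.2 (hα i))
  have h2 : Sol (PP a t₀ g) t₀ = Set.range (fun α : Fin n → Fin k =>
      (Fin.cons t₀ (fun i => a i (α i)) : Fin (n + 1) → ℂ)) := by
    ext v
    rw [h1, Set.mem_range]
    constructor
    · rintro ⟨h0, α, hα⟩
      refine ⟨α, ?_⟩
      funext i
      refine Fin.cases ?_ (fun i => ?_) i
      · rw [Fin.cons_zero, h0]
      · rw [Fin.cons_succ, hα i]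
    · rintro ⟨α, rfl⟩
      exact ⟨Fin.cons_zero _ _, α, fun i => Fin.cons_succ _ _ _⟩
  refine ⟨h2, ?_, ?_⟩
  · rw [h2, ← Set.image_univ, Set.ncard_image_of_injective, Set.ncard_univ,
      Nat.card_eq_fintype_card]
    · simp
    · intro α β hαβ
      funext i
      have h3 := congrFun hαβ i.succ
      simp only [Fin.cons_succ] at h3
      exact ha i h3
  · intro v hv
    obtain ⟨h0, α, hα⟩ := (h1 v).1 hv
    rw [Jac, RingHom.map_det]
    have h3 : (RingHom.mapMatrix (eval v))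
        (Matrix.of fun i j : Fin n => pderiv j.succ (PP a t₀ g i)) =
        Matrix.diagonal fun i => ∏ l ∈ Finset.univ.erase (α i), (a i (α i) - a i l) := by
      ext i j
      rw [RingHom.mapMatrix_apply, Matrix.map_apply, Matrix.of_apply, A8_entry t₀ g h0 hα,
        Matrix.diagonal_apply]
    rw [h3, Matrix.det_diagonal]
    refine Finset.prod_ne_zero_iff.2 fun i _ => Finset.prod_ne_zero_iff.2 fun l hl => ?_
    rw [sub_ne_zero]
    exact fun h => (Finset.ne_of_mem_erase hl) (ha i h).symm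

theorem interp {n k : ℕ} (a : Fin n → Fin k → ℂ) {t₀ : ℂ} {S : Finset (Fin (n + 1) → ℂ)}
    (hS : ∀ f : (Fin (n + 1) → ℂ) → ℂ, ∃ g : MvPolynomial (Fin (n + 1)) ℂ, g.totalDegree < k ∧
      ∀ s ∈ S, eval s g = f s) (ht : ∀ s ∈ S, s 0 ≠ t₀) :
    ∃ g : Fin n → MvPolynomial (Fin (n + 1)) ℂ, (∀ i, (g i).totalDegree < k) ∧
      ∀ s ∈ S, s ∈ Sol (PP a t₀ g) (s 0) := by
  choose G hG1 hG2 using hS
  refine ⟨fun i => G fun s => -(∏ j, (s i.succ - a i j)) / (s 0 - t₀), fun i => hG1 _,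
    fun s hs => ⟨rfl, fun i => ?_⟩⟩
  rw [A8_eval_PP, hG2 _ s hs, mul_div_cancel₀ _ (sub_ne_zero.2 (ht s hs)), add_neg_cancel]

end AD67
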