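import Pool.Agent.LibAD67.ADef

/-!
Row A9: choice of the grid in a residual set; nonvanishing of a polynomial is generic. ONLY Mathlib.

PLAN. (1) The zero set of a nonzero polynomial on ℂ^d is closed with empty interior: if it contains
a ball, the polynomial vanishes on an infinite grid (`MvPolynomial.funext_set`-type lemma, or: an
analytic function zero near a point is zero: `AnalyticOnNhd.eqOn_zero_of_preconnected_of_eventuallyEq_zero`,
then `MvPolynomial.funext`). Its complement is open and dense: in `residual`.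
(2) Y = ℂ × (Fin n → Fin k → ℂ), complete metric, nonempty, Baire. For α the map
φ_α (t, a) = Fin.cons t (fun i => a i (α i)) is linear, continuous, surjective, open
(`LinearMap.isOpenMap...` finite dimensional), and the preimage of a residual set under a
continuous open map is residual (Mathlib: `IsMeagre.preimage_of_isOpenMap`, `residual` / comap lemmas;
otherwise: preimages of open dense sets are open dense, `mem_residual_iff`). The
sets {t ≠ τ} for τ ∈ T and {a i j ≠ a i j'} (j ≠ j') are open and dense. The finite intersection is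
residual, hence dense, hence nonempty.
-/

open MvPolynomial Filter Topology

namespace AD67

theorem A9_inf (c : ℂ) {ε : ℝ} (hε : 0 < ε) : (Metric.ball c ε).Infinite :=
  infinite_of_mem_nhds c (Metric.ball_mem_nhds c hε)

theorem ne_residual {d : ℕ} {F : MvPolynomial (Fin d) ℂ} (hF : F ≠ 0) :
    ∀ᶠ v in residual (Fin d → ℂ), eval v F ≠ 0 := by
  have hc : Continuous fun v : Fin d → ℂ => eval v F := MvPolynomial.continuous_eval F
  have ho : IsOpen {v : Fin d → ℂ | eval v F ≠ 0} := isOpen_ne_fun hc continuous_const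
  have hd : Dense {v : Fin d → ℂ | eval v F ≠ 0} := by
    rw [dense_iff_inter_open]
    rintro U hU ⟨x, hx⟩
    by_contra hne
    apply hF
    obtain ⟨ε, hε, hb⟩ := Metric.isOpen_iff.1 hU x hx
    refine funext_set (fun i => Metric.ball (x i) ε) (fun i => A9_inf _ hε) fun y hy => ?_
    rw [map_zero]
    by_contra h0
    apply hne
    refine ⟨y, hb ?_, h0⟩
    rw [Metric.mem_ball, dist_pi_lt_iff hε]
    exact fun i => hy i (Set.mem_univ i)
  exact residual_of_dense_open ho hd

theorem A9_compl (c : ℂ) : {c}ᶜ ∈ residual ℂ :=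
  residual_of_dense_open isOpen_compl_singleton (dense_compl_singleton c)

/-- the difference of two entries -/
noncomputable def A9_d (n k : ℕ) (i : Fin n) (j j' : Fin k) :
    (ℂ × (Fin n → Fin k → ℂ)) →ₗ[ℂ] ℂ where
  toFun y := y.2 i j - y.2 i j'
  map_add' x y := by
    simp only [Prod.snd_add, Pi.add_apply]
    ring
  map_smul' c x := by
    simp only [Prod.smul_snd, Pi.smul_apply, smul_eq_mul, RingHom.id_apply]
    ring

/-- the point of the grid -/
noncomputable def A9_p (n k : ℕ) (α : Fin n → Fin k) :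
    (ℂ × (Fin n → Fin k → ℂ)) →ₗ[ℂ] (Fin (n + 1) → ℂ) where
  toFun y := Fin.cons y.1 (fun i => y.2 i (α i))
  map_add' x y := by
    funext i
    refine Fin.cases ?_ (fun j => ?_) i
    · simp
    · simp
  map_smul' c x := by
    funext i
    refine Fin.cases ?_ (fun j => ?_) i
    · simp
    · simp

theorem A9_d_open {n k : ℕ} (i : Fin n) {j j' : Fin k} (h : j ≠ j') :
    ∀ᶠ y in residual (ℂ × (Fin n → Fin k → ℂ)), y.2 i j ≠ y.2 i j' := by
  have hs : Function.Surjective (A9_d n k i j j') := by
    intro c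
    refine ⟨(0, fun _ l => if l = j then c else 0), ?_⟩
    show (if j = j then c else 0) - (if j' = j then c else 0) = c
    rw [if_pos rfl, if_neg (Ne.symm h), sub_zero]
  have h1 := tendsto_residual_of_isOpenMap (A9_d n k i j j').continuous_of_finiteDimensional
    ((A9_d n k i j j').isOpenMap_of_finiteDimensional hs)
  have h2 := h1 (A9_compl 0)
  filter_upwards [h2] with y hy
  intro h3
  apply hy
  show y.2 i j - y.2 i j' = 0
  rw [h3, sub_self]

theorem A9_p_open {n k : ℕ} {E : Set (Fin (n + 1) → ℂ)} (hE : E ∈ residual (Fin (n + 1) → ℂ))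
    (α : Fin n → Fin k) :
    ∀ᶠ y in residual (ℂ × (Fin n → Fin k → ℂ)),
      (Fin.cons y.1 (fun i => y.2 i (α i)) : Fin (n + 1) → ℂ) ∈ E := by
  have hs : Function.Surjective (A9_p n k α) := by
    intro v
    refine ⟨(v 0, fun i _ => v i.succ), ?_⟩
    show (Fin.cons (v 0) (fun i => v i.succ) : Fin (n + 1) → ℂ) = v
    funext i
    refine Fin.cases ?_ (fun j => ?_) i
    · simp
    · simp
  have h1 := tendsto_residual_of_isOpenMap (A9_p n k α).continuous_of_finiteDimensional
    ((A9_p n k α).isOpenMap_of_finiteDimensional hs)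
  exact h1 hE

theorem exists_grid {n k : ℕ} {E : Set (Fin (n + 1) → ℂ)} (hE : E ∈ residual (Fin (n + 1) → ℂ))
    (T : Finset ℂ) :
    ∃ (t₀ : ℂ) (a : Fin n → Fin k → ℂ), t₀ ∉ T ∧ (∀ i, Function.Injective (a i)) ∧
      ∀ α : Fin n → Fin k, (Fin.cons t₀ (fun i => a i (α i)) : Fin (n + 1) → ℂ) ∈ E := by
  have h1 : ∀ᶠ y in residual (ℂ × (Fin n → Fin k → ℂ)), ∀ τ ∈ T, y.1 ≠ τ := by
    refine (Filter.eventually_all_finset T).2 fun τ _ => ?_
    exact tendsto_residual_of_isOpenMap continuous_fst isOpenMap_fst (A9_compl τ)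
  have h2 : ∀ᶠ y in residual (ℂ × (Fin n → Fin k → ℂ)),
      ∀ i, ∀ p : {p : Fin k × Fin k // p.1 ≠ p.2}, y.2 i p.1.1 ≠ y.2 i p.1.2 := by
    refine Filter.eventually_all.2 fun i => Filter.eventually_all.2 fun p => ?_
    exact A9_d_open i p.2
  have h3 : ∀ᶠ y in residual (ℂ × (Fin n → Fin k → ℂ)),
      ∀ α : Fin n → Fin k, (Fin.cons y.1 (fun i => y.2 i (α i)) : Fin (n + 1) → ℂ) ∈ E :=
    Filter.eventually_all.2 fun α => A9_p_open hE α
  have h4 := (h1.and h2).and h3
  obtain ⟨y, ⟨hy1, hy2⟩, hy3⟩ := (dense_of_mem_residual h4).nonempty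
  refine ⟨y.1, y.2, fun h => hy1 _ h rfl, fun i j j' h => ?_, hy3⟩
  by_contra hne
  exact hy2 i ⟨(j, j'), hne⟩ h

end AD67
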