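import Pool.Agent.LibAD67.Defs
import Pool.Agent.LibAD67.A1
import Pool.Agent.LibAD67.A6
import Pool.Agent.LibAD67.A7
import Pool.Agent.LibAD67.A8
import Pool.Agent.LibAD67.A9
import Pool.Agent.LibAD67.A10

/-!
Row A12: existence of the curve.

PLAN. L from A10 (`exists_lin` for S). S' = S.image L, F' with F'(L v) = F(v) (`exists_subst`, F' ≠ 0
not needed if F ≠ 0 is used through E), E' = L '' (E ∩ {F ≠ 0}) residual (L is a homeomorphism:
`LinearEquiv.toContinuousLinearEquiv`; preimage under L.symm of a residual set, open continuous map).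
Interpolation for S' in degree < k: transport by `exists_subst` for L and L.symm.
T = {s' 0 : s' ∈ S'}; t₀, a from `exists_grid` for E', T; g from `interp`; P = PP a t₀ g; Red (A1);
sol_grid; card_const with F' (h1: Jac ≠ 0 from sol_grid, F' ≠ 0 as the grid lies in E').
ACurve: τ v = L v 0 (linear), sol t = image under L.symm of (sol_card ..).toFinset,
B as in card_const, br t v = L.symm ∘ (b of `local_struct` at t, index L v) (chosen by
`Classical.choose` / `choose` for t ∉ B; for t ∈ B arbitrary), bd from A4, near from A7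
(‖L v - L s‖ and ‖v - s‖ are comparable: ‖v - s‖ ≤ c ‖L v - L s‖; the product over the image:
`Finset.prod_image`), base: t₀, the points L.symm of the grid are in E. inj from exists_lin.
-/

open MvPolynomial Filter Topology

namespace AD67

/-- The points of the curve. -/
theorem A12_build {n k : ℕ} (hk : 0 < k) {F : MvPolynomial (Fin (n + 1)) ℂ}
    {S : Finset (Fin (n + 1) → ℂ)} {E : Set (Fin (n + 1) → ℂ)}
    (L : (Fin (n + 1) → ℂ) ≃L[ℂ] (Fin (n + 1) → ℂ)) (hL : Set.InjOn (fun v => L v 0) S)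
    {F' : MvPolynomial (Fin (n + 1)) ℂ} (hF' : ∀ v, eval (L v) F' = eval v F)
    {P : Fin n → MvPolynomial (Fin (n + 1)) ℂ} (hP : Red k P) {t₀ : ℂ} {B : Finset ℂ}
    (ht₀ : t₀ ∉ B) (hB : ∀ t ∉ B, (Sol P t).ncard = k ^ n ∧
      ∀ v ∈ Sol P t, eval v (Jac P) ≠ 0 ∧ eval v F' ≠ 0)
    (hE : ∀ v ∈ Sol P t₀, L.symm v ∈ E)
    (hs : ∀ s ∈ S, L s ∈ Sol P (L s 0)) : Nonempty (ACurve (k ^ n) F S E) := by
  have hfin : ∀ t, (Sol P t).Finite := fun t => (sol_card hk hP t).1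
  have hb : ∀ t, ∃ b : (Fin (n + 1) → ℂ) → ℂ → (Fin (n + 1) → ℂ), t ∉ B →
      ((∀ v ∈ Sol P t, AnalyticAt ℂ (b v) t ∧ b v t = v) ∧
      ∀ᶠ t' in 𝓝 t, Sol P t' = (fun v => b v t') '' Sol P t ∧
        Set.InjOn (fun v => b v t') (Sol P t)) := by
    intro t
    by_cases ht : t ∈ B
    · exact ⟨fun _ _ => 0, fun h => absurd ht h⟩
    · obtain ⟨b, h1, h2⟩ := local_struct hk hP (fun v hv => ((hB t ht).2 v hv).1)
      exact ⟨b, fun _ => ⟨h1, h2⟩⟩
  choose b hb using hb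
  obtain ⟨sol, hsol⟩ : ∃ sol : ℂ → Finset (Fin (n + 1) → ℂ),
      sol = fun t => ((hfin t).toFinset).image L.symm := ⟨_, rfl⟩
  have hmem : ∀ t v, v ∈ sol t ↔ L v ∈ Sol P t := by
    intro t v
    rw [hsol]
    constructor
    · intro h
      obtain ⟨w, hw, rfl⟩ := Finset.mem_image.1 h
      rw [L.apply_symm_apply]
      exact (hfin t).mem_toFinset.1 hw
    · intro h
      exact Finset.mem_image.2 ⟨L v, (hfin t).mem_toFinset.2 h, L.symm_apply_apply v⟩
  have hcard : ∀ t, (sol t).card = (Sol P t).ncard := by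
    intro t
    rw [hsol]
    change (((hfin t).toFinset).image L.symm).card = _
    rw [Finset.card_image_of_injective _ L.symm.injective, Set.ncard_eq_toFinset_card _ (hfin t)]
  refine ⟨{
    τ := (LinearMap.proj 0).comp (L : (Fin (n + 1) → ℂ) →ₗ[ℂ] (Fin (n + 1) → ℂ))
    sol := sol
    B := B
    br := fun t v t' => L.symm (b t (L v) t')
    mem := fun t v hv => ((hmem t v).1 hv).1
    card := fun t ht => by rw [hcard, (hB t ht).1]
    ne := fun t ht v hv => by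
      rw [← hF' v]
      exact ((hB t ht).2 _ ((hmem t v).1 hv)).2
    bd := ?_
    an := ?_
    start := ?_
    loc := ?_
    base := ⟨t₀, ht₀, fun v hv => by
      have h := hE _ ((hmem t₀ v).1 hv)
      rw [L.symm_apply_apply] at h
      exact h⟩
    inj := hL
    near := ?_ }⟩
  · obtain ⟨C, hC⟩ := sol_bdd hk hP
    refine ⟨‖(L.symm : (Fin (n + 1) → ℂ) →L[ℂ] (Fin (n + 1) → ℂ))‖ * C, fun t v hv => ?_⟩
    have h1 := hC t _ ((hmem t v).1 hv)
    have h2 := (L.symm : (Fin (n + 1) → ℂ) →L[ℂ] (Fin (n + 1) → ℂ)).le_opNorm (L v)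
    have h3 : (L.symm : (Fin (n + 1) → ℂ) →L[ℂ] (Fin (n + 1) → ℂ)) (L v) = v :=
      L.symm_apply_apply v
    rw [h3] at h2
    calc ‖v‖ ≤ _ := h2
      _ ≤ ‖(L.symm : (Fin (n + 1) → ℂ) →L[ℂ] (Fin (n + 1) → ℂ))‖ * (C * (1 + ‖t‖)) :=
        mul_le_mul_of_nonneg_left h1 (norm_nonneg _)
      _ = _ := by ring
  · intro t ht v hv
    have h1 := ((hb t ht).1 _ ((hmem t v).1 hv)).1
    exact ((L.symm : (Fin (n + 1) → ℂ) →L[ℂ] (Fin (n + 1) → ℂ)).analyticAt _).comp h1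
  · intro t ht v hv
    rw [((hb t ht).1 _ ((hmem t v).1 hv)).2, L.symm_apply_apply]
  · intro t ht
    filter_upwards [(hb t ht).2] with t' ht'
    ext v
    rw [hmem, ht'.1, Finset.mem_image, Set.mem_image]
    constructor
    · rintro ⟨w, hw, hwv⟩
      refine ⟨L.symm w, (hmem t _).2 (by rw [L.apply_symm_apply]; exact hw), ?_⟩
      rw [L.apply_symm_apply, hwv, L.symm_apply_apply]
    · rintro ⟨w, hw, hwv⟩
      refine ⟨L w, (hmem t w).1 hw, ?_⟩
      rw [← hwv, L.apply_symm_apply]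
  · intro s hsS
    obtain ⟨C, hC⟩ := near_point hk hP (fun t ht => (hB t ht).1) (hs s hsS)
    obtain ⟨c, hc1, hc2⟩ : ∃ c : ℝ, 1 ≤ c ∧ ∀ w, ‖L.symm w‖ ≤ c * ‖w‖ := by
      refine ⟨max 1 ‖(L.symm : (Fin (n + 1) → ℂ) →L[ℂ] (Fin (n + 1) → ℂ))‖, le_max_left _ _,
        fun w => ?_⟩
      exact ((L.symm : (Fin (n + 1) → ℂ) →L[ℂ] (Fin (n + 1) → ℂ)).le_opNorm w).trans
        (mul_le_mul_of_nonneg_right (le_max_right _ _) (norm_nonneg _))
    refine ⟨c ^ (k ^ n) * C, ?_⟩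
    change ∀ᶠ t in 𝓝[≠] (L s 0), ∏ v ∈ sol t, ‖v - s‖ ≤ c ^ (k ^ n) * C * ‖t - L s 0‖
    filter_upwards [hC] with t ht
    have h0 : (0 : ℝ) ≤ ∏ v ∈ (sol_card hk hP t).1.toFinset, ‖v - L s‖ :=
      Finset.prod_nonneg fun _ _ => norm_nonneg _
    have h1 : ∏ v ∈ sol t, ‖v - s‖ = ∏ w ∈ (hfin t).toFinset, ‖L.symm w - s‖ := by
      rw [hsol]
      exact Finset.prod_image fun x _ y _ h => L.symm.injective h
    have h2 : ∏ w ∈ (hfin t).toFinset, ‖L.symm w - s‖ ≤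
        ∏ w ∈ (hfin t).toFinset, (c * ‖w - L s‖) := by
      refine Finset.prod_le_prod (fun _ _ => norm_nonneg _) fun w _ => ?_
      have h3 : L.symm w - s = L.symm (w - L s) := by
        rw [map_sub, L.symm_apply_apply]
      rw [h3]
      exact hc2 _
    have h4 : (hfin t).toFinset.card ≤ k ^ n := by
      rw [← Set.ncard_eq_toFinset_card _ (hfin t)]
      exact (sol_card hk hP t).2
    rw [Finset.prod_mul_distrib, Finset.prod_const] at h2
    rw [h1]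
    calc _ ≤ _ := h2
      _ ≤ c ^ (k ^ n) * ∏ w ∈ (hfin t).toFinset, ‖w - L s‖ :=
        mul_le_mul_of_nonneg_right (pow_le_pow_right₀ hc1 h4) h0
      _ ≤ c ^ (k ^ n) * (C * ‖t - L s 0‖) :=
        mul_le_mul_of_nonneg_left ht (pow_nonneg (by linarith) _)
      _ = _ := by ring

theorem exists_curve {n k : ℕ} (hk : 0 < k) {F : MvPolynomial (Fin (n + 1)) ℂ} (hF : F ≠ 0)
    {S : Finset (Fin (n + 1) → ℂ)}
    (hS : ∀ f : (Fin (n + 1) → ℂ) → ℂ, ∃ g : MvPolynomial (Fin (n + 1)) ℂ, g.totalDegree < k ∧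
      ∀ s ∈ S, eval s g = f s)
    {E : Set (Fin (n + 1) → ℂ)} (hE : E ∈ residual (Fin (n + 1) → ℂ)) :
    Nonempty (ACurve (k ^ n) F S E) := by
  obtain ⟨L, hL⟩ := exists_lin S
  obtain ⟨F', hF', -⟩ := exists_subst L F
  obtain ⟨Lc, hLc⟩ : ∃ Lc : (Fin (n + 1) → ℂ) ≃L[ℂ] (Fin (n + 1) → ℂ), ∀ v, Lc v = L v :=
    ⟨L.toContinuousLinearEquiv, fun _ => rfl⟩
  have hE₀ : {v | v ∈ E ∧ eval v F ≠ 0} ∈ residual (Fin (n + 1) → ℂ) := by
    filter_upwards [hE, ne_residual hF] with v h1 h2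
    exact ⟨h1, h2⟩
  have hE' : {v | Lc.symm v ∈ E ∧ eval (Lc.symm v) F ≠ 0} ∈ residual (Fin (n + 1) → ℂ) := by
    rw [← Lc.toHomeomorph.residual_map_eq, Filter.mem_map]
    filter_upwards [hE₀] with v hv
    have h1 : Lc.symm (Lc.toHomeomorph v) = v := Lc.symm_apply_apply v
    change Lc.symm (Lc.toHomeomorph v) ∈ E ∧ eval (Lc.symm (Lc.toHomeomorph v)) F ≠ 0
    rw [h1]
    exact hv
  have hS' : ∀ f : (Fin (n + 1) → ℂ) → ℂ, ∃ g : MvPolynomial (Fin (n + 1)) ℂ,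
      g.totalDegree < k ∧ ∀ s ∈ S.image L, eval s g = f s := by
    intro f
    obtain ⟨g₀, hg₀, hg₁⟩ := hS (fun v => f (L v))
    obtain ⟨g, hg, hdeg⟩ := exists_subst L g₀
    refine ⟨g, lt_of_le_of_lt hdeg hg₀, fun s hs => ?_⟩
    obtain ⟨v, hv, rfl⟩ := Finset.mem_image.1 hs
    rw [hg, hg₁ v hv]
  obtain ⟨t₀, a, ht₀, ha, hgrid⟩ := exists_grid (k := k) hE' ((S.image L).image fun s => s 0)
  obtain ⟨g, hg, hgs⟩ := interp a hS' (t₀ := t₀) (fun s hs h => ht₀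
    (Finset.mem_image.2 ⟨s, hs, h⟩))
  have hP := PP_red hk a t₀ hg
  obtain ⟨h1, h2, h3⟩ := sol_grid ha t₀ g
  have h4 : ∀ v ∈ Sol (PP a t₀ g) t₀, Lc.symm v ∈ E ∧ eval (Lc.symm v) F ≠ 0 := by
    intro v hv
    rw [h1] at hv
    obtain ⟨α, rfl⟩ := hv
    exact hgrid α
  have hF'' : ∀ v, eval (Lc v) F' = eval v F := fun v => by rw [hLc, hF']
  obtain ⟨B, hB₀, hB⟩ := card_const hk hP F' h2 (fun v hv => ⟨h3 v hv, by
    have h5 := hF'' (Lc.symm v)
    rw [Lc.apply_symm_apply] at h5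
    rw [h5]
    exact (h4 v hv).2⟩)
  refine A12_build hk Lc ?_ hF'' hP hB₀ hB (fun v hv => (h4 v hv).1) ?_
  · intro x hx y hy hxy
    refine hL hx hy ?_
    simpa only [hLc] using hxy
  · intro s hs
    rw [hLc]
    exact hgs _ (Finset.mem_image_of_mem _ hs)

end AD67
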