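import Pool.Agent.LibAD67.ADef

/-!
Row A2: reduction to the reduced monomials. ONLY Mathlib.

PLAN. Call f good if the conclusion holds. Good is stable under sums, multiplication by constants
and by `X 0` (multiply the `c α` by `Polynomial.X`). By linearity (`MvPolynomial.induction_on'` or
f = ∑ of its monomials) it is enough to treat monomials z^m, by strong induction on
N = ∑ j : Fin n, m j.succ. If all m j.succ < k: it is t^{m 0} * mon v α. Otherwise some
m i.succ ≥ k: on `Sol`, v_i^k = - eval v r (r from `Red`), so z^m = - z^{m - k e_i} * r, a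
combination of monomials m - k e_i + m', m' ∈ r.support, whose z-degree is N - k + (< k) < N.
Then the matrix: apply this to f * ∏ X j.succ ^ α j for every α and collect the coefficients.
-/

open MvPolynomial Filter Topology

namespace AD67

/-- the conclusion of `reduce` -/
def A2_Good {n k : ℕ} (P : Fin n → MvPolynomial (Fin (n + 1)) ℂ)
    (f : MvPolynomial (Fin (n + 1)) ℂ) : Prop :=
  ∃ c : (Fin n → Fin k) → Polynomial ℂ, ∀ t, ∀ v ∈ Sol P t,
    eval v f = ∑ α, (c α).eval t * mon v α

theorem A2_sum {n k : ℕ} {P : Fin n → MvPolynomial (Fin (n + 1)) ℂ}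
    (f : MvPolynomial (Fin (n + 1)) ℂ) {J : Type} (S : Finset J) (a : J → ℂ)
    (g : J → MvPolynomial (Fin (n + 1)) ℂ)
    (h : ∀ t, ∀ v ∈ Sol P t, eval v f = ∑ s ∈ S, a s * eval v (g s))
    (hg : ∀ s ∈ S, A2_Good (k := k) P (g s)) : A2_Good (k := k) P f := by
  classical
  have hex : ∀ s : J, ∃ c : (Fin n → Fin k) → Polynomial ℂ, s ∈ S → ∀ t, ∀ v ∈ Sol P t,
      eval v (g s) = ∑ α, (c α).eval t * mon v α := by
    intro s
    by_cases hs : s ∈ S
    · obtain ⟨c, hc⟩ := hg s hs
      exact ⟨c, fun _ => hc⟩
    · exact ⟨0, fun h' => absurd h' hs⟩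
  choose c hc using hex
  refine ⟨fun α => ∑ s ∈ S, Polynomial.C (a s) * c s α, fun t v hv => ?_⟩
  rw [h t v hv]
  have h1 : ∀ s ∈ S, a s * eval v (g s) = ∑ α, a s * ((c s α).eval t * mon v α) := by
    intro s hs
    rw [hc s hs t v hv, Finset.mul_sum]
  rw [Finset.sum_congr rfl h1, Finset.sum_comm]
  refine Finset.sum_congr rfl fun α _ => ?_
  rw [Polynomial.eval_finsetSum, Finset.sum_mul]
  refine Finset.sum_congr rfl fun s _ => ?_
  rw [Polynomial.eval_mul, Polynomial.eval_C, mul_assoc]

theorem A2_mono {n k : ℕ} (hk : 0 < k) {P : Fin n → MvPolynomial (Fin (n + 1)) ℂ}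
    (hP : Red k P) : ∀ (N : ℕ) (m : Fin (n + 1) →₀ ℕ), ∑ j : Fin n, m j.succ = N →
      A2_Good (k := k) P (monomial m (1 : ℂ)) := by
  classical
  intro N
  induction N using Nat.strong_induction_on with
  | _ N ih =>
    intro m hm
    by_cases hall : ∀ j : Fin n, m j.succ < k
    · refine ⟨fun α => if α = (fun j => ⟨m j.succ, hall j⟩) then Polynomial.X ^ m 0 else 0,
        fun t v hv => ?_⟩
      rw [Finset.sum_eq_single (fun j => (⟨m j.succ, hall j⟩ : Fin k))]
      · beta_reduce
        rw [if_pos rfl, Polynomial.eval_pow, Polynomial.eval_X, eval_monomial, one_mul,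
          Finsupp.prod_fintype _ _ (fun i => pow_zero _), Fin.prod_univ_succ, hv.1]
        rfl
      · intro α _ hα
        beta_reduce
        rw [if_neg hα, Polynomial.eval_zero, zero_mul]
      · intro h
        exact absurd (Finset.mem_univ _) h
    · push Not at hall
      obtain ⟨i, hi⟩ := hall
      obtain ⟨r, hr, hrs, -⟩ := hP i
      set m' : Fin (n + 1) →₀ ℕ := m - Finsupp.single i.succ k with hm'
      have hmm : m' + Finsupp.single i.succ k = m := by
        rw [hm']
        refine tsub_add_cancel_of_le ?_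
        rw [Finsupp.single_le_iff]
        exact hi
      have hdeg : ∑ j : Fin n, m' j.succ + k = N := by
        rw [← hm, ← hmm]
        simp only [Finsupp.add_apply, Finset.sum_add_distrib]
        congr 1
        rw [Finset.sum_eq_single i]
        · rw [Finsupp.single_eq_same]
        · intro j _ hj
          rw [Finsupp.single_eq_of_ne]
          intro h
          exact hj (Fin.succ_injective _ h)
        · intro h
          exact absurd (Finset.mem_univ _) h
      refine A2_sum _ r.support (fun s => -coeff s r) (fun s => monomial (m' + s) (1 : ℂ)) ?_ ?_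
      · intro t v hv
        have h1 : eval v (X i.succ ^ k) = - eval v r := by
          have h2 := hv.2 i
          rw [hr, map_add] at h2
          exact eq_neg_of_add_eq_zero_left h2
        have h3 : (monomial m (1 : ℂ) : MvPolynomial (Fin (n + 1)) ℂ) =
            monomial m' (1 : ℂ) * X i.succ ^ k := by
          rw [X_pow_eq_monomial, monomial_mul, hmm, one_mul]
        have h4 : eval v r = ∑ s ∈ r.support, coeff s r * eval v (monomial s (1 : ℂ)) := by
          conv_lhs => rw [r.as_sum, map_sum]
          refine Finset.sum_congr rfl fun s _ => ?_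
          rw [eval_monomial, eval_monomial, one_mul]
        rw [h3, map_mul, h1, h4, mul_neg, Finset.mul_sum, ← Finset.sum_neg_distrib]
        refine Finset.sum_congr rfl fun s _ => ?_
        have h5 : (monomial (m' + s) (1 : ℂ) : MvPolynomial (Fin (n + 1)) ℂ) =
            monomial m' (1 : ℂ) * monomial s (1 : ℂ) := by
          rw [monomial_mul, one_mul]
        rw [h5, map_mul]
        ring
      · intro s hs
        have h1 := hrs s hs
        refine ih (∑ j : Fin n, (m' + s) j.succ) ?_ (m' + s) rfl
        simp only [Finsupp.add_apply, Finset.sum_add_distrib]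
        omega

theorem reduce {n k : ℕ} (hk : 0 < k) {P : Fin n → MvPolynomial (Fin (n + 1)) ℂ} (hP : Red k P)
    (f : MvPolynomial (Fin (n + 1)) ℂ) :
    ∃ c : (Fin n → Fin k) → Polynomial ℂ, ∀ t, ∀ v ∈ Sol P t,
      eval v f = ∑ α, (c α).eval t * mon v α := by
  refine A2_sum f f.support (fun s => coeff s f) (fun s => monomial s (1 : ℂ)) ?_
    (fun s _ => A2_mono hk hP _ s rfl)
  intro t v _
  conv_lhs => rw [f.as_sum, map_sum]
  refine Finset.sum_congr rfl fun s _ => ?_
  rw [eval_monomial, eval_monomial, one_mul]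

theorem exists_mat {n k : ℕ} (hk : 0 < k) {P : Fin n → MvPolynomial (Fin (n + 1)) ℂ}
    (hP : Red k P) (f : MvPolynomial (Fin (n + 1)) ℂ) :
    ∃ M : Matrix (Fin n → Fin k) (Fin n → Fin k) (Polynomial ℂ), IsMat P f M := by
  choose c hc using fun α : Fin n → Fin k =>
    reduce hk hP (f * ∏ j : Fin n, X j.succ ^ (α j : ℕ))
  refine ⟨Matrix.of c, fun t v hv α => ?_⟩
  have h1 := hc α t v hv
  rw [map_mul, map_prod] at h1
  have h2 : ∏ j : Fin n, eval v (X j.succ ^ (α j : ℕ) : MvPolynomial (Fin (n + 1)) ℂ) = mon v α := by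
    rw [mon]
    refine Finset.prod_congr rfl fun j _ => ?_
    rw [map_pow, eval_X]
  rw [h2] at h1
  exact h1

end AD67
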