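import Pool.Agent.LibAD67.A2

/-!
Row A3: the number of solutions and the determinant. ONLY Mathlib.

PLAN. (1) For distinct solutions over t the vectors `mon v · : (Fin n → Fin k) → ℂ` are linearly
independent: for a finite set V of points and v ∈ V there is a polynomial f with f(v) = 1, f = 0 on
V minus v (product of linear forms X i - C (w i), i a coordinate where v and w differ, divided by
its value); by `reduce` eval w f = ∑ c_α(t) mon w α for w ∈ V: the linear functional
x ↦ ∑ c_α(t) x α is 1 on mon v and 0 on the others. So any finite subset of Sol P t has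
at most card (Fin n → Fin k) = k^n elements, hence Sol P t is finite and ncard ≤ k^n.
(2) If ncard = k^n: V = the square matrix with columns mon v (reindex by an equivalence of
Sol P t with Fin n → Fin k): M(t) * V = V * diagonal (f(v)), det V ≠ 0 (linear independence), so
det M(t) = ∏ f(v). (3) If f(v) = 0 then M(t) kills the vector mon v ≠ 0 (its coordinate at α = 0 is 1,
k > 0): `Matrix.exists_mulVec_eq_zero_iff`.
-/

open MvPolynomial Filter Topology

namespace AD67

variable {n k : ℕ} {P : Fin n → MvPolynomial (Fin (n + 1)) ℂ}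

/-- separation of points by a polynomial -/
theorem A3_sep {d : ℕ} (V : Finset (Fin d → ℂ)) (v : Fin d → ℂ) :
    ∃ f : MvPolynomial (Fin d) ℂ, eval v f = 1 ∧ ∀ w ∈ V, w ≠ v → eval w f = 0 := by
  classical
  have h1 : ∀ w : Fin d → ℂ, ∃ f : MvPolynomial (Fin d) ℂ,
      eval v f = 1 ∧ (w ≠ v → eval w f = 0) := by
    intro w
    by_cases hw : w = v
    · exact ⟨1, by simp, fun h => absurd hw h⟩
    · obtain ⟨i, hi⟩ := Function.ne_iff.1 hw
      refine ⟨C (v i - w i)⁻¹ * (X i - C (w i)), ?_, fun _ => ?_⟩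
      · rw [map_mul, map_sub, eval_C, eval_X, eval_C]
        exact inv_mul_cancel₀ (sub_ne_zero.2 (Ne.symm hi))
      · rw [map_mul, map_sub, eval_X, eval_C, eval_C, sub_self, mul_zero]
  choose f hf1 hf2 using h1
  refine ⟨∏ w ∈ V, f w, ?_, fun w hw hne => ?_⟩
  · rw [map_prod]
    exact Finset.prod_eq_one fun w _ => hf1 w
  · rw [map_prod]
    exact Finset.prod_eq_zero hw (hf2 w hne)

theorem A3_li (hk : 0 < k) (hP : Red k P) (t : ℂ) (V : Finset (Fin (n + 1) → ℂ))
    (hV : ∀ v ∈ V, v ∈ Sol P t) :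
    LinearIndependent ℂ (fun v : V => (mon v.1 : (Fin n → Fin k) → ℂ)) := by
  rw [linearIndependent_iff']
  intro s g hg i hi
  obtain ⟨f, hf1, hf2⟩ := A3_sep V i.1
  obtain ⟨c, hc⟩ := reduce hk hP f
  have h1 : ∀ α : Fin n → Fin k, ∑ w ∈ s, g w * mon w.1 α = 0 := by
    intro α
    have := congrFun hg α
    rw [Finset.sum_apply] at this
    exact this
  have h2 : ∑ w ∈ s, g w * eval w.1 f = 0 := by
    calc ∑ w ∈ s, g w * eval w.1 f
        = ∑ w ∈ s, ∑ α, (c α).eval t * (g w * mon w.1 α) := by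
          refine Finset.sum_congr rfl fun w _ => ?_
          rw [hc t w.1 (hV w.1 w.2), Finset.mul_sum]
          exact Finset.sum_congr rfl fun α _ => by ring
      _ = ∑ α, ∑ w ∈ s, (c α).eval t * (g w * mon w.1 α) := Finset.sum_comm
      _ = 0 := by
          refine Finset.sum_eq_zero fun α _ => ?_
          rw [← Finset.mul_sum, h1 α, mul_zero]
  rw [Finset.sum_eq_single i] at h2
  · rw [hf1, mul_one] at h2
    exact h2
  · intro w _ hne
    rw [hf2 w.1 w.2 (fun h => hne (Subtype.ext h)), mul_zero]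
  · intro h
    exact absurd hi h

theorem A3_card (hk : 0 < k) (hP : Red k P) (t : ℂ) (V : Finset (Fin (n + 1) → ℂ))
    (hV : ∀ v ∈ V, v ∈ Sol P t) : V.card ≤ k ^ n := by
  have h1 := (A3_li hk hP t V hV).fintype_card_le_finrank
  rw [Fintype.card_coe, Module.finrank_fintype_fun_eq_card, Fintype.card_fun, Fintype.card_fin,
    Fintype.card_fin] at h1
  exact h1

theorem sol_card (hk : 0 < k) (hP : Red k P) (t : ℂ) :
    (Sol P t).Finite ∧ (Sol P t).ncard ≤ k ^ n := by
  have h1 : (Sol P t).Finite := by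
    by_contra h
    obtain ⟨V, hV, hc⟩ := Set.Infinite.exists_subset_card_eq h (k ^ n + 1)
    have := A3_card hk hP t V fun v hv => hV hv
    omega
  refine ⟨h1, ?_⟩
  rw [Set.ncard_eq_toFinset_card _ h1]
  exact A3_card hk hP t _ fun v hv => h1.mem_toFinset.1 hv

theorem A3_det (M : Matrix (Fin n → Fin k) (Fin n → Fin k) (Polynomial ℂ)) (t : ℂ) :
    M.det.eval t = (M.map (Polynomial.eval t)).det := by
  have := RingHom.map_det (Polynomial.evalRingHom t) M
  exact this

theorem A3_mul {f : MvPolynomial (Fin (n + 1)) ℂ}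
    {M : Matrix (Fin n → Fin k) (Fin n → Fin k) (Polynomial ℂ)} (hM : IsMat P f M) {t : ℂ}
    {v : Fin (n + 1) → ℂ} (hv : v ∈ Sol P t) :
    (M.map (Polynomial.eval t)).mulVec (mon v) = fun α => eval v f * mon v α := by
  funext α
  rw [hM t v hv α]
  rfl

theorem det_mat (hk : 0 < k) (hP : Red k P) {f : MvPolynomial (Fin (n + 1)) ℂ}
    {M : Matrix (Fin n → Fin k) (Fin n → Fin k) (Polynomial ℂ)} (hM : IsMat P f M) {t : ℂ}
    (ht : (Sol P t).ncard = k ^ n) :
    M.det.eval t = ∏ v ∈ (sol_card hk hP t).1.toFinset, eval v f := by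
  classical
  set S := (sol_card hk hP t).1.toFinset with hS
  have hmem : ∀ v ∈ S, v ∈ Sol P t := fun v hv => (sol_card hk hP t).1.mem_toFinset.1 hv
  have hcard : Fintype.card (Fin n → Fin k) = Fintype.card S := by
    rw [Fintype.card_coe, Fintype.card_fun, Fintype.card_fin, Fintype.card_fin, hS,
      ← Set.ncard_eq_toFinset_card _ (sol_card hk hP t).1, ht]
  let e : (Fin n → Fin k) ≃ S := Fintype.equivOfCardEq hcard
  let V : Matrix (Fin n → Fin k) (Fin n → Fin k) ℂ := Matrix.of fun α β => mon (e β).1 α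
  have h1 : M.map (Polynomial.eval t) * V = V * Matrix.diagonal fun β => eval (e β).1 f := by
    ext α β
    rw [Matrix.mul_diagonal]
    have := congrFun (A3_mul hM (hmem _ (e β).2)) α
    have h2 : (M.map (Polynomial.eval t) * V) α β =
        (M.map (Polynomial.eval t)).mulVec (mon (e β).1) α := rfl
    rw [h2, this]
    show eval (e β).1 f * mon (e β).1 α = mon (e β).1 α * eval (e β).1 f
    ring
  have h3 : IsUnit V := by
    rw [← Matrix.linearIndependent_cols_iff_isUnit]
    exact (A3_li hk hP t S hmem).comp e e.injective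
  have h4 : V.det ≠ 0 := ((Matrix.isUnit_iff_isUnit_det V).1 h3).ne_zero
  have h5 := congrArg Matrix.det h1
  rw [Matrix.det_mul, Matrix.det_mul, Matrix.det_diagonal, mul_comm] at h5
  have h6 := mul_left_cancel₀ h4 h5
  rw [A3_det, h6, Equiv.prod_comp e (fun v : S => eval v.1 f)]
  exact Finset.prod_coe_sort S fun v => eval v f

theorem det_zero (hk : 0 < k) {f : MvPolynomial (Fin (n + 1)) ℂ}
    {M : Matrix (Fin n → Fin k) (Fin n → Fin k) (Polynomial ℂ)} (hM : IsMat P f M) {t : ℂ}
    {v : Fin (n + 1) → ℂ} (hv : v ∈ Sol P t) (h0 : eval v f = 0) : M.det.eval t = 0 := by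
  classical
  rw [A3_det, ← Matrix.exists_mulVec_eq_zero_iff]
  refine ⟨mon v, fun h => ?_, ?_⟩
  · have h1 := congrFun h (fun _ => ⟨0, hk⟩)
    have h2 : (mon v (fun _ : Fin n => (⟨0, hk⟩ : Fin k)) : ℂ) = 1 := by
      unfold mon
      exact Finset.prod_eq_one fun i _ => pow_zero _
    rw [h2] at h1
    exact one_ne_zero h1
  · rw [A3_mul hM hv, h0]
    funext α
    exact zero_mul _

end AD67
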