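import Mathlib

/-!
The explicit curve through given points: definitions. Coordinates `v : Fin (n + 1) → ℂ`, `v 0 = t`,
`v i.succ = z_i`.
-/

open MvPolynomial Filter Topology

namespace AD67

/-- `q_i = ∏_j (z_i - a_ij)` -/
noncomputable def qq {n k : ℕ} (a : Fin n → Fin k → ℂ) (i : Fin n) :
    MvPolynomial (Fin (n + 1)) ℂ := ∏ j, (X i.succ - C (a i j))

/-- `P_i = q_i + (t - t₀) g_i` -/
noncomputable def PP {n k : ℕ} (a : Fin n → Fin k → ℂ) (t₀ : ℂ)
    (g : Fin n → MvPolynomial (Fin (n + 1)) ℂ) (i : Fin n) : MvPolynomial (Fin (n + 1)) ℂ :=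
  qq a i + (X 0 - C t₀) * g i

/-- the solutions over `t` -/
def Sol {n : ℕ} (P : Fin n → MvPolynomial (Fin (n + 1)) ℂ) (t : ℂ) : Set (Fin (n + 1) → ℂ) :=
  {v | v 0 = t ∧ ∀ i, eval v (P i) = 0}

/-- the reduced monomials -/
noncomputable def mon {n k : ℕ} (v : Fin (n + 1) → ℂ) (α : Fin n → Fin k) : ℂ :=
  ∏ i, v i.succ ^ (α i : ℕ)

/-- `P_i = z_i^k + r_i`, `r_i` of total degree at most `k` and of degree less than `k` in `z` -/
def Red {n : ℕ} (k : ℕ) (P : Fin n → MvPolynomial (Fin (n + 1)) ℂ) : Prop :=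
  ∀ i, ∃ r : MvPolynomial (Fin (n + 1)) ℂ, P i = X i.succ ^ k + r ∧
    (∀ m ∈ r.support, ∑ j : Fin n, m j.succ < k) ∧ r.totalDegree ≤ k

/-- `M` is a matrix of the multiplication by `f` on the reduced monomials -/
def IsMat {n k : ℕ} (P : Fin n → MvPolynomial (Fin (n + 1)) ℂ) (f : MvPolynomial (Fin (n + 1)) ℂ)
    (M : Matrix (Fin n → Fin k) (Fin n → Fin k) (Polynomial ℂ)) : Prop :=
  ∀ t, ∀ v ∈ Sol P t, ∀ α, eval v f * mon v α = ∑ β, (M α β).eval t * mon v β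

/-- the determinant of `∂P_i/∂z_j` -/
noncomputable def Jac {n : ℕ} (P : Fin n → MvPolynomial (Fin (n + 1)) ℂ) :
    MvPolynomial (Fin (n + 1)) ℂ := (Matrix.of fun i j : Fin n => pderiv j.succ (P i)).det

end AD67
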