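import Pool.Agent.LibAD67.CDef

/-!
Row C0: local sections of the covering. ONLY Mathlib (and the definition IsCov).

PLAN. `hc.cov v hv : IsEvenlyCovered π v (π ⁻¹' {v})` gives (unfold, Mathlib
`Topology/Covering/Basic.lean`: `IsEvenlyCovered.toTrivialization` or the components) a
`Trivialization (π ⁻¹' {v}) π` e with v ∈ e.baseSet (open) and discrete fibre. For x over v put
sec x v' = e.toOpenPartialHomeomorph.symm (v', (e x).2): continuous on baseSet, projects to v'
(`Trivialization.proj_symm_apply'`), at v it is x (`Trivialization.symm_apply_mk_proj`-type lemmas). Fibre over v' ∈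
baseSet: y ↦ (e y).2 is a bijection from π⁻¹{v'} to the discrete space π⁻¹{v} (as a type), and
x ↦ (e x).2 is a bijection from π⁻¹{v} to it. O = baseSet.
-/

open Complex Filter Topology

namespace AD67

theorem cover_sections {X : Type} [TopologicalSpace X] {d : ℕ} {F : MvPolynomial (Fin d) ℂ}
    {s : ℕ} {π : X → Fin d → ℂ} (hc : IsCov F s π) {v : Fin d → ℂ}
    (hv : MvPolynomial.eval v F ≠ 0) :
    ∃ sec : X → (Fin d → ℂ) → X, (∀ x, π x = v → sec x v = x ∧ ContinuousAt (sec x) v) ∧
      ∀ᶠ v' in 𝓝 v, (∀ x, π x = v → π (sec x v') = v') ∧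
        (∀ y, π y = v' → ∃ x, π x = v ∧ sec x v' = y) ∧
        ∀ x x', π x = v → π x' = v → sec x v' = sec x' v' → x = x' := by
  classical
  obtain ⟨_, U, hvU, hU, hπU, H, hH⟩ := hc.cov v hv
  have hmem : ∀ x, π x = v → x ∈ π ⁻¹' U := fun x hx => by
    rw [Set.mem_preimage, hx]; exact hvU
  have hHs : ∀ p, π (H.symm p).1 = p.1.1 := by
    intro p
    have := hH (H.symm p)
    rw [Homeomorph.apply_symm_apply] at this
    exact this.symm
  -- the sections
  set sec : X → (Fin d → ℂ) → X := fun x v' =>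
    if h : x ∈ π ⁻¹' U ∧ v' ∈ U then (H.symm (⟨v', h.2⟩, (H ⟨x, h.1⟩).2)).1 else x with hsec
  have hsec1 : ∀ x (hx : x ∈ π ⁻¹' U) v' (hv' : v' ∈ U),
      sec x v' = (H.symm (⟨v', hv'⟩, (H ⟨x, hx⟩).2)).1 := by
    intro x hx v' hv'
    simp only [hsec]
    rw [dif_pos ⟨hx, hv'⟩]
  have hfst : ∀ x (hx : x ∈ π ⁻¹' U), π x = v → (H ⟨x, hx⟩).1 = ⟨v, hvU⟩ := by
    intro x hx hxv
    apply Subtype.ext
    rw [hH]
    exact hxv
  refine ⟨sec, ?_, ?_⟩
  · intro x hx
    have hxU := hmem x hx
    constructor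
    · rw [hsec1 x hxU v hvU, ← hfst x hxU hx, Prod.mk.eta, Homeomorph.symm_apply_apply]
    · have hcont : ContinuousOn (sec x) U := by
        rw [continuousOn_iff_continuous_domRestrict]
        have : U.domRestrict (sec x) = fun u : U => (H.symm (u, (H ⟨x, hxU⟩).2)).1 := by
          funext u
          rw [Set.domRestrict_apply, hsec1 x hxU u.1 u.2]
        rw [this]
        exact continuous_subtype_val.comp (H.symm.continuous.comp (by fun_prop))
      exact hcont.continuousAt (hU.mem_nhds hvU)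
  · filter_upwards [hU.mem_nhds hvU] with v' hv'
    refine ⟨?_, ?_, ?_⟩
    · intro x hx
      rw [hsec1 x (hmem x hx) v' hv', hHs]
    · intro y hy
      have hyU : y ∈ π ⁻¹' U := by rw [Set.mem_preimage, hy]; exact hv'
      set i := (H ⟨y, hyU⟩).2 with hi
      set x := H.symm (⟨v, hvU⟩, i) with hx
      have hxv : π x.1 = v := hHs _
      refine ⟨x.1, hxv, ?_⟩
      rw [hsec1 x.1 x.2 v' hv']
      have h1 : (H ⟨x.1, x.2⟩).2 = i := by
        have : H ⟨x.1, x.2⟩ = (⟨v, hvU⟩, i) := by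
          rw [Subtype.coe_eta, hx, Homeomorph.apply_symm_apply]
        rw [this]
      rw [h1]
      have h2 : ((⟨v', hv'⟩ : U), i) = H ⟨y, hyU⟩ := by
        refine Prod.ext (Subtype.ext ?_) rfl
        rw [hH]
        exact hy.symm
      rw [h2, Homeomorph.symm_apply_apply]
    · intro x x' hx hx' heq
      rw [hsec1 x (hmem x hx) v' hv', hsec1 x' (hmem x' hx') v' hv'] at heq
      have h1 := H.symm.injective (Subtype.ext heq)
      have h2 : (H ⟨x, hmem x hx⟩).2 = (H ⟨x', hmem x' hx'⟩).2 := (Prod.ext_iff.mp h1).2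
      have h3 : H ⟨x, hmem x hx⟩ = H ⟨x', hmem x' hx'⟩ :=
        Prod.ext ((hfst x _ hx).trans (hfst x' _ hx').symm) h2
      have h4 := H.injective h3
      exact congrArg Subtype.val h4

end AD67
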