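import Pool.Agent.LibAD67.CDef

/-!
Row C1: uniqueness of the branches, neighbours. ONLY Mathlib (and ACurve).

PLAN. Let t₁ ∉ B; for t near t₁: t ∉ B (B finite), `c.loc t₁`: sol t = image of br t₁ · t, and the
map is injective on sol t₁ (both sets have R elements: `Finset.card_image_iff`), br t₁ v is
analytic, hence continuous, at t (analytic at all nearby points: `AnalyticAt.eventually_analyticAt`).
Second claim: fix such a t (moreover loc holds eventually near t: `Filter.Eventually.eventually_nhds`),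
v ∈ sol t₁, w = br t₁ v t ∈ sol t. For t'' near t: br t₁ v t'' ∈ sol t'' = image of br t · t'', so
br t₁ v t'' = br t w' t'' for some w' ∈ sol t; for w' ≠ w, br t w' t'' → w' ≠ w ← br t₁ v t'', so
for t'' near t (finitely many w') w' = w.
-/

open Complex Filter Topology

namespace AD67

variable {d : ℕ} {F : MvPolynomial (Fin d) ℂ} {R : ℕ} {S : Finset (Fin d → ℂ)}
  {E : Set (Fin d → ℂ)}

theorem br_inj (c : ACurve R F S E) {t₁ : ℂ} (h : t₁ ∉ c.B) :
    ∀ᶠ t in 𝓝 t₁, t ∉ c.B ∧ c.sol t = (c.sol t₁).image (fun v => c.br t₁ v t) ∧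
      Set.InjOn (fun v => c.br t₁ v t) (c.sol t₁) ∧
      ∀ v ∈ c.sol t₁, AnalyticAt ℂ (c.br t₁ v) t := by
  have h1 : ∀ᶠ t in 𝓝 t₁, t ∉ c.B := by
    have h2 : IsOpen ((c.B : Set ℂ)ᶜ) := (c.B.finite_toSet.isClosed).isOpen_compl
    filter_upwards [h2.mem_nhds (by simpa using h)] with t ht
    simpa using ht
  have h3 : ∀ᶠ t in 𝓝 t₁, ∀ v ∈ c.sol t₁, AnalyticAt ℂ (c.br t₁ v) t := by
    rw [Filter.eventually_all_finset]
    intro v hv
    exact (c.an t₁ h v hv).eventually_analyticAt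
  filter_upwards [h1, c.loc t₁ h, h3] with t ht1 ht2 ht3
  refine ⟨ht1, ht2, ?_, ht3⟩
  rw [← Finset.card_image_iff, ← ht2, c.card t ht1, c.card t₁ h]

theorem C1_sep {a b : Fin d → ℂ} (h : a ≠ b) :
    ∃ A ∈ 𝓝 a, ∃ B ∈ 𝓝 b, Disjoint A B := by
  obtain ⟨A, B, hA, hB, ha, hb, hAB⟩ := t2_separation h
  exact ⟨A, hA.mem_nhds ha, B, hB.mem_nhds hb, hAB⟩

theorem br_unique (c : ACurve R F S E) {t₁ : ℂ} (h : t₁ ∉ c.B) :
    ∀ᶠ t in 𝓝 t₁, ∀ v ∈ c.sol t₁, c.br t (c.br t₁ v t) =ᶠ[𝓝 t] c.br t₁ v := by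
  have h0 := br_inj c h
  filter_upwards [h0, h0.eventually_nhds] with t ht1 ht2 v hv
  obtain ⟨htB, hsol, hinj, han⟩ := ht1
  set w := c.br t₁ v t with hw
  have hwsol : w ∈ c.sol t := by
    rw [hsol]
    exact Finset.mem_image_of_mem _ hv
  have hne : ∀ᶠ t'' in 𝓝 t, ∀ w' ∈ c.sol t, w' ≠ w → c.br t w' t'' ≠ c.br t₁ v t'' := by
    rw [Filter.eventually_all_finset]
    intro w' hw'
    by_cases hww : w' = w
    · exact Filter.Eventually.of_forall fun _ hh => absurd hww hh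
    · have c1 : Tendsto (c.br t w') (𝓝 t) (𝓝 w') := by
        have := (c.an t htB w' hw').continuousAt
        rwa [ContinuousAt, c.start t htB w' hw'] at this
      have c2 : Tendsto (c.br t₁ v) (𝓝 t) (𝓝 w) := (han v hv).continuousAt
      obtain ⟨A, hA, B, hB, hAB⟩ := C1_sep hww
      filter_upwards [c1.eventually hA, c2.eventually hB] with t'' h8 h9 _ h10
      exact (Set.disjoint_left.mp hAB) h8 (h10 ▸ h9)
  filter_upwards [ht2, c.loc t htB, hne] with t'' h4 h5 h6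
  have h7 : c.br t₁ v t'' ∈ c.sol t'' := by
    rw [h4.2.1]
    exact Finset.mem_image_of_mem (fun v => c.br t₁ v t'') hv
  rw [h5, Finset.mem_image] at h7
  obtain ⟨w', hw', hww'⟩ := h7
  by_cases hcase : w' = w
  · rw [← hcase]
    exact hww'
  · exact absurd hww' (h6 w' hw' hcase)

end AD67
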