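import Pool.Agent.LibAD67.C0
import Pool.Agent.LibAD67.C1

/-!
Row C2: the sum over the points above the curve, near a point of the `t`-plane.

PLAN. For t near t₁ (C1): sol t = image, injective: `Finset.sum_image`:
sumX = ∑_{v ∈ sol t₁} ∑_{y over br t₁ v t} val y (br t (br t₁ v t)) t, and the branch is the germ
br t₁ v (br_unique, `hval.germ`). For v ∈ sol t₁ take the sections of C0 at v (v is in {F ≠ 0} by
c.ne): for t near t₁, br t₁ v t is near v (continuity), so the points over it are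
sec x (br t₁ v t), x over v, distinct: `Finset.sum_bij` / `Finset.sum_image`. Finally `hval.loc x (br t₁ v) t₁`
at q = (t, sec x (br t₁ v t)) → (t₁, x) gives val (sec ..) (br t₁ v) t = val x (br t₁ v) t.
`mem_local` is the same without sums.
-/

open Complex Filter Topology

namespace AD67

variable {X : Type} [TopologicalSpace X] {d : ℕ} {F : MvPolynomial (Fin d) ℂ} {s : ℕ}
  {π : X → Fin d → ℂ} {R : ℕ} {S : Finset (Fin d → ℂ)} {E : Set (Fin d → ℂ)}

/-- the sections along the curve -/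
theorem C2_sec (hc : IsCov F s π) (c : ACurve R F S E) {t₁ : ℂ} (h : t₁ ∉ c.B) :
    ∃ sec : (Fin d → ℂ) → X → ℂ → X,
      (∀ v ∈ c.sol t₁, ∀ x, π x = v → Tendsto (sec v x) (𝓝 t₁) (𝓝 x)) ∧
      ∀ᶠ t in 𝓝 t₁, ∀ v ∈ c.sol t₁,
        (∀ x, π x = v → π (sec v x t) = c.br t₁ v t) ∧
        (∀ y, π y = c.br t₁ v t → ∃ x, π x = v ∧ sec v x t = y) ∧
        ∀ x x', π x = v → π x' = v → sec v x t = sec v x' t → x = x' := by
  have key : ∀ v : Fin d → ℂ, ∃ sc : X → (Fin d → ℂ) → X, v ∈ c.sol t₁ →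
      (∀ x, π x = v → sc x v = x ∧ ContinuousAt (sc x) v) ∧
      ∀ᶠ v' in 𝓝 v, (∀ x, π x = v → π (sc x v') = v') ∧
        (∀ y, π y = v' → ∃ x, π x = v ∧ sc x v' = y) ∧
        ∀ x x', π x = v → π x' = v → sc x v' = sc x' v' → x = x' := by
    intro v
    by_cases hv : v ∈ c.sol t₁
    · obtain ⟨sc, h1⟩ := cover_sections hc (c.ne t₁ h v hv)
      exact ⟨sc, fun _ => h1⟩
    · exact ⟨fun x _ => x, fun h' => absurd h' hv⟩
  choose sc hsc using key
  have hbr : ∀ v ∈ c.sol t₁, Tendsto (c.br t₁ v) (𝓝 t₁) (𝓝 v) := by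
    intro v hv
    have h1 := (c.an t₁ h v hv).continuousAt
    unfold ContinuousAt at h1
    rwa [c.start t₁ h v hv] at h1
  refine ⟨fun v x t => sc v x (c.br t₁ v t), fun v hv x hx => ?_, ?_⟩
  · obtain ⟨h1, h2⟩ := (hsc v hv).1 x hx
    unfold ContinuousAt at h2
    rw [h1] at h2
    exact h2.comp (hbr v hv)
  · rw [Filter.eventually_all_finset]
    intro v hv
    exact (hbr v hv).eventually (hsc v hv).2

theorem sum_local {M : Type} [AddCommMonoid M] (hc : IsCov F s π) (c : ACurve R F S E)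
    {val : X → (ℂ → (Fin d → ℂ)) → ℂ → M} (hval : GermFun π val) {t₁ : ℂ} (h : t₁ ∉ c.B) :
    ∀ᶠ t in 𝓝 t₁, sumX hc c val t =
      ∑ v ∈ c.sol t₁, ∑ x ∈ (hc.fin v).toFinset, val x (c.br t₁ v) t := by
  classical
  obtain ⟨sec, hs1, hs2⟩ := C2_sec hc c h
  have hloc : ∀ᶠ t in 𝓝 t₁, ∀ v ∈ c.sol t₁, ∀ x ∈ (hc.fin v).toFinset,
      c.br t₁ v t = π (sec v x t) → val (sec v x t) (c.br t₁ v) t = val x (c.br t₁ v) t := by
    rw [Filter.eventually_all_finset]
    intro v hv
    rw [Filter.eventually_all_finset]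
    intro x hx
    have hx' : π x = v := by
      have := (hc.fin v).mem_toFinset.1 hx
      simpa using this
    have h1 := hval.loc x (c.br t₁ v) t₁ (c.an t₁ h v hv)
      (by rw [c.start t₁ h v hv, hx'])
    have h2 : Tendsto (fun t => (t, sec v x t)) (𝓝 t₁) (𝓝 (t₁, x)) :=
      tendsto_id.prodMk_nhds (hs1 v hv x hx')
    exact h2.eventually h1
  filter_upwards [br_inj c h, br_unique c h, hs2, hloc] with t h1 h2 h3 h4
  obtain ⟨_, hsol, hinj, _⟩ := h1
  unfold sumX
  rw [hsol, Finset.sum_image hinj]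
  refine Finset.sum_congr rfl fun v hv => ?_
  obtain ⟨p1, p2, p3⟩ := h3 v hv
  have himg : (hc.fin (c.br t₁ v t)).toFinset =
      (hc.fin v).toFinset.image fun x => sec v x t := by
    ext y
    simp only [Set.Finite.mem_toFinset, Set.mem_preimage, Set.mem_singleton_iff, Finset.mem_image]
    constructor
    · intro hy
      exact p2 y hy
    · rintro ⟨x, hx, rfl⟩
      exact p1 x hx
  have hinj2 : Set.InjOn (fun x => sec v x t) ((hc.fin v).toFinset : Set X) := by
    intro x hx x' hx' hxx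
    simp only [Set.Finite.coe_toFinset, Set.mem_preimage, Set.mem_singleton_iff] at hx hx'
    exact p3 x x' hx hx' hxx
  rw [himg, Finset.sum_image hinj2]
  refine Finset.sum_congr rfl fun x hx => ?_
  have hx' : π x = v := by
    have := (hc.fin v).mem_toFinset.1 hx
    simpa using this
  rw [hval.germ _ _ _ t (h2 v hv)]
  exact h4 v hv x hx (p1 x hx').symm

/-- the points over the curve near `t₁`: for every neighbourhood system `W x` of the points over the
curve at `t₁`, the points over the curve at `t` are in the `W x`, with the same branch, and conversely -/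
theorem mem_local (hc : IsCov F s π) (c : ACurve R F S E) {t₁ : ℂ} (h : t₁ ∉ c.B)
    {W : X → Set X} (hW : ∀ x, W x ∈ 𝓝 x) :
    ∀ᶠ t in 𝓝 t₁, t ∉ c.B ∧
      (∀ w ∈ c.sol t, ∀ y, π y = w → ∃ v ∈ c.sol t₁, ∃ x, π x = v ∧ y ∈ W x ∧
        c.br t₁ v t = w ∧ c.br t w =ᶠ[𝓝 t] c.br t₁ v) ∧
      ∀ v ∈ c.sol t₁, ∀ x, π x = v → ∃ w ∈ c.sol t, ∃ y, π y = w ∧ y ∈ W x ∧
        c.br t₁ v t = w ∧ c.br t w =ᶠ[𝓝 t] c.br t₁ v := by
  classical
  obtain ⟨sec, hs1, hs2⟩ := C2_sec hc c h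
  have hloc : ∀ᶠ t in 𝓝 t₁, ∀ v ∈ c.sol t₁, ∀ x ∈ (hc.fin v).toFinset, sec v x t ∈ W x := by
    rw [Filter.eventually_all_finset]
    intro v hv
    rw [Filter.eventually_all_finset]
    intro x hx
    have hx' : π x = v := by
      have := (hc.fin v).mem_toFinset.1 hx
      simpa using this
    exact (hs1 v hv x hx').eventually (hW x)
  filter_upwards [br_inj c h, br_unique c h, hs2, hloc] with t h1 h2 h3 h4
  obtain ⟨hB, hsol, _, _⟩ := h1
  refine ⟨hB, fun w hw y hy => ?_, fun v hv x hx => ?_⟩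
  · rw [hsol, Finset.mem_image] at hw
    obtain ⟨v, hv, rfl⟩ := hw
    obtain ⟨x, hx, rfl⟩ := (h3 v hv).2.1 y hy
    exact ⟨v, hv, x, hx, h4 v hv x ((hc.fin v).mem_toFinset.2 hx), rfl, h2 v hv⟩
  · refine ⟨c.br t₁ v t, ?_, sec v x t, (h3 v hv).1 x hx,
      h4 v hv x ((hc.fin v).mem_toFinset.2 hx), rfl, h2 v hv⟩
    rw [hsol]
    exact Finset.mem_image_of_mem _ hv

end AD67
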