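import Pool.Agent.LibAD67.C2

/-!
Row C3: all the branches are generic.

PLAN. good t := ∀ v ∈ c.sol t, ∀ x, π x = v → H.G x (c.br t v) t. For t₁ ∉ B: for t near t₁,
(good t ↔ good t₁): `mem_local` with W x = {y | ...}: careful: G_loc is a statement on 𝓝 (t₁, x): by
`Filter.Eventually.prod_nhds`/`eventually_nhds_prod_iff` there are neighbourhoods I x of t₁ and W x of x
(finitely many x: the points over c.sol t₁; for the others take W x = univ) such that for t ∈ I x,
y ∈ W x, br t₁ v t = π y: (G x (br t₁ v) t₁ ↔ G y (br t₁ v) t); then G_germ to pass from br t₁ v to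
br t w (germ equality at t, both directions). So good is a locally constant predicate on the
connected set Bᶜ (`Set.Countable.isConnected_compl_of_one_lt_rank`, `Complex.rank_real_complex`, use
`IsPreconnected.subset_of_closure_inter_subset` or a clopen argument in the
subtype: `IsPreconnected.induction₂`, `IsClopen`), and good t₀ for the base point: points v of sol t₀ lie in
E, hypothesis hE, c.an, c.start.
-/

open Complex Filter Topology

namespace AD67

variable {X : Type} [TopologicalSpace X] {d : ℕ} {F : MvPolynomial (Fin d) ℂ} {s : ℕ}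
  {π : X → Fin d → ℂ} {J : Type} [Fintype J] {A : ℝ} {R : ℕ} {S : Finset (Fin d → ℂ)}
  {E : Set (Fin d → ℂ)}

theorem C3_step (hc : IsCov F s π) (H : HFam π J A) (c : ACurve R F S E) {t₁ : ℂ}
    (h : t₁ ∉ c.B) :
    ∀ᶠ t in 𝓝 t₁, ((∀ v ∈ c.sol t, ∀ x, π x = v → H.G x (c.br t v) t) ↔
      (∀ v ∈ c.sol t₁, ∀ x, π x = v → H.G x (c.br t₁ v) t₁)) := by
  classical
  have h1 : ∀ x : X, ∃ U ∈ 𝓝 t₁, ∃ W ∈ 𝓝 x, π x ∈ c.sol t₁ → ∀ t ∈ U, ∀ y ∈ W,
      c.br t₁ (π x) t = π y → (H.G x (c.br t₁ (π x)) t₁ ↔ H.G y (c.br t₁ (π x)) t) := by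
    intro x
    by_cases hx : π x ∈ c.sol t₁
    · have h2 := H.G_loc x (c.br t₁ (π x)) t₁ (c.an t₁ h _ hx) (c.start t₁ h _ hx)
      rw [Filter.eventually_iff, mem_nhds_prod_iff] at h2
      obtain ⟨U, hU, W, hW, hUW⟩ := h2
      exact ⟨U, hU, W, hW, fun _ t ht y hy => hUW (Set.mk_mem_prod ht hy)⟩
    · exact ⟨Set.univ, univ_mem, Set.univ, univ_mem, fun h => absurd h hx⟩
  choose U hU W hW hG using h1
  have h2 := mem_local hc c h hW
  have h3 : ∀ᶠ t in 𝓝 t₁, ∀ v ∈ c.sol t₁, ∀ x ∈ (hc.fin v).toFinset, t ∈ U x := by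
    rw [Filter.eventually_all_finset]
    intro v _
    rw [Filter.eventually_all_finset]
    exact fun x _ => hU x
  filter_upwards [h2, h3] with t ht hUt
  obtain ⟨_, ht1, ht2⟩ := ht
  constructor
  · intro hg v hv x hx
    obtain ⟨w, hw, y, hy, hyW, hbr, hgerm⟩ := ht2 v hv x hx
    have h4 := H.G_germ y _ _ t hgerm (hg w hw y hy)
    have h5 : t ∈ U x := hUt v hv x ((hc.fin v).mem_toFinset.2 hx)
    subst hx
    exact (hG x hv t h5 y hyW (hbr.trans hy.symm)).2 h4
  · intro hg w hw y hy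
    obtain ⟨v, hv, x, hx, hyW, hbr, hgerm⟩ := ht1 w hw y hy
    have h5 : t ∈ U x := hUt v hv x ((hc.fin v).mem_toFinset.2 hx)
    have h6 := hg v hv x hx
    subst hx
    exact H.G_germ y _ _ t hgerm.symm ((hG x hv t h5 y hyW (hbr.trans hy.symm)).1 h6)

theorem good_all (hc : IsCov F s π) (H : HFam π J A) (c : ACurve R F S E)
    (hE : ∀ v ∈ E, ∀ x, π x = v → ∀ b t, AnalyticAt ℂ b t → b t = v → H.G x b t) :
    ∀ t ∉ c.B, ∀ v ∈ c.sol t, ∀ x, π x = v → H.G x (c.br t v) t := by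
  have hp : IsPreconnected {t : ℂ | t ∉ c.B} := by
    have h1 : ((c.B : Set ℂ)).Countable := c.B.countable_toSet
    exact (h1.isConnected_compl_of_one_lt_rank (by
      rw [Complex.rank_real_complex]
      exact Cardinal.one_lt_two)).isPreconnected
  have : PreconnectedSpace {t : ℂ // t ∉ c.B} := Subtype.preconnectedSpace hp
  have hl : IsLocallyConstant (fun t : {t : ℂ // t ∉ c.B} =>
      (∀ v ∈ c.sol t.1, ∀ x, π x = v → H.G x (c.br t.1 v) t.1)) := by
    rw [IsLocallyConstant.iff_eventually_eq]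
    intro t₁
    have h2 := C3_step hc H c t₁.2
    have h3 := (continuous_subtype_val.tendsto t₁).eventually h2
    filter_upwards [h3] with t ht
    exact propext ht
  obtain ⟨t₀, h0, hb⟩ := c.base
  intro t ht
  have h4 := hl.apply_eq_of_preconnectedSpace ⟨t, ht⟩ ⟨t₀, h0⟩
  refine h4.mpr ?_
  intro v hv x hx
  exact hE v (hb v hv) x hx _ _ (c.an t₀ h0 v hv) (c.start t₀ h0 v hv)

end AD67
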