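import Pool.Agent.LibAD67.CDef

/-!
Row C4: the two functions are germ functions.

PLAN. germ: b =ᶠ b' near t gives b t = b' t, deriv b =ᶠ deriv b' (`Filter.EventuallyEq.deriv`), hence the
functions inside `jj` and `dz` agree near t; `dz_congr` (LibSP38/WirtS: dz of eventually equal functions).
loc: H.compat x gives for y near x a permutation σ and a neighbourhood of π y where
N y (σ j) v = N x j v, T y (σ j) v ξ = T x j v ξ, u y v = u x v. b is continuous at q.1 near t
(analytic), b q.1 = π q.2, so near q.1 the functions τ ↦ N y (σ j) (b τ) and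
τ ↦ N x j (b τ) agree, same for T, u. Reindex the sums over j by σ (`Equiv.sum_comp`).
-/

open Complex Filter Topology
open scoped ContDiff

namespace AD67

open SP38 US38

variable {X : Type} [TopologicalSpace X] {d : ℕ} {π : X → Fin d → ℂ} {J : Type} [Fintype J]
  {A : ℝ}

/-- the local comparison used for both functions -/
theorem C4_loc (H : HFam π J A) (x : X) (b : ℂ → (Fin d → ℂ)) (t : ℂ) (hb : AnalyticAt ℂ b t) :
    ∀ᶠ q : ℂ × X in 𝓝 (t, x), b q.1 = π q.2 → ∃ σ : Equiv.Perm J, ∀ᶠ s in 𝓝 q.1,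
      (∀ j, H.N q.2 (σ j) (b s) = H.N x j (b s) ∧
        ∀ ξ, H.T q.2 (σ j) (b s) ξ = H.T x j (b s) ξ) ∧ H.u q.2 (b s) = H.u x (b s) := by
  have h1 : ∀ᶠ q : ℂ × X in 𝓝 (t, x), AnalyticAt ℂ b q.1 :=
    (continuous_fst.tendsto' (t, x) t rfl).eventually hb.eventually_analyticAt
  have h2 := (continuous_snd.tendsto' (t, x) x rfl).eventually (H.compat x)
  filter_upwards [h1, h2] with q hq1 hq2 hq
  obtain ⟨σ, hσ⟩ := hq2
  refine ⟨σ, ?_⟩
  have h3 : Tendsto b (𝓝 q.1) (𝓝 (π q.2)) := by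
    rw [← hq]
    exact hq1.continuousAt
  exact h3.eventually hσ

theorem valG_germ (H : HFam π J A) (ε : ℝ) : GermFun π (valG H ε) := by
  refine ⟨fun x b b' t h => ?_, fun x b t hb _ => ?_⟩
  · simp only [valG, h.eq_of_nhds]
  · filter_upwards [C4_loc H x b t hb] with q hq hbq
    obtain ⟨σ, hσ⟩ := hq hbq
    obtain ⟨h1, h2⟩ := hσ.self_of_nhds
    simp only [valG]
    rw [h2, ← Equiv.sum_comp σ fun j => Real.log (H.N q.2 j (b q.1) + ε)]
    congr 1
    exact Finset.sum_congr rfl fun j _ => by rw [(h1 j).1]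

theorem valj_germ (H : HFam π J A) (ε : ℝ) : GermFun π (valj H ε) := by
  refine ⟨fun x b b' t h => ?_, fun x b t hb _ => ?_⟩
  · have h1 : ∀ᶠ s in 𝓝 t, b s = b' s := h
    have hu : (fun s => ((H.u x (b s) : ℝ) : ℂ)) =ᶠ[𝓝 t] fun s => ((H.u x (b' s) : ℝ) : ℂ) := by
      filter_upwards [h1] with s hs
      rw [hs]
    have hN : ∀ j, (fun s => ((H.N x j (b s) : ℝ) : ℂ)) =ᶠ[𝓝 t]
        fun s => ((H.N x j (b' s) : ℝ) : ℂ) := by
      intro j
      filter_upwards [h1] with s hs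
      rw [hs]
    simp only [valj, jj]
    rw [dz_congr hu, h.eq_of_nhds, h.deriv_eq]
    congr 1
    exact Finset.sum_congr rfl fun j _ => by rw [dz_congr (hN j)]
  · filter_upwards [C4_loc H x b t hb] with q hq hbq
    obtain ⟨σ, hσ⟩ := hq hbq
    have hu : (fun s => ((H.u q.2 (b s) : ℝ) : ℂ)) =ᶠ[𝓝 q.1]
        fun s => ((H.u x (b s) : ℝ) : ℂ) := by
      filter_upwards [hσ] with s hs
      rw [hs.2]
    have hN : ∀ j, (fun s => ((H.N q.2 (σ j) (b s) : ℝ) : ℂ)) =ᶠ[𝓝 q.1]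
        fun s => ((H.N x j (b s) : ℝ) : ℂ) := by
      intro j
      filter_upwards [hσ] with s hs
      rw [(hs.1 j).1]
    obtain ⟨h1, _⟩ := hσ.self_of_nhds
    simp only [valj, jj]
    rw [dz_congr hu, ← Equiv.sum_comp σ]
    congr 1
    exact Finset.sum_congr rfl fun j _ => by rw [dz_congr (hN j), (h1 j).1, (h1 j).2]

end AD67
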