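import Pool.Agent.LibAD67.C2
import Pool.Agent.LibAD67.C3
import Pool.Agent.LibAD67.C4

/-!
Row C5: smoothness and the differential inequality of the sums.

PLAN. Near t₁ ∉ B both sums are the local sums of C2 (val x (br t₁ v) t with v, x fixed):
ContDiffAt.congr_of_eventuallyEq. Each term: H.smN, smT, smu (the discs are generic by C3, base
point br t₁ v t₁ = v = π x); N ≥ 0 at v (H.nn, `Eventually.self_of_nhds`), ε > 0, so log (N + ε) is
smooth at t₁; valj: `dz` of a smooth function is smooth (LibSP38/WirtS, `fderiv` of ContDiffAt ∞), division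
by N + ε ≠ 0. Inequality at t₁: by linearity of `dz`, `dzb` (congruence near t₁)
 sumX valj - dz (sumX valG)/2 = ∑ 2 T/(N + ε) (as dz log(N + ε) = dz N/(N + ε)), of norm
 ≤ ∑ 2 √hh (|T| ≤ √hh N ≤ √hh (N + ε)), squared ≤ 4 n₀ ∑ hh by Cauchy-Schwarz
 (`inner_mul_le_norm_mul_norm`/`Finset.sum_mul_sq_le_sq_mul_sq`, `sq_sum_le_card_mul_sum_sq`), n₀ = number of terms =
 R * s * card J (c.card, hc.sheets as v ∈ {F ≠ 0}); and rho (sumX valj) = ∑ rho (jj ..) +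
 ∑ Re dzb dz u ≥ ∑ (-2 hh) + 3 ∑ hh = ∑ hh. So c₀ = 1/(4 (R s card J + 1)) works.
-/

open Complex Filter Topology
open scoped ContDiff

namespace AD67

open SP38 US38

variable {X : Type} [TopologicalSpace X] {d : ℕ} {F : MvPolynomial (Fin d) ℂ} {s : ℕ}
  {π : X → Fin d → ℂ} {J : Type} [Fintype J] {A : ℝ} {R : ℕ} {S : Finset (Fin d → ℂ)}
  {E : Set (Fin d → ℂ)}

theorem C5_dz {f : ℂ → ℂ} {z : ℂ} (hf : ContDiffAt ℝ ∞ f z) : ContDiffAt ℝ ∞ (dz f) z := by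
  have h1 : ContDiffAt ℝ ∞ (fderiv ℝ f) z := hf.fderiv_right (by simp)
  have h2 : ∀ w : ℂ, ContDiffAt ℝ ∞ (fun z => fderiv ℝ f z w) z :=
    fun w => h1.clm_apply contDiffAt_const
  exact ((h2 1).sub (contDiffAt_const.mul (h2 I))).div_const 2

theorem C5_ofReal {f : ℂ → ℝ} {z : ℂ} (hf : ContDiffAt ℝ ∞ f z) :
    ContDiffAt ℝ ∞ (fun t => ((f t : ℝ) : ℂ)) z :=
  (Complex.ofRealCLM.contDiff.contDiffAt).comp z hf

theorem C5_fd {N : ℂ → ℝ} {z : ℂ} (hN : DifferentiableAt ℝ N z) (w : ℂ) :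
    fderiv ℝ (fun t => ((N t : ℝ) : ℂ)) z w = ((fderiv ℝ N z w : ℝ) : ℂ) := by
  have h1 : HasFDerivAt (fun t => ((N t : ℝ) : ℂ)) (Complex.ofRealCLM.comp (fderiv ℝ N z)) z :=
    Complex.ofRealCLM.hasFDerivAt.comp z hN.hasFDerivAt
  rw [h1.fderiv]
  rfl

theorem C5_log {N : ℂ → ℝ} {z : ℂ} {ε : ℝ} (hN : DifferentiableAt ℝ N z) (h0 : 0 < N z + ε) :
    dz (fun t => ((Real.log (N t + ε) : ℝ) : ℂ)) z =
      dz (fun t => ((N t : ℝ) : ℂ)) z / (((N z : ℝ) : ℂ) + ((ε : ℝ) : ℂ)) := by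
  have h1 : HasFDerivAt (fun t => Real.log (N t + ε)) ((N z + ε)⁻¹ • fderiv ℝ N z) z :=
    (hN.hasFDerivAt.add_const ε).log h0.ne'
  have h2 : ∀ w : ℂ, fderiv ℝ (fun t => ((Real.log (N t + ε) : ℝ) : ℂ)) z w =
      ((fderiv ℝ N z w : ℝ) : ℂ) / (((N z : ℝ) : ℂ) + ((ε : ℝ) : ℂ)) := by
    intro w
    rw [C5_fd h1.differentiableAt, h1.fderiv]
    simp only [_root_.smul_apply, smul_eq_mul]
    push_cast
    rw [div_eq_inv_mul]
  rw [dz, dz, h2, h2, C5_fd hN, C5_fd hN]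
  ring

theorem C5_logsm {N : ℂ → ℝ} {z : ℂ} {ε : ℝ} (hN : ContDiffAt ℝ ∞ N z) (h0 : 0 < N z + ε) :
    ContDiffAt ℝ ∞ (fun t => Real.log (N t + ε)) z :=
  (hN.add contDiffAt_const).log h0.ne'

theorem C5_jj {N : ℂ → ℝ} {T : ℂ → ℂ} {z : ℂ} {ε : ℝ} (hN : ContDiffAt ℝ ∞ N z)
    (hT : ContDiffAt ℝ ∞ T z) (h0 : 0 < N z + ε) :
    ContDiffAt ℝ ∞ (jj (fun t => ((N t : ℝ) : ℂ)) T ε) z := by
  have h1 : ContDiffAt ℝ ∞ (fun t => ((N t : ℝ) : ℂ) + ((ε : ℝ) : ℂ)) z :=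
    (C5_ofReal hN).add contDiffAt_const
  have h2 : ((N z : ℝ) : ℂ) + ((ε : ℝ) : ℂ) ≠ 0 := by
    rw [← Complex.ofReal_add]
    exact Complex.ofReal_ne_zero.2 h0.ne'
  have h3 : jj (fun t => ((N t : ℝ) : ℂ)) T ε = fun t =>
      (dz (fun t => ((N t : ℝ) : ℂ)) t / 2 + 2 * T t) * (((N t : ℝ) : ℂ) + ((ε : ℝ) : ℂ))⁻¹ := by
    funext t
    rw [jj, div_eq_mul_inv]
  rw [h3]
  exact (((C5_dz (C5_ofReal hN)).div_const 2).add (contDiffAt_const.mul hT)).mul (h1.inv h2)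

theorem C5_half {f : ℂ → ℂ} {t : ℂ} (hf : DifferentiableAt ℝ f t) :
    DifferentiableAt ℝ (fun t' => f t' / 2) t := by
  simp only [div_eq_mul_inv]
  exact hf.mul_const _

theorem C5_abs {ι : Type*} (K : Finset ι) {N : ι → J → ℂ → ℝ} {T : ι → J → ℂ → ℂ}
    {u : ι → ℂ → ℝ} {hh : ι → J → ℝ} {ε : ℝ} (hε : 0 < ε) {t : ℂ}
    (hN : ∀ i ∈ K, ∀ j, ContDiffAt ℝ ∞ (N i j) t) (hN0 : ∀ i ∈ K, ∀ j, 0 ≤ N i j t)
    (hT : ∀ i ∈ K, ∀ j, ContDiffAt ℝ ∞ (T i j) t) (hu : ∀ i ∈ K, ContDiffAt ℝ ∞ (u i) t)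
    (h0 : ∀ i ∈ K, ∀ j, 0 ≤ hh i j)
    (h1 : ∀ i ∈ K, ∀ j, ‖T i j t‖ ≤ √(hh i j) * N i j t)
    (h2 : ∀ i ∈ K, ∀ j, -(2 * hh i j) ≤ rho (jj (fun t => ((N i j t : ℝ) : ℂ)) (T i j) ε) t)
    (h3 : ∀ i ∈ K, 3 * ∑ j, hh i j ≤ (dzb (dz (fun t => ((u i t : ℝ) : ℂ))) t).re)
    {n : ℝ} (hn : (K.card : ℝ) * Fintype.card J ≤ n) (hn0 : 0 ≤ n) :
    1 / (4 * (n + 1)) *
      ‖(∑ i ∈ K, ((∑ j, jj (fun t => ((N i j t : ℝ) : ℂ)) (T i j) ε t) +
          dz (fun t => ((u i t : ℝ) : ℂ)) t / 2)) -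
        dz (fun t => ((∑ i ∈ K, ((∑ j, Real.log (N i j t + ε)) + u i t) : ℝ) : ℂ)) t / 2‖ ^ 2 ≤
      rho (fun t => ∑ i ∈ K, ((∑ j, jj (fun t => ((N i j t : ℝ) : ℂ)) (T i j) ε t) +
          dz (fun t => ((u i t : ℝ) : ℂ)) t / 2)) t := by
  have hpos : ∀ i ∈ K, ∀ j, 0 < N i j t + ε := fun i hi j => by linarith [hN0 i hi j]
  have hd : ∀ {f : ℂ → ℂ}, ContDiffAt ℝ ∞ f t → DifferentiableAt ℝ f t :=
    fun h => h.differentiableAt (by simp)
  have hd' : ∀ {f : ℂ → ℝ}, ContDiffAt ℝ ∞ f t → DifferentiableAt ℝ f t :=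
    fun h => h.differentiableAt (by simp)
  -- the divergence
  have hrho : ∑ i ∈ K, ∑ j, hh i j ≤
      rho (fun t => ∑ i ∈ K, ((∑ j, jj (fun t => ((N i j t : ℝ) : ℂ)) (T i j) ε t) +
          dz (fun t => ((u i t : ℝ) : ℂ)) t / 2)) t := by
    have e1 : dzb (fun t => ∑ i ∈ K, ((∑ j, jj (fun t => ((N i j t : ℝ) : ℂ)) (T i j) ε t) +
          dz (fun t => ((u i t : ℝ) : ℂ)) t / 2)) t =
        ∑ i ∈ K, ((∑ j, dzb (jj (fun t => ((N i j t : ℝ) : ℂ)) (T i j) ε) t) +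
          dzb (dz (fun t => ((u i t : ℝ) : ℂ))) t / 2) := by
      rw [WirtM_dzb_sum K (f := fun i t => (∑ j, jj (fun t => ((N i j t : ℝ) : ℂ)) (T i j) ε t) +
          dz (fun t => ((u i t : ℝ) : ℂ)) t / 2)]
      · refine Finset.sum_congr rfl fun i hi => ?_
        have d1 : ∀ j, DifferentiableAt ℝ (jj (fun t => ((N i j t : ℝ) : ℂ)) (T i j) ε) t :=
          fun j => hd (C5_jj (hN i hi j) (hT i hi j) (hpos i hi j))
        have d2 : DifferentiableAt ℝ (dz (fun t => ((u i t : ℝ) : ℂ))) t :=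
          hd (C5_dz (C5_ofReal (hu i hi)))
        rw [dzb_add (DifferentiableAt.fun_sum fun j _ => d1 j) (C5_half d2),
          WirtM_dzb_sum Finset.univ (f := fun j => jj (fun t => ((N i j t : ℝ) : ℂ)) (T i j) ε)
            fun j _ => d1 j]
        congr 1
        have e2 : (fun t' => dz (fun t => ((u i t : ℝ) : ℂ)) t' / 2) =
            fun t' => (2 : ℂ)⁻¹ * dz (fun t => ((u i t : ℝ) : ℂ)) t' := by
          funext t'
          rw [div_eq_inv_mul]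
        rw [e2, WirtM_dzb_smul _ d2, div_eq_inv_mul]
      · intro i hi
        exact (DifferentiableAt.fun_sum fun j _ =>
          hd (C5_jj (hN i hi j) (hT i hi j) (hpos i hi j))).add
          (C5_half (hd (C5_dz (C5_ofReal (hu i hi)))))
    rw [rho, e1, Complex.re_sum, Finset.mul_sum]
    refine Finset.sum_le_sum fun i hi => ?_
    have e3 : (2 : ℝ) * ((∑ j, dzb (jj (fun t => ((N i j t : ℝ) : ℂ)) (T i j) ε) t) +
          dzb (dz (fun t => ((u i t : ℝ) : ℂ))) t / 2).re =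
        (∑ j, rho (jj (fun t => ((N i j t : ℝ) : ℂ)) (T i j) ε) t) +
          (dzb (dz (fun t => ((u i t : ℝ) : ℂ))) t).re := by
      rw [Complex.add_re, Complex.re_sum, mul_add, Finset.mul_sum]
      congr 1
      have : (dzb (dz (fun t => ((u i t : ℝ) : ℂ))) t / 2).re =
          (dzb (dz (fun t => ((u i t : ℝ) : ℂ))) t).re / 2 := by
        rw [← Complex.ofReal_ofNat, Complex.div_ofReal_re]
      rw [this]
      ring
    rw [e3]
    have e4 : ∑ j, -(2 * hh i j) ≤ ∑ j, rho (jj (fun t => ((N i j t : ℝ) : ℂ)) (T i j) ε) t :=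
      Finset.sum_le_sum fun j _ => h2 i hi j
    have e5 : ∑ j, -(2 * hh i j) = -(2 * ∑ j, hh i j) := by
      rw [Finset.sum_neg_distrib, ← Finset.mul_sum]
    rw [e5] at e4
    linarith [h3 i hi]
  -- the difference
  have hdiff : (∑ i ∈ K, ((∑ j, jj (fun t => ((N i j t : ℝ) : ℂ)) (T i j) ε t) +
          dz (fun t => ((u i t : ℝ) : ℂ)) t / 2)) -
        dz (fun t => ((∑ i ∈ K, ((∑ j, Real.log (N i j t + ε)) + u i t) : ℝ) : ℂ)) t / 2 =
      ∑ i ∈ K, ∑ j, 2 * T i j t / (((N i j t : ℝ) : ℂ) + ((ε : ℝ) : ℂ)) := by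
    have e1 : dz (fun t => ((∑ i ∈ K, ((∑ j, Real.log (N i j t + ε)) + u i t) : ℝ) : ℂ)) t =
        ∑ i ∈ K, ((∑ j, dz (fun t => ((N i j t : ℝ) : ℂ)) t /
          (((N i j t : ℝ) : ℂ) + ((ε : ℝ) : ℂ))) + dz (fun t => ((u i t : ℝ) : ℂ)) t) := by
      have e2 : (fun t => ((∑ i ∈ K, ((∑ j, Real.log (N i j t + ε)) + u i t) : ℝ) : ℂ)) =
          fun t => ∑ i ∈ K, ((∑ j, ((Real.log (N i j t + ε) : ℝ) : ℂ)) + ((u i t : ℝ) : ℂ)) := by
        funext t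
        push_cast
        rfl
      rw [e2, WirtM_dz_sum K (f := fun i t =>
        (∑ j, ((Real.log (N i j t + ε) : ℝ) : ℂ)) + ((u i t : ℝ) : ℂ))]
      · refine Finset.sum_congr rfl fun i hi => ?_
        have d1 : ∀ j, DifferentiableAt ℝ (fun t => ((Real.log (N i j t + ε) : ℝ) : ℂ)) t :=
          fun j => hd (C5_ofReal (C5_logsm (hN i hi j) (hpos i hi j)))
        rw [dz_add (DifferentiableAt.fun_sum fun j _ => d1 j) (hd (C5_ofReal (hu i hi))),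
          WirtM_dz_sum Finset.univ (f := fun j t => ((Real.log (N i j t + ε) : ℝ) : ℂ))
            fun j _ => d1 j]
        congr 1
        exact Finset.sum_congr rfl fun j _ => C5_log (hd' (hN i hi j)) (hpos i hi j)
      · intro i hi
        exact (DifferentiableAt.fun_sum fun j _ =>
          hd (C5_ofReal (C5_logsm (hN i hi j) (hpos i hi j)))).add (hd (C5_ofReal (hu i hi)))
    rw [e1, Finset.sum_div, ← Finset.sum_sub_distrib]
    refine Finset.sum_congr rfl fun i _ => ?_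
    rw [add_div, Finset.sum_div, add_sub_add_right_eq_sub, ← Finset.sum_sub_distrib]
    refine Finset.sum_congr rfl fun j _ => ?_
    rw [jj]
    ring
  have hnorm : ‖∑ i ∈ K, ∑ j, 2 * T i j t / (((N i j t : ℝ) : ℂ) + ((ε : ℝ) : ℂ))‖ ≤
      2 * ∑ i ∈ K, ∑ j, √(hh i j) := by
    refine (norm_sum_le _ _).trans ?_
    rw [Finset.mul_sum]
    refine Finset.sum_le_sum fun i hi => ?_
    refine (norm_sum_le _ _).trans ?_
    rw [Finset.mul_sum]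
    refine Finset.sum_le_sum fun j _ => ?_
    have e1 : ‖((N i j t : ℝ) : ℂ) + ((ε : ℝ) : ℂ)‖ = N i j t + ε := by
      rw [← Complex.ofReal_add, Complex.norm_of_nonneg (hpos i hi j).le]
    rw [norm_div, norm_mul, e1, Complex.norm_ofNat, div_le_iff₀ (hpos i hi j)]
    have e2 := h1 i hi j
    have e3 := Real.sqrt_nonneg (hh i j)
    nlinarith [mul_nonneg e3 hε.le]
  have hcs : (∑ i ∈ K, ∑ j, √(hh i j)) ^ 2 ≤
      ((K.card : ℝ) * Fintype.card J) * ∑ i ∈ K, ∑ j, hh i j := by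
    have e1 := sq_sum_le_card_mul_sum_sq (s := K ×ˢ (Finset.univ : Finset J))
      (f := fun p : ι × J => √(hh p.1 p.2))
    rw [Finset.sum_product, Finset.sum_product, Finset.card_product, Finset.card_univ] at e1
    push_cast at e1
    refine e1.trans (le_of_eq ?_)
    congr 1
    refine Finset.sum_congr rfl fun i hi => Finset.sum_congr rfl fun j _ => ?_
    exact Real.sq_sqrt (h0 i hi j)
  have hS : 0 ≤ ∑ i ∈ K, ∑ j, hh i j :=
    Finset.sum_nonneg fun i hi => Finset.sum_nonneg fun j _ => h0 i hi j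
  rw [hdiff]
  refine le_trans ?_ hrho
  have e6 : ‖∑ i ∈ K, ∑ j, 2 * T i j t / (((N i j t : ℝ) : ℂ) + ((ε : ℝ) : ℂ))‖ ^ 2 ≤
      (2 * ∑ i ∈ K, ∑ j, √(hh i j)) ^ 2 := pow_le_pow_left₀ (norm_nonneg _) hnorm 2
  have e7 : (2 * ∑ i ∈ K, ∑ j, √(hh i j)) ^ 2 ≤ 4 * (n + 1) * ∑ i ∈ K, ∑ j, hh i j := by
    rw [mul_pow]
    have e8 : ((K.card : ℝ) * Fintype.card J) * ∑ i ∈ K, ∑ j, hh i j ≤
        n * ∑ i ∈ K, ∑ j, hh i j := mul_le_mul_of_nonneg_right hn hS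
    nlinarith
  rw [one_div, inv_mul_le_iff₀ (by positivity)]
  exact e6.trans e7

/-- the index set of the local sums -/
noncomputable def C5_K (hc : IsCov F s π) (c : ACurve R F S E) (t : ℂ) :
    Finset (Σ _ : Fin d → ℂ, X) := (c.sol t).sigma fun v => (hc.fin v).toFinset

theorem C5_card (hc : IsCov F s π) (c : ACurve R F S E) {t : ℂ} (ht : t ∉ c.B) :
    (C5_K hc c t).card = R * s := by
  rw [C5_K, Finset.card_sigma]
  refine (Finset.sum_const_nat (m := s) fun v hv => ?_).trans (congrArg (· * s) (c.card t ht))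
  rw [← Set.ncard_eq_toFinset_card _ (hc.fin v)]
  exact hc.sheets v (c.ne t ht v hv)

theorem C5_local {M : Type} [AddCommMonoid M] (hc : IsCov F s π) (c : ACurve R F S E)
    {val : X → (ℂ → (Fin d → ℂ)) → ℂ → M} (hval : GermFun π val) {t₁ : ℂ} (h : t₁ ∉ c.B) :
    sumX hc c val =ᶠ[𝓝 t₁] fun t => ∑ p ∈ C5_K hc c t₁, val p.2 (c.br t₁ p.1) t := by
  filter_upwards [sum_local hc c hval h] with t ht
  rw [ht, C5_K, Finset.sum_sigma]

/-- the data at a point of the index set -/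
theorem C5_dat (hc : IsCov F s π) (H : HFam π J A) (c : ACurve R F S E)
    (hE : ∀ v ∈ E, ∀ x, π x = v → ∀ b t, AnalyticAt ℂ b t → b t = v → H.G x b t)
    {t : ℂ} (ht : t ∉ c.B) {p : Σ _ : Fin d → ℂ, X} (hp : p ∈ C5_K hc c t) :
    AnalyticAt ℂ (c.br t p.1) t ∧ c.br t p.1 t = π p.2 ∧ H.G p.2 (c.br t p.1) t := by
  rw [C5_K, Finset.mem_sigma] at hp
  obtain ⟨h1, h2⟩ := hp
  have h3 : π p.2 = p.1 := (hc.fin p.1).mem_toFinset.1 h2
  exact ⟨c.an t ht _ h1, (c.start t ht _ h1).trans h3.symm, good_all hc H c hE t ht _ h1 _ h3⟩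

theorem C5_nn (H : HFam π J A) {b : ℂ → (Fin d → ℂ)} {t : ℂ} {x : X} (h : b t = π x) (j : J) :
    0 ≤ H.N x j (b t) := by
  rw [h]
  exact (H.nn x j).self_of_nhds

theorem sum_smooth (hc : IsCov F s π) (H : HFam π J A) (c : ACurve R F S E)
    (hE : ∀ v ∈ E, ∀ x, π x = v → ∀ b t, AnalyticAt ℂ b t → b t = v → H.G x b t) {ε : ℝ}
    (hε : 0 < ε) {t : ℂ} (ht : t ∉ c.B) :
    ContDiffAt ℝ ∞ (sumX hc c (valG H ε)) t ∧ ContDiffAt ℝ ∞ (sumX hc c (valj H ε)) t := by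
  constructor
  · refine ContDiffAt.congr_of_eventuallyEq ?_ (C5_local hc c (valG_germ H ε) ht)
    refine ContDiffAt.sum fun p hp => ?_
    obtain ⟨h1, h2, h3⟩ := C5_dat hc H c hE ht hp
    refine ContDiffAt.add (ContDiffAt.sum fun j _ => ?_) (H.smu _ _ _ h1 h2 h3)
    exact C5_logsm (H.smN _ _ _ h1 h2 h3 j) (by linarith [C5_nn H h2 j])
  · refine ContDiffAt.congr_of_eventuallyEq ?_ (C5_local hc c (valj_germ H ε) ht)
    refine ContDiffAt.sum fun p hp => ?_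
    obtain ⟨h1, h2, h3⟩ := C5_dat hc H c hE ht hp
    refine ContDiffAt.add (ContDiffAt.sum fun j _ => ?_)
      ((C5_dz (C5_ofReal (H.smu _ _ _ h1 h2 h3))).div_const 2)
    exact C5_jj (H.smN _ _ _ h1 h2 h3 j) (H.smT _ _ _ h1 h2 h3 j) (by linarith [C5_nn H h2 j])

theorem sum_ineq (hc : IsCov F s π) (H : HFam π J A) (c : ACurve R F S E)
    (hE : ∀ v ∈ E, ∀ x, π x = v → ∀ b t, AnalyticAt ℂ b t → b t = v → H.G x b t) {ε : ℝ}
    (hε : 0 < ε) {t : ℂ} (ht : t ∉ c.B) :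
    1 / (4 * ((R : ℝ) * s * Fintype.card J + 1)) *
        ‖sumX hc c (valj H ε) t - dz (fun t => ((sumX hc c (valG H ε) t : ℝ) : ℂ)) t / 2‖ ^ 2 ≤
      rho (sumX hc c (valj H ε)) t := by
  classical
  have hG := C5_local hc c (valG_germ H ε) ht
  have hj := C5_local hc c (valj_germ H ε) ht
  have h1 : ∀ p : Σ _ : Fin d → ℂ, X, ∃ hh : J → ℝ, p ∈ C5_K hc c t → (∀ j, 0 ≤ hh j) ∧
    (∀ j, ‖H.T p.2 j (c.br t p.1 t) (deriv (c.br t p.1) t)‖ ≤
      √(hh j) * H.N p.2 j (c.br t p.1 t)) ∧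
    (∀ j (ε : ℝ), 0 < ε → -(2 * hh j) ≤
      rho (jj (fun t' => ((H.N p.2 j (c.br t p.1 t') : ℝ) : ℂ))
        (fun t' => H.T p.2 j (c.br t p.1 t') (deriv (c.br t p.1) t')) ε) t) ∧
    3 * ∑ j, hh j ≤ (dzb (dz (fun t' => ((H.u p.2 (c.br t p.1 t') : ℝ) : ℂ))) t).re := by
    intro p
    by_cases hp : p ∈ C5_K hc c t
    · obtain ⟨h1, h2, h3⟩ := C5_dat hc H c hE ht hp
      obtain ⟨hh, h4⟩ := H.ineq _ _ _ h1 h2 h3
      exact ⟨hh, fun _ => h4⟩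
    · exact ⟨fun _ => 0, fun h => absurd h hp⟩
  choose hh hhh using h1
  have key := C5_abs (C5_K hc c t) (N := fun p j t' => H.N p.2 j (c.br t p.1 t'))
    (T := fun p j t' => H.T p.2 j (c.br t p.1 t') (deriv (c.br t p.1) t'))
    (u := fun p t' => H.u p.2 (c.br t p.1 t')) (hh := hh) hε (t := t)
    (fun p hp j => by
      obtain ⟨h1, h2, h3⟩ := C5_dat hc H c hE ht hp
      exact H.smN _ _ _ h1 h2 h3 j)
    (fun p hp j => by
      obtain ⟨h1, h2, h3⟩ := C5_dat hc H c hE ht hp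
      exact C5_nn H h2 j)
    (fun p hp j => by
      obtain ⟨h1, h2, h3⟩ := C5_dat hc H c hE ht hp
      exact H.smT _ _ _ h1 h2 h3 j)
    (fun p hp => by
      obtain ⟨h1, h2, h3⟩ := C5_dat hc H c hE ht hp
      exact H.smu _ _ _ h1 h2 h3)
    (fun p hp => (hhh p hp).1) (fun p hp => (hhh p hp).2.1)
    (fun p hp j => (hhh p hp).2.2.1 j ε hε) (fun p hp => (hhh p hp).2.2.2)
    (n := (R : ℝ) * s * Fintype.card J)
    (by rw [C5_card hc c ht]; push_cast; exact le_refl _) (by positivity)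
  have e1 : (fun t => ((sumX hc c (valG H ε) t : ℝ) : ℂ)) =ᶠ[𝓝 t]
      fun t' => ((∑ p ∈ C5_K hc c t, valG H ε p.2 (c.br t p.1) t' : ℝ) : ℂ) := by
    filter_upwards [hG] with t' ht'
    rw [ht']
  have e2 : rho (sumX hc c (valj H ε)) t =
      rho (fun t' => ∑ p ∈ C5_K hc c t, valj H ε p.2 (c.br t p.1) t') t := by
    rw [rho, rho, dzb_congr hj]
  rw [e2, dz_congr e1, hj.self_of_nhds]
  exact key

end AD67
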