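import Pool.Agent.LibAD67.C5

/-!
Row C5b: the differential inequality in the form needed for `PU19.oneVarU` (same proof as `sum_ineq`
of row C5, with `∑ hh ≤ (1/3) Re dzb dz (∑ u)`), smoothness of `sumX u`.

PLAN. Same local representation: near t, sumX valu = ∑ u x (br t v) (sum_local for the germ function
valu), dz, dzb of it are the sums of those of the terms. rho (sumX valj) ≥ ∑ (-2 hh) + 3 ∑ hh ≥ 0;
‖·‖² ≤ 4 n₀ ∑ hh ≤ (4 n₀ / 3) Re dzb dz (sumX valu), n₀ = R s card J.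
-/

open Complex Filter Topology
open scoped ContDiff

namespace AD67

open SP38 US38

variable {X : Type} [TopologicalSpace X] {d : ℕ} {F : MvPolynomial (Fin d) ℂ} {s : ℕ}
  {π : X → Fin d → ℂ} {J : Type} [Fintype J] {A : ℝ} {R : ℕ} {S : Finset (Fin d → ℂ)}
  {E : Set (Fin d → ℂ)}

/-- the value of `u` -/
noncomputable def valu (H : HFam π J A) (x : X) (b : ℂ → (Fin d → ℂ)) (t : ℂ) : ℝ := H.u x (b t)

theorem valu_germ (H : HFam π J A) : GermFun π (valu H) where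
  germ := fun x b b' t h => by
    rw [valu, valu, h.self_of_nhds]
  loc := fun x b t hb hx => by
    have h1 := H.compat x
    have h2 : ∀ᶠ q : ℂ × X in 𝓝 (t, x), ∃ σ : Equiv.Perm J, ∀ᶠ v in 𝓝 (π q.2),
        (∀ j, H.N q.2 (σ j) v = H.N x j v ∧ ∀ ξ, H.T q.2 (σ j) v ξ = H.T x j v ξ) ∧
          H.u q.2 v = H.u x v := (continuous_snd.tendsto (t, x)).eventually h1
    filter_upwards [h2] with q hq hbq
    obtain ⟨σ, hσ⟩ := hq
    rw [valu, valu, hbq]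
    exact hσ.self_of_nhds.2

theorem sumu_smooth (hc : IsCov F s π) (H : HFam π J A) (c : ACurve R F S E)
    (hE : ∀ v ∈ E, ∀ x, π x = v → ∀ b t, AnalyticAt ℂ b t → b t = v → H.G x b t) {t : ℂ}
    (ht : t ∉ c.B) : ContDiffAt ℝ ∞ (sumX hc c (valu H)) t := by
  refine ContDiffAt.congr_of_eventuallyEq ?_ (C5_local hc c (valu_germ H) ht)
  refine ContDiffAt.sum fun p hp => ?_
  obtain ⟨h1, h2, h3⟩ := C5_dat hc H c hE ht hp
  exact H.smu _ _ _ h1 h2 h3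

theorem C5b_lapu {ι : Type*} (K : Finset ι) {u : ι → ℂ → ℝ} {t : ℂ}
    (hu : ∀ i ∈ K, ContDiffAt ℝ ∞ (u i) t) :
    dzb (dz (fun t => ((∑ i ∈ K, u i t : ℝ) : ℂ))) t =
      ∑ i ∈ K, dzb (dz (fun t => ((u i t : ℝ) : ℂ))) t := by
  have h1 : ∀ i ∈ K, ∀ᶠ t' in 𝓝 t, DifferentiableAt ℝ (fun t => ((u i t : ℝ) : ℂ)) t' := by
    intro i hi
    have h2 : ContDiffAt ℝ 1 (u i) t := (hu i hi).of_le (by simp)
    filter_upwards [h2.eventually (by simp)] with t' ht'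
    exact (Complex.ofRealCLM.differentiableAt).comp t' (ht'.differentiableAt (by simp))
  have h2 : (dz (fun t => ((∑ i ∈ K, u i t : ℝ) : ℂ))) =ᶠ[𝓝 t]
      fun t' => ∑ i ∈ K, dz (fun t => ((u i t : ℝ) : ℂ)) t' := by
    filter_upwards [(Filter.eventually_all_finset K).2 h1] with t' ht'
    have e : (fun t => ((∑ i ∈ K, u i t : ℝ) : ℂ)) = fun t => ∑ i ∈ K, ((u i t : ℝ) : ℂ) := by
      funext t
      push_cast
      rfl
    rw [e, WirtM_dz_sum K (f := fun i t => ((u i t : ℝ) : ℂ)) ht']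
  rw [dzb_congr h2, WirtM_dzb_sum K (f := fun i t' => dz (fun t => ((u i t : ℝ) : ℂ)) t')]
  exact fun i hi => (C5_dz (C5_ofReal (hu i hi))).differentiableAt (by simp)

theorem C5b_diff {ι : Type*} (K : Finset ι) {N : ι → J → ℂ → ℝ} {T : ι → J → ℂ → ℂ}
    {u : ι → ℂ → ℝ} {hh : ι → J → ℝ} {ε : ℝ} (hε : 0 < ε) {t : ℂ}
    (hN : ∀ i ∈ K, ∀ j, ContDiffAt ℝ ∞ (N i j) t) (hN0 : ∀ i ∈ K, ∀ j, 0 ≤ N i j t)
    (hu : ∀ i ∈ K, ContDiffAt ℝ ∞ (u i) t)
    (h0 : ∀ i ∈ K, ∀ j, 0 ≤ hh i j)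
    (h1 : ∀ i ∈ K, ∀ j, ‖T i j t‖ ≤ √(hh i j) * N i j t) :
      ‖(∑ i ∈ K, ((∑ j, jj (fun t => ((N i j t : ℝ) : ℂ)) (T i j) ε t) +
          dz (fun t => ((u i t : ℝ) : ℂ)) t / 2)) -
        dz (fun t => ((∑ i ∈ K, ((∑ j, Real.log (N i j t + ε)) + u i t) : ℝ) : ℂ)) t / 2‖ ^ 2 ≤
      4 * (((K.card : ℝ) * Fintype.card J) * ∑ i ∈ K, ∑ j, hh i j) := by
  have hpos : ∀ i ∈ K, ∀ j, 0 < N i j t + ε := fun i hi j => by linarith [hN0 i hi j]
  have hd : ∀ {f : ℂ → ℂ}, ContDiffAt ℝ ∞ f t → DifferentiableAt ℝ f t :=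
    fun h => h.differentiableAt (by simp)
  have hd' : ∀ {f : ℂ → ℝ}, ContDiffAt ℝ ∞ f t → DifferentiableAt ℝ f t :=
    fun h => h.differentiableAt (by simp)
  have hdiff : (∑ i ∈ K, ((∑ j, jj (fun t => ((N i j t : ℝ) : ℂ)) (T i j) ε t) +
          dz (fun t => ((u i t : ℝ) : ℂ)) t / 2)) -
        dz (fun t => ((∑ i ∈ K, ((∑ j, Real.log (N i j t + ε)) + u i t) : ℝ) : ℂ)) t / 2 =
      ∑ i ∈ K, ∑ j, 2 * T i j t / (((N i j t : ℝ) : ℂ) + ((ε : ℝ) : ℂ)) := by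
    have e1 : dz (fun t => ((∑ i ∈ K, ((∑ j, Real.log (N i j t + ε)) + u i t) : ℝ) : ℂ)) t =
        ∑ i ∈ K, ((∑ j, dz (fun t => ((N i j t : ℝ) : ℂ)) t /
          (((N i j t : ℝ) : ℂ) + ((ε : ℝ) : ℂ))) + dz (fun t => ((u i t : ℝ) : ℂ)) t) := by
      have e2 : (fun t => ((∑ i ∈ K, ((∑ j, Real.log (N i j t + ε)) + u i t) : ℝ) : ℂ)) =
          fun t => ∑ i ∈ K, ((∑ j, ((Real.log (N i j t + ε) : ℝ) : ℂ)) + ((u i t : ℝ) : ℂ)) := by
        funext t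
        push_cast
        rfl
      rw [e2, WirtM_dz_sum K (f := fun i t =>
        (∑ j, ((Real.log (N i j t + ε) : ℝ) : ℂ)) + ((u i t : ℝ) : ℂ))]
      · refine Finset.sum_congr rfl fun i hi => ?_
        have d1 : ∀ j, DifferentiableAt ℝ (fun t => ((Real.log (N i j t + ε) : ℝ) : ℂ)) t :=
          fun j => hd (C5_ofReal (C5_logsm (hN i hi j) (hpos i hi j)))
        rw [dz_add (DifferentiableAt.fun_sum fun j _ => d1 j) (hd (C5_ofReal (hu i hi))),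
          WirtM_dz_sum Finset.univ (f := fun j t => ((Real.log (N i j t + ε) : ℝ) : ℂ))
            fun j _ => d1 j]
        congr 1
        exact Finset.sum_congr rfl fun j _ => C5_log (hd' (hN i hi j)) (hpos i hi j)
      · intro i hi
        exact (DifferentiableAt.fun_sum fun j _ =>
          hd (C5_ofReal (C5_logsm (hN i hi j) (hpos i hi j)))).add (hd (C5_ofReal (hu i hi)))
    rw [e1, Finset.sum_div, ← Finset.sum_sub_distrib]
    refine Finset.sum_congr rfl fun i _ => ?_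
    rw [add_div, Finset.sum_div, add_sub_add_right_eq_sub, ← Finset.sum_sub_distrib]
    refine Finset.sum_congr rfl fun j _ => ?_
    rw [jj]
    ring
  have hnorm : ‖∑ i ∈ K, ∑ j, 2 * T i j t / (((N i j t : ℝ) : ℂ) + ((ε : ℝ) : ℂ))‖ ≤
      2 * ∑ i ∈ K, ∑ j, √(hh i j) := by
    refine (norm_sum_le _ _).trans ?_
    rw [Finset.mul_sum]
    refine Finset.sum_le_sum fun i hi => ?_
    refine (norm_sum_le _ _).trans ?_
    rw [Finset.mul_sum]
    refine Finset.sum_le_sum fun j _ => ?_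
    have e1 : ‖((N i j t : ℝ) : ℂ) + ((ε : ℝ) : ℂ)‖ = N i j t + ε := by
      rw [← Complex.ofReal_add, Complex.norm_of_nonneg (hpos i hi j).le]
    rw [norm_div, norm_mul, e1, Complex.norm_ofNat, div_le_iff₀ (hpos i hi j)]
    have e2 := h1 i hi j
    have e3 := Real.sqrt_nonneg (hh i j)
    nlinarith [mul_nonneg e3 hε.le]
  have hcs : (∑ i ∈ K, ∑ j, √(hh i j)) ^ 2 ≤
      ((K.card : ℝ) * Fintype.card J) * ∑ i ∈ K, ∑ j, hh i j := by
    have e1 := sq_sum_le_card_mul_sum_sq (s := K ×ˢ (Finset.univ : Finset J))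
      (f := fun p : ι × J => √(hh p.1 p.2))
    rw [Finset.sum_product, Finset.sum_product, Finset.card_product, Finset.card_univ] at e1
    push_cast at e1
    refine e1.trans (le_of_eq ?_)
    congr 1
    refine Finset.sum_congr rfl fun i hi => Finset.sum_congr rfl fun j _ => ?_
    exact Real.sq_sqrt (h0 i hi j)
  rw [hdiff]
  have e6 : ‖∑ i ∈ K, ∑ j, 2 * T i j t / (((N i j t : ℝ) : ℂ) + ((ε : ℝ) : ℂ))‖ ^ 2 ≤
      (2 * ∑ i ∈ K, ∑ j, √(hh i j)) ^ 2 := pow_le_pow_left₀ (norm_nonneg _) hnorm 2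
  rw [mul_pow] at e6
  linarith

theorem sum_ineqU (hc : IsCov F s π) (H : HFam π J A) (c : ACurve R F S E)
    (hE : ∀ v ∈ E, ∀ x, π x = v → ∀ b t, AnalyticAt ℂ b t → b t = v → H.G x b t) {ε : ℝ}
    (hε : 0 < ε) {t : ℂ} (ht : t ∉ c.B) :
    0 ≤ rho (sumX hc c (valj H ε)) t ∧
    ‖sumX hc c (valj H ε) t - dz (fun t => ((sumX hc c (valG H ε) t : ℝ) : ℂ)) t / 2‖ ^ 2 ≤
      (4 * ((R : ℝ) * s * Fintype.card J) / 3) *
        (dzb (dz (fun t => ((sumX hc c (valu H) t : ℝ) : ℂ))) t).re := by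
  classical
  refine ⟨le_trans (by positivity) (sum_ineq hc H c hE hε ht), ?_⟩
  have hG := C5_local hc c (valG_germ H ε) ht
  have hj := C5_local hc c (valj_germ H ε) ht
  have hu := C5_local hc c (valu_germ H) ht
  have h1 : ∀ p : Σ _ : Fin d → ℂ, X, ∃ hh : J → ℝ, p ∈ C5_K hc c t → (∀ j, 0 ≤ hh j) ∧
    (∀ j, ‖H.T p.2 j (c.br t p.1 t) (deriv (c.br t p.1) t)‖ ≤
      √(hh j) * H.N p.2 j (c.br t p.1 t)) ∧
    (∀ j (ε : ℝ), 0 < ε → -(2 * hh j) ≤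
      rho (jj (fun t' => ((H.N p.2 j (c.br t p.1 t') : ℝ) : ℂ))
        (fun t' => H.T p.2 j (c.br t p.1 t') (deriv (c.br t p.1) t')) ε) t) ∧
    3 * ∑ j, hh j ≤ (dzb (dz (fun t' => ((H.u p.2 (c.br t p.1 t') : ℝ) : ℂ))) t).re := by
    intro p
    by_cases hp : p ∈ C5_K hc c t
    · obtain ⟨h1, h2, h3⟩ := C5_dat hc H c hE ht hp
      obtain ⟨hh, h4⟩ := H.ineq _ _ _ h1 h2 h3
      exact ⟨hh, fun _ => h4⟩
    · exact ⟨fun _ => 0, fun h => absurd h hp⟩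
  choose hh hhh using h1
  have key := C5b_diff (C5_K hc c t) (N := fun p j t' => H.N p.2 j (c.br t p.1 t'))
    (T := fun p j t' => H.T p.2 j (c.br t p.1 t') (deriv (c.br t p.1) t'))
    (u := fun p t' => H.u p.2 (c.br t p.1 t')) (hh := hh) hε (t := t)
    (fun p hp j => by
      obtain ⟨h1, h2, h3⟩ := C5_dat hc H c hE ht hp
      exact H.smN _ _ _ h1 h2 h3 j)
    (fun p hp j => by
      obtain ⟨h1, h2, h3⟩ := C5_dat hc H c hE ht hp
      exact C5_nn H h2 j)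
    (fun p hp => by
      obtain ⟨h1, h2, h3⟩ := C5_dat hc H c hE ht hp
      exact H.smu _ _ _ h1 h2 h3)
    (fun p hp => (hhh p hp).1) (fun p hp => (hhh p hp).2.1)
  have hlap := C5b_lapu (C5_K hc c t) (u := fun p t' => H.u p.2 (c.br t p.1 t')) (t := t)
    (fun p hp => by
      obtain ⟨h1, h2, h3⟩ := C5_dat hc H c hE ht hp
      exact H.smu _ _ _ h1 h2 h3)
  have e1 : (fun t => ((sumX hc c (valG H ε) t : ℝ) : ℂ)) =ᶠ[𝓝 t]
      fun t' => ((∑ p ∈ C5_K hc c t, valG H ε p.2 (c.br t p.1) t' : ℝ) : ℂ) := by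
    filter_upwards [hG] with t' ht'
    rw [ht']
  have e2 : ∀ᶠ t'' in 𝓝 t, dz (fun t => ((sumX hc c (valu H) t : ℝ) : ℂ)) t'' =
      dz (fun t' => ((∑ p ∈ C5_K hc c t, H.u p.2 (c.br t p.1 t') : ℝ) : ℂ)) t'' := by
    filter_upwards [hu.eventually_nhds] with t'' ht''
    refine dz_congr ?_
    filter_upwards [ht''] with t' ht'
    rw [ht']
    rfl
  rw [dz_congr e1, hj.self_of_nhds, dzb_congr e2, hlap, Complex.re_sum]
  refine key.trans ?_
  rw [C5_card hc c ht]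
  push_cast
  have e3 : 3 * ∑ p ∈ C5_K hc c t, ∑ j, hh p j ≤
      ∑ p ∈ C5_K hc c t, (dzb (dz (fun t' => ((H.u p.2 (c.br t p.1 t') : ℝ) : ℂ))) t).re := by
    rw [Finset.mul_sum]
    exact Finset.sum_le_sum fun p hp => (hhh p hp).2.2.2
  have e4 : (0 : ℝ) ≤ (R : ℝ) * s * Fintype.card J := by positivity
  have e5 := mul_le_mul_of_nonneg_left e3 e4
  linarith

end AD67
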