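import Pool.Agent.LibAD67.CDef

/-!
Row C6: upper bounds from the growth condition.

PLAN. For ε ≤ 1 and t ∉ B, v ∈ sol t, x over v: b t = v for b = br t v, N x j v ≥ 0 (H.nn), so
valG ≤ ∑ log (1 + N) + u ≤ C + A log (1 + ‖v‖) (H.growth at x, π x = v), ‖v‖ ≤ C' (1 + ‖t‖) (c.bd).
There are R * s terms (c.card, hc.sheets: `Set.ncard_eq_toFinset_card`). Infinity: B is bounded,
log (1 + C'(1 + ‖t‖)) ≤ log ‖t‖ + C'' for ‖t‖ ≥ 1. Near b: ‖t‖ bounded, t ∉ B for t ≠ b near b.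
-/

open Complex Filter Topology

namespace AD67

variable {X : Type} [TopologicalSpace X] {d : ℕ} {F : MvPolynomial (Fin d) ℂ} {s : ℕ}
  {π : X → Fin d → ℂ} {J : Type} [Fintype J] {A : ℝ} {R : ℕ} {S : Finset (Fin d → ℂ)}
  {E : Set (Fin d → ℂ)}

private theorem C6_sum (hA : 0 ≤ A) (hc : IsCov F s π) (H : HFam π J A) (c : ACurve R F S E) :
    ∃ C₀ C' : ℝ, 0 ≤ C' ∧ ∀ t ∉ c.B, ∀ ε, 0 < ε → ε ≤ 1 →
      sumX hc c (valG H ε) t ≤ (R : ℝ) * s * (C₀ + A * Real.log (1 + C' * (1 + ‖t‖))) := by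
  obtain ⟨C₀, hC₀⟩ := H.growth
  obtain ⟨C', hC'⟩ := c.bd
  refine ⟨C₀, |C'|, abs_nonneg _, fun t ht ε hε hε1 => ?_⟩
  have hterm : ∀ v ∈ c.sol t, ∀ x ∈ (hc.fin v).toFinset,
      valG H ε x (c.br t v) t ≤ C₀ + A * Real.log (1 + |C'| * (1 + ‖t‖)) := by
    intro v hv x hx
    have hx' : π x = v := by
      have := (Set.Finite.mem_toFinset _).1 hx
      exact this
    have hst : c.br t v t = π x := (c.start t ht v hv).trans hx'.symm
    unfold valG
    rw [hst]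
    have h1 : ∀ j, Real.log (H.N x j (π x) + ε) ≤ Real.log (1 + H.N x j (π x)) := by
      intro j
      have h2 : 0 ≤ H.N x j (π x) := (H.nn x j).self_of_nhds
      exact Real.log_le_log (by linarith) (by linarith)
    have h2 : (∑ j, Real.log (H.N x j (π x) + ε)) + H.u x (π x) ≤
        C₀ + A * Real.log (1 + ‖π x‖) :=
      (add_le_add_left (Finset.sum_le_sum fun j _ => h1 j) _).trans (hC₀ x)
    refine h2.trans (add_le_add_right (mul_le_mul_of_nonneg_left ?_ hA) _)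
    have h3 : ‖π x‖ ≤ |C'| * (1 + ‖t‖) := by
      rw [hx']
      exact (hC' t v hv).trans (mul_le_mul_of_nonneg_right (le_abs_self _) (by positivity))
    exact Real.log_le_log (by positivity) (by linarith)
  have hin : ∀ v ∈ c.sol t, ∑ x ∈ (hc.fin v).toFinset, valG H ε x (c.br t v) t ≤
      (s : ℝ) * (C₀ + A * Real.log (1 + |C'| * (1 + ‖t‖))) := by
    intro v hv
    refine (Finset.sum_le_sum fun x hx => hterm v hv x hx).trans (le_of_eq ?_)
    rw [Finset.sum_const, nsmul_eq_mul, ← Set.ncard_eq_toFinset_card _ (hc.fin v),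
      hc.sheets v (c.ne t ht v hv)]
  unfold sumX
  refine (Finset.sum_le_sum fun v hv => hin v hv).trans (le_of_eq ?_)
  rw [Finset.sum_const, nsmul_eq_mul, c.card t ht, mul_assoc]

theorem up_inf (hA : 0 ≤ A) (hc : IsCov F s π) (H : HFam π J A) (c : ACurve R F S E) :
    ∃ C R₀ : ℝ, ∀ t, R₀ ≤ ‖t‖ → ∀ ε, 0 < ε → ε ≤ 1 →
      sumX hc c (valG H ε) t ≤ ((R : ℝ) * s * A) * Real.log ‖t‖ + C := by
  obtain ⟨C₀, C', hC', h⟩ := C6_sum hA hc H c
  obtain ⟨M, hM⟩ : ∃ M : ℝ, ∀ t ∈ c.B, ‖t‖ ≤ M := by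
    obtain ⟨M, hM⟩ := (c.B.finite_toSet.image fun t : ℂ => ‖t‖).bddAbove
    exact ⟨M, fun t ht => hM ⟨t, ht, rfl⟩⟩
  refine ⟨(R : ℝ) * s * (C₀ + A * Real.log (1 + 2 * C')), max 1 (M + 1), fun t ht ε hε hε1 => ?_⟩
  have ht1 : 1 ≤ ‖t‖ := (le_max_left _ _).trans ht
  have htM : M + 1 ≤ ‖t‖ := (le_max_right _ _).trans ht
  have htB : t ∉ c.B := fun hb => by linarith [hM t hb]
  refine (h t htB ε hε hε1).trans ?_
  have h1 : Real.log (1 + C' * (1 + ‖t‖)) ≤ Real.log ‖t‖ + Real.log (1 + 2 * C') := by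
    rw [← Real.log_mul (by linarith) (by positivity)]
    refine Real.log_le_log (by positivity) ?_
    nlinarith [mul_nonneg hC' (sub_nonneg.2 ht1)]
  have h2 : (R : ℝ) * s * A * Real.log ‖t‖ + (R : ℝ) * s * (C₀ + A * Real.log (1 + 2 * C')) =
      (R : ℝ) * s * (C₀ + A * (Real.log ‖t‖ + Real.log (1 + 2 * C'))) := by ring
  rw [h2]
  exact mul_le_mul_of_nonneg_left (add_le_add_right (mul_le_mul_of_nonneg_left h1 hA) _)
    (by positivity)

theorem up_B (hA : 0 ≤ A) (hc : IsCov F s π) (H : HFam π J A) (c : ACurve R F S E) (b : ℂ) :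
    ∃ C r : ℝ, 0 < r ∧ ∀ t, t ≠ b → ‖t - b‖ < r → ∀ ε, 0 < ε → ε ≤ 1 →
      sumX hc c (valG H ε) t ≤ C := by
  obtain ⟨C₀, C', hC', h⟩ := C6_sum hA hc H c
  have hopen : IsOpen ((((c.B.erase b : Finset ℂ) : Set ℂ))ᶜ) :=
    (Finset.finite_toSet _).isClosed.isOpen_compl
  have hb : b ∈ (((c.B.erase b : Finset ℂ) : Set ℂ))ᶜ := by simp
  obtain ⟨r, hr, hball⟩ := Metric.isOpen_iff.1 hopen b hb
  refine ⟨(R : ℝ) * s * (C₀ + A * Real.log (1 + C' * (2 + ‖b‖))), min r 1, lt_min hr one_pos,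
    fun t htb htr ε hε hε1 => ?_⟩
  have htB : t ∉ c.B := by
    intro ht
    have h1 : t ∈ Metric.ball b r := by
      rw [Metric.mem_ball, dist_eq_norm]
      exact htr.trans_le (min_le_left _ _)
    exact hball h1 (Finset.mem_coe.2 (Finset.mem_erase.2 ⟨htb, ht⟩))
  have ht2 : ‖t‖ ≤ 1 + ‖b‖ := by
    have h1 : ‖t - b‖ < 1 := htr.trans_le (min_le_right _ _)
    have h2 := norm_sub_norm_le t b
    linarith
  refine (h t htB ε hε hε1).trans ?_
  refine mul_le_mul_of_nonneg_left (add_le_add_right (mul_le_mul_of_nonneg_left ?_ hA) _)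
    (by positivity)
  refine Real.log_le_log (by positivity) ?_
  have h3 := mul_le_mul_of_nonneg_left ht2 hC'
  nlinarith

end AD67
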