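import Pool.Agent.LibAD67.C5b
import Pool.Agent.LibAD67.C6

/-!
Row C6b: upper bounds of `sumX u`.

PLAN. As C6: u x (π x) ≤ C + A log (1 + ‖π x‖) because log (1 + N) ≥ 0.
-/

open Complex Filter Topology

namespace AD67

variable {X : Type} [TopologicalSpace X] {d : ℕ} {F : MvPolynomial (Fin d) ℂ} {s : ℕ}
  {π : X → Fin d → ℂ} {J : Type} [Fintype J] {A : ℝ} {R : ℕ} {S : Finset (Fin d → ℂ)}
  {E : Set (Fin d → ℂ)}

theorem C6b_sum (hA : 0 ≤ A) (hc : IsCov F s π) (H : HFam π J A) (c : ACurve R F S E) :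
    ∃ C₀ C' : ℝ, 0 ≤ C' ∧ ∀ t ∉ c.B,
      sumX hc c (valu H) t ≤ (R : ℝ) * s * (C₀ + A * Real.log (1 + C' * (1 + ‖t‖))) := by
  obtain ⟨C₀, hC₀⟩ := H.growth
  obtain ⟨C', hC'⟩ := c.bd
  refine ⟨C₀, |C'|, abs_nonneg _, fun t ht => ?_⟩
  have hterm : ∀ v ∈ c.sol t, ∀ x ∈ (hc.fin v).toFinset,
      valu H x (c.br t v) t ≤ C₀ + A * Real.log (1 + |C'| * (1 + ‖t‖)) := by
    intro v hv x hx
    have hx' : π x = v := (hc.fin v).mem_toFinset.1 hx
    have hst : c.br t v t = π x := (c.start t ht v hv).trans hx'.symm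
    unfold valu
    rw [hst]
    have h1 : 0 ≤ ∑ j, Real.log (1 + H.N x j (π x)) := by
      refine Finset.sum_nonneg fun j _ => Real.log_nonneg ?_
      have h2 : 0 ≤ H.N x j (π x) := (H.nn x j).self_of_nhds
      linarith
    have h2 : H.u x (π x) ≤ C₀ + A * Real.log (1 + ‖π x‖) := by linarith [hC₀ x]
    refine h2.trans (add_le_add_right (mul_le_mul_of_nonneg_left ?_ hA) _)
    have h3 : ‖π x‖ ≤ |C'| * (1 + ‖t‖) := by
      rw [hx']
      exact (hC' t v hv).trans (mul_le_mul_of_nonneg_right (le_abs_self _) (by positivity))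
    exact Real.log_le_log (by positivity) (by linarith)
  have hin : ∀ v ∈ c.sol t, ∑ x ∈ (hc.fin v).toFinset, valu H x (c.br t v) t ≤
      (s : ℝ) * (C₀ + A * Real.log (1 + |C'| * (1 + ‖t‖))) := by
    intro v hv
    refine (Finset.sum_le_sum fun x hx => hterm v hv x hx).trans (le_of_eq ?_)
    rw [Finset.sum_const, nsmul_eq_mul, ← Set.ncard_eq_toFinset_card _ (hc.fin v),
      hc.sheets v (c.ne t ht v hv)]
  unfold sumX
  refine (Finset.sum_le_sum fun v hv => hin v hv).trans (le_of_eq ?_)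
  rw [Finset.sum_const, nsmul_eq_mul, c.card t ht, mul_assoc]

theorem upu_inf (hA : 0 ≤ A) (hc : IsCov F s π) (H : HFam π J A) (c : ACurve R F S E) :
    ∃ A₀ C R₀ : ℝ, ∀ t, R₀ ≤ ‖t‖ → sumX hc c (valu H) t ≤ A₀ * Real.log ‖t‖ + C := by
  obtain ⟨C₀, C', hC', h⟩ := C6b_sum hA hc H c
  obtain ⟨M, hM⟩ : ∃ M : ℝ, ∀ t ∈ c.B, ‖t‖ ≤ M := by
    obtain ⟨M, hM⟩ := (c.B.finite_toSet.image fun t : ℂ => ‖t‖).bddAbove
    exact ⟨M, fun t ht => hM ⟨t, ht, rfl⟩⟩
  refine ⟨(R : ℝ) * s * A, (R : ℝ) * s * (C₀ + A * Real.log (1 + 2 * C')), max 1 (M + 1),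
    fun t ht => ?_⟩
  have ht1 : 1 ≤ ‖t‖ := (le_max_left _ _).trans ht
  have htM : M + 1 ≤ ‖t‖ := (le_max_right _ _).trans ht
  have htB : t ∉ c.B := fun hb => by linarith [hM t hb]
  refine (h t htB).trans ?_
  have h1 : Real.log (1 + C' * (1 + ‖t‖)) ≤ Real.log ‖t‖ + Real.log (1 + 2 * C') := by
    rw [← Real.log_mul (by linarith) (by positivity)]
    refine Real.log_le_log (by positivity) ?_
    nlinarith [mul_nonneg hC' (sub_nonneg.2 ht1)]
  have h2 : (R : ℝ) * s * A * Real.log ‖t‖ + (R : ℝ) * s * (C₀ + A * Real.log (1 + 2 * C')) =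
      (R : ℝ) * s * (C₀ + A * (Real.log ‖t‖ + Real.log (1 + 2 * C'))) := by ring
  rw [h2]
  exact mul_le_mul_of_nonneg_left (add_le_add_right (mul_le_mul_of_nonneg_left h1 hA) _)
    (by positivity)

theorem upu_B (hA : 0 ≤ A) (hc : IsCov F s π) (H : HFam π J A) (c : ACurve R F S E) (b : ℂ) :
    ∃ C : ℝ, ∀ᶠ t in 𝓝[≠] b, sumX hc c (valu H) t ≤ C := by
  obtain ⟨C₀, C', hC', h⟩ := C6b_sum hA hc H c
  have hopen : IsOpen ((((c.B.erase b : Finset ℂ) : Set ℂ))ᶜ) :=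
    (Finset.finite_toSet _).isClosed.isOpen_compl
  have hb : b ∈ (((c.B.erase b : Finset ℂ) : Set ℂ))ᶜ := by simp
  refine ⟨(R : ℝ) * s * (C₀ + A * Real.log (1 + C' * (2 + ‖b‖))), ?_⟩
  filter_upwards [self_mem_nhdsWithin, nhdsWithin_le_nhds (hopen.mem_nhds hb),
    nhdsWithin_le_nhds (Metric.ball_mem_nhds b one_pos)] with t htb ht1 htr
  have htB : t ∉ c.B := by
    intro ht
    exact ht1 (Finset.mem_coe.2 (Finset.mem_erase.2 ⟨htb, ht⟩))
  have ht2 : ‖t‖ ≤ 1 + ‖b‖ := by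
    rw [Metric.mem_ball, dist_eq_norm] at htr
    have h2 := norm_sub_norm_le t b
    linarith
  refine (h t htB).trans ?_
  refine mul_le_mul_of_nonneg_left (add_le_add_right (mul_le_mul_of_nonneg_left ?_ hA) _)
    (by positivity)
  refine Real.log_le_log (by positivity) ?_
  have h3 := mul_le_mul_of_nonneg_left ht2 hC'
  nlinarith

end AD67
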