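import Pool.Agent.LibAD67.C0
import Pool.Agent.LibAD67.C6

/-!
Row C7: the upper bound at a point of `S`.
-/

open Complex Filter Topology

namespace AD67

variable {X : Type} [TopologicalSpace X] {d : ℕ} {F : MvPolynomial (Fin d) ℂ} {s : ℕ}
  {π : X → Fin d → ℂ} {J : Type} [Fintype J] {A : ℝ} {R : ℕ} {S : Finset (Fin d → ℂ)}
  {E : Set (Fin d → ℂ)}

/-- the values at a point -/
theorem C7_nn (H : HFam π J A) (x : X) (j : J) : 0 ≤ H.N x j (π x) := (H.nn x j).self_of_nhds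

theorem C7_log {N ε : ℝ} (hN : 0 ≤ N) (hε : 0 < ε) (hε1 : ε ≤ 1) :
    Real.log (N + ε) ≤ Real.log (1 + N) :=
  Real.log_le_log (by linarith) (by linarith)

/-- the bound of the value at any point -/
theorem C7_gen (hA : 0 ≤ A) (H : HFam π J A) {D K : ℝ}
    (hD : ∀ x, (∑ j, Real.log (1 + H.N x j (π x))) + H.u x (π x) ≤
      D + A * Real.log (1 + ‖π x‖)) {x : X} (hx : ‖π x‖ ≤ K) {ε : ℝ} (hε : 0 < ε) (hε1 : ε ≤ 1) :
    (∑ j, Real.log (H.N x j (π x) + ε)) + H.u x (π x) ≤ D + A * Real.log (1 + K) := by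
  have h1 : ∑ j, Real.log (H.N x j (π x) + ε) ≤ ∑ j, Real.log (1 + H.N x j (π x)) :=
    Finset.sum_le_sum fun j _ => C7_log (C7_nn H x j) hε hε1
  have h2 : A * Real.log (1 + ‖π x‖) ≤ A * Real.log (1 + K) :=
    mul_le_mul_of_nonneg_left (Real.log_le_log (by positivity) (by linarith)) hA
  linarith [hD x]

/-- the bound of the value at a point with a small term -/
theorem C7_small (hA : 0 ≤ A) (H : HFam π J A) {D K : ℝ}
    (hD : ∀ x, (∑ j, Real.log (1 + H.N x j (π x))) + H.u x (π x) ≤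
      D + A * Real.log (1 + ‖π x‖)) {x : X} (hx : ‖π x‖ ≤ K) {ε : ℝ} (hε : 0 < ε) (hε1 : ε ≤ 1)
    {j₀ : J} {q : ℝ} (hq : H.N x j₀ (π x) + ε ≤ q) :
    (∑ j, Real.log (H.N x j (π x) + ε)) + H.u x (π x) ≤
      Real.log q + (D + A * Real.log (1 + K)) := by
  classical
  have h0 := C7_nn H x j₀
  have h1 : ∑ j ∈ Finset.univ.erase j₀, Real.log (H.N x j (π x) + ε) ≤
      ∑ j ∈ Finset.univ.erase j₀, Real.log (1 + H.N x j (π x)) :=
    Finset.sum_le_sum fun j _ => C7_log (C7_nn H x j) hε hε1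
  have h2 : A * Real.log (1 + ‖π x‖) ≤ A * Real.log (1 + K) :=
    mul_le_mul_of_nonneg_left (Real.log_le_log (by positivity) (by linarith)) hA
  have h3 := Finset.add_sum_erase Finset.univ (fun j => Real.log (H.N x j (π x) + ε))
    (Finset.mem_univ j₀)
  have h4 := Finset.add_sum_erase Finset.univ (fun j => Real.log (1 + H.N x j (π x)))
    (Finset.mem_univ j₀)
  have h5 : 0 ≤ Real.log (1 + H.N x j₀ (π x)) := Real.log_nonneg (by linarith)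
  have h6 : Real.log (H.N x j₀ (π x) + ε) ≤ Real.log q := Real.log_le_log (by linarith) hq
  rw [← h3]
  have h7 := hD x
  rw [← h4] at h7
  linarith

theorem C7_notMem (B : Finset ℂ) (a : ℂ) : ∀ᶠ t in 𝓝[≠] a, t ∉ B := by
  classical
  have h1 : ∀ᶠ t in 𝓝 a, t ∉ B.erase a :=
    (B.erase a).finite_toSet.isClosed.isOpen_compl.mem_nhds (by simp)
  rw [eventually_nhdsWithin_iff]
  filter_upwards [h1] with t ht hne hB
  exact ht (Finset.mem_erase.2 ⟨hne, hB⟩)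

/-- the sum over the points above one point of the curve -/
theorem C7_fibre (hA : 0 ≤ A) (hc : IsCov F s π) (H : HFam π J A) {x₀ : X} {j₀ : J} {C₀ : ℝ}
    (hN : ∀ᶠ v in 𝓝 (π x₀), H.N x₀ j₀ v ≤ C₀ * ‖v - π x₀‖ ^ 2) (K : ℝ) :
    ∃ C : ℝ, ∀ v, ‖v‖ ≤ K → MvPolynomial.eval v F ≠ 0 → v ≠ π x₀ → ∀ ε, 0 < ε → ε ≤ 1 →
      ε ≤ ‖v - π x₀‖ ^ 2 → ∑ x ∈ (hc.fin v).toFinset,
        ((∑ j, Real.log (H.N x j v + ε)) + H.u x v) ≤ C + 2 * Real.log ‖v - π x₀‖ := by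
  classical
  obtain ⟨D, hD⟩ := H.growth
  set C₁ : ℝ := max (D + A * Real.log (1 + K)) 0 with hC₁
  have hC₁0 : 0 ≤ C₁ := le_max_right _ _
  have hC₁D : D + A * Real.log (1 + K) ≤ C₁ := le_max_left _ _
  obtain ⟨sec, hsec, hev⟩ := cover_sections hc (hc.ne x₀)
  have hy := (hsec x₀ rfl).2
  rw [ContinuousAt, (hsec x₀ rfl).1] at hy
  have h1 := hy.eventually (H.compat x₀)
  obtain ⟨δ, hδ, hδ'⟩ := Metric.eventually_nhds_iff.1 ((h1.and hev).and hN)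
  set q : ℝ := |C₀| + 1 with hq
  have hq0 : 0 < q := by positivity
  have hq1 : 0 ≤ Real.log q := Real.log_nonneg (by linarith [abs_nonneg C₀])
  refine ⟨s * C₁ + Real.log q + 2 * |Real.log δ|, ?_⟩
  intro v hv hvF hne ε hε hε1 hεv
  have hvpos : 0 < ‖v - π x₀‖ := norm_pos_iff.2 (sub_ne_zero.2 hne)
  have hcard : (hc.fin v).toFinset.card = s :=
    (Set.ncard_eq_toFinset_card _ (hc.fin v)).symm.trans (hc.sheets v hvF)
  have hmem : ∀ x ∈ (hc.fin v).toFinset, π x = v := fun x hx => by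
    rw [Set.Finite.mem_toFinset] at hx
    exact hx
  have hgen : ∀ x ∈ (hc.fin v).toFinset, (∑ j, Real.log (H.N x j v + ε)) + H.u x v ≤ C₁ := by
    intro x hx
    have h2 := C7_gen hA H hD (x := x) (K := K) (by rw [hmem x hx]; exact hv) hε hε1
    rw [hmem x hx] at h2
    exact h2.trans hC₁D
  rcases lt_or_ge ‖v - π x₀‖ δ with hlt | hge
  · obtain ⟨⟨h2, h3, h4, -⟩, h5⟩ := hδ' (y := v) (by rw [dist_eq_norm]; exact hlt)
    have hy1 : π (sec x₀ v) = v := h3 x₀ rfl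
    obtain ⟨σ, h6⟩ := h2
    rw [hy1] at h6
    obtain ⟨h7, -⟩ := h6.self_of_nhds
    have hN' : H.N (sec x₀ v) (σ j₀) (π (sec x₀ v)) + ε ≤ q * ‖v - π x₀‖ ^ 2 := by
      rw [hy1, (h7 j₀).1, hq]
      have h8 : C₀ * ‖v - π x₀‖ ^ 2 ≤ |C₀| * ‖v - π x₀‖ ^ 2 :=
        mul_le_mul_of_nonneg_right (le_abs_self _) (by positivity)
      linarith
    have h8 := C7_small hA H hD (x := sec x₀ v) (K := K) (by rw [hy1]; exact hv) hε hε1 hN'
    rw [hy1, Real.log_mul hq0.ne' (by positivity), Real.log_pow] at h8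
    have hym : sec x₀ v ∈ (hc.fin v).toFinset := by
      rw [Set.Finite.mem_toFinset]
      exact hy1
    rw [← Finset.add_sum_erase _ _ hym]
    have h9 : ∑ x ∈ (hc.fin v).toFinset.erase (sec x₀ v),
        ((∑ j, Real.log (H.N x j v + ε)) + H.u x v) ≤
        ∑ _x ∈ (hc.fin v).toFinset.erase (sec x₀ v), C₁ :=
      Finset.sum_le_sum fun x hx => hgen x (Finset.mem_of_mem_erase hx)
    rw [Finset.sum_const, nsmul_eq_mul, Finset.card_erase_of_mem hym, hcard] at h9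
    have h10 : (((s - 1 : ℕ) : ℝ)) + 1 = s := by
      have : 1 ≤ s := by
        rw [← hcard]
        exact Finset.card_pos.2 ⟨_, hym⟩
      rw [Nat.cast_sub this]
      simp
    push_cast at h8
    have h11 := abs_nonneg (Real.log δ)
    have h12 : ((s - 1 : ℕ) : ℝ) * C₁ + C₁ = s * C₁ := by
      rw [← h10]
      ring
    linarith
  · have h2 : ∑ x ∈ (hc.fin v).toFinset, ((∑ j, Real.log (H.N x j v + ε)) + H.u x v) ≤
        ∑ _x ∈ (hc.fin v).toFinset, C₁ := Finset.sum_le_sum fun x hx => hgen x hx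
    rw [Finset.sum_const, nsmul_eq_mul, hcard] at h2
    have h3 : Real.log δ ≤ Real.log ‖v - π x₀‖ := Real.log_le_log hδ hge
    have h4 := neg_abs_le (Real.log δ)
    linarith

theorem up_S (hA : 0 ≤ A) (hc : IsCov F s π) (H : HFam π J A) (c : ACurve R F S E) {x₀ : X}
    {j₀ : J} {C₀ : ℝ} (hx : π x₀ ∈ S)
    (hN : ∀ᶠ v in 𝓝 (π x₀), H.N x₀ j₀ v ≤ C₀ * ‖v - π x₀‖ ^ 2) :
    ∃ C r c₁ : ℝ, 0 < r ∧ 0 < c₁ ∧ ∀ t, t ≠ c.τ (π x₀) → ‖t - c.τ (π x₀)‖ < r → ∀ ε, 0 < ε →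
      ε ≤ 1 → ε ≤ c₁ * ‖t - c.τ (π x₀)‖ ^ 2 →
      sumX hc c (valG H ε) t ≤ 2 * Real.log ‖t - c.τ (π x₀)‖ + C := by
  set v₀ := π x₀ with hv₀
  obtain ⟨Cb, hCb⟩ := c.bd
  obtain ⟨Cn, hCn⟩ := c.near v₀ hx
  set K : ℝ := |Cb| * (2 + ‖c.τ v₀‖) with hK
  obtain ⟨C', hC'⟩ := C7_fibre hA hc H hN K
  set M : ℝ := ‖c.τ.toContinuousLinearMap‖ + 1 with hM
  have hM0 : 0 < M := by positivity
  have hτ : ∀ v, ‖c.τ v - c.τ v₀‖ ≤ M * ‖v - v₀‖ := by
    intro v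
    rw [← map_sub]
    have h1 := c.τ.toContinuousLinearMap.le_opNorm (v - v₀)
    refine (le_of_eq ?_).trans (h1.trans (mul_le_mul_of_nonneg_right ?_ (norm_nonneg _)))
    · rfl
    · linarith
  have h1 : ∀ᶠ t in 𝓝[≠] (c.τ v₀), ‖t - c.τ v₀‖ < 1 := by
    refine eventually_nhdsWithin_of_eventually_nhds ?_
    exact Metric.eventually_nhds_iff.2 ⟨1, one_pos, fun {y} hy => by
      rwa [dist_eq_norm] at hy⟩
  have h2 := (h1.and hCn).and (C7_notMem c.B (c.τ v₀))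
  rw [eventually_nhdsWithin_iff] at h2
  obtain ⟨r, hr, hr'⟩ := Metric.eventually_nhds_iff.1 h2
  refine ⟨R * C' + 2 * Real.log Cn, r, 1 / M ^ 2, hr, by positivity, ?_⟩
  intro t ht htr ε hε hε1 hεt
  obtain ⟨⟨h3, h4⟩, htB⟩ := hr' (y := t) (by rw [dist_eq_norm]; exact htr) ht
  have htpos : 0 < ‖t - c.τ v₀‖ := norm_pos_iff.2 (sub_ne_zero.2 ht)
  have hvne : ∀ v ∈ c.sol t, v ≠ v₀ := by
    intro v hv h
    rw [h] at hv
    exact ht (c.mem t v₀ hv).symm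
  have hvpos : ∀ v ∈ c.sol t, 0 < ‖v - v₀‖ := fun v hv =>
    norm_pos_iff.2 (sub_ne_zero.2 (hvne v hv))
  have hvK : ∀ v ∈ c.sol t, ‖v‖ ≤ K := by
    intro v hv
    have h5 : ‖t‖ ≤ 1 + ‖c.τ v₀‖ := by
      have := norm_le_norm_add_norm_sub' t (c.τ v₀)
      linarith
    calc ‖v‖ ≤ Cb * (1 + ‖t‖) := hCb t v hv
      _ ≤ |Cb| * (1 + ‖t‖) := mul_le_mul_of_nonneg_right (le_abs_self _) (by positivity)
      _ ≤ |Cb| * (2 + ‖c.τ v₀‖) := mul_le_mul_of_nonneg_left (by linarith) (abs_nonneg _)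
  have hvε : ∀ v ∈ c.sol t, ε ≤ ‖v - v₀‖ ^ 2 := by
    intro v hv
    have h5 := hτ v
    rw [c.mem t v hv] at h5
    calc ε ≤ 1 / M ^ 2 * ‖t - c.τ v₀‖ ^ 2 := hεt
      _ ≤ 1 / M ^ 2 * (M * ‖v - v₀‖) ^ 2 :=
        mul_le_mul_of_nonneg_left (pow_le_pow_left₀ (norm_nonneg _) h5 2) (by positivity)
      _ = ‖v - v₀‖ ^ 2 := by field_simp
  have hval : ∀ v ∈ c.sol t, ∑ x ∈ (hc.fin v).toFinset, valG H ε x (c.br t v) t ≤
      C' + 2 * Real.log ‖v - v₀‖ := by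
    intro v hv
    have h5 := hC' v (hvK v hv) (c.ne t htB v hv) (hvne v hv) ε hε hε1 (hvε v hv)
    unfold valG
    rw [c.start t htB v hv]
    exact h5
  have hsum : sumX hc c (valG H ε) t ≤ ∑ v ∈ c.sol t, (C' + 2 * Real.log ‖v - v₀‖) :=
    Finset.sum_le_sum hval
  rw [Finset.sum_add_distrib, Finset.sum_const, nsmul_eq_mul, c.card t htB, ← Finset.mul_sum,
    ← Real.log_prod (fun v hv => (hvpos v hv).ne')] at hsum
  have hprod : 0 < ∏ v ∈ c.sol t, ‖v - v₀‖ := Finset.prod_pos hvpos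
  have hCn0 : 0 < Cn := by
    by_contra hcon
    push Not at hcon
    have h5 : Cn * ‖t - c.τ v₀‖ ≤ 0 := mul_nonpos_of_nonpos_of_nonneg hcon htpos.le
    linarith
  have h6 : Real.log (∏ v ∈ c.sol t, ‖v - v₀‖) ≤ Real.log Cn + Real.log ‖t - c.τ v₀‖ := by
    rw [← Real.log_mul hCn0.ne' htpos.ne']
    exact Real.log_le_log hprod h4
  linarith

end AD67
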