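import Pool.Agent.LibAD67.C2
import Pool.Agent.LibAD67.C3
import Pool.Agent.LibAD67.C4

/-!
Row C8: the local lower bound away from isolated points.

PLAN. Near t₁ ∉ B the sum is ∑_{v, x} valG H ε x (br t₁ v) t for all t in a neighbourhood which does
not depend on ε: take `sum_local` for the germ function with values in the functions of ε:
val x b t := fun ε => valG H ε x b t (M = ℝ → ℝ; it is a GermFun by C4: repeat the proof of valG_germ with
all ε, or use that the neighbourhood in C4 does not depend on ε; then sumX commutes with evaluation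
at ε: `Finset.sum_apply`). By H.iso (discs generic by C3) for t ≠ t₁ near t₁ all
N x j (br t₁ v t) ≠ 0, and they are ≥ 0 near t₁ (H.nn and continuity of br t₁ v); also continuous
near t₁ (H.smN: ContDiffAt ∞ at t₁ implies continuous near t₁). So for fixed t ≠ t₁ near t₁ they are ≥ some
c > 0 near t, hence log (N + ε) ≥ log c for all ε > 0, and u x (br t₁ v ·) is continuous near
t, hence bounded below near t.
-/

open Complex Filter Topology
open scoped ContDiff

namespace AD67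

open SP38 US38

variable {X : Type} [TopologicalSpace X] {d : ℕ} {F : MvPolynomial (Fin d) ℂ} {s : ℕ}
  {π : X → Fin d → ℂ} {J : Type} [Fintype J] {A : ℝ} {R : ℕ} {S : Finset (Fin d → ℂ)}
  {E : Set (Fin d → ℂ)}

/-- all `ε` at the same time -/
theorem C8_germ (H : HFam π J A) :
    GermFun (M := ℝ → ℝ) π (fun x b t ε => valG H ε x b t) where
  germ x b b' t h := by
    funext ε
    exact (valG_germ H ε).germ x b b' t h
  loc x b t _ _ := by
    have h1 : ∀ᶠ q : ℂ × X in 𝓝 (t, x), ∃ σ : Equiv.Perm J, ∀ᶠ v in 𝓝 (π q.2),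
        (∀ j, H.N q.2 (σ j) v = H.N x j v ∧ ∀ ξ, H.T q.2 (σ j) v ξ = H.T x j v ξ) ∧
          H.u q.2 v = H.u x v :=
      (continuous_snd.tendsto (t, x)).eventually (H.compat x)
    filter_upwards [h1] with q hq hb
    obtain ⟨σ, hσ⟩ := hq
    obtain ⟨h2, h3⟩ := hσ.self_of_nhds
    funext ε
    unfold valG
    rw [hb, h3, ← Equiv.sum_comp σ fun j => Real.log (H.N q.2 j (π q.2) + ε)]
    congr 1
    exact Finset.sum_congr rfl fun j _ => by rw [(h2 j).1]

theorem C8_log {f : ℂ → ℝ} {t : ℂ} (hf : ContinuousAt f t) (h : 0 < f t) :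
    ∀ᶠ t' in 𝓝 t, ∀ ε, 0 < ε → Real.log (f t / 2) ≤ Real.log (f t' + ε) := by
  have h1 : ∀ᶠ t' in 𝓝 t, f t / 2 < f t' := hf.eventually (lt_mem_nhds (by linarith))
  filter_upwards [h1] with t' ht' ε hε
  exact Real.log_le_log (by linarith) (by linarith)

theorem C8_low {f : ℂ → ℝ} {t : ℂ} (hf : ContinuousAt f t) :
    ∀ᶠ t' in 𝓝 t, f t - 1 ≤ f t' := by
  have h1 : ∀ᶠ t' in 𝓝 t, f t - 1 < f t' := hf.eventually (lt_mem_nhds (by linarith))
  filter_upwards [h1] with t' ht'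
  exact ht'.le

/-- a smooth function is continuous at all nearby points -/
theorem C8_cont {f : ℂ → ℝ} {t : ℂ} (hf : ContDiffAt ℝ ∞ f t) :
    ∀ᶠ t' in 𝓝 t, ContinuousAt f t' := by
  have h1 : ContDiffAt ℝ 1 f t := hf.of_le (by exact_mod_cast le_top)
  filter_upwards [h1.eventually (by simp)] with t' ht'
  exact ht'.continuousAt

/-- one point of `X` above one branch -/
theorem C8_point (H : HFam π J A) {x : X} {b : ℂ → (Fin d → ℂ)} {t₁ : ℂ}
    (hb : AnalyticAt ℂ b t₁) (hx : b t₁ = π x) (hG : H.G x b t₁) :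
    ∀ᶠ t in 𝓝[≠] t₁, ∀ᶠ t' in 𝓝 t, ∀ ε, 0 < ε →
      (∑ j, Real.log (H.N x j (b t) / 2)) + (H.u x (b t) - 1) ≤ valG H ε x b t' := by
  have h1 : ∀ᶠ t in 𝓝[≠] t₁, ∀ j, H.N x j (b t) ≠ 0 :=
    Filter.eventually_all.2 fun j => H.iso x b t₁ hb hx hG j
  have h2 : ∀ᶠ t in 𝓝 t₁, ∀ j, 0 ≤ H.N x j (b t) := by
    refine Filter.eventually_all.2 fun j => ?_
    have h := hb.continuousAt
    rw [ContinuousAt, hx] at h
    exact h.eventually (H.nn x j)
  have h3 : ∀ᶠ t in 𝓝 t₁, ∀ j, ContinuousAt (fun t => H.N x j (b t)) t :=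
    Filter.eventually_all.2 fun j => C8_cont (H.smN x b t₁ hb hx hG j)
  have h4 : ∀ᶠ t in 𝓝 t₁, ContinuousAt (fun t => H.u x (b t)) t :=
    C8_cont (H.smu x b t₁ hb hx hG)
  filter_upwards [h1, eventually_nhdsWithin_of_eventually_nhds (h2.and (h3.and h4))]
    with t h5 h6
  obtain ⟨h7, h8, h9⟩ := h6
  have h10 : ∀ᶠ t' in 𝓝 t, ∀ j, ∀ ε, 0 < ε →
      Real.log (H.N x j (b t) / 2) ≤ Real.log (H.N x j (b t') + ε) :=
    Filter.eventually_all.2 fun j =>
      C8_log (f := fun t => H.N x j (b t)) (h8 j) (lt_of_le_of_ne (h7 j) (Ne.symm (h5 j)))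
  filter_upwards [h10, C8_low (f := fun t => H.u x (b t)) h9] with t' h11 h12 ε hε
  unfold valG
  exact add_le_add (Finset.sum_le_sum fun j _ => h11 j ε hε) h12

theorem sum_low (hc : IsCov F s π) (H : HFam π J A) (c : ACurve R F S E)
    (hE : ∀ v ∈ E, ∀ x, π x = v → ∀ b t, AnalyticAt ℂ b t → b t = v → H.G x b t) {t₁ : ℂ}
    (ht : t₁ ∉ c.B) :
    ∀ᶠ t in 𝓝[≠] t₁, ∃ C : ℝ, ∀ᶠ t' in 𝓝 t, ∀ ε, 0 < ε → -C ≤ sumX hc c (valG H ε) t' := by
  classical
  have h1 : ∀ᶠ t in 𝓝 t₁, ∀ ε, sumX hc c (valG H ε) t =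
      ∑ v ∈ c.sol t₁, ∑ x ∈ (hc.fin v).toFinset, valG H ε x (c.br t₁ v) t := by
    filter_upwards [sum_local hc c (C8_germ H) ht] with t ht' ε
    have h2 := congrFun ht' ε
    simp only [sumX, Finset.sum_apply] at h2 ⊢
    exact h2
  have hgood := good_all hc H c hE t₁ ht
  have h3 : ∀ᶠ t in 𝓝[≠] t₁, ∀ v ∈ c.sol t₁, ∀ x ∈ (hc.fin v).toFinset,
      ∀ᶠ t' in 𝓝 t, ∀ ε, 0 < ε →
        (∑ j, Real.log (H.N x j (c.br t₁ v t) / 2)) + (H.u x (c.br t₁ v t) - 1) ≤
          valG H ε x (c.br t₁ v) t' := by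
    rw [Filter.eventually_all_finset]
    intro v hv
    rw [Filter.eventually_all_finset]
    intro x hx
    rw [Set.Finite.mem_toFinset] at hx
    have hx' : π x = v := hx
    exact C8_point H (c.an t₁ ht v hv) (by rw [c.start t₁ ht v hv, hx']) (hgood v hv x hx')
  filter_upwards [h3, eventually_nhdsWithin_of_eventually_nhds h1.eventually_nhds] with t h4 h5
  refine ⟨-(∑ v ∈ c.sol t₁, ∑ x ∈ (hc.fin v).toFinset,
    ((∑ j, Real.log (H.N x j (c.br t₁ v t) / 2)) + (H.u x (c.br t₁ v t) - 1))), ?_⟩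
  have h6 : ∀ᶠ t' in 𝓝 t, ∀ v ∈ c.sol t₁, ∀ x ∈ (hc.fin v).toFinset, ∀ ε, 0 < ε →
        (∑ j, Real.log (H.N x j (c.br t₁ v t) / 2)) + (H.u x (c.br t₁ v t) - 1) ≤
          valG H ε x (c.br t₁ v) t' := by
    rw [Filter.eventually_all_finset]
    intro v hv
    rw [Filter.eventually_all_finset]
    intro x hx
    exact h4 v hv x hx
  filter_upwards [h5, h6] with t' h7 h8 ε hε
  rw [neg_neg, h7 ε]
  exact Finset.sum_le_sum fun v hv => Finset.sum_le_sum fun x hx => h8 v hv x hx ε hε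

end AD67
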