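import Pool.Agent.LibPU19.OneV
import Pool.Agent.LibAD67.A11
import Pool.Agent.LibAD67.A12
import Pool.Agent.LibAD67.C5b
import Pool.Agent.LibAD67.C6b
import Pool.Agent.LibAD67.C7
import Pool.Agent.LibAD67.C8

/-!
Row C9: the abstract theorem.

PLAN. `count`: `PU19.oneVarU` with Bs = c.B ∪ image of τ on S, μ b = if b ∈ image then 2 else 0,
A := R s A, G ε = sumX valG, j ε = sumX valj, U = sumX valu, C₁ = 4 R s card J / 3.
(hlow for t₁ ∉ Bs: C8, hup: C7 / C6, hinf: C6, hU..: C5b, C6b.)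
∑ μ = 2 * S.card by c.inj (`Finset.card_image_of_injOn`).
`abs_main`: E = {v | H.G_base property} ∈ residual; if there is no G then `unisolvent` for Y = π '' Z
gives S ⊆ Y with k^(n+1) ≤ (n+1)! S.card, `exists_curve` gives c with R = k^n, `count` gives
2 S.card ≤ k^n s A, so 2 k^(n+1) ≤ (n+1)! k^n s A, contradiction with hk.
-/

open Complex Filter Topology

namespace AD67

variable {X : Type} [TopologicalSpace X] {s : ℕ} {J : Type} [Fintype J] {A : ℝ}

theorem count {d : ℕ} {F : MvPolynomial (Fin d) ℂ} {π : X → Fin d → ℂ} {R : ℕ}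
    {S : Finset (Fin d → ℂ)} {E : Set (Fin d → ℂ)} (hA : 0 ≤ A) (hc : IsCov F s π)
    (H : HFam π J A) (c : ACurve R F S E)
    (hE : ∀ v ∈ E, ∀ x, π x = v → ∀ b t, AnalyticAt ℂ b t → b t = v → H.G x b t)
    (hS : ∀ v ∈ S, ∃ x, π x = v ∧ ∃ (j : J) (C : ℝ), ∀ᶠ v' in 𝓝 v, H.N x j v' ≤ C * ‖v' - v‖ ^ 2) :
    2 * (S.card : ℝ) ≤ (R : ℝ) * s * A := by
  classical
  have hnot : ∀ t, t ∉ c.B ∪ S.image c.τ → t ∉ c.B := fun t ht h =>
    ht (Finset.mem_union_left _ h)
  have h := PU19.oneVarU (c.B ∪ S.image c.τ) (fun b => if b ∈ S.image c.τ then 2 else 0)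
    ((R : ℝ) * s * A) (fun ε t => sumX hc c (valG H ε) t) (fun ε t => sumX hc c (valj H ε) t)
    (sumX hc c (valu H)) (C₁ := 4 * ((R : ℝ) * s * Fintype.card J) / 3) (by positivity)
    (fun ε hε t ht => (sum_smooth hc H c hE hε (hnot t ht)).1)
    (fun ε hε t ht => (sum_smooth hc H c hE hε (hnot t ht)).2)
    (fun t ht => sumu_smooth hc H c hE (hnot t ht))
    (fun ε hε t ht => sum_ineqU hc H c hE hε (hnot t ht))
    (fun b _ => upu_B hA hc H c b)
    (upu_inf hA hc H c)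
    (fun t ht => sum_low hc H c hE (hnot t ht))
    (by
      intro b hb
      by_cases hbT : b ∈ S.image c.τ
      · obtain ⟨v, hv, rfl⟩ := Finset.mem_image.1 hbT
        obtain ⟨x, hx, j, C₀, hN⟩ := hS v hv
        subst hx
        obtain ⟨C, r, c₁, hr, hc₁, hup⟩ := up_S hA hc H c hv hN
        refine ⟨C, r, c₁, hr, hc₁, fun t ht htr ε hε hε1 hε2 => ?_⟩
        have h1 := hup t ht htr ε hε hε1 hε2
        simp only [if_pos hbT]
        exact h1
      · have hbB : b ∈ c.B := (Finset.mem_union.1 hb).resolve_right hbT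
        obtain ⟨C, r, hr, hup⟩ := up_B hA hc H c b
        refine ⟨C, r, 1, hr, one_pos, fun t ht htr ε hε hε1 _ => ?_⟩
        have h1 := hup t ht htr ε hε hε1
        simp only [if_neg hbT, zero_mul, zero_add]
        exact h1)
    (up_inf hA hc H c)
  have h2 : ∑ b ∈ c.B ∪ S.image c.τ, (if b ∈ S.image c.τ then (2 : ℝ) else 0) =
      2 * (S.card : ℝ) := by
    rw [Finset.sum_ite_mem, Finset.union_inter_cancel_right, Finset.sum_const, nsmul_eq_mul,
      Finset.card_image_of_injOn c.inj, mul_comm]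
  rw [h2] at h
  exact h

theorem abs_main {n : ℕ} {F : MvPolynomial (Fin (n + 1)) ℂ} {π : X → Fin (n + 1) → ℂ}
    (hF : F ≠ 0) (hA : 0 ≤ A) (hc : IsCov F s π) (H : HFam π J A) {Z : Set X}
    (hZ : ∀ x ∈ Z, ∃ (j : J) (C : ℝ), ∀ᶠ v in 𝓝 (π x), H.N x j v ≤ C * ‖v - π x‖ ^ 2) {k : ℕ}
    (hk : ((n + 1).factorial : ℝ) * s * A < 2 * k) :
    ∃ G : MvPolynomial (Fin (n + 1)) ℂ, G ≠ 0 ∧ G.totalDegree < k ∧
      ∀ x ∈ Z, MvPolynomial.eval (π x) G = 0 := by
  by_contra hcon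
  push Not at hcon
  have hk0 : 0 < k := by
    rcases Nat.eq_zero_or_pos k with h0 | h0
    · exfalso
      rw [h0] at hk
      have h1 : 0 ≤ ((n + 1).factorial : ℝ) * s * A := by positivity
      simp only [Nat.cast_zero, mul_zero] at hk
      linarith
    · exact h0
  have hY : ∀ G : MvPolynomial (Fin (n + 1)) ℂ, G.totalDegree < k →
      (∀ y ∈ π '' Z, MvPolynomial.eval y G = 0) → G = 0 := by
    intro G hG hGY
    by_contra hne
    obtain ⟨x, hx, hx0⟩ := hcon G hne hG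
    exact hx0 (hGY _ ⟨x, hx, rfl⟩)
  obtain ⟨S, hSY, hcard, hint⟩ := unisolvent hk0 (π '' Z) hY
  obtain ⟨c⟩ := exists_curve hk0 hF hint (E := {v | ∀ x, π x = v → ∀ b t, AnalyticAt ℂ b t →
    b t = v → H.G x b t}) H.G_base
  have h1 := count hA hc H c (fun v hv => hv) (fun v hv => by
    obtain ⟨x, hx, rfl⟩ := hSY hv
    exact ⟨x, rfl, hZ x hx⟩)
  have h2 : ((k : ℝ)) ^ (n + 1) ≤ ((n + 1).factorial : ℝ) * S.card := by exact_mod_cast hcard
  have hkn : 0 < (k : ℝ) ^ n := by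
    have : (0 : ℝ) < k := by exact_mod_cast hk0
    positivity
  have hf : 0 < ((n + 1).factorial : ℝ) := by exact_mod_cast Nat.factorial_pos _
  have h3 := mul_le_mul_of_nonneg_left h1 hf.le
  have h4 := mul_lt_mul_of_pos_right hk hkn
  push_cast at h3
  rw [pow_succ] at h2
  have h5 : ((n + 1).factorial : ℝ) * (k ^ n * s * A) =
      ((n + 1).factorial : ℝ) * s * A * k ^ n := by ring
  have h6 : ((n + 1).factorial : ℝ) * (2 * S.card) = 2 * (((n + 1).factorial : ℝ) * S.card) := by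
    ring
  rw [h5, h6] at h3
  nlinarith

end AD67
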