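import Pool.Agent.LibAD67.TDef

/-!
Sums over the points of `X` above a curve: definitions.
-/

open Complex Filter Topology
open scoped ContDiff

namespace AD67

open SP38 US38

variable {X : Type} [TopologicalSpace X] {d : ℕ} {F : MvPolynomial (Fin d) ℂ} {s : ℕ}
  {π : X → Fin d → ℂ} {J : Type} [Fintype J] {A : ℝ} {R : ℕ} {S : Finset (Fin d → ℂ)}
  {E : Set (Fin d → ℂ)}

/-- a function of a point of `X` and a disc through its image, which depends only on the germ of the
disc and is compatible with moving the point -/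
structure GermFun {M : Type} (π : X → Fin d → ℂ) (val : X → (ℂ → (Fin d → ℂ)) → ℂ → M) : Prop where
  germ : ∀ x b b' t, b =ᶠ[𝓝 t] b' → val x b t = val x b' t
  loc : ∀ x b t, AnalyticAt ℂ b t → b t = π x →
    ∀ᶠ q : ℂ × X in 𝓝 (t, x), b q.1 = π q.2 → val q.2 b q.1 = val x b q.1

/-- sum over all the points of `X` above the points of the curve over `t`, each with the branch of
the curve -/
noncomputable def sumX {M : Type} [AddCommMonoid M] (hc : IsCov F s π) (c : ACurve R F S E)
    (val : X → (ℂ → (Fin d → ℂ)) → ℂ → M) (t : ℂ) : M :=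
  ∑ v ∈ c.sol t, ∑ x ∈ (hc.fin v).toFinset, val x (c.br t v) t

/-- the value of `∑ log (N + ε) + u` -/
noncomputable def valG (H : HFam π J A) (ε : ℝ) (x : X) (b : ℂ → (Fin d → ℂ)) (t : ℂ) : ℝ :=
  (∑ j, Real.log (H.N x j (b t) + ε)) + H.u x (b t)

/-- the value of the form -/
noncomputable def valj (H : HFam π J A) (ε : ℝ) (x : X) (b : ℂ → (Fin d → ℂ)) (t : ℂ) : ℂ :=
  (∑ j, jj (fun t => ((H.N x j (b t) : ℝ) : ℂ)) (fun t => H.T x j (b t) (deriv b t)) ε t) +
    dz (fun t => ((H.u x (b t) : ℝ) : ℂ)) t / 2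

end AD67
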