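import Pool.Agent.LibAD67.U8

/-!
Row W9: the function `u` of the family: compatibility.

uu κ E x v = κ * upt c Q (Φ x v) + E * log ‖F v‖.

PLAN. uu_loc: IsLoc: Φ x' v = γ Φ x v near π x', upt_mon (Tri: MHS of Φ x v near π x: hvar.mhs x is an
eventually statement at π x, so for x' near x it holds eventually near π x' (π continuous,
`eventually_eventually_nhds`)).
varx_ve: hvar.hol: analytic near π x entrywise (`AnalyticAt.eventually_analyticAt`), mhs, tr: for a
general vector ξ = ∑ ξ k • Pi.single k 1, by linearity of fderiv and of the subspace Fl.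
-/

open Matrix Complex Filter Topology
open MW38 (Fl Tri blk dg)
open scoped ContDiff

namespace AD67

open ZQ38 AD19

variable {ι : Type} [Fintype ι] [DecidableEq ι] {wt p : ι → ℤ} {Q : Matrix ι ι ℚ} {X : Type}
  [TopologicalSpace X] {d : ℕ} {F : MvPolynomial (Fin d) ℂ} {s : ℕ} {π : X → Fin d → ℂ}
  {Φ : X → (Fin d → ℂ) → Matrix ι ι ℂ} {S : X → Finset (Submodule ℚ (Matrix ι ι ℚ))}

/-- the function `u` -/
noncomputable def uu (c : Par wt p) (Q : Matrix ι ι ℚ) (F : MvPolynomial (Fin d) ℂ)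
    (Φ : X → (Fin d → ℂ) → Matrix ι ι ℂ) (κ E : ℝ) (x : X) (v : Fin d → ℂ) : ℝ :=
  κ * upt c Q (Φ x v) + E * Real.log ‖MvPolynomial.eval v F‖

/-- the exponent of `upt` -/
def eU (c : Par wt p) : ℕ := (2 * c.K + 1) * (Fintype.card ι * (2 * c.K + 2))

theorem uu_loc (c : Par wt p) (hc : IsCov F s π) (hvar : VarX wt p Q π Φ)
    (hloc : IsLoc wt Q π Φ S) (κ E : ℝ) (x : X) :
    ∀ᶠ x' in 𝓝 x, ∀ᶠ v in 𝓝 (π x'), uu c Q F Φ κ E x' v = uu c Q F Φ κ E x v := by
  have hcont : ContinuousAt π x := hc.cov.continuousAt (hc.ne x)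
  have h1 : ∀ᶠ x' in 𝓝 x, ∀ᶠ v in 𝓝 (π x'),
      MW38.MHS wt p (Q.map (algebraMap ℚ ℝ)) (Φ x v) :=
    hcont.eventually (eventually_eventually_nhds.2 (hvar.mhs x))
  filter_upwards [h1, hloc x] with x' h2 h3
  obtain ⟨γ, hγ, h4, -⟩ := h3
  filter_upwards [h2, h4] with v h5 h6
  unfold uu
  rw [h6, upt_mon hγ h5.tri]

/-- near `π x` a variation over an open subset -/
theorem varx_ve (hvar : VarX wt p Q π Φ) (x : X) :
    ∃ r > 0, VE wt p Q (Metric.ball (π x) r) (Φ x) := by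
  have h1 : ∀ᶠ v in 𝓝 (π x), ∀ i j, AnalyticAt ℂ (fun v => Φ x v i j) v :=
    eventually_all.2 fun i => eventually_all.2 fun j => (hvar.hol x i j).eventually_analyticAt
  obtain ⟨r, hr, h2⟩ := Metric.eventually_nhds_iff_ball.1 ((h1.and (hvar.mhs x)).and (hvar.tr x))
  refine ⟨r, hr, fun v hv => (h2 v hv).1.2, fun i j v hv => (h2 v hv).1.1 i j, ?_⟩
  intro v hv j ξ
  have h3 := (h2 v hv).2
  have h4 : (fun i => fderiv ℂ (fun v => Φ x v i j) v ξ) =
      ∑ k, ξ k • (fun i => fderiv ℂ (fun v => Φ x v i j) v (Pi.single k 1)) := by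
    funext i
    have h5 : ξ = ∑ k, ξ k • (Pi.single k (1 : ℂ) : Fin d → ℂ) := pi_eq_sum_univ' ξ
    conv_lhs => rw [h5]
    rw [map_sum, Finset.sum_apply]
    exact Finset.sum_congr rfl fun k _ => by rw [map_smul, Pi.smul_apply]
  rw [h4]
  exact Submodule.sum_mem _ fun k _ => Submodule.smul_mem _ _ (h3 k j)

end AD67
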