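import Pool.Agent.LibAD67.U7
import Pool.Agent.LibAD67.W9
import Pool.Agent.LibAD19.G5

/-!
Row W9b: the Laplacian of the function `u` along a disc.

PLAN. uu_lap: Φ x is a VE on a small ball around π x (hvar.hol: analytic near π x entrywise
(`AnalyticAt.eventually_analyticAt`), mhs, tr: for a general vector ξ = ∑ ξ k • Pi.single k 1, by linearity
of fderiv and the subspace Fl); VE.comp (G5) along b; upt_lap at t; E * log ‖F (b t)‖: lap_log_holo (F ∘ b analytic,
nonzero at t by hc.ne x); sum and multiples of dz, dzb (dz_add, WirtM_dz_smul: differentiability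
from ContDiffAt ∞, and dz of a function which is ContDiffAt ∞ at t is ... use SmS on a small open
set around t).
-/

open Matrix Complex Filter Topology
open MW38 (Fl Tri blk dg)
open scoped ContDiff

namespace AD67

open ZQ38 AD19

variable {ι : Type} [Fintype ι] [DecidableEq ι] {wt p : ι → ℤ} {Q : Matrix ι ι ℚ} {X : Type}
  [TopologicalSpace X] {d : ℕ} {F : MvPolynomial (Fin d) ℂ} {s : ℕ} {π : X → Fin d → ℂ}
  {Φ : X → (Fin d → ℂ) → Matrix ι ι ℂ} {S : X → Finset (Submodule ℚ (Matrix ι ι ℚ))}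

private theorem W9b_cast {f : ℂ → ℝ} {D : Set ℂ} (h : ∀ z ∈ D, ContDiffAt ℝ ∞ f z) :
    SP38.SmS D (fun z => ((f z : ℝ) : ℂ)) := fun z hz =>
  (Complex.ofRealCLM.contDiff.contDiffAt.comp z (h z hz)).contDiffWithinAt

private theorem W9b_eval (F : MvPolynomial (Fin d) ℂ) {b : ℂ → (Fin d → ℂ)} {t : ℂ}
    (hb : AnalyticAt ℂ b t) : AnalyticAt ℂ (fun z => MvPolynomial.eval (b z) F) t := by
  have hk : ∀ k, AnalyticAt ℂ (fun z => b z k) t := by
    intro k
    exact (ContinuousLinearMap.proj (R := ℂ) (φ := fun _ : Fin d => ℂ) k).analyticAt _ |>.comp hb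
  induction F using MvPolynomial.induction_on with
  | C a => simpa using analyticAt_const
  | add p q hp hq =>
    simp only [map_add]
    exact hp.add hq
  | mul_X p n hp =>
    simp only [map_mul, MvPolynomial.eval_X]
    exact hp.mul (hk n)

private theorem W9b_lin {f g : ℂ → ℝ} {D : Set ℂ} {t : ℂ} (hD : IsOpen D) (ht : t ∈ D)
    (hf : ∀ z ∈ D, ContDiffAt ℝ ∞ f z) (hg : ∀ z ∈ D, ContDiffAt ℝ ∞ g z) (κ E : ℝ) :
    (SP38.dzb (SP38.dz (fun z => ((κ * f z + E * g z : ℝ) : ℂ))) t).re =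
      κ * (SP38.dzb (SP38.dz (fun z => ((f z : ℝ) : ℂ))) t).re +
      E * (SP38.dzb (SP38.dz (fun z => ((g z : ℝ) : ℂ))) t).re := by
  have hf' := W9b_cast hf
  have hg' := W9b_cast hg
  have hf2 := hf'.dz hD
  have hg2 := hg'.dz hD
  have e0 : (fun z => ((κ * f z + E * g z : ℝ) : ℂ)) =
      fun z => (κ : ℂ) * ((f z : ℝ) : ℂ) + (E : ℂ) * ((g z : ℝ) : ℂ) := by
    funext z; push_cast; ring
  have e1 : SP38.dz (fun z => ((κ * f z + E * g z : ℝ) : ℂ)) =ᶠ[𝓝 t]
      fun z => (κ : ℂ) * SP38.dz (fun z => ((f z : ℝ) : ℂ)) z +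
        (E : ℂ) * SP38.dz (fun z => ((g z : ℝ) : ℂ)) z := by
    filter_upwards [hD.mem_nhds ht] with z hz
    have d1 := hf'.differentiableAt hD hz
    have d2 := hg'.differentiableAt hD hz
    rw [e0, SP38.dz_add (d1.const_mul _) (d2.const_mul _), SP38.WirtM_dz_smul _ d1,
      SP38.WirtM_dz_smul _ d2]
  have d1 := hf2.differentiableAt hD ht
  have d2 := hg2.differentiableAt hD ht
  rw [SP38.dzb_congr e1, SP38.dzb_add (d1.const_mul _) (d2.const_mul _),
    SP38.WirtM_dzb_smul _ d1, SP38.WirtM_dzb_smul _ d2, Complex.add_re, Complex.re_ofReal_mul,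
    Complex.re_ofReal_mul]

theorem uu_lap (c : Par wt p) (hc : IsCov F s π) (hvar : VarX wt p Q π Φ) (κ E : ℝ) (x : X)
    (b : ℂ → (Fin d → ℂ)) (t : ℂ) (hb : AnalyticAt ℂ b t) (hbt : b t = π x) :
    ContDiffAt ℝ ∞ (fun t => uu c Q F Φ κ E x (b t)) t ∧
    (SP38.dzb (SP38.dz (fun t => ((uu c Q F Φ κ E x (b t) : ℝ) : ℂ))) t).re =
      κ * EG c Q (fun t => Φ x (b t)) t := by
  obtain ⟨r, hr, hv⟩ := varx_ve hvar x
  have h1 : ∀ᶠ z in 𝓝 t, AnalyticAt ℂ b z := hb.eventually_analyticAt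
  have h2 : ∀ᶠ z in 𝓝 t, b z ∈ Metric.ball (π x) r := by
    refine hb.continuousAt.eventually_mem ?_
    rw [hbt]
    exact Metric.ball_mem_nhds _ hr
  have hF := W9b_eval F hb
  have h3 : ∀ᶠ z in 𝓝 t, MvPolynomial.eval (b z) F ≠ 0 := by
    refine hF.continuousAt.eventually_ne ?_
    rw [hbt]
    exact hc.ne x
  obtain ⟨ρ, hρ, hD⟩ := Metric.eventually_nhds_iff_ball.1 ((h1.and h2).and h3)
  have hDo : IsOpen (Metric.ball t ρ) := Metric.isOpen_ball
  have htD : t ∈ Metric.ball t ρ := Metric.mem_ball_self hρ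
  have hve : VE wt p Q (Metric.ball t ρ) (fun z => Φ x (b z)) :=
    hv.comp Metric.isOpen_ball (fun z hz => (hD z hz).1.1) (fun z hz => (hD z hz).1.2)
  have hA : ∀ z ∈ Metric.ball t ρ, ContDiffAt ℝ ∞ (fun z => upt c Q (Φ x (b z))) z :=
    fun z hz => (upt_lap hDo hve hz).1
  have hB : ∀ z ∈ Metric.ball t ρ,
      ContDiffAt ℝ ∞ (fun z => Real.log ‖MvPolynomial.eval (b z) F‖) z :=
    fun z hz => (lap_log_holo (W9b_eval F (hD z hz).1.1) (hD z hz).2).1
  constructor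
  · exact (contDiffAt_const.mul (hA t htD)).add (contDiffAt_const.mul (hB t htD))
  · have e := W9b_lin hDo htD hA hB κ E
    have eA : (SP38.dzb (SP38.dz (fun z => ((upt c Q (Φ x (b z)) : ℝ) : ℂ))) t).re =
        EG c Q (fun z => Φ x (b z)) t := (upt_lap hDo hve htD).2
    have eB : (SP38.dzb (SP38.dz
        (fun z => ((Real.log ‖MvPolynomial.eval (b z) F‖ : ℝ) : ℂ))) t).re = 0 :=
      (lap_log_holo hF (hD t htD).2).2
    rw [eA, eB, mul_zero, add_zero] at e
    exact e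

end AD67
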