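import Pool.Agent.LibAD67.W6

/-!
Row W6c: the class of `Im Y` in `𝔲 / 𝔫` is the class of its part of weight `w`.
-/

open Matrix Complex
open MW38 (Fl Tri blk dg)

namespace AD67

open ZQ38 AD19

variable {ι : Type} [Fintype ι] [DecidableEq ι] {wt p : ι → ℤ} {c : Par wt p}
  {Q : Matrix ι ι ℚ} {m n : Submodule ℚ (Matrix ι ι ℚ)} {A : Matrix ι ι ℂ}

theorem W6c_eig (l : ℤ) (Z : Matrix ι ι ℂ) :
    adm (Dwt wt) (syC wt l Z) = (l : ℂ) • syC wt l Z := by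
  ext i k
  rw [adm_apply, Matrix.sub_apply, Dwt, Matrix.diagonal_mul, Matrix.mul_diagonal,
    Matrix.smul_apply, smul_eq_mul]
  unfold syC
  split_ifs with h
  · rw [← h]
    push_cast
    ring
  · ring

theorem W6c_sum {D : Finset ℤ} (hD : ∀ i k : ι, wt i - wt k ∈ D) (Z : Matrix ι ι ℂ) :
    ∑ l ∈ D, syC wt l Z = Z := by
  ext i k
  rw [Matrix.sum_apply, Finset.sum_eq_single_of_mem (wt i - wt k) (hD i k)]
  · unfold syC
    rw [if_pos rfl]
  · intro l _ hl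
    unfold syC
    rw [if_neg (Ne.symm hl)]

theorem W6c_poly (wt : ι → ℤ) (w : ℤ) : ∃ q : Polynomial ℂ, q.eval (w : ℂ) = 1 ∧
    ∀ Z : Matrix ι ι ℂ, Polynomial.aeval (adm (Dwt wt)) q Z = syC wt w Z := by
  classical
  set D : Finset ℤ := insert w ((Finset.univ : Finset (ι × ι)).image fun x => wt x.1 - wt x.2)
    with hDdef
  have hw : w ∈ D := Finset.mem_insert_self _ _
  have hD : ∀ i k : ι, wt i - wt k ∈ D := fun i k =>
    Finset.mem_insert_of_mem (Finset.mem_image_of_mem (fun x : ι × ι => wt x.1 - wt x.2)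
      (Finset.mem_univ (i, k)))
  have hinj : Set.InjOn (fun l : ℤ => (l : ℂ)) (D : Set ℤ) := fun a _ b _ h => by
    have h' : (a : ℂ) = (b : ℂ) := h
    exact_mod_cast h'
  refine ⟨Lagrange.basis D (fun l : ℤ => (l : ℂ)) w, Lagrange.eval_basis_self hinj hw,
    fun Z => ?_⟩
  conv_lhs => rw [← W6c_sum hD Z]
  rw [map_sum, Finset.sum_eq_single_of_mem w hw]
  · rw [B08b_aeval_eig _ (W6c_eig w Z), Lagrange.eval_basis_self hinj hw, one_smul]
  · intro l hl hlw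
    have h1 : (Lagrange.basis D (fun l : ℤ => (l : ℂ)) w).eval ((l : ℤ) : ℂ) = 0 :=
      Lagrange.eval_basis_of_ne (v := fun l : ℤ => (l : ℂ)) (Ne.symm hlw) hl
    rw [B08b_aeval_eig _ (W6c_eig l Z), h1, zero_smul]

theorem W6c_smul_one {r : ℕ} (w : ℂ) (q : Polynomial ℂ) :
    Polynomial.aeval (w • (1 : Matrix (Fin r) (Fin r) ℂ)) q = q.eval w • 1 := by
  have h1 : w • (1 : Matrix (Fin r) (Fin r) ℂ) = algebraMap ℂ _ w := by
    rw [Algebra.algebraMap_eq_smul_one]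
  rw [h1, Polynomial.aeval_algebraMap_apply, Polynomial.coe_aeval_eq_eval,
    Algebra.algebraMap_eq_smul_one]

theorem xw (hA : MW38.MHS wt p (Q.map (algebraMap ℚ ℝ)) A) (hlie : IsLie m)
    (htri : ∀ B ∈ m, Tri wt B) (hm : mtLie wt p A ≤ m) (P : Pk wt Q m n) :
    hh c A * zet c P.d.w A * (hh c A)⁻¹ ∈ cx ((m ⊓ Low ℚ wt) ⊓ ZL19.WW wt P.d.w) ∧
    lamC P.d.lam (hh c A * zet c P.d.w A * (hh c A)⁻¹) = lamC P.d.lam (ImY c A) := by
  obtain ⟨hG, hD, hP, hQ⟩ := pt_op (c := c) hA hm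
  have hun := hD.un
  have hu : IsUnit (hh c A) := hun.isUnit
  have hdet := (Matrix.isUnit_iff_isUnit_det _).1 hu
  have hIm := ImY_mem (c := c) hA hm
  obtain ⟨q, hq1, hq⟩ := W6c_poly wt P.d.w
  have hY : hh c A * Dwt wt * (hh c A)⁻¹ ∈ cx m := by
    rw [← oP_add_oQ (wt := wt) (hh c A) c.K (PPg wt p c.s A)]
    exact Submodule.add_mem _ hP hQ
  have hrho : rhoC P.d.rho (hh c A * Dwt wt * (hh c A)⁻¹) = (P.d.w : ℂ) • 1 := by
    rw [← oP_add_oQ (wt := wt) (hh c A) c.K (PPg wt p c.s A), rhoC_add,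
      W_sum P.d.wd htri P.mem P.dgt hun hP hQ]
    abel
  obtain ⟨h1, h2⟩ := W_poly P.d.wd hlie htri hY hIm q
  have h3 : Polynomial.aeval (adm (hh c A * Dwt wt * (hh c A)⁻¹)) q (ImY c A) =
      hh c A * zet c P.d.w A * (hh c A)⁻¹ := by
    have e := B08b_aeval_conj hu (Dwt wt) (ImY c A) q
    rw [hq] at e
    unfold zet
    rw [← e]
    have e2 : hh c A * (hh c A)⁻¹ = 1 := Matrix.mul_nonsing_inv _ hdet
    generalize Polynomial.aeval (adm (hh c A * Dwt wt * (hh c A)⁻¹)) q (ImY c A) = X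
    rw [← Matrix.mul_assoc, ← Matrix.mul_assoc, e2, Matrix.one_mul, Matrix.mul_assoc, e2,
      Matrix.mul_one]
  rw [h3] at h1 h2
  refine ⟨ZL19.mem_cx_inf_WW.2 ⟨h1, ?_⟩, ?_⟩
  · have t0 : hh c A ∈ ZL19.WC wt 0 := fun i j hij => B06_un_tri hun i j (by omega)
    have t1 : (hh c A)⁻¹ ∈ ZL19.WC wt 0 := fun i j hij =>
      (B06_un_tri hun).inv hu i j (by omega)
    have t2 : zet c P.d.w A ∈ ZL19.WC wt P.d.w := fun i j hij => by
      unfold zet syC
      rw [if_neg (by omega)]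
    have t3 := ZL19.WC_mul (ZL19.WC_mul t0 t2) t1
    rwa [zero_add, add_zero] at t3
  · rw [h2, hrho, W6c_smul_one, hq1, one_smul, Matrix.one_mulVec]

end AD67
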