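import Pool.Agent.LibAD67.W6b

/-!
Row W6d: `𝔫` and `𝔲 / 𝔫` are orthogonal for the Hodge metric.
-/

open Matrix Complex
open MW38 (Fl Tri blk dg)

namespace AD67

open ZQ38 AD19

variable {ι : Type} [Fintype ι] [DecidableEq ι] {wt p : ι → ℤ} {c : Par wt p}
  {Q : Matrix ι ι ℚ} {m n : Submodule ℚ (Matrix ι ι ℚ)} {A : Matrix ι ι ℂ}

theorem W6d_nst (hlie : IsLie m) (htri : ∀ B ∈ m, Tri wt B) (hn : n ≤ m ⊓ Low ℚ wt)
    (P : Pk wt Q m n) {B y : Matrix ι ι ℚ} (hB : B ∈ m) (hy : y ∈ n) : B * y - y * B ∈ n := by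
  have hyu := hn hy
  have h1 : B * y - y * B ∈ m ⊓ Low ℚ wt := by
    refine ⟨hlie B hB y hyu.1, ?_⟩
    intro i j hij
    have hx := hyu.2
    have hA := htri B hB
    rw [Matrix.sub_apply, Matrix.mul_apply, Matrix.mul_apply,
      Finset.sum_eq_zero, Finset.sum_eq_zero, sub_zero]
    · intro k _
      rcases le_or_gt (wt k) (wt i) with h | h
      · rw [hx i k h, zero_mul]
      · rw [hA k j (lt_of_le_of_lt hij h), mul_zero]
    · intro k _
      rcases le_or_gt (wt j) (wt k) with h | h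
      · rw [hx k j h, mul_zero]
      · rw [hA i k (lt_of_lt_of_le h hij), zero_mul]
  rw [← P.d.wd.ker _ h1, P.d.wd.act B hB y hyu, (P.d.wd.ker y hyu).2 hy, Matrix.mulVec_zero]

theorem W6d_st (hlie : IsLie m) (htri : ∀ B ∈ m, Tri wt B) (hn : n ≤ m ⊓ Low ℚ wt)
    (P : Pk wt Q m n) {o Y : Matrix ι ι ℂ} (ho : o ∈ cx m)
    (hY : Y ∈ cx (n ⊓ ZL19.WW wt P.d.w)) : o * Y - Y * o ∈ cx (n ⊓ ZL19.WW wt P.d.w) := by
  refine ZL19.cx_br (L := m) (M := n ⊓ ZL19.WW wt P.d.w) (R := n ⊓ ZL19.WW wt P.d.w) ?_ ho hY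
  intro B hB y hy
  refine ⟨W6d_nst hlie htri hn P hB hy.1, ?_⟩
  have hB0 : B ∈ ZL19.WW wt 0 := fun i j hij => htri B hB i j (by omega)
  have h1 := ZL19.WW_mul hB0 hy.2
  have h2 := ZL19.WW_mul hy.2 hB0
  rw [zero_add] at h1
  rw [add_zero] at h2
  exact Submodule.sub_mem _ h1 h2

theorem W6d_sy {w : ℤ} {o Y : Matrix ι ι ℂ} (ho : Tri wt o)
    (hY : ∀ i j, w < wt i - wt j → Y i j = 0) :
    syC wt w (o * Y - Y * o) = dgR wt o * syC wt w Y - syC wt w Y * dgR wt o := by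
  ext i k
  by_cases hik : wt i - wt k = w
  · have e1 : syC wt w (o * Y - Y * o) i k = ∑ a, o i a * Y a k - ∑ a, Y i a * o a k := by
      unfold syC
      rw [if_pos hik, Matrix.sub_apply, Matrix.mul_apply, Matrix.mul_apply]
    rw [e1, Matrix.sub_apply, Matrix.mul_apply, Matrix.mul_apply]
    congr 1
    · refine Finset.sum_congr rfl fun a _ => ?_
      unfold syC dgR
      rcases lt_trichotomy (wt a) (wt i) with h | h | h
      · rw [ho i a h, if_neg (by omega), zero_mul, zero_mul]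
      · rw [if_pos h.symm, if_pos (by omega)]
      · rw [hY a k (by omega), if_neg (by omega : ¬ wt i = wt a), zero_mul, mul_zero]
    · refine Finset.sum_congr rfl fun a _ => ?_
      unfold syC dgR
      rcases lt_trichotomy (wt k) (wt a) with h | h | h
      · rw [ho a k h, if_neg (by omega : ¬ wt a = wt k), mul_zero, mul_zero]
      · rw [if_pos h.symm, if_pos (by omega)]
      · rw [hY i a (by omega), if_neg (by omega : ¬ wt a = wt k), zero_mul, mul_zero]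
  · have e1 : syC wt w (o * Y - Y * o) i k = 0 := by
      unfold syC
      rw [if_neg hik]
    rw [e1, Matrix.sub_apply, Matrix.mul_apply, Matrix.mul_apply, Finset.sum_eq_zero,
      Finset.sum_eq_zero, sub_zero]
    · intro a _
      unfold syC dgR
      by_cases h : wt a = wt k
      · rw [if_neg (by omega : ¬ wt i - wt a = w), zero_mul]
      · rw [if_neg h, mul_zero]
    · intro a _
      unfold syC dgR
      by_cases h : wt i = wt a
      · rw [if_neg (by omega : ¬ wt a - wt k = w), mul_zero]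
      · rw [if_neg h, zero_mul]

theorem W6d_poly (hlie : IsLie m) (htri : ∀ B ∈ m, Tri wt B) (hn : n ≤ m ⊓ Low ℚ wt)
    (P : Pk wt Q m n) {o Y : Matrix ι ι ℂ} (ho : o ∈ cx m)
    (hY : Y ∈ cx (n ⊓ ZL19.WW wt P.d.w)) (f : Polynomial ℂ) :
    Polynomial.aeval (adm o) f Y ∈ cx (n ⊓ ZL19.WW wt P.d.w) ∧
      syC wt P.d.w (Polynomial.aeval (adm o) f Y) =
        Polynomial.aeval (adm (dgR wt o)) f (syC wt P.d.w Y) := by
  induction f using Polynomial.induction_on' with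
  | add p q hp hq =>
    rw [map_add, map_add, LinearMap.add_apply, LinearMap.add_apply, W6b_add, hp.2, hq.2]
    exact ⟨Submodule.add_mem _ hp.1 hq.1, rfl⟩
  | monomial k a =>
    have hk : ∀ k : ℕ, ((adm o) ^ k) Y ∈ cx (n ⊓ ZL19.WW wt P.d.w) ∧
        syC wt P.d.w (((adm o) ^ k) Y) = ((adm (dgR wt o)) ^ k) (syC wt P.d.w Y) := by
      intro k
      induction k with
      | zero =>
        rw [pow_zero, pow_zero, Module.End.one_apply, Module.End.one_apply]
        exact ⟨hY, rfl⟩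
      | succ k ih =>
        rw [pow_succ', pow_succ', Module.End.mul_apply, Module.End.mul_apply, ← ih.2, adm_apply,
          adm_apply]
        refine ⟨W6d_st hlie htri hn P ho ih.1, W6d_sy (cx_tri htri ho) ?_⟩
        exact (ZL19.mem_cx_inf_WW.1 ih.1).2
    obtain ⟨h1, h2⟩ := hk k
    rw [Polynomial.aeval_monomial, Polynomial.aeval_monomial, ← Algebra.smul_def,
      ← Algebra.smul_def, LinearMap.smul_apply, LinearMap.smul_apply, W6b_smul, h2]
    exact ⟨Submodule.smul_mem _ _ h1, rfl⟩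

theorem W6d_hE_sum {M B : Matrix ι ι ℂ} {J : Type*} (s : Finset J) (A : J → Matrix ι ι ℂ) :
    hE M (∑ a ∈ s, A a) B = ∑ a ∈ s, hE M (A a) B := by
  unfold hE
  rw [Matrix.mul_sum, Matrix.trace_sum]

theorem hE_perp (hA : MW38.MHS wt p (Q.map (algebraMap ℚ ℝ)) A) (hlie : IsLie m)
    (htri : ∀ B ∈ m, Tri wt B) (hm : mtLie wt p A ≤ m) (hn : n ≤ m ⊓ Low ℚ wt)
    (P : Pk wt Q m n) {Y : Matrix ι ι ℂ} (hY : Y ∈ cx (n ⊓ ZL19.WW wt P.d.w))
    (v : Fin P.d.r → ℂ) :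
    hE (ZW67.MM wt c.K (Q.map (algebraMap ℚ ℝ)) (PPg wt p c.s A)) (syC wt P.d.w Y)
      (ZW67.jC P.d.j v) = 0 := by
  obtain ⟨hG, hD, hP, -⟩ := pt_op (c := c) hA hm
  have hpol := ZW67.polG (K := c.K) hA c.hs c.hK
  have hdg : dgR wt (oP c.K (PPg wt p c.s A) (hh c A)) = PG c.K (PPg wt p c.s A) := by
    rw [B13_oP hG hD.un, oP, one_mul, inv_one, mul_one]
  rw [← ZW67.cmp_sum (K := c.K) (P := PPg wt p c.s A) (syC wt P.d.w Y), W6d_hE_sum]
  refine Finset.sum_eq_zero fun a _ => ?_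
  obtain ⟨h1, h2⟩ := W6d_poly hlie htri hn P hP hY (ZW67.lpoly (2 * c.K) a)
  rw [hdg] at h2
  have h3 : ZW67.cmp c.K (PPg wt p c.s A) a (syC wt P.d.w Y) =
      syC wt P.d.w (Polynomial.aeval (adm (oP c.K (PPg wt p c.s A) (hh c A)))
        (ZW67.lpoly (2 * c.K) a) Y) := h2.symm
  have h4 := ZW67.cmp_typ hG a (syC wt P.d.w Y)
  rw [h3] at h4 ⊢
  have h5 := hpol.QE_eq (w := P.d.w) (B := ZW67.jC P.d.j v) (fun i j hij => by
    unfold syC
    rw [if_neg (by omega)]) h4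
  unfold hE
  rw [← h5, ZW67.jC_bar, perpC P h1, mul_zero]

end AD67
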