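import Pool.Agent.LibAD67.W2b
import Pool.Agent.LibAD67.W6c
import Pool.Agent.LibAD67.W6d

/-!
Row W7: `Nf` is polynomially bounded, with a constant which does not depend on `m`, `n`, `P`.

PLAN. Nf_zet: Nf_eq (N3), imv_ep, xw: imv (ep) = lamC lam X', X' = h zet h⁻¹. qf_Rm, qf_hE: Nf ≤ re hE M (jC j v) (jC j v)
with v = lamC lam X'. symC: zet = syC X' = jC j v + syC Y (syC_zet), hE_perp: hE M (syC Y) (jC j v) = 0, so hE_pyth
(A := syC Y, B := jC j v; M positive definite: (ZW67.polG hA c.hs c.hK).posDef).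
zet_bd: ImY: exponents of h, Dwt, h⁻¹: eh + 0 + N eh; conj the same; h⁻¹ * ImY * h: N eh + (eh + N eh) + eh =
(2N+2) eh; the entries of syC are entries or 0 (uniform in w).
Nf_bd: trace (M⁻¹ * ζᴴ * M * ζ): entries bounded by PBd.mul; the constant C of `zet_bd` is uniform in w, so
state an auxiliary lemma for the family: if every ζ w is bounded by C₁ sz^e₁ and M, M⁻¹ by C₂ sz^(2K), then
re trace ≤ (card ι)^4 C₂² C₁² sz^(4K + 2 e₁).
-/

open Matrix Complex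
open MW38 (Fl Tri blk dg)

namespace AD67

open ZQ38 AD19

variable {ι : Type} [Fintype ι] [DecidableEq ι] {wt p : ι → ℤ} {c : Par wt p}
  {Q : Matrix ι ι ℚ} {m n : Submodule ℚ (Matrix ι ι ℚ)} {A : Matrix ι ι ℂ}

/-- the exponent of `Nf` -/
def eN (c : Par wt p) : ℕ := 4 * c.K + 2 * ((2 * Fintype.card ι + 2) * eh c)

theorem Nf_zet (hA : MW38.MHS wt p (Q.map (algebraMap ℚ ℝ)) A) (hlie : IsLie m)
    (htri : ∀ B ∈ m, Tri wt B) (hm : mtLie wt p A ≤ m) (hn : n ≤ m ⊓ Low ℚ wt)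
    (P : Pk wt Q m n) :
    Nf c P A ≤ (hE (ZW67.MM wt c.K (Q.map (algebraMap ℚ ℝ)) (PPg wt p c.s A))
      (zet c P.d.w A) (zet c P.d.w A)).re := by
  obtain ⟨h1, h2⟩ := xw hA hlie htri hm P
  obtain ⟨Y, hY, h3⟩ := symC P h1
  have h4 := syC_zet hA (c := c) P.d.w
  rw [h4, sub_eq_iff_eq_add] at h3
  have hM := (ZW67.polG hA c.hs c.hK).posDef
  have h5 := hE_perp (c := c) hA hlie htri hm hn P hY
    (lamC P.d.lam (hh c A * zet c P.d.w A * (hh c A)⁻¹))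
  have h6 := hE_pyth hM h5
  rw [← h3] at h6
  refine le_trans ?_ h6
  rw [(Nf_eq hA hlie htri hm P).1, imv_ep, ← h2, ← qf_hE hA hlie htri hm P]
  exact qf_Rm hA hlie htri hm P _

theorem W7_PBd (c : Par wt p) (Q : Matrix ι ι ℚ) :
    PBd c (SQ wt p Q) ((2 * Fintype.card ι + 2) * eh c)
      (fun A => (hh c A)⁻¹ * ImY c A * hh c A) := by
  have h1 := hh_bd c Q
  have h2 := hhi_bd c Q
  have h3 : PBd c (SQ wt p Q) 0 (fun _ => Dwt wt) := PBd.const (Dwt wt)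
  have h4 := (h1.mul h3).mul h2
  have h5 : PBd c (SQ wt p Q) (eh c + 0 + Fintype.card ι * eh c) (fun A => ImY c A) :=
    (h4.sub h4.conj).smul (2 * I)⁻¹
  have h6 := (h2.mul h5).mul h1
  refine h6.mono (le_of_eq ?_)
  ring

theorem zet_bd (c : Par wt p) (Q : Matrix ι ι ℚ) : ∃ C : ℝ, 0 ≤ C ∧ ∀ A ∈ SQ wt p Q, ∀ w i k,
    ‖zet c w A i k‖ ≤ C * sz c A ^ ((2 * Fintype.card ι + 2) * eh c) := by
  obtain ⟨C, hC, h⟩ := W7_PBd c Q
  refine ⟨C, hC, fun A hA w i k => ?_⟩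
  have h1 : ‖zet c w A i k‖ ≤ ‖((hh c A)⁻¹ * ImY c A * hh c A) i k‖ := by
    unfold zet syC
    split_ifs
    · exact le_refl _
    · rw [norm_zero]
      exact norm_nonneg _
  exact h1.trans (h A hA i k)

theorem W7_mul {X Y : Matrix ι ι ℂ} {a b : ℝ} (hX : ∀ i j, ‖X i j‖ ≤ a) (hY : ∀ i j, ‖Y i j‖ ≤ b)
    (ha : 0 ≤ a) (i j : ι) : ‖(X * Y) i j‖ ≤ Fintype.card ι * (a * b) := by
  rw [Matrix.mul_apply]
  refine (norm_sum_le _ _).trans ?_
  have h1 : ∀ k ∈ (Finset.univ : Finset ι), ‖X i k * Y k j‖ ≤ a * b := by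
    intro k _
    rw [norm_mul]
    exact mul_le_mul (hX i k) (hY k j) (norm_nonneg _) ha
  refine (Finset.sum_le_card_nsmul _ _ _ h1).trans (le_of_eq ?_)
  rw [nsmul_eq_mul, Finset.card_univ]

theorem W7_tr {X : Matrix ι ι ℂ} {a : ℝ} (hX : ∀ i j, ‖X i j‖ ≤ a) :
    (Matrix.trace X).re ≤ Fintype.card ι * a := by
  refine (Complex.re_le_norm _).trans ?_
  refine (norm_sum_le _ _).trans ?_
  refine (Finset.sum_le_card_nsmul _ _ _ fun i _ => hX i i).trans (le_of_eq ?_)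
  rw [nsmul_eq_mul, Finset.card_univ]

theorem Nf_bd (c : Par wt p) (Q : Matrix ι ι ℚ) : ∃ C : ℝ, 0 ≤ C ∧ ∀ A ∈ SQ wt p Q,
    ∀ m n : Submodule ℚ (Matrix ι ι ℚ), IsLie m → (∀ B ∈ m, Tri wt B) → mtLie wt p A ≤ m →
      n ≤ m ⊓ Low ℚ wt → ∀ P : Pk wt Q m n, Nf c P A ≤ C * sz c A ^ eN c := by
  obtain ⟨C1, hC1, h1⟩ := zet_bd c Q
  obtain ⟨C2, hC2, h2⟩ := MM_bd c Q
  obtain ⟨C3, hC3, h3⟩ := MMi_bd c Q
  refine ⟨Fintype.card ι * (Fintype.card ι * (Fintype.card ι * (Fintype.card ι *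
    (C3 * C1) * C2) * C1)), by positivity, ?_⟩
  intro A hA m n hlie htri hm hn P
  refine (Nf_zet hA hlie htri hm hn P).trans ?_
  have hs : 0 ≤ sz c A := zero_le_one.trans (one_le_sz c A)
  set ζ := zet c P.d.w A
  set M := ZW67.MM wt c.K (Q.map (algebraMap ℚ ℝ)) (PPg wt p c.s A)
  have hz : ∀ i k, ‖ζ i k‖ ≤ C1 * sz c A ^ ((2 * Fintype.card ι + 2) * eh c) :=
    fun i k => h1 A hA P.d.w i k
  have hzH : ∀ i k, ‖ζᴴ i k‖ ≤ C1 * sz c A ^ ((2 * Fintype.card ι + 2) * eh c) := by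
    intro i k
    rw [Matrix.conjTranspose_apply, norm_star]
    exact hz k i
  have hM : ∀ i k, ‖M i k‖ ≤ C2 * sz c A ^ (2 * c.K) := h2 A hA
  have hMi : ∀ i k, ‖M⁻¹ i k‖ ≤ C3 * sz c A ^ (2 * c.K) := h3 A hA
  have e1 := W7_mul hMi hzH (by positivity)
  have e2 := W7_mul e1 hM (by positivity)
  have e3 := W7_mul e2 hz (by positivity)
  have e4 := W7_tr e3
  refine e4.trans (le_of_eq ?_)
  rw [eN]
  ring

end AD67
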