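import Pool.Agent.LibAD67.W0

/-!
Row W8: the size along a variation of moderate growth.

PLAN. sz_le: at x, Φ x (π x) is an MHS (hvar.mhs x).self_of_nhds; ModGr bounds the entries of A = Φ x (π x) and A⁻¹;
pg c A satisfies IsOpP wt p (dg wt A) (pg c A): `isOpP_iff (grP_gr hP) (delH_gr hP)` with oP K P 1 = PG K P
(hP = exists_GrP; grP_gr, delH_gr are in LibZQ38/B13.lean or LibZQ38/B07.lean), so its entries are bounded too. 1 ≤ siz.
F_le: ‖eval z F‖ ≤ ∑ over the support of ‖coeff‖ * ∏ ‖z i‖^(m i) ≤ (∑ ‖coeff‖) (1 + ‖z‖)^totalDegree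
(MvPolynomial.eval_eq, norm_le_pi_norm, MvPolynomial.le_totalDegree).
log_siz: siz * ‖F‖ = ‖F‖ (1 + ‖z‖) + 1 ≤ (C + 1) (1 + ‖z‖)^(e+1).
-/

open Matrix Complex Filter Topology
open MW38 (Fl Tri blk dg)

namespace AD67

open ZQ38 AD19

variable {ι : Type} [Fintype ι] [DecidableEq ι] {wt p : ι → ℤ} {Q : Matrix ι ι ℚ} {X : Type}
  {d : ℕ} {F : MvPolynomial (Fin d) ℂ} {π : X → Fin d → ℂ}
  {Φ : X → (Fin d → ℂ) → Matrix ι ι ℂ} {e : ℕ}

theorem one_le_siz (F : MvPolynomial (Fin d) ℂ) (z : Fin d → ℂ) : 1 ≤ siz F z := by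
  unfold siz
  have h1 := norm_nonneg z
  have h2 : 0 ≤ ‖MvPolynomial.eval z F‖⁻¹ := inv_nonneg.2 (norm_nonneg _)
  linarith

theorem W8_oP_one (K : ℕ) (P : ℤ → Matrix ι ι ℂ) : oP K P 1 = PG K P := by
  unfold oP
  rw [one_mul, inv_one, mul_one]

theorem sz_le (c : Par wt p) (hvar : VarX wt p Q π Φ) (hg : ModGr F wt p π Φ e) :
    ∃ C : ℝ, 1 ≤ C ∧ ∀ x, sz c (Φ x (π x)) ≤ C * siz F (π x) ^ e := by
  obtain ⟨C, hC⟩ := hg
  refine ⟨1 + ∑ _i : ι, ∑ _j : ι, (|C| + |C| + |C|), ?_, fun x => ?_⟩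
  · have : 0 ≤ ∑ _i : ι, ∑ _j : ι, (|C| + |C| + |C|) :=
      Finset.sum_nonneg fun _ _ => Finset.sum_nonneg fun _ _ => by positivity
    linarith
  · have hmhs : MW38.MHS wt p (Q.map (algebraMap ℚ ℝ)) (Φ x (π x)) := (hvar.mhs x).self_of_nhds
    have hP := exists_GrP hmhs c.hs c.hK
    have hop : IsOpP wt p (dg wt (Φ x (π x))) (pg c (Φ x (π x))) := by
      rw [isOpP_iff (grP_gr hP) (delH_gr hP), W8_oP_one]
      rfl
    obtain ⟨h1, h2, h3⟩ := hC x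
    have h3' := h3 _ hop
    have hs := one_le_siz F (π x)
    have hs1 : 1 ≤ siz F (π x) ^ e := one_le_pow₀ hs
    have hs0 : 0 ≤ siz F (π x) ^ e := zero_le_one.trans hs1
    have hle : C * siz F (π x) ^ e ≤ |C| * siz F (π x) ^ e :=
      mul_le_mul_of_nonneg_right (le_abs_self C) hs0
    unfold sz
    rw [add_mul, one_mul, Finset.sum_mul]
    refine add_le_add hs1 (Finset.sum_le_sum fun i _ => ?_)
    rw [Finset.sum_mul]
    refine Finset.sum_le_sum fun j _ => ?_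
    rw [add_mul, add_mul]
    exact add_le_add (add_le_add ((h1 i j).trans hle) ((h2 i j).trans hle)) ((h3' i j).trans hle)

theorem F_le (he : F.totalDegree ≤ e) :
    ∃ C : ℝ, 0 ≤ C ∧ ∀ z, ‖MvPolynomial.eval z F‖ ≤ C * (1 + ‖z‖) ^ e := by
  refine ⟨∑ m ∈ F.support, ‖F.coeff m‖, Finset.sum_nonneg fun _ _ => norm_nonneg _, fun z => ?_⟩
  rw [MvPolynomial.eval_eq', Finset.sum_mul]
  refine (norm_sum_le _ _).trans (Finset.sum_le_sum fun m hm => ?_)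
  rw [norm_mul, norm_prod]
  refine mul_le_mul_of_nonneg_left ?_ (norm_nonneg _)
  have hz : 1 ≤ 1 + ‖z‖ := by
    have := norm_nonneg z
    linarith
  have hsum : ∑ i, m i ≤ e := by
    have h1 := MvPolynomial.le_totalDegree hm
    rw [Finsupp.sum_fintype _ _ fun _ => rfl] at h1
    exact h1.trans he
  calc ∏ i, ‖z i ^ m i‖ ≤ ∏ i, (1 + ‖z‖) ^ m i := by
        refine Finset.prod_le_prod (fun _ _ => norm_nonneg _) fun i _ => ?_
        rw [norm_pow]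
        refine pow_le_pow_left₀ (norm_nonneg _) ?_ _
        have := norm_le_pi_norm z i
        linarith
    _ = (1 + ‖z‖) ^ ∑ i, m i := Finset.prod_pow_eq_pow_sum _ _ _
    _ ≤ (1 + ‖z‖) ^ e := pow_le_pow_right₀ hz hsum

theorem log_siz (he : F.totalDegree ≤ e) : ∃ C : ℝ, 0 ≤ C ∧ ∀ z, MvPolynomial.eval z F ≠ 0 →
    Real.log (siz F z) + Real.log ‖MvPolynomial.eval z F‖ ≤
      C + (e + 1) * Real.log (1 + ‖z‖) := by
  obtain ⟨C, hC0, hC⟩ := F_le he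
  refine ⟨Real.log (C + 1), Real.log_nonneg (by linarith), fun z hz => ?_⟩
  have hF : 0 < ‖MvPolynomial.eval z F‖ := norm_pos_iff.2 hz
  have hs : 0 < siz F z := zero_lt_one.trans_le (one_le_siz F z)
  have h1z : 1 ≤ 1 + ‖z‖ := by
    have := norm_nonneg z
    linarith
  have h0z : 0 < 1 + ‖z‖ := zero_lt_one.trans_le h1z
  rw [← Real.log_mul hs.ne' hF.ne']
  have h1 : siz F z * ‖MvPolynomial.eval z F‖ = ‖MvPolynomial.eval z F‖ * (1 + ‖z‖) + 1 := by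
    unfold siz
    rw [add_mul, inv_mul_cancel₀ hF.ne']
    ring
  have h2 : ‖MvPolynomial.eval z F‖ * (1 + ‖z‖) + 1 ≤ (C + 1) * (1 + ‖z‖) ^ (e + 1) := by
    have h3 : ‖MvPolynomial.eval z F‖ * (1 + ‖z‖) ≤ C * (1 + ‖z‖) ^ e * (1 + ‖z‖) :=
      mul_le_mul_of_nonneg_right (hC z) h0z.le
    have h4 : 1 ≤ (1 + ‖z‖) ^ (e + 1) := one_le_pow₀ h1z
    rw [add_mul, one_mul]
    have h5 : C * (1 + ‖z‖) ^ e * (1 + ‖z‖) = C * (1 + ‖z‖) ^ (e + 1) := by ring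
    linarith
  rw [h1]
  have h6 : 0 < ‖MvPolynomial.eval z F‖ * (1 + ‖z‖) + 1 := by positivity
  refine (Real.log_le_log h6 h2).trans (le_of_eq ?_)
  rw [Real.log_mul (by linarith) (pow_pos h0z _).ne', Real.log_pow]
  push_cast
  ring

end AD67
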