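import Pool.Agent.LibAD67.W1b
import Pool.Agent.LibAD67.W7
import Pool.Agent.LibAD67.W8
import Pool.Agent.LibAD67.W9
import Pool.Agent.LibAD19.N3

/-!
Row W9c: growth of the family.

PLAN. growth: sz_le, upt_le, Nf_bd: log (1 + Nf) ≤ log (1 + C sz^eN) ≤ C' + eN log sz (sz ≥ 1), log (1+1) for the constant
1; log sz ≤ log C + e₁ log siz; total ≤ C'' + E₀ log siz with E₀ = e₁ (m eN + κ eU); add E₀ log ‖F‖ and use
log_siz.
-/

open Matrix Complex Filter Topology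
open MW38 (Fl Tri blk dg)
open scoped ContDiff

namespace AD67

open ZQ38 AD19

variable {ι : Type} [Fintype ι] [DecidableEq ι] {wt p : ι → ℤ} {Q : Matrix ι ι ℚ} {X : Type}
  [TopologicalSpace X] {d : ℕ} {F : MvPolynomial (Fin d) ℂ} {s : ℕ} {π : X → Fin d → ℂ}
  {Φ : X → (Fin d → ℂ) → Matrix ι ι ℂ} {S : X → Finset (Submodule ℚ (Matrix ι ι ℚ))}

theorem growth (c : Par wt p) (hc : IsCov F s π) (hvar : VarX wt p Q π Φ) {e₁ e₂ m : ℕ}
    (hg : ModGr F wt p π Φ e₁) (he : F.totalDegree ≤ e₂) {κ : ℝ} (hκ : 0 ≤ κ)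
    (N : X → Fin m → (Fin d → ℂ) → ℝ)
    (hN : ∀ x j, (∃ (m n : Submodule ℚ (Matrix ι ι ℚ)) (P : Pk wt Q m n), IsLie m ∧
      (∀ B ∈ m, Tri wt B) ∧ mtLie wt p (Φ x (π x)) ≤ m ∧ n ≤ m ⊓ Low ℚ wt ∧
      N x j (π x) = Nf c P (Φ x (π x))) ∨ N x j (π x) = 1) :
    ∃ C : ℝ, ∀ x, (∑ j, Real.log (1 + N x j (π x))) +
      uu c Q F Φ κ (e₁ * (m * eN c + κ * eU c)) x (π x) ≤
      C + (e₁ * (m * eN c + κ * eU c)) * (e₂ + 1) * Real.log (1 + ‖π x‖) := by
  obtain ⟨Cu, hCu⟩ := upt_le c Q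
  obtain ⟨CN, hCN0, hCN⟩ := Nf_bd c Q
  obtain ⟨C1, hC1, hsz⟩ := sz_le c hvar hg
  obtain ⟨CF, hCF0, hF⟩ := log_siz (F := F) he
  refine ⟨m * (Real.log (1 + CN) + Real.log 2) + κ * Cu +
    ((m : ℝ) * eN c + κ * eU c) * Real.log C1 + (e₁ * (m * eN c + κ * eU c)) * CF, fun x => ?_⟩
  have hA : Φ x (π x) ∈ SQ wt p Q := (hvar.mhs x).self_of_nhds
  have hS1 : 1 ≤ sz c (Φ x (π x)) := one_le_sz c _
  have hs1 : 1 ≤ siz F (π x) := one_le_siz F (π x)
  have hszx := hsz x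
  have hFx := hF (π x) (hc.ne x)
  have hux := hCu _ hA
  set S := sz c (Φ x (π x)) with hSdef
  set L := Real.log S with hL
  set z := siz F (π x) with hz
  have hL0 : 0 ≤ L := Real.log_nonneg hS1
  have hS0 : 0 < S := by linarith
  have hz0 : 0 < z := by linarith
  have hC10 : 0 < C1 := by linarith
  have hLle : L ≤ Real.log C1 + e₁ * Real.log z := by
    have h1 : Real.log (C1 * z ^ e₁) = Real.log C1 + e₁ * Real.log z := by
      rw [Real.log_mul hC10.ne' (pow_pos hz0 _).ne', Real.log_pow]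
    rw [← h1]
    exact Real.log_le_log hS0 hszx
  have hlogCN : 0 ≤ Real.log (1 + CN) := Real.log_nonneg (by linarith)
  have hlog2 : 0 ≤ Real.log 2 := Real.log_nonneg (by norm_num)
  have heN : (0 : ℝ) ≤ eN c := Nat.cast_nonneg _
  have heU : (0 : ℝ) ≤ eU c := Nat.cast_nonneg _
  have hj : ∀ j : Fin m, Real.log (1 + N x j (π x)) ≤
      Real.log (1 + CN) + Real.log 2 + eN c * L := by
    intro j
    rcases hN x j with ⟨m', n', P, hlie, htri, hmt, hn, hval⟩ | h1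
    · have hb := hCN _ hA m' n' hlie htri hmt hn P
      have h0 : 0 ≤ Nf c P (Φ x (π x)) := (Nf_eq (c := c) hA hlie htri hmt P).2.1
      rw [hval]
      have hSp : (1 : ℝ) ≤ S ^ eN c := one_le_pow₀ hS1
      have h2 : 1 + Nf c P (Φ x (π x)) ≤ (1 + CN) * S ^ eN c := by
        have h3 : Nf c P (Φ x (π x)) ≤ CN * S ^ eN c := hb
        linarith
      have h4 : Real.log (1 + Nf c P (Φ x (π x))) ≤ Real.log ((1 + CN) * S ^ eN c) :=
        Real.log_le_log (by linarith) h2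
      rw [Real.log_mul (by positivity) (pow_pos hS0 _).ne', Real.log_pow] at h4
      linarith
    · rw [h1]
      have h2 : (1 : ℝ) + 1 = 2 := by norm_num
      rw [h2]
      have h3 : 0 ≤ (eN c : ℝ) * L := mul_nonneg heN hL0
      linarith
  have hsum : ∑ j, Real.log (1 + N x j (π x)) ≤
      m * (Real.log (1 + CN) + Real.log 2 + eN c * L) := by
    refine (Finset.sum_le_sum fun j _ => hj j).trans (le_of_eq ?_)
    rw [Finset.sum_const, Finset.card_univ, Fintype.card_fin, nsmul_eq_mul]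
  have hu2 : κ * upt c Q (Φ x (π x)) ≤ κ * (Cu + eU c * L) := mul_le_mul_of_nonneg_left hux hκ
  have hm0 : (0 : ℝ) ≤ m := Nat.cast_nonneg _
  have he0 : (0 : ℝ) ≤ e₁ := Nat.cast_nonneg _
  have hB0 : 0 ≤ (m : ℝ) * eN c + κ * eU c := by positivity
  have h5 := mul_le_mul_of_nonneg_left hLle hB0
  have h6 := mul_le_mul_of_nonneg_left hFx (mul_nonneg he0 hB0)
  unfold uu
  nlinarith [hsum, hu2, h5, h6]

end AD67
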