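import Pool.Agent.LibAD67.C9
import Pool.Agent.LibAD67.W9b
import Pool.Agent.LibAD67.W9c
import Pool.Agent.LibAG25.H5

/-!
The final theorem.
-/

open Matrix Complex Filter Topology
open MW38 (Fl Tri blk dg)

namespace AD67

open ZQ38 AD19

variable {ι : Type} [Fintype ι] [DecidableEq ι]

theorem final {wt p : ι → ℤ} {n s e₁ e₂ m K J : ℕ} {X : Type} [TopologicalSpace X]
    {Q : Matrix ι ι ℚ} {F : MvPolynomial (Fin (n + 1)) ℂ} {π : X → Fin (n + 1) → ℂ}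
    {Φ : X → (Fin (n + 1) → ℂ) → Matrix ι ι ℂ}
    {S : X → Finset (Submodule ℚ (Matrix ι ι ℚ))}
    (hsymm : ∃ s : Equiv.Perm ι, ∀ j, wt (s j) = wt j ∧ p (s j) = wt j - p j)
    (hK : ∀ j, |p j| ≤ K) (hJ : ∀ i j, wt i - wt j < J)
    (hF : F ≠ 0) (hdeg : F.totalDegree ≤ e₂) (hcov : IsCov F s π) (hvar : VarX wt p Q π Φ)
    (hgr : ModGr F wt p π Φ e₁) (hloc : IsLoc wt Q π Φ S) (hcard : ∀ x, (S x).card ≤ m)
    (hmax : ∀ x, ∀ 𝔫 ∈ S x,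
      MaxSt (genAt wt p (Φ x) (π x)) (genAt wt p (Φ x) (π x) ⊓ Low ℚ wt) 𝔫)
    (hty : ∀ x, ∀ 𝔫 ∈ S x, ∀ t : ℤ × ℤ, (t = (-1, -1) ∨ t = (-1, 0) ∨ t = (0, -1)) →
      ∀ᶠ v in 𝓝 (π x), hab wt p (Φ x v) (genAt wt p (Φ x) (π x) ⊓ Low ℚ wt) t =
        hab wt p (Φ x v) 𝔫 t) :
    ∃ G : MvPolynomial (Fin (n + 1)) ℂ, G ≠ 0 ∧
      2 * G.totalDegree ≤ (n + 1).factorial * s * e₁ * (e₂ + 1) * m *
        (4 * K + 4 * (Fintype.card ι + 1) * (J + 2) * (2 * K + 2) +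
          12 * Fintype.card ι ^ 3 * (2 * K + 1) * (2 * K + 2)) ∧
      (∀ x, (∃ 𝔫 ∈ S x, mtLie wt p (Φ x (π x)) ⊓ Low ℚ wt ≤ 𝔫) →
        MvPolynomial.eval (π x) G = 0) ∧
      ((∀ x 𝔫, MaxSt (genAt wt p (Φ x) (π x)) (genAt wt p (Φ x) (π x) ⊓ Low ℚ wt) 𝔫 →
          𝔫 ∈ S x) →
        ∀ x, mtLie wt p (Φ x (π x)) ≠ genAt wt p (Φ x) (π x) →
          mtLie wt p (dg wt (Φ x (π x))) = genAt wt p (fun v => dg wt (Φ x v)) (π x) →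
          MvPolynomial.eval (π x) G = 0) := by
  obtain ⟨σ, hσ⟩ := hsymm
  set c : Par wt p := ⟨σ, K, J, hσ, hK, hJ⟩ with hc
  set κ : ℝ := 12 * (m : ℝ) * (Fintype.card ι : ℝ) ^ 2 with hκ
  have hκ0 : 0 ≤ κ := by positivity
  set E : ℝ := e₁ * (m * eN c + κ * eU c) with hE
  have hE0 : 0 ≤ E := by positivity
  set A : ℝ := E * (e₂ + 1) with hA
  have hA0 : 0 ≤ A := by positivity
  have hset : AG25.Setup wt p Q F s π Φ S m :=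
    { cov := hcov
      var := hvar
      loc := hloc
      max := hmax
      ty := fun x 𝔫 h𝔫 => by
        filter_upwards [hty x 𝔫 h𝔫 (-1, -1) (Or.inl rfl), hty x 𝔫 h𝔫 (-1, 0) (Or.inr (Or.inl rfl)),
          hty x 𝔫 h𝔫 (0, -1) (Or.inr (Or.inr rfl))] with v h1 h2 h3
        intro t ht
        rcases ht with rfl | rfl | rfl
        · exact h1
        · exact h2
        · exact h3
      card := hcard }
  have hN : ∀ x j, (∃ (m n : Submodule ℚ (Matrix ι ι ℚ)) (P : Pk wt Q m n), IsLie m ∧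
      (∀ B ∈ m, Tri wt B) ∧ mtLie wt p (Φ x (π x)) ≤ m ∧ n ≤ m ⊓ Low ℚ wt ∧
      AG25.NN c hset x j (π x) = Nf c P (Φ x (π x))) ∨ AG25.NN c hset x j (π x) = 1 := by
    intro x j
    rcases AG25.NN_cases c hset x j with ⟨𝔫, h1⟩ | h1
    · left
      refine ⟨gLie wt p (Φ x) (π x), 𝔫.1, AG25.PK c hset x 𝔫, (AG25.m_lie c hvar x).1,
        (AG25.m_lie c hvar x).2, (AG25.m_near c hvar x).self_of_nhds.2, (hmax x 𝔫.1 𝔫.2).le, ?_⟩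
      rw [h1]
    · right
      rw [h1]
  obtain ⟨C, hC⟩ := growth c hcov hvar hgr hdeg hκ0 (AG25.NN c hset) hN
  obtain ⟨H, hH⟩ : ∃ H : HFam π (Fin m) A, H.N = AG25.NN c hset :=
    ⟨AG25.fam (A := A) c hset (uu c Q F Φ κ E) (uu_loc c hcov hvar hloc κ E)
      (fun x b t hb hbt => (uu_lap c hcov hvar κ E x b t hb hbt).1)
      (fun x b t hb hbt => (uu_lap c hcov hvar κ E x b t hb hbt).2.ge) ⟨C, hC⟩, rfl⟩
  have hZ : ∀ x ∈ {x : X | ∃ 𝔫 ∈ S x, mtLie wt p (Φ x (π x)) ⊓ Low ℚ wt ≤ 𝔫},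
      ∃ (j : Fin m) (C : ℝ), ∀ᶠ v in 𝓝 (π x), H.N x j v ≤ C * ‖v - π x‖ ^ 2 := by
    rintro x ⟨𝔫, h𝔫, hs⟩
    rw [hH]
    exact AG25.special c hset x h𝔫 hs
  obtain ⟨T, hT⟩ : ∃ T : ℕ, T = (n + 1).factorial * s * e₁ * (e₂ + 1) * m *
        (4 * K + 4 * (Fintype.card ι + 1) * (J + 2) * (2 * K + 2) +
          12 * Fintype.card ι ^ 3 * (2 * K + 1) * (2 * K + 2)) := ⟨_, rfl⟩
  have hTA : ((n + 1).factorial : ℝ) * s * A = T := by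
    rw [hT, hA, hE, hκ]
    have h1 : eN c = 4 * K + 2 * ((2 * Fintype.card ι + 2) * ((J + 2) * (2 * K + 2))) := rfl
    have h2 : eU c = (2 * K + 1) * (Fintype.card ι * (2 * K + 2)) := rfl
    rw [h1, h2]
    push_cast
    ring
  have hk : ((n + 1).factorial : ℝ) * s * A < 2 * ((T / 2 + 1 : ℕ) : ℝ) := by
    rw [hTA]
    have h1 : T < 2 * (T / 2 + 1) := by omega
    exact_mod_cast h1
  obtain ⟨G, hG0, hGd, hG⟩ := abs_main hF hA0 hcov H hZ hk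
  refine ⟨G, hG0, ?_, fun x hx => hG x hx, fun hS x h1 h2 => ?_⟩
  · rw [← hT]
    omega
  · obtain ⟨r, hr, hv⟩ := AG25.ve_ball hvar x
    obtain ⟨𝔫, h3, h4⟩ := hl_point c hr hv h1 h2
    exact hG x ⟨𝔫, hS x 𝔫 h3, h4⟩

end AD67
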