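import Pool.Agent.LibAD67.Defs

/-!
Cutoff functions in one variable: definitions.
-/

open Complex Filter Topology MeasureTheory
open scoped ContDiff

namespace AD67

open SP38 US38

/-- a quarter of the Laplacian of a real function -/
noncomputable def lap (f : ℂ → ℝ) (t : ℂ) : ℝ := (dzb (dz (fun t => ((f t : ℝ) : ℂ))) t).re

/-- the radial function `f (log |t - b|)` -/
noncomputable def cut (f : ℝ → ℝ) (b t : ℂ) : ℝ := if t = b then 0 else f (Real.log ‖t - b‖)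

/-- the radial function `f (- log |t|)` -/
noncomputable def cutI (f : ℝ → ℝ) (t : ℂ) : ℝ := if t = 0 then 1 else f (-Real.log ‖t‖)

/-- A profile: `f = 0` for `s ≤ a - Λ`, `f = 1` for `s ≥ a'`, `f²` is convex on `s ≤ a` and almost
affine of slope `O(1/Λ)`. -/
structure Prof (a a' C₀ Λ : ℝ) (f : ℝ → ℝ) : Prop where
  sm : ContDiff ℝ ∞ f
  nn : ∀ s, 0 ≤ f s
  zero : ∀ s ≤ a - Λ, f s = 0
  one : ∀ s, a' ≤ s → f s = 1
  conv : ∀ s ≤ a, 0 ≤ deriv (deriv fun s => f s ^ 2) s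
  band : ∀ s, a ≤ s → s ≤ a' → |deriv (deriv fun s => f s ^ 2) s| ≤ C₀ / Λ
  d1 : ∀ s, |deriv f s| ≤ C₀ / Λ
  val : |f a ^ 2 - 1| ≤ C₀ / Λ
  sl : 0 ≤ deriv (fun s => f s ^ 2) a ∧ deriv (fun s => f s ^ 2) a ≤ C₀ / Λ

end AD67
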