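import Pool.Agent.LibAD67.UDef

/-!
Row U0: Wirtinger calculus for square matrices indexed by any finite type.

PLAN. Copy the proofs of Pool/Agent/LibSP38/WirtM.lean (WirtM_det, Sm.inv, DZ_inv, DB_inv, dz_trace,
dzb_trace, Sm.trace: there for `Fin m`), `Fin m` replaced by `α`.
-/

open Matrix Complex Filter Topology
open scoped ContDiff

namespace AD67

open SP38

variable {α : Type} [Fintype α] [DecidableEq α] {Ω : Set ℂ} {z : ℂ} {G : ℂ → Matrix α α ℂ}

theorem sm_det (h : Sm Ω G) : SmS Ω (fun z => (G z).det) := by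
  unfold SmS
  simp only [Matrix.det_apply']
  refine ContDiffOn.sum fun σ _ => ContDiffOn.mul contDiffOn_const ?_
  exact contDiffOn_prod fun i _ => h (σ i) i

theorem sm_inv (h : Sm Ω G) (hu : ∀ z ∈ Ω, IsUnit (G z)) : Sm Ω (fun z => (G z)⁻¹) := by
  intro i j
  have e : (fun z => (G z)⁻¹ i j) = fun z => ((G z).det)⁻¹ * (G z).adjugate i j := by
    funext z
    rw [Matrix.inv_def, Matrix.smul_apply, Ring.inverse_eq_inv', smul_eq_mul]
  unfold SmS
  rw [e]
  refine ContDiffOn.mul (ContDiffOn.inv (sm_det h) fun z hz => ?_) ?_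
  · exact ((Matrix.isUnit_iff_isUnit_det _).1 (hu z hz)).ne_zero
  · simp only [Matrix.adjugate_apply]
    refine sm_det (G := fun z => (G z).updateRow j (Pi.single i 1)) fun k l => ?_
    by_cases hk : k = j
    · subst hk
      simp only [Matrix.updateRow_self]
      exact contDiffOn_const
    · simp only [Matrix.updateRow_ne hk]
      exact h k l

theorem DZ_invA (hΩ : IsOpen Ω) (hz : z ∈ Ω) (h : Sm Ω G) (hu : ∀ z ∈ Ω, IsUnit (G z)) :
    DZ (fun z => (G z)⁻¹) z = -((G z)⁻¹ * DZ G z * (G z)⁻¹) := by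
  have hd : IsUnit (G z).det := (Matrix.isUnit_iff_isUnit_det _).1 (hu z hz)
  have e : DZ (fun z => G z * (G z)⁻¹) z = 0 := by
    rw [← DZ_const (z := z) (1 : Matrix α α ℂ)]
    refine DZ_congr ?_
    filter_upwards [hΩ.mem_nhds hz] with x hx
    exact Matrix.mul_nonsing_inv _ ((Matrix.isUnit_iff_isUnit_det _).1 (hu x hx))
  rw [DZ_mul hΩ hz h (sm_inv h hu)] at e
  have e2 : G z * DZ (fun z => (G z)⁻¹) z = -(DZ G z * (G z)⁻¹) := eq_neg_of_add_eq_zero_right e
  calc DZ (fun z => (G z)⁻¹) z = (G z)⁻¹ * (G z * DZ (fun z => (G z)⁻¹) z) := by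
        rw [← Matrix.mul_assoc, Matrix.nonsing_inv_mul _ hd, Matrix.one_mul]
    _ = -((G z)⁻¹ * DZ G z * (G z)⁻¹) := by rw [e2, Matrix.mul_neg, ← Matrix.mul_assoc]

theorem DB_invA (hΩ : IsOpen Ω) (hz : z ∈ Ω) (h : Sm Ω G) (hu : ∀ z ∈ Ω, IsUnit (G z)) :
    DB (fun z => (G z)⁻¹) z = -((G z)⁻¹ * DB G z * (G z)⁻¹) := by
  have hd : IsUnit (G z).det := (Matrix.isUnit_iff_isUnit_det _).1 (hu z hz)
  have e : DB (fun z => G z * (G z)⁻¹) z = 0 := by
    rw [← DB_const (z := z) (1 : Matrix α α ℂ)]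
    refine DB_congr ?_
    filter_upwards [hΩ.mem_nhds hz] with x hx
    exact Matrix.mul_nonsing_inv _ ((Matrix.isUnit_iff_isUnit_det _).1 (hu x hx))
  rw [DB_mul hΩ hz h (sm_inv h hu)] at e
  have e2 : G z * DB (fun z => (G z)⁻¹) z = -(DB G z * (G z)⁻¹) := eq_neg_of_add_eq_zero_right e
  calc DB (fun z => (G z)⁻¹) z = (G z)⁻¹ * (G z * DB (fun z => (G z)⁻¹) z) := by
        rw [← Matrix.mul_assoc, Matrix.nonsing_inv_mul _ hd, Matrix.one_mul]
    _ = -((G z)⁻¹ * DB G z * (G z)⁻¹) := by rw [e2, Matrix.mul_neg, ← Matrix.mul_assoc]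

omit [DecidableEq α] in
theorem dz_traceA (hΩ : IsOpen Ω) (hz : z ∈ Ω) (h : Sm Ω G) :
    dz (fun z => Matrix.trace (G z)) z = Matrix.trace (DZ G z) := by
  simp only [Matrix.trace, Matrix.diag_apply]
  exact WirtM_dz_sum _ fun k _ => (h k k).differentiableAt hΩ hz

omit [DecidableEq α] in
theorem dzb_traceA (hΩ : IsOpen Ω) (hz : z ∈ Ω) (h : Sm Ω G) :
    dzb (fun z => Matrix.trace (G z)) z = Matrix.trace (DB G z) := by
  simp only [Matrix.trace, Matrix.diag_apply]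
  exact WirtM_dzb_sum _ fun k _ => (h k k).differentiableAt hΩ hz

omit [DecidableEq α] in
theorem sm_trace (h : Sm Ω G) : SmS Ω (fun z => Matrix.trace (G z)) := by
  unfold SmS
  simp only [Matrix.trace, Matrix.diag_apply]
  exact ContDiffOn.sum fun k _ => h k k

end AD67
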