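import Pool.Agent.LibAD67.UDef

/-!
Row U1: the Laplacian of `log |f|`.

PLAN. log ‖f‖ = (1/2) log (normSq f), `normSq (f z) = (f z * conj (f z)).re`. Smoothness:
`ContDiffAt.log` for `Complex.normSq ∘ f` (a polynomial in re, im of f, nonzero) or
`Real.contDiffAt_log` and `ContDiffAt.norm`.
Put L z := ((Real.log ‖f z‖ : ℝ) : ℂ), smooth on Ω. First claim: on Ω
`dz L z = (dz f z / f z + conj (dzb f z / f z)) / 2`: by the chain rule for Real.log
(`HasFDerivAt.log` of N z := normSq (f z), (L = (1/2) log N), dz N = dz f * conj f + f * conj (dzb f) by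
dz_mul, dz_conj; a lemma dz ((log N : ℝ) : ℂ) = dz (N : ℂ) / N). Then with g := dz f / f and
h := dzb f / f (both smooth on Ω): dzb (dz L) = (dzb g + conj (dz h)) / 2 (dzb_conj), and
dz h = dz (dzb f) / f - dzb f * dz f / f^2 = dzb g by `SmS.dz_dzb`. So
(dzb (dz L)).re = ((dzb g).re + (conj (dzb g)).re) / 2 = (dzb g).re.
lap_log_holo: dz f = deriv f, g = deriv f / f is holomorphic near z, dzb g = 0 (dzb_of_holo).
-/

open Matrix Complex Filter Topology
open scoped ContDiff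

namespace AD67

open SP38

variable {Ω : Set ℂ} {z : ℂ} {f : ℂ → ℂ}

theorem U1_fderiv (hf : DifferentiableAt ℝ f z) (h0 : f z ≠ 0) (v : ℂ) :
    fderiv ℝ (fun z => ((Real.log ‖f z‖ : ℝ) : ℂ)) z v =
      (((fderiv ℝ f z v / f z).re : ℝ) : ℂ) := by
  have h1 := hf.hasFDerivAt.norm_sq
  have hn : ‖f z‖ ^ 2 ≠ 0 := pow_ne_zero 2 (norm_ne_zero_iff.2 h0)
  have h2 := (h1.log hn).const_mul (1 / 2 : ℝ)
  have e1 : (fun z => (1 / 2 : ℝ) * Real.log (‖f z‖ ^ 2)) = fun z => Real.log ‖f z‖ := by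
    funext w
    rw [Real.log_pow]
    push_cast
    ring
  rw [e1] at h2
  have h3 := Complex.ofRealCLM.hasFDerivAt.comp z h2
  have e2 : (⇑Complex.ofRealCLM ∘ fun z => Real.log ‖f z‖) =
      fun z => ((Real.log ‖f z‖ : ℝ) : ℂ) := rfl
  rw [e2] at h3
  rw [h3.fderiv]
  simp only [ContinuousLinearMap.comp_apply, _root_.smul_apply, Complex.ofRealCLM_apply,
    innerSL_apply_apply, smul_eq_mul, nsmul_eq_mul]
  congr 1
  rw [Complex.inner, Complex.div_re, ← Complex.normSq_eq_norm_sq]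
  have h4 : Complex.normSq (f z) ≠ 0 := fun h => h0 (Complex.normSq_eq_zero.1 h)
  simp only [Complex.mul_re, Complex.conj_re, Complex.conj_im]
  field_simp
  push_cast
  ring

theorem U1_dz (hf : DifferentiableAt ℝ f z) (h0 : f z ≠ 0) :
    dz (fun z => ((Real.log ‖f z‖ : ℝ) : ℂ)) z =
      (1 / 2 : ℂ) * (dz f z / f z + (starRingEnd ℂ) (dzb f z / f z)) := by
  have e : ∀ x : ℂ, ((x.re : ℝ) : ℂ) = (x + (starRingEnd ℂ) x) / 2 := by
    intro x
    rw [Complex.add_conj]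
    push_cast
    ring
  have h : dz (fun z => ((Real.log ‖f z‖ : ℝ) : ℂ)) z =
      (fderiv ℝ (fun z => ((Real.log ‖f z‖ : ℝ) : ℂ)) z 1 -
        I * fderiv ℝ (fun z => ((Real.log ‖f z‖ : ℝ) : ℂ)) z I) / 2 := rfl
  rw [h, U1_fderiv hf h0, U1_fderiv hf h0, e, e, dz, dzb]
  simp only [map_div₀, map_add, map_mul, conj_I, map_ofNat]
  have h1 : (starRingEnd ℂ) (f z) ≠ 0 := fun h => h0 ((map_eq_zero _).1 h)
  field_simp
  ring

theorem lap_log (hΩ : IsOpen Ω) (hz : z ∈ Ω) (hf : SmS Ω f) (h0 : ∀ z ∈ Ω, f z ≠ 0) :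
    ContDiffAt ℝ ∞ (fun z => Real.log ‖f z‖) z ∧
    (dzb (dz (fun z => ((Real.log ‖f z‖ : ℝ) : ℂ))) z).re =
      (dzb (fun z => dz f z / f z) z).re := by
  have hn := hΩ.mem_nhds hz
  have hfz : ContDiffAt ℝ ∞ f z := ContDiffOn.contDiffAt hf hn
  refine ⟨(hfz.norm ℝ (h0 z hz)).log (norm_ne_zero_iff.2 (h0 z hz)), ?_⟩
  -- the two quotients
  have hi : SmS Ω (fun z => (f z)⁻¹) := ContDiffOn.inv hf h0
  have hg : SmS Ω (fun z => dz f z / f z) := by
    have h := ContDiffOn.mul (SmS.dz hΩ hf) hi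
    exact h.congr fun w _ => div_eq_mul_inv _ _
  have hh : SmS Ω (fun z => dzb f z / f z) := by
    have h := ContDiffOn.mul (SmS.dzb hΩ hf) hi
    exact h.congr fun w _ => div_eq_mul_inv _ _
  have dg := hg.differentiableAt hΩ hz
  have dh := hh.differentiableAt hΩ hz
  have df := hf.differentiableAt hΩ hz
  have e1 : dz (fun z => ((Real.log ‖f z‖ : ℝ) : ℂ)) =ᶠ[nhds z]
      fun z => (1 / 2 : ℂ) * (dz f z / f z + (starRingEnd ℂ) (dzb f z / f z)) := by
    filter_upwards [hn] with w hw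
    exact U1_dz (hf.differentiableAt hΩ hw) (h0 w hw)
  have dc : DifferentiableAt ℝ (fun z => (starRingEnd ℂ) (dzb f z / f z)) z :=
    (conjCLE : ℂ →L[ℝ] ℂ).differentiableAt.comp z dh
  have dgc : DifferentiableAt ℝ (fun z => dz f z / f z + (starRingEnd ℂ) (dzb f z / f z)) z :=
    dg.add dc
  rw [dzb_congr e1, dzb_mul (differentiableAt_const _) dgc, dzb_const, zero_mul, zero_add,
    dzb_add dg dc, dzb_conj dh]
  have e2 : dz (fun z => dzb f z / f z) z = dzb (fun z => dz f z / f z) z := by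
    have a1 : (fun z => f z * (dzb f z / f z)) =ᶠ[nhds z] dzb f := by
      filter_upwards [hn] with w hw
      exact mul_div_cancel₀ _ (h0 w hw)
    have a2 : (fun z => f z * (dz f z / f z)) =ᶠ[nhds z] dz f := by
      filter_upwards [hn] with w hw
      exact mul_div_cancel₀ _ (h0 w hw)
    have b1 := dz_mul df dh
    have b2 := dzb_mul df dg
    rw [dz_congr a1, SmS.dz_dzb hΩ hf hz] at b1
    rw [dzb_congr a2] at b2
    have h3 := h0 z hz
    have b3 : f z * dz (fun z => dzb f z / f z) z = f z * dzb (fun z => dz f z / f z) z := by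
      have b4 := b1.symm.trans b2
      have b5 : dz f z * (dzb f z / f z) = dzb f z * (dz f z / f z) := by ring
      rw [b5] at b4
      exact add_left_cancel b4
    exact mul_left_cancel₀ h3 b3
  rw [e2]
  simp only [Complex.mul_re, Complex.add_re, Complex.add_im, Complex.conj_re, Complex.conj_im]
  have e3 : ((1 / 2 : ℂ)).re = 1 / 2 := by norm_num
  have e4 : ((1 / 2 : ℂ)).im = 0 := by norm_num
  rw [e3, e4]
  ring

theorem lap_log_holo (hf : AnalyticAt ℂ f z) (h0 : f z ≠ 0) :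
    ContDiffAt ℝ ∞ (fun z => Real.log ‖f z‖) z ∧
    (dzb (dz (fun z => ((Real.log ‖f z‖ : ℝ) : ℂ))) z).re = 0 := by
  obtain ⟨Ω, hΩ1, hΩ2, hz⟩ := eventually_nhds_iff.1
    (hf.eventually_analyticAt.and (hf.continuousAt.eventually_ne h0))
  have hS : SmS Ω f := fun w hw =>
    ((hΩ1 w hw).1.contDiffAt (n := ∞)).restrict_scalars ℝ |>.contDiffWithinAt
  obtain ⟨h1, h2⟩ := lap_log hΩ2 hz hS fun w hw => (hΩ1 w hw).2
  refine ⟨h1, h2.trans ?_⟩
  have e1 : (fun z => dz f z / f z) =ᶠ[nhds z] fun z => deriv f z / f z := by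
    filter_upwards [hΩ2.mem_nhds hz] with w hw
    rw [dz_of_holo (hΩ1 w hw).1.differentiableAt]
  have hd : DifferentiableAt ℂ (fun z => deriv f z / f z) z :=
    hf.deriv.differentiableAt.div hf.differentiableAt h0
  rw [dzb_congr e1, dzb_of_holo hd, Complex.zero_re]

end AD67
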