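import Pool.Agent.LibAD67.U0

/-!
Row U2: Jacobi's formula.

PLAN. dz_det: expand `Matrix.det_apply'` : det = ∑ σ, sign σ * ∏ i, K (σ i) i; dz of a finite
product: `dz (∏ i ∈ s, f i) = ∑ i ∈ s, (∏ j ∈ s.erase i, f j) * dz (f i)` (induction, dz_mul). So
dz det = ∑ i, ∑ σ, sign σ * (∏ j ≠ i, K (σ j) j) * DZ K (σ i) i = ∑ i, det (K.updateCol i (column i of
DZ K)) (det_apply' again) = ∑ i, (adjugate K *ᵥ (column i of DZ K)) i
(`Matrix.cramer`, `Matrix.cramer_apply`, `Matrix.adjugate_mulVec`-like: `Matrix.mulVec_cramer`,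
`Matrix.cramer_eq_adjugate_mulVec`) = trace (adjugate K * DZ K); adjugate K = det K • K⁻¹.
-/

open Matrix Complex Filter Topology
open scoped ContDiff

namespace AD67

open SP38

variable {α : Type} [Fintype α] [DecidableEq α] {Ω : Set ℂ} {z : ℂ} {K : ℂ → Matrix α α ℂ}

omit [Fintype α] in
private theorem U2_diff_prod (s : Finset α) {f : α → ℂ → ℂ}
    (h : ∀ i ∈ s, DifferentiableAt ℝ (f i) z) : DifferentiableAt ℝ (fun z => ∏ i ∈ s, f i z) z := by
  induction s using Finset.induction_on with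
  | empty => simp only [Finset.prod_empty]; exact differentiableAt_const _
  | insert a s ha ih =>
    simp only [Finset.prod_insert ha]
    exact (h a (Finset.mem_insert_self a s)).mul (ih fun i hi => h i (Finset.mem_insert_of_mem hi))

omit [Fintype α] in
private theorem U2_dz_prod (s : Finset α) {f : α → ℂ → ℂ}
    (h : ∀ i ∈ s, DifferentiableAt ℝ (f i) z) :
    dz (fun z => ∏ i ∈ s, f i z) z = ∑ i ∈ s, (∏ j ∈ s.erase i, f j z) * dz (f i) z := by
  induction s using Finset.induction_on with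
  | empty => simp only [Finset.prod_empty, Finset.sum_empty]; exact dz_const 1
  | insert a s ha ih =>
    have h1 : ∀ i ∈ s, DifferentiableAt ℝ (f i) z := fun i hi => h i (Finset.mem_insert_of_mem hi)
    simp only [Finset.prod_insert ha]
    rw [dz_mul (h a (Finset.mem_insert_self a s)) (U2_diff_prod s h1), ih h1,
      Finset.sum_insert ha, Finset.erase_insert ha, Finset.mul_sum]
    congr 1
    · ring
    · refine Finset.sum_congr rfl fun i hi => ?_
      have hia : a ≠ i := fun e => ha (e ▸ hi)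
      rw [Finset.erase_insert_of_ne hia, Finset.prod_insert (fun h2 => ha (Finset.mem_of_mem_erase h2))]
      ring

theorem dz_det (hΩ : IsOpen Ω) (hz : z ∈ Ω) (h : Sm Ω K) :
    dz (fun z => (K z).det) z = Matrix.trace ((K z).adjugate * DZ K z) := by
  have hd : ∀ i j, DifferentiableAt ℝ (fun z => K z i j) z := fun i j => (h i j).differentiableAt hΩ hz
  have e1 : (fun z => (K z).det) = fun z => ∑ σ : Equiv.Perm α,
      ((Equiv.Perm.sign σ : ℤ) : ℂ) * ∏ i, K z (σ i) i := by
    funext w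
    exact Matrix.det_apply' (K w)
  have hprod : ∀ σ : Equiv.Perm α, DifferentiableAt ℝ (fun z => ∏ i, K z (σ i) i) z := fun σ =>
    U2_diff_prod Finset.univ fun i _ => hd (σ i) i
  rw [e1, WirtM_dz_sum _ fun σ _ => (hprod σ).const_mul _]
  have e2 : ∀ σ : Equiv.Perm α, dz (fun z => ((Equiv.Perm.sign σ : ℤ) : ℂ) * ∏ i, K z (σ i) i) z =
      ∑ i, ((Equiv.Perm.sign σ : ℤ) : ℂ) * ((∏ j ∈ Finset.univ.erase i, K z (σ j) j) * DZ K z (σ i) i) := by
    intro σ
    rw [WirtM_dz_smul _ (hprod σ), U2_dz_prod Finset.univ fun i _ => hd (σ i) i, Finset.mul_sum]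
    rfl
  rw [Finset.sum_congr rfl fun σ _ => e2 σ, Finset.sum_comm]
  unfold Matrix.trace
  refine Finset.sum_congr rfl fun i _ => ?_
  have e3 : ((K z).adjugate * DZ K z).diag i = ((K z).updateCol i (fun k => DZ K z k i)).det := by
    rw [← Matrix.cramer_apply, Matrix.cramer_eq_adjugate_mulVec]
    rfl
  rw [e3, Matrix.det_apply']
  refine Finset.sum_congr rfl fun σ _ => ?_
  congr 1
  rw [← Finset.prod_erase_mul _ _ (Finset.mem_univ i), Matrix.updateCol_self]
  congr 1
  refine Finset.prod_congr rfl fun j hj => ?_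
  rw [Matrix.updateCol_ne (Finset.ne_of_mem_erase hj)]

theorem dz_det_div (hΩ : IsOpen Ω) (hz : z ∈ Ω) (h : Sm Ω K) (hu : IsUnit (K z).det) :
    dz (fun z => (K z).det) z / (K z).det = Matrix.trace ((K z)⁻¹ * DZ K z) := by
  rw [dz_det hΩ hz h]
  have e1 : (K z).adjugate = (K z).det • (K z)⁻¹ := by
    rw [Matrix.inv_def, smul_smul, Ring.mul_inverse_cancel _ hu, one_smul]
  rw [e1, Matrix.smul_mul, Matrix.trace_smul, smul_eq_mul, mul_div_cancel_left₀ _ hu.ne_zero]

end AD67
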