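import Pool.Agent.LibAD67.U0

/-!
Row U3: the curvature of a holomorphic subbundle with a (possibly indefinite) hermitian form.

PLAN. Write K = gram G B = Bᵀ G B̄, S = B̄ᵀ Gᵀ (antiholomorphic: DZ S = 0), R = (Kᵀ)⁻¹ S,
Kᵀ = S B, so R B = 1, Π = B R. DB B = 0 (DB_of_holo), DZ B̄ = conj (DB B) = 0 (DZ_conj).
prj_sm: sm_inv, Sm.mul, ... . prj_B: Π B = B (R B = 1). prj_idem.
prj_DB1: from Π B = B: DB Π * B = 0 (DB_mul), so DB Π * Π = DB Π * B * R = 0.
prj_DB2: from Π Π = Π and prj_DB1: Π * DB Π = DB Π.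
prj_DZ1: S Π = S B R = Kᵀ (Kᵀ)⁻¹ S = S, so S * DZ Π = 0, so Π * DZ Π = B (Kᵀ)⁻¹ S DZ Π = 0.
prj_DZ2: from Π Π = Π: DZ Π * Π = DZ Π.
gram_lap: DZ K = (DZ B)ᵀ G B̄, so tr (K⁻¹ DZ K) = tr (R * DZ B) on Ω (transpose); DB of R * DZ B is
DB R * DZ B (DZ B is holomorphic: DB (DZ B) = DZ (DB B) = 0 by DZ_DB and DZ_congr), so the left hand
side is tr (DB R * DZ B). DB Π = B * DB R, DZ Π = DZ B * R + B * DZ R, DB R * B = 0 (from R B = 1), so
tr (DB Π * DZ Π) = tr (B * DB R * DZ B * R) = tr (R * B * DB R * DZ B) = tr (DB R * DZ B).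
-/

open Matrix Complex Filter Topology
open scoped ContDiff

namespace AD67

open SP38

variable {ι : Type} [Fintype ι] [DecidableEq ι] {ν : Type} [Fintype ν] [DecidableEq ν]
  {Ω : Set ℂ} {z : ℂ} {G : Matrix ι ι ℂ} {B : ℂ → Matrix ι ν ℂ}

omit [DecidableEq ι] [DecidableEq ν] in
theorem U3_smB (hΩ : IsOpen Ω) (hB : ∀ i j, DifferentiableOn ℂ (fun z => B z i j) Ω) :
    Sm Ω B := Sm.of_holo hΩ hB

omit [DecidableEq ι] [DecidableEq ν] in
theorem gram_sm (hΩ : IsOpen Ω) (hB : ∀ i j, DifferentiableOn ℂ (fun z => B z i j) Ω) :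
    Sm Ω (fun z => gram G (B z)) := by
  have h := U3_smB hΩ hB
  exact (h.transpose.mul (Sm.const G)).mul h.conj

omit [DecidableEq ι] in
theorem U3_unit (hu : ∀ z ∈ Ω, IsUnit (gram G (B z)).det) :
    ∀ z ∈ Ω, IsUnit ((gram G (B z))ᵀ) := by
  intro z hz
  rw [Matrix.isUnit_iff_isUnit_det, Matrix.det_transpose]
  exact hu z hz

/-- the antiholomorphic factor -/
noncomputable def U3_S (G : Matrix ι ι ℂ) (B : Matrix ι ν ℂ) : Matrix ν ι ℂ :=
  (B.map (starRingEnd ℂ))ᵀ * Gᵀ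

omit [DecidableEq ι] [DecidableEq ν] in
theorem U3_S_sm (hΩ : IsOpen Ω) (hB : ∀ i j, DifferentiableOn ℂ (fun z => B z i j) Ω) :
    Sm Ω (fun z => U3_S G (B z)) :=
  (U3_smB hΩ hB).conj.transpose.mul (Sm.const Gᵀ)

omit [DecidableEq ι] in
theorem U3_RR_sm (hΩ : IsOpen Ω) (hB : ∀ i j, DifferentiableOn ℂ (fun z => B z i j) Ω)
    (hu : ∀ z ∈ Ω, IsUnit (gram G (B z)).det) : Sm Ω (fun z => RR G (B z)) :=
  (sm_inv (gram_sm hΩ hB).transpose (U3_unit hu)).mul (U3_S_sm hΩ hB)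

omit [DecidableEq ι] in
theorem prj_sm (hΩ : IsOpen Ω) (hB : ∀ i j, DifferentiableOn ℂ (fun z => B z i j) Ω)
    (hu : ∀ z ∈ Ω, IsUnit (gram G (B z)).det) : Sm Ω (fun z => prj G (B z)) :=
  (U3_smB hΩ hB).mul (U3_RR_sm hΩ hB hu)

omit [DecidableEq ι] [DecidableEq ν] in
theorem U3_gramT (G : Matrix ι ι ℂ) (B : Matrix ι ν ℂ) : (gram G B)ᵀ = U3_S G B * B := by
  unfold gram U3_S
  rw [Matrix.transpose_mul, Matrix.transpose_mul, Matrix.transpose_transpose, Matrix.mul_assoc]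

omit [DecidableEq ι] in
theorem RR_B {B : Matrix ι ν ℂ} (hu : IsUnit (gram G B).det) : RR G B * B = 1 := by
  have h1 : RR G B = ((gram G B)ᵀ)⁻¹ * U3_S G B := rfl
  rw [h1, Matrix.mul_assoc, ← U3_gramT]
  exact Matrix.nonsing_inv_mul _ (by rw [Matrix.det_transpose]; exact hu)

omit [DecidableEq ι] in
theorem prj_B {B : Matrix ι ν ℂ} (hu : IsUnit (gram G B).det) :
    prj G B * B = B ∧ prj G B * prj G B = prj G B := by
  have h0 : prj G B = B * RR G B := rfl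
  refine ⟨by rw [h0, Matrix.mul_assoc, RR_B hu, Matrix.mul_one], ?_⟩
  rw [h0, Matrix.mul_assoc, ← Matrix.mul_assoc (RR G B), RR_B hu, Matrix.one_mul]

omit [DecidableEq ι] in
theorem U3_S_prj {B : Matrix ι ν ℂ} (hu : IsUnit (gram G B).det) :
    U3_S G B * prj G B = U3_S G B := by
  have h0 : prj G B = B * (((gram G B)ᵀ)⁻¹ * U3_S G B) := rfl
  rw [h0, ← Matrix.mul_assoc, ← U3_gramT, ← Matrix.mul_assoc,
    Matrix.mul_nonsing_inv _ (by rw [Matrix.det_transpose]; exact hu), Matrix.one_mul]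

omit [DecidableEq ι] in
theorem U3_DB_B (hΩ : IsOpen Ω) (hB : ∀ i j, DifferentiableOn ℂ (fun z => B z i j) Ω)
    (hu : ∀ z ∈ Ω, IsUnit (gram G (B z)).det) (hz : z ∈ Ω) :
    DB (fun z => prj G (B z)) z * B z = 0 := by
  have h1 : DB (fun z => prj G (B z) * B z) z = DB B z := by
    refine DB_congr ?_
    filter_upwards [hΩ.mem_nhds hz] with x hx
    exact (prj_B (hu x hx)).1
  rw [DB_mul hΩ hz (prj_sm hΩ hB hu) (U3_smB hΩ hB), DB_of_holo hΩ hz hB, Matrix.mul_zero,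
    add_zero] at h1
  exact h1

omit [DecidableEq ι] in
theorem prj_DB1 (hΩ : IsOpen Ω) (hB : ∀ i j, DifferentiableOn ℂ (fun z => B z i j) Ω)
    (hu : ∀ z ∈ Ω, IsUnit (gram G (B z)).det) (hz : z ∈ Ω) :
    DB (fun z => prj G (B z)) z * prj G (B z) = 0 := by
  have h0 : prj G (B z) = B z * RR G (B z) := rfl
  have h1 := U3_DB_B hΩ hB hu hz
  calc DB (fun z => prj G (B z)) z * prj G (B z)
      = DB (fun z => prj G (B z)) z * (B z * RR G (B z)) := by rw [← h0]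
    _ = (DB (fun z => prj G (B z)) z * B z) * RR G (B z) := (Matrix.mul_assoc _ _ _).symm
    _ = 0 := by rw [h1, Matrix.zero_mul]

omit [DecidableEq ι] in
theorem prj_DB2 (hΩ : IsOpen Ω) (hB : ∀ i j, DifferentiableOn ℂ (fun z => B z i j) Ω)
    (hu : ∀ z ∈ Ω, IsUnit (gram G (B z)).det) (hz : z ∈ Ω) :
    prj G (B z) * DB (fun z => prj G (B z)) z = DB (fun z => prj G (B z)) z := by
  have h1 : DB (fun z => prj G (B z) * prj G (B z)) z = DB (fun z => prj G (B z)) z := by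
    refine DB_congr ?_
    filter_upwards [hΩ.mem_nhds hz] with x hx
    exact (prj_B (hu x hx)).2
  rw [DB_mul hΩ hz (prj_sm hΩ hB hu) (prj_sm hΩ hB hu), prj_DB1 hΩ hB hu hz, zero_add] at h1
  exact h1

omit [DecidableEq ι] [DecidableEq ν] in
theorem U3_DZ_S (hΩ : IsOpen Ω) (hB : ∀ i j, DifferentiableOn ℂ (fun z => B z i j) Ω)
    (hz : z ∈ Ω) : DZ (fun z => U3_S G (B z)) z = 0 := by
  have h1 := DZ_mul hΩ hz (U3_smB hΩ hB).conj.transpose (Sm.const (Ω := Ω) Gᵀ)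
  have h2 : DZ (fun z => ((B z).map (starRingEnd ℂ))ᵀ) z = 0 := by
    rw [DZ_transpose, DZ_conj hΩ hz (U3_smB hΩ hB), DB_of_holo hΩ hz hB]
    ext i j
    simp
  rw [h2, DZ_const, Matrix.zero_mul, Matrix.mul_zero, add_zero] at h1
  exact h1

omit [DecidableEq ι] in
theorem prj_DZ1 (hΩ : IsOpen Ω) (hB : ∀ i j, DifferentiableOn ℂ (fun z => B z i j) Ω)
    (hu : ∀ z ∈ Ω, IsUnit (gram G (B z)).det) (hz : z ∈ Ω) :
    prj G (B z) * DZ (fun z => prj G (B z)) z = 0 := by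
  have h1 : DZ (fun z => U3_S G (B z) * prj G (B z)) z = DZ (fun z => U3_S G (B z)) z := by
    refine DZ_congr ?_
    filter_upwards [hΩ.mem_nhds hz] with x hx
    exact U3_S_prj (hu x hx)
  rw [DZ_mul hΩ hz (U3_S_sm hΩ hB) (prj_sm hΩ hB hu), U3_DZ_S hΩ hB hz, Matrix.zero_mul,
    zero_add] at h1
  have h0 : prj G (B z) = B z * (((gram G (B z))ᵀ)⁻¹ * U3_S G (B z)) := rfl
  calc prj G (B z) * DZ (fun z => prj G (B z)) z
      = B z * (((gram G (B z))ᵀ)⁻¹ * U3_S G (B z)) * DZ (fun z => prj G (B z)) z := by rw [← h0]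
    _ = B z * (((gram G (B z))ᵀ)⁻¹ * (U3_S G (B z) * DZ (fun z => prj G (B z)) z)) := by
        simp only [Matrix.mul_assoc]
    _ = 0 := by rw [h1, Matrix.mul_zero, Matrix.mul_zero]

omit [DecidableEq ι] in
theorem prj_DZ2 (hΩ : IsOpen Ω) (hB : ∀ i j, DifferentiableOn ℂ (fun z => B z i j) Ω)
    (hu : ∀ z ∈ Ω, IsUnit (gram G (B z)).det) (hz : z ∈ Ω) :
    DZ (fun z => prj G (B z)) z * prj G (B z) = DZ (fun z => prj G (B z)) z := by
  have h1 : DZ (fun z => prj G (B z) * prj G (B z)) z = DZ (fun z => prj G (B z)) z := by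
    refine DZ_congr ?_
    filter_upwards [hΩ.mem_nhds hz] with x hx
    exact (prj_B (hu x hx)).2
  rw [DZ_mul hΩ hz (prj_sm hΩ hB hu) (prj_sm hΩ hB hu), prj_DZ1 hΩ hB hu hz, add_zero] at h1
  exact h1

omit [DecidableEq ι] in
theorem U3_tr (hΩ : IsOpen Ω) (hB : ∀ i j, DifferentiableOn ℂ (fun z => B z i j) Ω)
    (hz : z ∈ Ω) :
    Matrix.trace ((gram G (B z))⁻¹ * DZ (fun z => gram G (B z)) z) =
      Matrix.trace (RR G (B z) * DZ B z) := by
  have hs := U3_smB hΩ hB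
  have h1 : DZ (fun z => gram G (B z)) z = (DZ B z)ᵀ * G * (B z).map (starRingEnd ℂ) := by
    have e1 := DZ_mul hΩ hz (hs.transpose.mul (Sm.const (Ω := Ω) G)) hs.conj
    have e2 := DZ_mul hΩ hz hs.transpose (Sm.const (Ω := Ω) G)
    have e3 : DZ (fun z => (B z).map (starRingEnd ℂ)) z = 0 := by
      rw [DZ_conj hΩ hz hs, DB_of_holo hΩ hz hB]
      ext i j
      simp
    rw [e3, e2, DZ_transpose, DZ_const, Matrix.mul_zero, Matrix.mul_zero, add_zero, add_zero] at e1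
    exact e1
  rw [h1, ← Matrix.trace_transpose]
  have h2 : ((gram G (B z))⁻¹ * ((DZ B z)ᵀ * G * (B z).map (starRingEnd ℂ)))ᵀ =
      (U3_S G (B z) * DZ B z) * ((gram G (B z))ᵀ)⁻¹ := by
    rw [Matrix.transpose_mul, Matrix.transpose_mul, Matrix.transpose_mul,
      Matrix.transpose_transpose, Matrix.transpose_nonsing_inv]
    unfold U3_S
    simp only [Matrix.mul_assoc]
  rw [h2, Matrix.trace_mul_comm]
  have h3 : RR G (B z) = ((gram G (B z))ᵀ)⁻¹ * U3_S G (B z) := rfl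
  rw [h3, Matrix.mul_assoc]

omit [DecidableEq ι] in
theorem gram_lap (hΩ : IsOpen Ω) (hB : ∀ i j, DifferentiableOn ℂ (fun z => B z i j) Ω)
    (hu : ∀ z ∈ Ω, IsUnit (gram G (B z)).det) (hz : z ∈ Ω) :
    dzb (fun z => Matrix.trace ((gram G (B z))⁻¹ * DZ (fun z => gram G (B z)) z)) z =
      Matrix.trace (DB (fun z => prj G (B z)) z * DZ (fun z => prj G (B z)) z) := by
  have hs := U3_smB hΩ hB
  have hR := U3_RR_sm hΩ hB hu
  have hDZ : Sm Ω (DZ B) := hs.DZ hΩ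
  have h1 : dzb (fun z => Matrix.trace ((gram G (B z))⁻¹ * DZ (fun z => gram G (B z)) z)) z =
      dzb (fun z => Matrix.trace (RR G (B z) * DZ B z)) z := by
    refine dzb_congr ?_
    filter_upwards [hΩ.mem_nhds hz] with x hx
    exact U3_tr hΩ hB hx
  have h2 : DB (DZ B) z = 0 := by
    rw [← DZ_DB hΩ hz hs]
    have e : DZ (DB B) z = DZ (fun _ => (0 : Matrix ι ν ℂ)) z := by
      refine DZ_congr ?_
      filter_upwards [hΩ.mem_nhds hz] with x hx
      exact DB_of_holo hΩ hx hB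
    rw [e, DZ_const]
  have h3 : DB (fun z => RR G (B z) * DZ B z) z = DB (fun z => RR G (B z)) z * DZ B z := by
    rw [DB_mul hΩ hz hR hDZ, h2, Matrix.mul_zero, add_zero]
  have h4 : DB (fun z => RR G (B z)) z * B z = 0 := by
    have e : DB (fun z => RR G (B z) * B z) z = DB (fun _ => (1 : Matrix ν ν ℂ)) z := by
      refine DB_congr ?_
      filter_upwards [hΩ.mem_nhds hz] with x hx
      exact RR_B (hu x hx)
    rw [DB_mul hΩ hz hR hs, DB_of_holo hΩ hz hB, DB_const, Matrix.mul_zero, add_zero] at e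
    exact e
  have h5 : DB (fun z => prj G (B z)) z = B z * DB (fun z => RR G (B z)) z := by
    have e := DB_mul hΩ hz hs hR
    rw [DB_of_holo hΩ hz hB, Matrix.zero_mul, zero_add] at e
    exact e
  have h6 : DZ (fun z => prj G (B z)) z =
      DZ B z * RR G (B z) + B z * DZ (fun z => RR G (B z)) z := DZ_mul hΩ hz hs hR
  rw [h1, dzb_traceA hΩ hz (hR.mul hDZ), h3, h5, h6, Matrix.mul_add]
  have h7 : B z * DB (fun z => RR G (B z)) z * (B z * DZ (fun z => RR G (B z)) z) = 0 := by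
    calc B z * DB (fun z => RR G (B z)) z * (B z * DZ (fun z => RR G (B z)) z)
        = B z * ((DB (fun z => RR G (B z)) z * B z) * DZ (fun z => RR G (B z)) z) := by
          simp only [Matrix.mul_assoc]
      _ = 0 := by rw [h4, Matrix.zero_mul, Matrix.mul_zero]
  rw [h7, add_zero]
  have h8 : B z * DB (fun z => RR G (B z)) z * (DZ B z * RR G (B z)) =
      (B z * (DB (fun z => RR G (B z)) z * DZ B z)) * RR G (B z) := by
    simp only [Matrix.mul_assoc]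
  rw [h8, Matrix.trace_mul_comm (B z * (DB (fun z => RR G (B z)) z * DZ B z)) (RR G (B z)),
    ← Matrix.mul_assoc (RR G (B z)), RR_B (hu z hz), Matrix.one_mul]

end AD67
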