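import Pool.Agent.LibAD67.UDef

/-!
Row U4: the Gram matrix of a step of the Hodge filtration (linear algebra at one point).

Notation: G = cm (dgR wt Q), B = FB wt p a A (columns j of dg wt A with a ≤ p j), L = LB wt p a A (the
same rows of (dg wt A)⁻¹), Π = Pge K P a.

PLAN. LB_FB: submatrix of (dg A)⁻¹ * dg A = 1 (`MW38.dg_isUnit hP.unit hP.tri`).
Pge_FB: the columns of B are in Fl p (dg wt A) a, so by hP.fil P b kills them for b < a; Pls a kills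
them and Pge + Pls = 1 (GrP.Pge_add_Pls). FB_LB_Pge: every column of Π is in Fl p (dg wt A) a
(GrP.Pge_mem), so by `MW38.mem_Fl_iff` the rows j with p j < a of (dg A)⁻¹ * Π vanish, so
Π = dg A * ((dg A)⁻¹ * Π) = B * (L * Π) (split the sum over j into a ≤ p j and the rest).
sa (self-adjointness): (Pge a)ᵀ * G = G * conj (Pge a): entrywise. For one P b:
((P b)ᵀ G) i j = ∑ c, ((P b)ᵀ G P c) i j = ((P b)ᵀ G P (wt i - b)) i j (hP.sum, PolG.PGP; if wt i - b is out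
of range both sides are 0 by supp) and (G * conj (P b)) i j = ∑ k, G i k * P (wt k - b) k j (hP.conj)
= (G * P (wt i - b)) i j (diag_cmQ: G i k = 0 unless wt k = wt i) = ∑ c, ((P c)ᵀ G P (wt i - b)) i j
= ((P b)ᵀ G P (wt i - b)) i j. Transposed: Gᵀ * Π = (conj Π)ᵀ * Gᵀ, so Π * (Gᵀ)⁻¹ ... :
(*) Π * (Gᵀ)⁻¹ = (Gᵀ)⁻¹ * (conj Π)ᵀ  (G invertible: PolG.unit_Q).
gram_inv: X := L * Π * (Gᵀ)⁻¹ * (conj L)ᵀ; Kᵀ = (conj B)ᵀ * Gᵀ * B. X * Kᵀ =
L * Π * (Gᵀ)⁻¹ * (conj (B * L))ᵀ * Gᵀ * B; by (*) Π (Gᵀ)⁻¹ (conj (B L))ᵀ = (Gᵀ)⁻¹ (conj (B L Π))ᵀ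
= (Gᵀ)⁻¹ (conj Π)ᵀ = Π (Gᵀ)⁻¹, so X * Kᵀ = L * Π * B = L * B = 1. So Kᵀ is invertible with inverse X
(`Matrix.isUnit_det_of_left_inverse`, `Matrix.inv_eq_left_inv`).
prj_eq: Π' = B X (conj B)ᵀ Gᵀ = (B L Π) (Gᵀ)⁻¹ (conj (B L))ᵀ Gᵀ = Π (Gᵀ)⁻¹ (conj (B L))ᵀ Gᵀ = Π.
-/

open Matrix Complex
open MW38 (Fl Tri blk dg)

namespace AD67

open ZQ38 ZW67

variable {ι : Type} [Fintype ι] [DecidableEq ι] {wt p : ι → ℤ} {K : ℕ} {A : Matrix ι ι ℂ}
  {P : ℤ → Matrix ι ι ℂ} {Q : Matrix ι ι ℝ}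

theorem LB_FB (hP : GrP wt p K A P) (a : ℤ) : LB wt p a A * FB wt p a A = 1 := by
  have hu : IsUnit (dg wt A).det :=
    (Matrix.isUnit_iff_isUnit_det _).1 (MW38.dg_isUnit hP.unit hP.tri)
  ext i j
  have h1 : (LB wt p a A * FB wt p a A) i j = ((dg wt A)⁻¹ * dg wt A) (i : ι) (j : ι) := rfl
  rw [h1, Matrix.nonsing_inv_mul _ hu]
  by_cases hij : i = j
  · subst hij
    rw [Matrix.one_apply_eq, Matrix.one_apply_eq]
  · rw [Matrix.one_apply_ne hij, Matrix.one_apply_ne fun e => hij (Subtype.ext e)]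

theorem Pge_FB (hP : GrP wt p K A P) (a : ℤ) : Pge K P a * FB wt p a A = FB wt p a A := by
  ext i j
  set v : ι → ℂ := fun i => dg wt A i j with hv
  have hmem : v ∈ Fl p (dg wt A) a := MW38.col_mem_Fl j.2
  have h0 := (hP.fil a v).1 hmem
  have h1 : Pls K P a *ᵥ v = 0 := by
    unfold Pls
    rw [Matrix.sum_mulVec]
    exact Finset.sum_eq_zero fun b hb => h0 b (Finset.mem_Ico.1 hb).2
  have h2 : Pge K P a *ᵥ v = v := by
    have h3 : (Pge K P a + Pls K P a) *ᵥ v = v := by rw [hP.Pge_add_Pls, Matrix.one_mulVec]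
    rw [Matrix.add_mulVec, h1, add_zero] at h3
    exact h3
  exact congrFun h2 i

theorem FB_LB_Pge (hP : GrP wt p K A P) (a : ℤ) :
    FB wt p a A * (LB wt p a A * Pge K P a) = Pge K P a := by
  have hu0 := MW38.dg_isUnit hP.unit hP.tri
  have hu : IsUnit (dg wt A).det := (Matrix.isUnit_iff_isUnit_det _).1 hu0
  ext i k
  have h1 : ∀ j, p j < a → ((dg wt A)⁻¹ * Pge K P a) j k = 0 := by
    intro j hj
    have h2 := (MW38.mem_Fl_iff (p := p) (a := a) hu0 (Pge K P a *ᵥ Pi.single k 1)).1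
      (hP.Pge_mem a _) j hj
    rw [Matrix.mulVec_mulVec, Matrix.mulVec_single_one] at h2
    exact h2
  have h3 : Pge K P a i k = ∑ j, dg wt A i j * ((dg wt A)⁻¹ * Pge K P a) j k := by
    have h4 : dg wt A * ((dg wt A)⁻¹ * Pge K P a) = Pge K P a := by
      rw [← Matrix.mul_assoc, Matrix.mul_nonsing_inv _ hu, Matrix.one_mul]
    calc Pge K P a i k = (dg wt A * ((dg wt A)⁻¹ * Pge K P a)) i k := by rw [h4]
      _ = _ := Matrix.mul_apply
  have h5 : (FB wt p a A * (LB wt p a A * Pge K P a)) i k =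
      ∑ j : {j // a ≤ p j}, dg wt A i j * ((dg wt A)⁻¹ * Pge K P a) (j : ι) k := rfl
  rw [h5, h3]
  rw [← Finset.sum_subtype (p := fun j => a ≤ p j) (F := inferInstance)
    (Finset.univ.filter fun j => a ≤ p j) (by simp)
    (fun j => dg wt A i j * ((dg wt A)⁻¹ * Pge K P a) j k)]
  refine Finset.sum_subset (Finset.filter_subset _ _) fun j _ hj => ?_
  rw [Finset.mem_filter, not_and] at hj
  rw [h1 j (not_le.1 (hj (Finset.mem_univ j))), mul_zero]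

theorem U4_sum (hP : GrP wt p K A P) (M : Matrix ι ι ℂ) (b : ℤ) (i j : ι)
    (h0 : ∀ c, c ≠ b → (M * P c) i j = 0) : M i j = (M * P b) i j := by
  have h1 : M i j = ∑ c ∈ Finset.Icc (-(K : ℤ)) K, (M * P c) i j := by
    have h2 : M = ∑ c ∈ Finset.Icc (-(K : ℤ)) K, M * P c := by
      rw [← Finset.mul_sum, hP.sum, mul_one]
    calc M i j = (∑ c ∈ Finset.Icc (-(K : ℤ)) K, M * P c) i j := by rw [← h2]
      _ = _ := Matrix.sum_apply _ _ _ _
  rw [h1]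
  by_cases hb : b ∈ Finset.Icc (-(K : ℤ)) K
  · exact Finset.sum_eq_single_of_mem b hb fun c _ hc => h0 c hc
  · have hb0 : P b = 0 := by
      apply hP.supp
      rw [Finset.mem_Icc, not_and_or] at hb
      rcases hb with hb | hb
      · rw [abs_of_neg (by omega)]
        omega
      · rw [abs_of_pos (by omega)]
        omega
    rw [hb0, Matrix.mul_zero, Matrix.zero_apply]
    exact Finset.sum_eq_zero fun c hc => h0 c fun e => hb (e ▸ hc)

theorem U4_sum' (hP : GrP wt p K A P) (M : Matrix ι ι ℂ) (b : ℤ) (i j : ι)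
    (h0 : ∀ c, c ≠ b → ((P c)ᵀ * M) i j = 0) : M i j = ((P b)ᵀ * M) i j := by
  have h1 : M i j = ∑ c ∈ Finset.Icc (-(K : ℤ)) K, ((P c)ᵀ * M) i j := by
    have h2 : M = ∑ c ∈ Finset.Icc (-(K : ℤ)) K, (P c)ᵀ * M := by
      rw [← Finset.sum_mul, ← Matrix.transpose_sum, hP.sum, Matrix.transpose_one, one_mul]
    calc M i j = (∑ c ∈ Finset.Icc (-(K : ℤ)) K, (P c)ᵀ * M) i j := by rw [← h2]
      _ = _ := Matrix.sum_apply _ _ _ _
  rw [h1]
  by_cases hb : b ∈ Finset.Icc (-(K : ℤ)) K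
  · exact Finset.sum_eq_single_of_mem b hb fun c _ hc => h0 c hc
  · have hb0 : P b = 0 := by
      apply hP.supp
      rw [Finset.mem_Icc, not_and_or] at hb
      rcases hb with hb | hb
      · rw [abs_of_neg (by omega)]
        omega
      · rw [abs_of_pos (by omega)]
        omega
    rw [hb0, Matrix.transpose_zero, Matrix.zero_mul, Matrix.zero_apply]
    exact Finset.sum_eq_zero fun c hc => h0 c fun e => hb (e ▸ hc)

theorem U4_one (h : PolG wt p K Q A P) (b : ℤ) :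
    (P b)ᵀ * SP38.cm (dgR wt Q) = SP38.cm (dgR wt Q) * (P b).map (starRingEnd ℂ) := by
  ext i j
  have h1 : ((P b)ᵀ * SP38.cm (dgR wt Q)) i j =
      ((P b)ᵀ * SP38.cm (dgR wt Q) * P (wt i - b)) i j :=
    U4_sum h.gr _ _ i j fun c hc => h.PGP b c i j fun e => hc (by omega)
  have h2 : (SP38.cm (dgR wt Q) * (P b).map (starRingEnd ℂ)) i j =
      (SP38.cm (dgR wt Q) * P (wt i - b)) i j := by
    rw [Matrix.mul_apply, Matrix.mul_apply]
    refine Finset.sum_congr rfl fun k _ => ?_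
    by_cases hik : wt i = wt k
    · rw [Matrix.map_apply, h.gr.conj, hik]
    · rw [show SP38.cm (dgR wt Q) i k = 0 from diag_cmQ i k hik, zero_mul, zero_mul]
  have h3 : (SP38.cm (dgR wt Q) * P (wt i - b)) i j =
      ((P b)ᵀ * (SP38.cm (dgR wt Q) * P (wt i - b))) i j :=
    U4_sum' h.gr _ _ i j fun c hc => by
      rw [← Matrix.mul_assoc]
      exact h.PGP c (wt i - b) i j fun e => hc (by omega)
  rw [h1, h2, h3, Matrix.mul_assoc]

theorem sa (h : PolG wt p K Q A P) (a : ℤ) :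
    (Pge K P a)ᵀ * SP38.cm (dgR wt Q) = SP38.cm (dgR wt Q) * (Pge K P a).map (starRingEnd ℂ) := by
  have h1 : (Pge K P a).map (starRingEnd ℂ) =
      ∑ b ∈ Finset.Icc a (K : ℤ), (P b).map (starRingEnd ℂ) := by
    ext i j
    unfold Pge
    rw [Matrix.map_apply, Matrix.sum_apply, Matrix.sum_apply, map_sum]
    rfl
  rw [h1, Finset.mul_sum]
  unfold Pge
  rw [Matrix.transpose_sum, Finset.sum_mul]
  exact Finset.sum_congr rfl fun b _ => U4_one h b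

theorem U4_star (h : PolG wt p K Q A P) (a : ℤ) :
    Pge K P a * ((SP38.cm (dgR wt Q))ᵀ)⁻¹ =
      ((SP38.cm (dgR wt Q))ᵀ)⁻¹ * ((Pge K P a).map (starRingEnd ℂ))ᵀ := by
  have hG : IsUnit ((SP38.cm (dgR wt Q))ᵀ).det := by
    rw [Matrix.det_transpose]
    exact h.unit_Q
  have h1 := congrArg Matrix.transpose (sa h a)
  rw [Matrix.transpose_mul, Matrix.transpose_mul, Matrix.transpose_transpose] at h1
  set G := (SP38.cm (dgR wt Q))ᵀ with hGd
  calc Pge K P a * G⁻¹ = G⁻¹ * (G * Pge K P a) * G⁻¹ := by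
        rw [← Matrix.mul_assoc G⁻¹, Matrix.nonsing_inv_mul _ hG, Matrix.one_mul]
    _ = G⁻¹ * (((Pge K P a).map (starRingEnd ℂ))ᵀ * G) * G⁻¹ := by rw [h1]
    _ = G⁻¹ * ((Pge K P a).map (starRingEnd ℂ))ᵀ := by
        rw [← Matrix.mul_assoc, Matrix.mul_assoc _ G G⁻¹, Matrix.mul_nonsing_inv _ hG,
          Matrix.mul_one]

theorem U4_key (h : PolG wt p K Q A P) (a : ℤ) :
    Pge K P a * ((SP38.cm (dgR wt Q))ᵀ)⁻¹ * ((LB wt p a A).map (starRingEnd ℂ))ᵀ *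
      ((FB wt p a A).map (starRingEnd ℂ))ᵀ = Pge K P a * ((SP38.cm (dgR wt Q))ᵀ)⁻¹ := by
  have h1 : ((Pge K P a).map (starRingEnd ℂ))ᵀ * ((LB wt p a A).map (starRingEnd ℂ))ᵀ *
      ((FB wt p a A).map (starRingEnd ℂ))ᵀ = ((Pge K P a).map (starRingEnd ℂ))ᵀ := by
    rw [← Matrix.transpose_mul, ← Matrix.transpose_mul, ← Matrix.map_mul, ← Matrix.map_mul,
      FB_LB_Pge h.gr]
  rw [U4_star h a, Matrix.mul_assoc, Matrix.mul_assoc, ← Matrix.mul_assoc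
    ((Pge K P a).map (starRingEnd ℂ))ᵀ, h1]

theorem U4_gramT (a : ℤ) : (gram (SP38.cm (dgR wt Q)) (FB wt p a A))ᵀ =
    ((FB wt p a A).map (starRingEnd ℂ))ᵀ * ((SP38.cm (dgR wt Q))ᵀ * FB wt p a A) := by
  unfold gram
  rw [Matrix.transpose_mul, Matrix.transpose_mul, Matrix.transpose_transpose]

theorem gram_inv (h : PolG wt p K Q A P) (a : ℤ) :
    IsUnit (gram (SP38.cm (dgR wt Q)) (FB wt p a A)).det ∧
    ((gram (SP38.cm (dgR wt Q)) (FB wt p a A))ᵀ)⁻¹ =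
      LB wt p a A * Pge K P a * ((SP38.cm (dgR wt Q))ᵀ)⁻¹ * ((LB wt p a A).map (starRingEnd ℂ))ᵀ := by
  have hG : IsUnit ((SP38.cm (dgR wt Q))ᵀ).det := by
    rw [Matrix.det_transpose]
    exact h.unit_Q
  have hX : LB wt p a A * Pge K P a * ((SP38.cm (dgR wt Q))ᵀ)⁻¹ *
      ((LB wt p a A).map (starRingEnd ℂ))ᵀ * (gram (SP38.cm (dgR wt Q)) (FB wt p a A))ᵀ = 1 := by
    rw [U4_gramT]
    calc LB wt p a A * Pge K P a * ((SP38.cm (dgR wt Q))ᵀ)⁻¹ *
          ((LB wt p a A).map (starRingEnd ℂ))ᵀ * (((FB wt p a A).map (starRingEnd ℂ))ᵀ *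
            ((SP38.cm (dgR wt Q))ᵀ * FB wt p a A))
        = LB wt p a A * (Pge K P a * ((SP38.cm (dgR wt Q))ᵀ)⁻¹ *
          ((LB wt p a A).map (starRingEnd ℂ))ᵀ * ((FB wt p a A).map (starRingEnd ℂ))ᵀ) *
            ((SP38.cm (dgR wt Q))ᵀ * FB wt p a A) := by simp only [Matrix.mul_assoc]
      _ = LB wt p a A * (Pge K P a * (((SP38.cm (dgR wt Q))ᵀ)⁻¹ *
            (SP38.cm (dgR wt Q))ᵀ)) * FB wt p a A := by
          rw [U4_key h a]
          simp only [Matrix.mul_assoc]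
      _ = LB wt p a A * (Pge K P a * FB wt p a A) := by
          rw [Matrix.nonsing_inv_mul _ hG, Matrix.mul_one, Matrix.mul_assoc]
      _ = 1 := by rw [Pge_FB h.gr, LB_FB h.gr]
  refine ⟨?_, Matrix.inv_eq_left_inv hX⟩
  rw [← Matrix.det_transpose]
  exact Matrix.isUnit_det_of_left_inverse hX

theorem prj_eq (h : PolG wt p K Q A P) (a : ℤ) :
    prj (SP38.cm (dgR wt Q)) (FB wt p a A) = Pge K P a := by
  have hG : IsUnit ((SP38.cm (dgR wt Q))ᵀ).det := by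
    rw [Matrix.det_transpose]
    exact h.unit_Q
  unfold prj RR
  rw [(gram_inv h a).2]
  calc FB wt p a A * (LB wt p a A * Pge K P a * ((SP38.cm (dgR wt Q))ᵀ)⁻¹ *
        ((LB wt p a A).map (starRingEnd ℂ))ᵀ * (((FB wt p a A).map (starRingEnd ℂ))ᵀ *
          (SP38.cm (dgR wt Q))ᵀ))
      = (FB wt p a A * (LB wt p a A * Pge K P a)) * (((SP38.cm (dgR wt Q))ᵀ)⁻¹ *
        ((LB wt p a A).map (starRingEnd ℂ))ᵀ * ((FB wt p a A).map (starRingEnd ℂ))ᵀ) *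
          (SP38.cm (dgR wt Q))ᵀ := by simp only [Matrix.mul_assoc]
    _ = (Pge K P a * ((SP38.cm (dgR wt Q))ᵀ)⁻¹ * ((LB wt p a A).map (starRingEnd ℂ))ᵀ *
          ((FB wt p a A).map (starRingEnd ℂ))ᵀ) * (SP38.cm (dgR wt Q))ᵀ := by
        rw [FB_LB_Pge h.gr]
        simp only [Matrix.mul_assoc]
    _ = Pge K P a := by
        rw [U4_key h a, Matrix.mul_assoc, Matrix.nonsing_inv_mul _ hG, Matrix.mul_one]

end AD67
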