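import Pool.Agent.LibAD67.U3
import Pool.Agent.LibAD67.U4

/-!
Row U5: the steps of the Hodge filtration of the graded pieces along a holomorphic disc.

`Fa c a A` is the projector onto `F^a` of the graded pieces.

PLAN. FB_holo: entries of dg wt (Ψ z) are 0 or entries of Ψ z (hv.an, AnalyticOnNhd.differentiableOn).
ve_gr, ve_pol: `exists_GrP`, `ZW67.polG` with hv.mhs, c.hs, c.hK.
Fa_eq: on Ω, Fa c a (Ψ z) = prj (GQ wt Q) (FB wt p a (Ψ z)) (prj_eq; GQ wt Q is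
cm (dgR wt (Q.map ..)) by rfl), and the gram determinant is a unit (gram_inv). So Fa_sm, Fa_DB, Fa_DZ
follow from U3 (prj_sm, prj_DB1, prj_DB2, prj_DZ1, prj_DZ2) and DZ_congr / DB_congr.
Fa_gr1 (Griffiths): with B = FB wt p a (Ψ z), B' = DZ B z: column j of B' is the derivative of column
j of dg wt Ψ, which lies in Fl p (dg wt (Ψ z)) (p j - 1) ≤ Fl p (dg wt (Ψ z)) (a - 1)
(`ZW67.HolTr_dg`, MW38.Fl_anti), so Fa (a-1) * B' = B'  (P b kills it for b < a - 1, hP.fil; Pge_add_Pls).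
From Fa a * B = B: DZ (Fa a) * B = (1 - Fa a) * B'. So
(1 - Fa (a-1)) * DZ (Fa a) * B = (1 - Fa (a-1)) (1 - Fa a) B' = (1 - Fa (a-1)) B' = 0 (Fa (a-1) * Fa a = Fa a),
and DZ (Fa a) = DZ (Fa a) * Fa a = DZ (Fa a) * B * RR.
Fa_gr2: from Fa a * Fa (a+1) = Fa (a+1): DZ (Fa a) * Fa (a+1) = (1 - Fa a) * DZ (Fa (a+1)) = 0 by
Fa_gr1 for a + 1.
-/

open Matrix Complex Filter Topology
open MW38 (Fl Tri blk dg)
open scoped ContDiff

namespace AD67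

open ZQ38 AD19

variable {ι : Type} [Fintype ι] [DecidableEq ι] {wt p : ι → ℤ} {c : Par wt p}
  {Q : Matrix ι ι ℚ} {Ω : Set ℂ} {Ψ : ℂ → Matrix ι ι ℂ} {z : ℂ}

/-- the projector onto `F^a` of the graded pieces -/
noncomputable def Fa (c : Par wt p) (a : ℤ) (A : Matrix ι ι ℂ) : Matrix ι ι ℂ :=
  Pge c.K (PPg wt p c.s A) a

theorem pt_pol {A : Matrix ι ι ℂ} (hA : MW38.MHS wt p (Q.map (algebraMap ℚ ℝ)) A) :
    ZW67.PolG wt p c.K (Q.map (algebraMap ℚ ℝ)) A (PPg wt p c.s A) := ZW67.polG hA c.hs c.hK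

theorem ve_tr (hv : VE wt p Q Ω Ψ) (hΩ : IsOpen Ω) : HolTr p Ω Ψ where
  unit z hz := (hv.mhs z hz).unit
  hol i j := (hv.an i j).differentiableOn
  tr z hz j := hv.tr z hz j 1

theorem U5_Pge_mul {K : ℕ} {P : ℤ → Matrix ι ι ℂ} {A : Matrix ι ι ℂ} (hP : GrP wt p K A P)
    {a b : ℤ} (hab : a ≤ b) :
    Pge K P a * Pge K P b = Pge K P b ∧ Pge K P b * Pge K P a = Pge K P b := by
  constructor
  · unfold Pge
    rw [Finset.mul_sum]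
    refine Finset.sum_congr rfl fun y hy => ?_
    rw [Finset.mem_Icc] at hy
    rw [Finset.sum_mul, Finset.sum_eq_single y]
    · rw [hP.mul, if_pos rfl]
    · intro x _ hx
      rw [hP.mul, if_neg hx]
    · intro h
      exact absurd (Finset.mem_Icc.2 ⟨hab.trans hy.1, hy.2⟩) h
  · unfold Pge
    rw [Finset.sum_mul]
    refine Finset.sum_congr rfl fun y hy => ?_
    rw [Finset.mem_Icc] at hy
    rw [Finset.mul_sum, Finset.sum_eq_single y]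
    · rw [hP.mul, if_pos rfl]
    · intro x _ hx
      rw [hP.mul, if_neg (Ne.symm hx)]
    · intro h
      exact absurd (Finset.mem_Icc.2 ⟨hab.trans hy.1, hy.2⟩) h

theorem U5_Pge_vec {K : ℕ} {P : ℤ → Matrix ι ι ℂ} {A : Matrix ι ι ℂ} (hP : GrP wt p K A P)
    {a : ℤ} {v : ι → ℂ} (hv : v ∈ Fl p (dg wt A) a) : Pge K P a *ᵥ v = v := by
  have h1 : Pls K P a *ᵥ v = 0 := by
    unfold Pls
    rw [Matrix.sum_mulVec]
    exact Finset.sum_eq_zero fun b hb => (hP.fil a v).1 hv b (Finset.mem_Ico.1 hb).2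
  have h2 := hP.Pge_add_Pls a
  calc Pge K P a *ᵥ v = (Pge K P a + Pls K P a) *ᵥ v := by
        rw [Matrix.add_mulVec, h1, add_zero]
    _ = v := by rw [h2, Matrix.one_mulVec]

theorem FB_holo (hΩ : IsOpen Ω) (hv : VE wt p Q Ω Ψ) (a : ℤ) :
    ∀ i j, DifferentiableOn ℂ (fun z => FB wt p a (Ψ z) i j) Ω := by
  intro i j
  exact (ZW67.HolTr_dg hΩ (ve_tr hv hΩ) (fun z hz => (hv.mhs z hz).tri)).hol i j

theorem Fa_eq (hv : VE wt p Q Ω Ψ) (hz : z ∈ Ω) (a : ℤ) :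
    IsUnit (gram (GQ wt Q) (FB wt p a (Ψ z))).det ∧
      Fa c a (Ψ z) = prj (GQ wt Q) (FB wt p a (Ψ z)) := by
  have h := pt_pol (c := c) (hv.mhs z hz)
  exact ⟨(gram_inv h a).1, (prj_eq h a).symm⟩

/-- products of the projectors -/
theorem Fa_mul {A : Matrix ι ι ℂ} (hP : GrP wt p c.K A (PPg wt p c.s A)) {a b : ℤ} (hab : a ≤ b) :
    Fa c a A * Fa c b A = Fa c b A ∧ Fa c b A * Fa c a A = Fa c b A :=
  U5_Pge_mul hP hab

theorem Fa_sm (hΩ : IsOpen Ω) (hv : VE wt p Q Ω Ψ) (a : ℤ) :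
    SP38.Sm Ω (fun z => Fa c a (Ψ z)) := by
  intro i j
  have h := prj_sm (G := GQ wt Q) hΩ (FB_holo hΩ hv a) (fun z hz => (Fa_eq (c := c) hv hz a).1) i j
  unfold SP38.SmS at h ⊢
  refine h.congr fun x hx => ?_
  exact congrFun (congrFun (Fa_eq (c := c) hv hx a).2 i) j

theorem U5_ev (hΩ : IsOpen Ω) (hv : VE wt p Q Ω Ψ) (hz : z ∈ Ω) (a : ℤ) :
    ∀ᶠ x in 𝓝 z, Fa c a (Ψ x) = prj (GQ wt Q) (FB wt p a (Ψ x)) := by
  filter_upwards [hΩ.mem_nhds hz] with x hx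
  exact (Fa_eq (c := c) hv hx a).2

theorem Fa_DB (hΩ : IsOpen Ω) (hv : VE wt p Q Ω Ψ) (hz : z ∈ Ω) (a : ℤ) :
    SP38.DB (fun z => Fa c a (Ψ z)) z * Fa c a (Ψ z) = 0 ∧
    Fa c a (Ψ z) * SP38.DB (fun z => Fa c a (Ψ z)) z = SP38.DB (fun z => Fa c a (Ψ z)) z := by
  have h1 := prj_DB1 (G := GQ wt Q) hΩ (FB_holo hΩ hv a)
    (fun z hz => (Fa_eq (c := c) hv hz a).1) hz
  have h2 := prj_DB2 (G := GQ wt Q) hΩ (FB_holo hΩ hv a)
    (fun z hz => (Fa_eq (c := c) hv hz a).1) hz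
  rw [SP38.DB_congr (U5_ev (c := c) hΩ hv hz a), (Fa_eq (c := c) hv hz a).2]
  exact ⟨h1, h2⟩

theorem Fa_DZ (hΩ : IsOpen Ω) (hv : VE wt p Q Ω Ψ) (hz : z ∈ Ω) (a : ℤ) :
    Fa c a (Ψ z) * SP38.DZ (fun z => Fa c a (Ψ z)) z = 0 ∧
    SP38.DZ (fun z => Fa c a (Ψ z)) z * Fa c a (Ψ z) = SP38.DZ (fun z => Fa c a (Ψ z)) z := by
  have h1 := prj_DZ1 (G := GQ wt Q) hΩ (FB_holo hΩ hv a)
    (fun z hz => (Fa_eq (c := c) hv hz a).1) hz
  have h2 := prj_DZ2 (G := GQ wt Q) hΩ (FB_holo hΩ hv a)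
    (fun z hz => (Fa_eq (c := c) hv hz a).1) hz
  rw [SP38.DZ_congr (U5_ev (c := c) hΩ hv hz a), (Fa_eq (c := c) hv hz a).2]
  exact ⟨h1, h2⟩

theorem Fa_gr1 (hΩ : IsOpen Ω) (hv : VE wt p Q Ω Ψ) (hz : z ∈ Ω) (a : ℤ) :
    Fa c (a - 1) (Ψ z) * SP38.DZ (fun z => Fa c a (Ψ z)) z =
      SP38.DZ (fun z => Fa c a (Ψ z)) z := by
  have hP := (pt_pol (c := c) (hv.mhs z hz)).gr
  have hT := ZW67.HolTr_dg (wt := wt) hΩ (ve_tr hv hΩ) (fun z hz => (hv.mhs z hz).tri)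
  have hB := FB_holo hΩ hv a
  have hBs : SP38.Sm Ω (fun z => FB wt p a (Ψ z)) := SP38.Sm.of_holo hΩ hB
  obtain ⟨B', hB'⟩ : ∃ B', B' = SP38.DZ (fun z => FB wt p a (Ψ z)) z := ⟨_, rfl⟩
  -- the derivative of the frame
  have c1 : Fa c (a - 1) (Ψ z) * B' = B' := by
    have e : ∀ j : {j // a ≤ p j}, (fun i => B' i j) =
        fun i => deriv (fun z => dg wt (Ψ z) i j) z := by
      intro j
      funext i
      rw [hB', SP38.DZ_of_holo hΩ hz hB]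
      rfl
    have h2 : ∀ j : {j // a ≤ p j}, Fa c (a - 1) (Ψ z) *ᵥ (fun i => B' i j) = fun i => B' i j := by
      intro j
      apply U5_Pge_vec hP
      rw [e j]
      exact MW38.Fl_anti (by have := j.2; omega) (hT.tr z hz j)
    ext i j
    exact congrFun (h2 j) i
  have c2 : SP38.DZ (fun z => Fa c a (Ψ z)) z * FB wt p a (Ψ z) + Fa c a (Ψ z) * B' = B' := by
    rw [hB', ← SP38.DZ_mul hΩ hz (Fa_sm hΩ hv a) hBs]
    refine SP38.DZ_congr ?_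
    filter_upwards [hΩ.mem_nhds hz] with x hx
    exact Pge_FB (pt_pol (c := c) (hv.mhs x hx)).gr a
  have c3 : Fa c (a - 1) (Ψ z) * (SP38.DZ (fun z => Fa c a (Ψ z)) z * FB wt p a (Ψ z)) =
      SP38.DZ (fun z => Fa c a (Ψ z)) z * FB wt p a (Ψ z) := by
    rw [eq_sub_of_add_eq c2, Matrix.mul_sub, c1, ← Matrix.mul_assoc,
      (Fa_mul hP (show a - 1 ≤ a by omega)).1]
  have c4 : SP38.DZ (fun z => Fa c a (Ψ z)) z = SP38.DZ (fun z => Fa c a (Ψ z)) z *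
      FB wt p a (Ψ z) * RR (GQ wt Q) (FB wt p a (Ψ z)) := by
    have h1 := (Fa_DZ (c := c) hΩ hv hz a).2
    have h2 := (Fa_eq (c := c) hv hz a).2
    rw [Matrix.mul_assoc]
    change _ = SP38.DZ (fun z => Fa c a (Ψ z)) z * prj (GQ wt Q) (FB wt p a (Ψ z))
    rw [← h2, h1]
  calc Fa c (a - 1) (Ψ z) * SP38.DZ (fun z => Fa c a (Ψ z)) z
      = Fa c (a - 1) (Ψ z) * (SP38.DZ (fun z => Fa c a (Ψ z)) z * FB wt p a (Ψ z)) *
          RR (GQ wt Q) (FB wt p a (Ψ z)) := by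
        rw [Matrix.mul_assoc (Fa c (a - 1) (Ψ z)), ← c4]
    _ = SP38.DZ (fun z => Fa c a (Ψ z)) z := by rw [c3, ← c4]

theorem Fa_gr2 (hΩ : IsOpen Ω) (hv : VE wt p Q Ω Ψ) (hz : z ∈ Ω) (a : ℤ) :
    SP38.DZ (fun z => Fa c a (Ψ z)) z * Fa c (a + 1) (Ψ z) = 0 := by
  have h1 := Fa_gr1 (c := c) hΩ hv hz (a + 1)
  rw [show a + 1 - 1 = a by ring] at h1
  have h2 : SP38.DZ (fun z => Fa c a (Ψ z)) z * Fa c (a + 1) (Ψ z) +
      Fa c a (Ψ z) * SP38.DZ (fun z => Fa c (a + 1) (Ψ z)) z =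
      SP38.DZ (fun z => Fa c (a + 1) (Ψ z)) z := by
    rw [← SP38.DZ_mul hΩ hz (Fa_sm hΩ hv a) (Fa_sm hΩ hv (a + 1))]
    refine SP38.DZ_congr ?_
    filter_upwards [hΩ.mem_nhds hz] with x hx
    exact (Fa_mul (pt_pol (c := c) (hv.mhs x hx)).gr (show a ≤ a + 1 by omega)).1
  rw [h1] at h2
  exact add_eq_right.1 h2

end AD67
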