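import Pool.Agent.LibAD67.U5

/-!
Row U6: the grading operator of the graded pieces along a disc.

Write F a = Fa c a (Ψ z), P a = PPg wt p c.s (Ψ z) a, θ = DZ (fun z => pg c (Ψ z)) z.

PLAN. P_Fa: P a = F a - F (a+1) (Pge, `Finset.Icc`: Icc a K = {a} ∪ Icc (a+1) K for a ≤ K, and P a = 0
for a > K by supp).
pg_Fa: PG = ∑ b, b • P b, ∑_{a ∈ Icc (-K) K} Pge a = ∑_b #{a ∈ Icc (-K) K | a ≤ b} • P b = ∑ (b + K + 1) P b.
DZ_P1: (F (a-1) - F a) * DZ (F a) = DZ (F a) (Fa_gr1, Fa_DZ). DZ_P2: DZ (F a) * (F a - F (a+1)) = DZ (F a)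
(Fa_DZ, Fa_gr2). tr_cross: for a ≠ b: by DZ_P1, DZ_P2 and trace_mul_comm,
tr (DB (F b) * DZ (F a)) = tr (P a * DB (F b) * P (a-1) * DZ (F a)); if b ≥ a + 1: P a * DB (F b) = P a * F b
* DB (F b) = 0 (Fa_DB; P a * F b = 0 for b > a); if b ≤ a - 1: DB (F b) * P (a-1) = DB (F b) * F b * P (a-1)
= 0 (F b * P (a-1) = P (a-1) for b ≤ a - 1).
tr_sum: DZ pg = ∑ DZ (F a), DB pg = ∑ DB (F a) by pg_Fa (constant term drops out), expand the product,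
the cross terms are zero.
pg_deg: PG * P (a-1) = (a-1) • P (a-1) (B06_PG_mul), P a * PG = a • P a (ZW67.P_PG), so
PG * DZ (F a) = (a-1) • DZ (F a), DZ (F a) * PG = a • DZ (F a); sum over a.
-/

open Matrix Complex Filter Topology
open MW38 (Fl Tri blk dg)
open scoped ContDiff

namespace AD67

open ZQ38 AD19

variable {ι : Type} [Fintype ι] [DecidableEq ι] {wt p : ι → ℤ} {c : Par wt p}
  {Q : Matrix ι ι ℚ} {Ω : Set ℂ} {Ψ : ℂ → Matrix ι ι ℂ} {z : ℂ}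

theorem pg_Fa {A : Matrix ι ι ℂ} (hP : GrP wt p c.K A (PPg wt p c.s A)) :
    pg c A = (∑ a ∈ Finset.Icc (-(c.K : ℤ)) c.K, Fa c a A) -
      ((c.K : ℂ) + 1) • (1 : Matrix ι ι ℂ) := by
  have h1 : ∀ a ∈ Finset.Icc (-(c.K : ℤ)) c.K, Fa c a A =
      ∑ b ∈ Finset.Icc (-(c.K : ℤ)) c.K, if a ≤ b then PPg wt p c.s A b else 0 := by
    intro a ha
    rw [Finset.mem_Icc] at ha
    rw [← Finset.sum_filter]
    unfold Fa Pge
    refine Finset.sum_congr ?_ fun _ _ => rfl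
    ext x
    simp only [Finset.mem_Icc, Finset.mem_filter]
    omega
  have h2 : ∀ b ∈ Finset.Icc (-(c.K : ℤ)) c.K, (∑ a ∈ Finset.Icc (-(c.K : ℤ)) c.K,
      if a ≤ b then PPg wt p c.s A b else 0) =
      (b : ℂ) • PPg wt p c.s A b + ((c.K : ℂ) + 1) • PPg wt p c.s A b := by
    intro b hb
    rw [Finset.mem_Icc] at hb
    rw [← Finset.sum_filter, Finset.sum_const]
    have e : Finset.filter (fun a => a ≤ b) (Finset.Icc (-(c.K : ℤ)) c.K) =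
        Finset.Icc (-(c.K : ℤ)) b := by
      ext x
      simp only [Finset.mem_Icc, Finset.mem_filter]
      omega
    have e2 : (((b + 1 - -(c.K : ℤ)).toNat : ℤ)) = b + 1 - -(c.K : ℤ) :=
      Int.toNat_of_nonneg (by omega)
    have e3 : (((b + 1 - -(c.K : ℤ)).toNat : ℕ) : ℂ) = (b : ℂ) + ((c.K : ℂ) + 1) := by
      have := congrArg (fun x : ℤ => (x : ℂ)) e2
      push_cast at this
      rw [this]
      ring
    rw [e, Int.card_Icc, ← Nat.cast_smul_eq_nsmul ℂ, e3, add_smul]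
  rw [Finset.sum_congr rfl h1, Finset.sum_comm, Finset.sum_congr rfl h2, Finset.sum_add_distrib,
    ← Finset.smul_sum, hP.sum, add_sub_cancel_right]
  rfl

theorem P_Fa {A : Matrix ι ι ℂ} (hP : GrP wt p c.K A (PPg wt p c.s A)) (a : ℤ) :
    PPg wt p c.s A a = Fa c a A - Fa c (a + 1) A := by
  unfold Fa Pge
  by_cases h : a ≤ (c.K : ℤ)
  · have e : Finset.Icc a (c.K : ℤ) = insert a (Finset.Icc (a + 1) (c.K : ℤ)) := by
      ext x
      simp only [Finset.mem_Icc, Finset.mem_insert]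
      omega
    rw [e, Finset.sum_insert (by simp), add_sub_cancel_right]
  · rw [Finset.Icc_eq_empty h, Finset.Icc_eq_empty (by omega), Finset.sum_empty, sub_zero]
    exact hP.supp a (by rw [abs_of_pos (by omega)]; omega)

theorem pg_sm (hΩ : IsOpen Ω) (hv : VE wt p Q Ω Ψ) : SP38.Sm Ω (fun z => pg c (Ψ z)) := by
  intro i j
  have h : SP38.Sm Ω (fun z => (∑ a ∈ Finset.Icc (-(c.K : ℤ)) c.K, Fa c a (Ψ z)) -
      ((c.K : ℂ) + 1) • (1 : Matrix ι ι ℂ)) :=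
    (SP38.Sm.sum _ fun a _ => Fa_sm hΩ hv a).sub (SP38.Sm.const _)
  have h1 := h i j
  unfold SP38.SmS at h1 ⊢
  refine h1.congr fun x hx => ?_
  exact congrFun (congrFun (pg_Fa (pt_pol (c := c) (hv.mhs x hx)).gr) i) j

theorem U6_DZ (hΩ : IsOpen Ω) (hv : VE wt p Q Ω Ψ) (hz : z ∈ Ω) :
    SP38.DZ (fun z => pg c (Ψ z)) z =
      ∑ a ∈ Finset.Icc (-(c.K : ℤ)) c.K, SP38.DZ (fun z => Fa c a (Ψ z)) z := by
  have e : ∀ᶠ x in 𝓝 z, pg c (Ψ x) = (∑ a ∈ Finset.Icc (-(c.K : ℤ)) c.K, Fa c a (Ψ x)) -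
      ((c.K : ℂ) + 1) • (1 : Matrix ι ι ℂ) := by
    filter_upwards [hΩ.mem_nhds hz] with x hx
    exact pg_Fa (pt_pol (c := c) (hv.mhs x hx)).gr
  rw [SP38.DZ_congr e, SP38.DZ_sub hΩ hz (SP38.Sm.sum _ fun a _ => Fa_sm hΩ hv a)
    (SP38.Sm.const _), SP38.DZ_const, sub_zero,
    SP38.DZ_sum hΩ hz _ fun a _ => Fa_sm hΩ hv a]

theorem U6_DB (hΩ : IsOpen Ω) (hv : VE wt p Q Ω Ψ) (hz : z ∈ Ω) :
    SP38.DB (fun z => pg c (Ψ z)) z =
      ∑ a ∈ Finset.Icc (-(c.K : ℤ)) c.K, SP38.DB (fun z => Fa c a (Ψ z)) z := by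
  have e : ∀ᶠ x in 𝓝 z, pg c (Ψ x) = (∑ a ∈ Finset.Icc (-(c.K : ℤ)) c.K, Fa c a (Ψ x)) -
      ((c.K : ℂ) + 1) • (1 : Matrix ι ι ℂ) := by
    filter_upwards [hΩ.mem_nhds hz] with x hx
    exact pg_Fa (pt_pol (c := c) (hv.mhs x hx)).gr
  rw [SP38.DB_congr e, SP38.DB_sub hΩ hz (SP38.Sm.sum _ fun a _ => Fa_sm hΩ hv a)
    (SP38.Sm.const _), SP38.DB_const, sub_zero,
    SP38.DB_sum hΩ hz _ fun a _ => Fa_sm hΩ hv a]

theorem U6_P1 (hΩ : IsOpen Ω) (hv : VE wt p Q Ω Ψ) (hz : z ∈ Ω) (a : ℤ) :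
    (Fa c (a - 1) (Ψ z) - Fa c a (Ψ z)) * SP38.DZ (fun z => Fa c a (Ψ z)) z =
      SP38.DZ (fun z => Fa c a (Ψ z)) z := by
  rw [Matrix.sub_mul, Fa_gr1 hΩ hv hz a, (Fa_DZ hΩ hv hz a).1, sub_zero]

theorem U6_P2 (hΩ : IsOpen Ω) (hv : VE wt p Q Ω Ψ) (hz : z ∈ Ω) (a : ℤ) :
    SP38.DZ (fun z => Fa c a (Ψ z)) z * (Fa c a (Ψ z) - Fa c (a + 1) (Ψ z)) =
      SP38.DZ (fun z => Fa c a (Ψ z)) z := by
  rw [Matrix.mul_sub, Fa_gr2 hΩ hv hz a, (Fa_DZ hΩ hv hz a).2, sub_zero]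

theorem U6_cross (hΩ : IsOpen Ω) (hv : VE wt p Q Ω Ψ) (hz : z ∈ Ω) {a b : ℤ} (hab : a ≠ b) :
    Matrix.trace (SP38.DB (fun z => Fa c b (Ψ z)) z * SP38.DZ (fun z => Fa c a (Ψ z)) z) = 0 := by
  have hP := (pt_pol (c := c) (hv.mhs z hz)).gr
  rcases lt_or_gt_of_ne hab with h | h
  · rw [← U6_P2 hΩ hv hz a, ← Matrix.mul_assoc, Matrix.trace_mul_comm, ← Matrix.mul_assoc,
      ← (Fa_DB hΩ hv hz b).2, ← Matrix.mul_assoc, Matrix.sub_mul,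
      (Fa_mul hP (show a ≤ b by omega)).1, (Fa_mul hP (show a + 1 ≤ b by omega)).1, sub_self,
      Matrix.zero_mul, Matrix.zero_mul, Matrix.trace_zero]
  · rw [← U6_P1 hΩ hv hz a, ← Matrix.mul_assoc, ← (Fa_mul hP (show b ≤ a - 1 by omega)).1,
      ← (Fa_mul hP (show b ≤ a by omega)).1, ← Matrix.mul_sub, ← Matrix.mul_assoc,
      (Fa_DB hΩ hv hz b).1, Matrix.zero_mul, Matrix.zero_mul, Matrix.trace_zero]

theorem tr_sum (hΩ : IsOpen Ω) (hv : VE wt p Q Ω Ψ) (hz : z ∈ Ω) :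
    ∑ a ∈ Finset.Icc (-(c.K : ℤ)) c.K,
      Matrix.trace (SP38.DB (fun z => Fa c a (Ψ z)) z * SP38.DZ (fun z => Fa c a (Ψ z)) z) =
    Matrix.trace (SP38.DB (fun z => pg c (Ψ z)) z * SP38.DZ (fun z => pg c (Ψ z)) z) := by
  rw [U6_DB hΩ hv hz, U6_DZ hΩ hv hz, Finset.sum_mul, Matrix.trace_sum]
  refine Finset.sum_congr rfl fun b hb => ?_
  rw [Finset.mul_sum, Matrix.trace_sum, Finset.sum_eq_single b]
  · intro a _ hab
    exact U6_cross hΩ hv hz hab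
  · intro h
    exact absurd hb h

theorem pg_deg (hΩ : IsOpen Ω) (hv : VE wt p Q Ω Ψ) (hz : z ∈ Ω) :
    pg c (Ψ z) * SP38.DZ (fun z => pg c (Ψ z)) z -
      SP38.DZ (fun z => pg c (Ψ z)) z * pg c (Ψ z) = -SP38.DZ (fun z => pg c (Ψ z)) z := by
  have hP := (pt_pol (c := c) (hv.mhs z hz)).gr
  have h1 : ∀ a : ℤ, pg c (Ψ z) * SP38.DZ (fun z => Fa c a (Ψ z)) z =
      ((a : ℂ) - 1) • SP38.DZ (fun z => Fa c a (Ψ z)) z := by
    intro a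
    have e := U6_P1 (c := c) hΩ hv hz a
    have e2 := P_Fa hP (a - 1)
    rw [show a - 1 + 1 = a by ring] at e2
    rw [← e2] at e
    have e3 := B06_PG_mul hP (a - 1)
    calc pg c (Ψ z) * SP38.DZ (fun z => Fa c a (Ψ z)) z
        = PG c.K (PPg wt p c.s (Ψ z)) * PPg wt p c.s (Ψ z) (a - 1) *
            SP38.DZ (fun z => Fa c a (Ψ z)) z := by
          rw [Matrix.mul_assoc, e]
          rfl
      _ = ((a : ℂ) - 1) • SP38.DZ (fun z => Fa c a (Ψ z)) z := by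
          rw [e3, Matrix.smul_mul, e]
          push_cast
          rfl
  have h2 : ∀ a : ℤ, SP38.DZ (fun z => Fa c a (Ψ z)) z * pg c (Ψ z) =
      (a : ℂ) • SP38.DZ (fun z => Fa c a (Ψ z)) z := by
    intro a
    have e := U6_P2 (c := c) hΩ hv hz a
    rw [← P_Fa hP a] at e
    have e3 := ZW67.P_PG hP a
    calc SP38.DZ (fun z => Fa c a (Ψ z)) z * pg c (Ψ z)
        = SP38.DZ (fun z => Fa c a (Ψ z)) z * PPg wt p c.s (Ψ z) a *
            PG c.K (PPg wt p c.s (Ψ z)) := by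
          rw [e]
          rfl
      _ = (a : ℂ) • SP38.DZ (fun z => Fa c a (Ψ z)) z := by
          rw [Matrix.mul_assoc, e3, Matrix.mul_smul, e]
  rw [U6_DZ hΩ hv hz, Finset.mul_sum, Finset.sum_mul, ← Finset.sum_sub_distrib,
    ← Finset.sum_neg_distrib]
  refine Finset.sum_congr rfl fun a _ => ?_
  rw [h1, h2, ← sub_smul, show (a : ℂ) - 1 - a = -1 by ring, neg_smul, one_smul]

end AD67
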