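import Pool.Agent.LibAD67.U6

/-!
Row U6b: the energy density of the graded pieces.

θ = DZ (fun z => pg c (Ψ z)) z.

PLAN. pg_conj: `B08b_bar_PG`: conj pg = Dwt - pg on Ω; take DB: DB_conj: conj θ = - DB pg.
pg_skew': differentiate `PolG.PG_skew` (the right hand side is constant): θᵀ G + G θ = 0.
EG_eq: `ZW67.PolG.QE_eq` with A = B = θ, a = -1, w = 0 (hw: entries of θ outside the diagonal blocks are
0, GrP.diag and dz of 0; hA = pg_deg): I^(-2) * QE (cm Q) θ (conj θ) = tr (MM⁻¹ θᴴ MM θ), QE = tr (θᵀ G conj θ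
G⁻¹) = tr (-(G θ) conj θ G⁻¹) = - tr (θ conj θ), I^(-2) = -1. So EG = Re tr (θ conj θ) = - Re tr (θ DB pg).
EG_nonneg: exists_sqrt as in PolG.QE_pos: tr (MM⁻¹ θᴴ MM θ) = tr (Xᴴ X), X = R θ R⁻¹.
-/

open Matrix Complex Filter Topology
open MW38 (Fl Tri blk dg)
open scoped ContDiff

namespace AD67

open ZQ38 AD19

variable {ι : Type} [Fintype ι] [DecidableEq ι] {wt p : ι → ℤ} {c : Par wt p}
  {Q : Matrix ι ι ℚ} {Ω : Set ℂ} {Ψ : ℂ → Matrix ι ι ℂ} {z : ℂ}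

private theorem U6b_conj (hΩ : IsOpen Ω) (hv : VE wt p Q Ω Ψ) (hz : z ∈ Ω) :
    (SP38.DZ (fun z => pg c (Ψ z)) z).map (starRingEnd ℂ) =
      -SP38.DB (fun z => pg c (Ψ z)) z := by
  have hs : SP38.Sm Ω (fun z => pg c (Ψ z)) := pg_sm hΩ hv
  have hc : SP38.Sm Ω (fun _ : ℂ => Dwt wt) := fun i j => contDiffOn_const
  rw [← SP38.DB_conj hΩ hz hs]
  have h1 : SP38.DB (fun z => (pg c (Ψ z)).map (starRingEnd ℂ)) z =
      SP38.DB (fun z => Dwt wt - pg c (Ψ z)) z := by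
    refine SP38.DB_congr ?_
    filter_upwards [hΩ.mem_nhds hz] with x hx
    exact B08b_bar_PG (pt_pol (c := c) (hv.mhs x hx)).gr
  rw [h1, SP38.DB_sub hΩ hz hc hs, SP38.DB_const, zero_sub]

private theorem U6b_skew (hΩ : IsOpen Ω) (hv : VE wt p Q Ω Ψ) (hz : z ∈ Ω) :
    (SP38.DZ (fun z => pg c (Ψ z)) z)ᵀ * SP38.cm (dgR wt (Q.map (algebraMap ℚ ℝ))) =
      -(SP38.cm (dgR wt (Q.map (algebraMap ℚ ℝ))) * SP38.DZ (fun z => pg c (Ψ z)) z) := by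
  set G := SP38.cm (dgR wt (Q.map (algebraMap ℚ ℝ))) with hG
  have hs : SP38.Sm Ω (fun z => pg c (Ψ z)) := pg_sm hΩ hv
  have hc : ∀ A : Matrix ι ι ℂ, SP38.Sm Ω (fun _ : ℂ => A) := fun A i j => contDiffOn_const
  have h1 : SP38.DZ (fun z => (pg c (Ψ z))ᵀ * G + G * pg c (Ψ z)) z = 0 := by
    rw [← SP38.DZ_const (z := z) (Dwt wt * G)]
    refine SP38.DZ_congr ?_
    filter_upwards [hΩ.mem_nhds hz] with x hx
    exact (pt_pol (c := c) (hv.mhs x hx)).PG_skew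
  rw [SP38.DZ_add hΩ hz (hs.transpose.mul (hc G)) ((hc G).mul hs),
    SP38.DZ_mul hΩ hz hs.transpose (hc G), SP38.DZ_mul hΩ hz (hc G) hs, SP38.DZ_const,
    SP38.DZ_transpose, Matrix.mul_zero, Matrix.zero_mul, add_zero, zero_add] at h1
  exact eq_neg_of_add_eq_zero_left h1

private theorem U6b_diag (hΩ : IsOpen Ω) (hv : VE wt p Q Ω Ψ) (hz : z ∈ Ω) (i j : ι)
    (hij : wt i ≠ wt j) : SP38.DZ (fun z => pg c (Ψ z)) z i j = 0 := by
  show SP38.dz (fun z => pg c (Ψ z) i j) z = 0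
  rw [← SP38.dz_const (z := z) 0]
  refine SP38.dz_congr ?_
  filter_upwards [hΩ.mem_nhds hz] with x hx
  exact ZW67.diag_sum (pt_pol (c := c) (hv.mhs x hx)).gr (fun a => (a : ℂ)) i j hij

theorem EG_eq (hΩ : IsOpen Ω) (hv : VE wt p Q Ω Ψ) (hz : z ∈ Ω) :
    EG c Q Ψ z = -(Matrix.trace (SP38.DB (fun z => pg c (Ψ z)) z *
      SP38.DZ (fun z => pg c (Ψ z)) z)).re := by
  have hpol := pt_pol (c := c) (hv.mhs z hz)
  have hconj := U6b_conj (c := c) hΩ hv hz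
  have hskew := U6b_skew (c := c) hΩ hv hz
  have hdeg := pg_deg (c := c) hΩ hv hz
  have hq := hpol.QE_eq (w := 0) (a := -1) (A := SP38.DZ (fun z => pg c (Ψ z)) z)
    (B := SP38.DZ (fun z => pg c (Ψ z)) z)
    (fun i j hij => U6b_diag hΩ hv hz i j (by simpa using hij))
    (by
      have : ((-1 : ℤ) : ℂ) • SP38.DZ (fun z => pg c (Ψ z)) z =
          -SP38.DZ (fun z => pg c (Ψ z)) z := by simp
      rw [this]
      exact hdeg)
  have hQ : dgR wt (SP38.cm (Q.map (algebraMap ℚ ℝ))) =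
      SP38.cm (dgR wt (Q.map (algebraMap ℚ ℝ))) := by
    ext i j
    show (if wt i = wt j then (((Q.map (algebraMap ℚ ℝ)) i j : ℝ) : ℂ) else 0) =
      ((if wt i = wt j then (Q.map (algebraMap ℚ ℝ)) i j else 0 : ℝ) : ℂ)
    split_ifs <;> simp
  have hu := hpol.unit_Q
  rw [EG, ← hq, ZW67.QE, hQ, hskew, hconj]
  set θ := SP38.DZ (fun z => pg c (Ψ z)) z
  set τ := SP38.DB (fun z => pg c (Ψ z)) z
  set G := SP38.cm (dgR wt (Q.map (algebraMap ℚ ℝ)))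
  have e1 : Matrix.trace (-(G * θ) * -τ * G⁻¹) = Matrix.trace (τ * θ) := by
    have e2 : -(G * θ) * -τ * G⁻¹ = G * (θ * τ * G⁻¹) := by
      simp only [Matrix.neg_mul, Matrix.mul_neg, neg_neg, Matrix.mul_assoc]
    rw [e2, Matrix.trace_mul_comm, Matrix.mul_assoc, Matrix.nonsing_inv_mul _ hu, Matrix.mul_one,
      Matrix.trace_mul_comm]
  rw [e1]
  have e3 : (I : ℂ) ^ (2 * (-1 : ℤ) - 0) = -1 := by
    have : (2 * (-1 : ℤ) - 0) = -2 := by norm_num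
    rw [this, _root_.zpow_neg]
    have h2 : (I : ℂ) ^ (2 : ℤ) = -1 := by
      have := I_sq
      exact_mod_cast this
    rw [h2]
    norm_num
  rw [e3, neg_one_mul, Complex.neg_re]

theorem EG_nonneg (hΩ : IsOpen Ω) (hv : VE wt p Q Ω Ψ) (hz : z ∈ Ω) : 0 ≤ EG c Q Ψ z := by
  have hpol := pt_pol (c := c) (hv.mhs z hz)
  unfold EG
  obtain ⟨R, hR, hRR⟩ := ZW67.exists_sqrt hpol.posDef
  have hRd := (Matrix.isUnit_iff_isUnit_det _).1 hR
  set A := SP38.DZ (fun z => pg c (Ψ z)) z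
  have e1 : Matrix.trace ((ZW67.MM wt c.K (Q.map (algebraMap ℚ ℝ)) (PPg wt p c.s (Ψ z)))⁻¹ * Aᴴ *
      ZW67.MM wt c.K (Q.map (algebraMap ℚ ℝ)) (PPg wt p c.s (Ψ z)) * A) =
      Matrix.trace ((R * A * R⁻¹)ᴴ * (R * A * R⁻¹)) := by
    rw [hRR, Matrix.mul_inv_rev, Matrix.conjTranspose_mul, Matrix.conjTranspose_mul,
      Matrix.conjTranspose_nonsing_inv]
    have e2 : R⁻¹ * (Rᴴ)⁻¹ * Aᴴ * (Rᴴ * R) * A = R⁻¹ * ((Rᴴ)⁻¹ * Aᴴ * Rᴴ * R * A) := by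
      simp only [Matrix.mul_assoc]
    rw [e2, Matrix.trace_mul_comm]
    refine congrArg Matrix.trace ?_
    simp only [Matrix.mul_assoc]
  rw [e1]
  open scoped ComplexOrder in
  have hnn : 0 ≤ Matrix.trace ((R * A * R⁻¹)ᴴ * (R * A * R⁻¹)) :=
    (Matrix.posSemidef_conjTranspose_mul_self (R * A * R⁻¹)).trace_nonneg
  open scoped ComplexOrder in
  rw [Complex.le_def] at hnn
  exact hnn.1

end AD67
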