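import Pool.Agent.LibAD67.U1
import Pool.Agent.LibAD67.U2
import Pool.Agent.LibAD67.U6b

/-!
Row U7: the Laplacian of the potential.

PLAN. upt c Q (Ψ z) = - ∑ a, log ‖det (gram (GQ wt Q) (FB wt p a (Ψ z)))‖. Each determinant is smooth
(gram_sm, sm_det) and nonzero on Ω (Fa_eq); lap_log gives
(dzb (dz log ‖det‖)).re = (dzb (fun z => dz det z / det z) z).re, dz det / det = tr (K⁻¹ DZ K) on Ω
(dz_det_div, dzb_congr), gram_lap gives tr (DB (prj ..) * DZ (prj ..)), and prj = Fa near z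
(Fa_eq, DB_congr, DZ_congr). dz and dzb of the finite sum: WirtM_dz_sum, WirtM_dzb_sum (SmS of each
term on Ω; the minus sign: multiply by -1, WirtM_dz_smul). Sum: - ∑ Re tr (DB (Fa a) * DZ (Fa a)) =
- Re tr (DB pg * DZ pg) = EG (tr_sum, EG_eq).
-/

open Matrix Complex Filter Topology
open MW38 (Fl Tri blk dg)
open scoped ContDiff

namespace AD67

open ZQ38 AD19

variable {ι : Type} [Fintype ι] [DecidableEq ι] {wt p : ι → ℤ} {c : Par wt p}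
  {Q : Matrix ι ι ℚ} {Ω : Set ℂ} {Ψ : ℂ → Matrix ι ι ℂ} {z : ℂ}

theorem U7_term (c : Par wt p) (hΩ : IsOpen Ω) (hv : VE wt p Q Ω Ψ) (a : ℤ) :
    SP38.SmS Ω (fun z => ((Real.log ‖(gram (GQ wt Q) (FB wt p a (Ψ z))).det‖ : ℝ) : ℂ)) ∧
    (∀ z ∈ Ω, ContDiffAt ℝ ∞
      (fun z => Real.log ‖(gram (GQ wt Q) (FB wt p a (Ψ z))).det‖) z) ∧
    ∀ z ∈ Ω, (SP38.dzb (SP38.dz (fun z =>
      ((Real.log ‖(gram (GQ wt Q) (FB wt p a (Ψ z))).det‖ : ℝ) : ℂ))) z).re =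
      (Matrix.trace (SP38.DB (fun z => Fa c a (Ψ z)) z *
        SP38.DZ (fun z => Fa c a (Ψ z)) z)).re := by
  have hB := FB_holo hΩ hv a
  have hsmG : SP38.Sm Ω (fun z => gram (GQ wt Q) (FB wt p a (Ψ z))) := gram_sm hΩ hB
  have hsm : SP38.SmS Ω (fun z => (gram (GQ wt Q) (FB wt p a (Ψ z))).det) := sm_det hsmG
  have hu : ∀ z ∈ Ω, IsUnit (gram (GQ wt Q) (FB wt p a (Ψ z))).det :=
    fun z hz => (Fa_eq (c := c) hv hz a).1
  have hne : ∀ z ∈ Ω, (gram (GQ wt Q) (FB wt p a (Ψ z))).det ≠ 0 := fun z hz => (hu z hz).ne_zero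
  have hlog : ∀ w ∈ Ω, ContDiffAt ℝ ∞
      (fun z => Real.log ‖(gram (GQ wt Q) (FB wt p a (Ψ z))).det‖) w :=
    fun w hw => (lap_log hΩ hw hsm hne).1
  refine ⟨?_, hlog, ?_⟩
  · intro w hw
    exact (Complex.ofRealCLM.contDiff.contDiffAt.comp w (hlog w hw)).contDiffWithinAt
  · intro z hz
    rw [(lap_log hΩ hz hsm hne).2]
    have e1 : (fun z => SP38.dz (fun z => (gram (GQ wt Q) (FB wt p a (Ψ z))).det) z /
        (gram (GQ wt Q) (FB wt p a (Ψ z))).det) =ᶠ[𝓝 z] fun z =>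
        Matrix.trace ((gram (GQ wt Q) (FB wt p a (Ψ z)))⁻¹ *
          SP38.DZ (fun z => gram (GQ wt Q) (FB wt p a (Ψ z))) z) := by
      filter_upwards [hΩ.mem_nhds hz] with w hw
      exact dz_det_div hΩ hw hsmG (hu w hw)
    rw [SP38.dzb_congr e1, gram_lap hΩ hB hu hz]
    have e2 : ∀ᶠ x in 𝓝 z, prj (GQ wt Q) (FB wt p a (Ψ x)) = Fa c a (Ψ x) := by
      filter_upwards [hΩ.mem_nhds hz] with w hw
      exact (Fa_eq (c := c) hv hw a).2.symm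
    rw [SP38.DB_congr e2, SP38.DZ_congr e2]

theorem upt_lap (hΩ : IsOpen Ω) (hv : VE wt p Q Ω Ψ) (hz : z ∈ Ω) :
    ContDiffAt ℝ ∞ (fun z => upt c Q (Ψ z)) z ∧
    (SP38.dzb (SP38.dz (fun z => ((upt c Q (Ψ z) : ℝ) : ℂ))) z).re = EG c Q Ψ z := by
  have ht := fun a => U7_term c hΩ hv (Q := Q) a
  set L : ℤ → ℂ → ℂ := fun a z =>
    ((Real.log ‖(gram (GQ wt Q) (FB wt p a (Ψ z))).det‖ : ℝ) : ℂ) with hL
  constructor
  · unfold upt
    exact (ContDiffAt.sum fun a _ => (ht a).2.1 z hz).neg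
  · have hd : ∀ a, ∀ w ∈ Ω, DifferentiableAt ℝ (L a) w :=
      fun a w hw => (ht a).1.differentiableAt hΩ hw
    have hdz : ∀ a, DifferentiableAt ℝ (SP38.dz (L a)) z :=
      fun a => ((ht a).1.dz hΩ).differentiableAt hΩ hz
    have e0 : (fun z => ((upt c Q (Ψ z) : ℝ) : ℂ)) =
        fun z => (-1 : ℂ) * ∑ a ∈ Finset.Icc (-(c.K : ℤ)) c.K, L a z := by
      funext w
      unfold upt
      rw [hL]
      push_cast
      ring
    have hds : ∀ w ∈ Ω, DifferentiableAt ℝ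
        (fun z => ∑ a ∈ Finset.Icc (-(c.K : ℤ)) c.K, L a z) w :=
      fun w hw => DifferentiableAt.fun_sum fun a _ => hd a w hw
    have e1 : SP38.dz (fun z => ((upt c Q (Ψ z) : ℝ) : ℂ)) =ᶠ[𝓝 z]
        fun z => (-1 : ℂ) * ∑ a ∈ Finset.Icc (-(c.K : ℤ)) c.K, SP38.dz (L a) z := by
      filter_upwards [hΩ.mem_nhds hz] with w hw
      rw [e0, SP38.WirtM_dz_smul (-1) (hds w hw), SP38.WirtM_dz_sum _ fun a _ => hd a w hw]
    rw [SP38.dzb_congr e1, SP38.WirtM_dzb_smul (-1)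
      (DifferentiableAt.fun_sum fun a _ => hdz a), SP38.WirtM_dzb_sum _ fun a _ => hdz a]
    rw [EG_eq hΩ hv hz, ← tr_sum hΩ hv hz, neg_one_mul, Complex.neg_re, Complex.re_sum,
      Complex.re_sum]
    congr 1
    exact Finset.sum_congr rfl fun a _ => (ht a).2.2 z hz

end AD67
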