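import Pool.Agent.LibAD67.UDef

/-!
Row U8: the potential does not change under isometries defined over ℚ.

PLAN. With g = γ.map (algebraMap ℚ ℂ): dg wt (g * A) = dg wt g * dg wt A (`dgR_mul`, both Tri; dg and
dgR agree by rfl), so FB wt p a (g * A) = dg wt g * FB wt p a A. (dg wt g)ᵀ * GQ wt Q * (dg wt g).map conj
= GQ wt Q: g is real, and blockwise this is hγ.2.2 k mapped to ℂ (both sides vanish outside the
diagonal blocks; dgR of a product of block diagonal matrices). So the gram matrices are equal.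
-/

open Matrix Complex
open MW38 (Fl Tri blk dg)

namespace AD67

open ZQ38 AD19

variable {ι : Type} [Fintype ι] [DecidableEq ι] {wt p : ι → ℤ} {c : Par wt p}
  {Q : Matrix ι ι ℚ}

omit [Fintype ι] [DecidableEq ι] in
private theorem U8_dg_map (wt : ι → ℤ) (B : Matrix ι ι ℚ) :
    dg wt (B.map (algebraMap ℚ ℂ)) = (dgR wt B).map (algebraMap ℚ ℂ) := by
  ext i j
  show (if wt i = wt j then (algebraMap ℚ ℂ) (B i j) else 0) =
    algebraMap ℚ ℂ (if wt i = wt j then B i j else 0)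
  split_ifs <;> simp

omit [Fintype ι] [DecidableEq ι] in
private theorem U8_GQ (wt : ι → ℤ) (Q : Matrix ι ι ℚ) :
    GQ wt Q = (dgR wt Q).map (algebraMap ℚ ℂ) := by
  ext i j
  show ((if wt i = wt j then (algebraMap ℚ ℝ) (Q i j) else 0 : ℝ) : ℂ) =
    algebraMap ℚ ℂ (if wt i = wt j then Q i j else 0)
  split_ifs <;> simp

omit [Fintype ι] [DecidableEq ι] in
private theorem U8_conj (B : Matrix ι ι ℚ) :
    (B.map (algebraMap ℚ ℂ)).map (starRingEnd ℂ) = B.map (algebraMap ℚ ℂ) := by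
  ext i j
  simp [Matrix.map_apply]

omit [Fintype ι] [DecidableEq ι] in
private theorem U8_tri (B : Matrix ι ι ℚ) : Tri wt (dgR wt B) :=
  fun _ _ hij => if_neg (by omega)

omit [Fintype ι] [DecidableEq ι] in
private theorem U8_tri_t (B : Matrix ι ι ℚ) : Tri wt (dgR wt B)ᵀ :=
  fun _ _ hij => if_neg (by omega)

omit [Fintype ι] [DecidableEq ι] in
private theorem U8_dd (B : Matrix ι ι ℚ) : dgR wt (dgR wt B) = dgR wt B := by
  ext i j
  show (if wt i = wt j then (if wt i = wt j then B i j else 0) else 0) =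
    if wt i = wt j then B i j else 0
  split_ifs <;> rfl

omit [Fintype ι] [DecidableEq ι] in
private theorem U8_dd_t (B : Matrix ι ι ℚ) : dgR wt (dgR wt B)ᵀ = (dgR wt B)ᵀ := by
  ext i j
  show (if wt i = wt j then (if wt j = wt i then B j i else 0) else 0) =
    if wt j = wt i then B j i else 0
  by_cases h : wt i = wt j
  · rw [if_pos h]
  · rw [if_neg h, if_neg (Ne.symm h)]

omit [Fintype ι] [DecidableEq ι] in
private theorem U8_blk (B : Matrix ι ι ℚ) (k : ℤ) : blk wt k k (dgR wt B) = blk wt k k B := by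
  ext i j
  show (if wt (i : ι) = wt (j : ι) then B i j else 0) = B i j
  rw [if_pos (i.2.trans j.2.symm)]

omit [Fintype ι] [DecidableEq ι] in
private theorem U8_blk_t (B : Matrix ι ι ℚ) (k : ℤ) :
    blk wt k k (dgR wt B)ᵀ = (blk wt k k B)ᵀ := by
  ext i j
  show (if wt (j : ι) = wt (i : ι) then B j i else 0) = B j i
  rw [if_pos (j.2.trans i.2.symm)]

private theorem U8_key {γ : Matrix ι ι ℚ} (hγ : IsMon wt Q γ) :
    (dgR wt γ)ᵀ * dgR wt Q * dgR wt γ = dgR wt Q := by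
  have hT : Tri wt ((dgR wt γ)ᵀ * dgR wt Q) := MW38.Tri.mul (U8_tri_t γ) (U8_tri Q)
  have hM : dgR wt ((dgR wt γ)ᵀ * dgR wt Q * dgR wt γ) = (dgR wt γ)ᵀ * dgR wt Q * dgR wt γ := by
    rw [dgR_mul hT (U8_tri γ), dgR_mul (U8_tri_t γ) (U8_tri Q), U8_dd_t, U8_dd, U8_dd]
  ext i j
  by_cases hij : wt i = wt j
  · have h1 : blk wt (wt j) (wt j) ((dgR wt γ)ᵀ * dgR wt Q * dgR wt γ) =
        blk wt (wt j) (wt j) Q := by
      rw [MW38.blk_mul_diag hT (U8_tri γ), MW38.blk_mul_diag (U8_tri_t γ) (U8_tri Q), U8_blk_t,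
        U8_blk, U8_blk]
      exact hγ.2.2 (wt j)
    have h2 := congrFun (congrFun h1 ⟨i, hij⟩) ⟨j, rfl⟩
    have h3 : dgR wt Q i j = Q i j := if_pos hij
    rw [h3]
    exact h2
  · rw [← hM]
    have h3 : dgR wt Q i j = 0 := if_neg hij
    rw [h3]
    exact if_neg hij

theorem GQ_mon {γ : Matrix ι ι ℚ} (hγ : IsMon wt Q γ) :
    (dg wt (γ.map (algebraMap ℚ ℂ)))ᵀ * GQ wt Q *
      (dg wt (γ.map (algebraMap ℚ ℂ))).map (starRingEnd ℂ) = GQ wt Q := by
  rw [U8_dg_map, U8_GQ, U8_conj, ← Matrix.transpose_map, ← Matrix.map_mul, ← Matrix.map_mul,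
    U8_key hγ]

theorem upt_mon {γ : Matrix ι ι ℚ} (hγ : IsMon wt Q γ) {A : Matrix ι ι ℂ} (hA : Tri wt A) :
    upt c Q (γ.map (algebraMap ℚ ℂ) * A) = upt c Q A := by
  have hT : Tri wt (γ.map (algebraMap ℚ ℂ)) := by
    intro i j hij
    rw [Matrix.map_apply, hγ.2.1 i j hij, map_zero]
  have h1 : dg wt (γ.map (algebraMap ℚ ℂ) * A) =
      dg wt (γ.map (algebraMap ℚ ℂ)) * dg wt A := dgR_mul hT hA
  have h2 : ∀ a : ℤ, FB wt p a (γ.map (algebraMap ℚ ℂ) * A) =
      dg wt (γ.map (algebraMap ℚ ℂ)) * FB wt p a A := by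
    intro a
    ext i j
    have h3 := congrFun (congrFun h1 i) (j : ι)
    exact h3
  have h3 : ∀ a : ℤ, gram (GQ wt Q) (FB wt p a (γ.map (algebraMap ℚ ℂ) * A)) =
      gram (GQ wt Q) (FB wt p a A) := by
    intro a
    rw [h2 a]
    unfold gram
    rw [Matrix.transpose_mul, Matrix.map_mul]
    calc (FB wt p a A)ᵀ * (dg wt (γ.map (algebraMap ℚ ℂ)))ᵀ * GQ wt Q *
          ((dg wt (γ.map (algebraMap ℚ ℂ))).map (starRingEnd ℂ) *
            (FB wt p a A).map (starRingEnd ℂ))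
        = (FB wt p a A)ᵀ * ((dg wt (γ.map (algebraMap ℚ ℂ)))ᵀ * GQ wt Q *
          (dg wt (γ.map (algebraMap ℚ ℂ))).map (starRingEnd ℂ)) *
            (FB wt p a A).map (starRingEnd ℂ) := by
          simp only [Matrix.mul_assoc]
      _ = _ := by rw [GQ_mon hγ]
  unfold upt
  simp only [h3]

end AD67
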