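import Pool.Agent.LibAD19.Def

/-!
# The potential of the graded pieces (MP_eeb1a4_ag, all dimensions)
-/

open Matrix Complex Filter Topology
open MW38 (Fl Tri blk dg)
open scoped ContDiff

namespace AD67

open ZQ38 AD19

variable {ι : Type} [Fintype ι] [DecidableEq ι] {wt p : ι → ℤ}

/-- Gram matrix of the columns of `B` for the hermitian form `(u, v) ↦ uᵀ G v̄` -/
noncomputable def gram {ν : Type} (G : Matrix ι ι ℂ) (B : Matrix ι ν ℂ) : Matrix ν ν ℂ :=
  Bᵀ * G * B.map (starRingEnd ℂ)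

/-- the left inverse of `B` given by the hermitian form -/
noncomputable def RR {ν : Type} [Fintype ν] [DecidableEq ν] (G : Matrix ι ι ℂ)
    (B : Matrix ι ν ℂ) : Matrix ν ι ℂ :=
  ((gram G B)ᵀ)⁻¹ * ((B.map (starRingEnd ℂ))ᵀ * Gᵀ)

/-- the orthogonal projector onto the span of the columns of `B` -/
noncomputable def prj {ν : Type} [Fintype ν] [DecidableEq ν] (G : Matrix ι ι ℂ)
    (B : Matrix ι ν ℂ) : Matrix ι ι ℂ := B * RR G B

/-- the columns of index at least `a` of the frame of the graded pieces: they span `F^a` -/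
noncomputable def FB (wt p : ι → ℤ) (a : ℤ) (A : Matrix ι ι ℂ) : Matrix ι {j // a ≤ p j} ℂ :=
  fun i j => dg wt A i j

/-- the corresponding rows of the inverse -/
noncomputable def LB (wt p : ι → ℤ) (a : ℤ) (A : Matrix ι ι ℂ) : Matrix {j // a ≤ p j} ι ℂ :=
  fun j i => (dg wt A)⁻¹ j i

/-- the polarizations of the graded pieces -/
noncomputable def GQ (wt : ι → ℤ) (Q : Matrix ι ι ℚ) : Matrix ι ι ℂ :=
  SP38.cm (dgR wt (Q.map (algebraMap ℚ ℝ)))

/-- the potential of the energy density of the graded pieces -/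
noncomputable def upt (c : Par wt p) (Q : Matrix ι ι ℚ) (A : Matrix ι ι ℂ) : ℝ :=
  -∑ a ∈ Finset.Icc (-(c.K : ℤ)) c.K, Real.log ‖(gram (GQ wt Q) (FB wt p a A)).det‖

end AD67
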