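import Pool.Agent.LibZQ38.SDef2

/-!
# Variations of mixed Hodge structure on varieties of every dimension (MP_eeb1a4_ag)

Definitions used in the statement of `MixedToPureAllDim`.
-/

open Matrix Complex Filter Topology
open UpperHalfPlane hiding I
open MW38 (Fl Tri blk dg MHS)
open ZQ38

namespace AD67

variable {ι : Type} [Fintype ι] [DecidableEq ι] {X : Type} {d : ℕ}

/-- `π` is a covering map with `s` sheets of the complement `{F ≠ 0}` of a hypersurface of `ℂ^d` -/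
structure IsCov {X : Type} [TopologicalSpace X] {d : ℕ} (F : MvPolynomial (Fin d) ℂ) (s : ℕ)
    (π : X → Fin d → ℂ) : Prop where
  ne : ∀ x, MvPolynomial.eval (π x) F ≠ 0
  cov : IsCoveringMapOn π {z | MvPolynomial.eval z F ≠ 0}
  sheets : ∀ z, MvPolynomial.eval z F ≠ 0 → (π ⁻¹' {z}).ncard = s
  fin : ∀ z, (π ⁻¹' {z}).Finite

/-- A variation of mixed Hodge structure on `X`: near `π x`, in the local coordinates `v ∈ ℂ^d` of
`X` at `x`, `Φ x v` is the matrix of a holomorphic frame adapted to the weight and Hodge filtrations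
in a flat basis near `x`. Holomorphic, Griffiths transversality. -/
structure VarX (wt p : ι → ℤ) (Q : Matrix ι ι ℚ) (π : X → Fin d → ℂ)
    (Φ : X → (Fin d → ℂ) → Matrix ι ι ℂ) : Prop where
  hol : ∀ x i j, AnalyticAt ℂ (fun v => Φ x v i j) (π x)
  mhs : ∀ x, ∀ᶠ v in 𝓝 (π x), MHS wt p (Q.map (algebraMap ℚ ℝ)) (Φ x v)
  tr : ∀ x, ∀ᶠ v in 𝓝 (π x), ∀ (k : Fin d) (j : ι),
    (fun i => fderiv ℂ (fun v => Φ x v i j) v (Pi.single k 1)) ∈ Fl p (Φ x v) (p j - 1)

/-- The Lie algebra of the Mumford-Tate group of a very general point near `y`: the smallest, over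
the neighbourhoods `O` of `y`, of the spans of the Lie algebras of the points of `O`. -/
noncomputable def genAt {Y : Type} [TopologicalSpace Y] (wt p : ι → ℤ) (Ψ : Y → Matrix ι ι ℂ)
    (y : Y) : Submodule ℚ (Matrix ι ι ℚ) := ⨅ O ∈ 𝓝 y, ⨆ v ∈ O, mtLie wt p (Ψ v)

/-- `γ` preserves the weight filtration and the polarizations of the graded pieces -/
def IsMon (wt : ι → ℤ) (Q γ : Matrix ι ι ℚ) : Prop :=
  IsUnit γ ∧ Tri wt γ ∧ ∀ k, (blk wt k k γ)ᵀ * blk wt k k Q * blk wt k k γ = blk wt k k Q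

/-- The flat bases at neighbouring points differ by rational matrices (local system over `ℚ`), the
frame is the same (global) one, and the sets `S x` correspond. -/
def IsLoc [TopologicalSpace X] (wt : ι → ℤ) (Q : Matrix ι ι ℚ) (π : X → Fin d → ℂ)
    (Φ : X → (Fin d → ℂ) → Matrix ι ι ℂ) (S : X → Finset (Submodule ℚ (Matrix ι ι ℚ))) : Prop :=
  ∀ x, ∀ᶠ x' in 𝓝 x, ∃ γ, IsMon wt Q γ ∧
    (∀ᶠ v in 𝓝 (π x'), Φ x' v = γ.map (algebraMap ℚ ℂ) * Φ x v) ∧
    ∀ n, n ∈ S x ↔ conjS γ n ∈ S x'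

/-- the size of a point of `{F ≠ 0}` -/
noncomputable def siz (F : MvPolynomial (Fin d) ℂ) (z : Fin d → ℂ) : ℝ :=
  1 + ‖z‖ + ‖MvPolynomial.eval z F‖⁻¹

/-- Moderate growth: the matrix of the frame in the flat basis at `x`, its inverse, and the operator
which multiplies the part of type `(a, b)` of the graded pieces by `a` (in the flat basis), are
polynomially bounded. -/
def ModGr (F : MvPolynomial (Fin d) ℂ) (wt p : ι → ℤ) (π : X → Fin d → ℂ)
    (Φ : X → (Fin d → ℂ) → Matrix ι ι ℂ) (c : ℕ) : Prop :=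
  ∃ C : ℝ, ∀ x, (∀ i j, ‖Φ x (π x) i j‖ ≤ C * siz F (π x) ^ c) ∧
    (∀ i j, ‖(Φ x (π x))⁻¹ i j‖ ≤ C * siz F (π x) ^ c) ∧
    ∀ A, IsOpP wt p (dg wt (Φ x (π x))) A → ∀ i j, ‖A i j‖ ≤ C * siz F (π x) ^ c

end AD67
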