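import Pool.Agent.LibAD67.UDef

/-!
Row W0: polynomially bounded matrix functions.

`sz c A` is the size of the period matrix `A`; `PBd c S e f` says that the entries of `f A` are at
most `C * sz c A ^ e` for `A ∈ S`.

PLAN. Routine: 1 ≤ sz; products and sums of bounds; a polynomial of degree ≤ n of an n x n matrix
function bounded with exponent e is bounded with exponent n * e (powers by induction, `Polynomial.aeval`
as the sum over the range natDegree + 1: `Polynomial.aeval_eq_sum_range'`, PBd.mono); determinant: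
`Matrix.det_apply`; adjugate: entries `det (updateRow ..)` (Matrix.adjugate_apply: the updated matrix
has entries bounded by exponent e: the entries 0, 1 also are, as 1 ≤ sz) with exponent card α * e.
-/

open Matrix Complex
open MW38 (Fl Tri blk dg)

namespace AD67

open ZQ38 AD19

variable {ι : Type} [Fintype ι] [DecidableEq ι] {wt p : ι → ℤ}

/-- the size of a period matrix -/
noncomputable def sz (c : Par wt p) (A : Matrix ι ι ℂ) : ℝ :=
  1 + ∑ i, ∑ j, (‖A i j‖ + ‖A⁻¹ i j‖ + ‖pg c A i j‖)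

/-- polynomially bounded -/
def PBd (c : Par wt p) (S : Set (Matrix ι ι ℂ)) (e : ℕ) {α β : Type}
    (f : Matrix ι ι ℂ → Matrix α β ℂ) : Prop :=
  ∃ C : ℝ, 0 ≤ C ∧ ∀ A ∈ S, ∀ i j, ‖f A i j‖ ≤ C * sz c A ^ e

variable {c : Par wt p} {S : Set (Matrix ι ι ℂ)} {e e' : ℕ} {α β γ : Type}

theorem one_le_sz (c : Par wt p) (A : Matrix ι ι ℂ) : 1 ≤ sz c A := by
  unfold sz
  have : 0 ≤ ∑ i, ∑ j, (‖A i j‖ + ‖A⁻¹ i j‖ + ‖pg c A i j‖) :=
    Finset.sum_nonneg fun i _ => Finset.sum_nonneg fun j _ => by positivity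
  linarith

theorem W0_le (c : Par wt p) (A : Matrix ι ι ℂ) (i j : ι) :
    ‖A i j‖ + ‖A⁻¹ i j‖ + ‖pg c A i j‖ ≤ sz c A := by
  unfold sz
  have h1 : ‖A i j‖ + ‖A⁻¹ i j‖ + ‖pg c A i j‖ ≤
      ∑ j, (‖A i j‖ + ‖A⁻¹ i j‖ + ‖pg c A i j‖) :=
    Finset.single_le_sum (f := fun j => ‖A i j‖ + ‖A⁻¹ i j‖ + ‖pg c A i j‖)
      (fun j _ => by positivity) (Finset.mem_univ j)
  have h2 : ∑ j, (‖A i j‖ + ‖A⁻¹ i j‖ + ‖pg c A i j‖) ≤
      ∑ i, ∑ j, (‖A i j‖ + ‖A⁻¹ i j‖ + ‖pg c A i j‖) :=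
    Finset.single_le_sum (f := fun i => ∑ j, (‖A i j‖ + ‖A⁻¹ i j‖ + ‖pg c A i j‖))
      (fun i _ => Finset.sum_nonneg fun j _ => by positivity) (Finset.mem_univ i)
  linarith

theorem W0_sz_nonneg (c : Par wt p) (A : Matrix ι ι ℂ) (e : ℕ) : 0 ≤ sz c A ^ e :=
  pow_nonneg (zero_le_one.trans (one_le_sz c A)) e

theorem W0_one_le_pow (c : Par wt p) (A : Matrix ι ι ℂ) (e : ℕ) : 1 ≤ sz c A ^ e :=
  one_le_pow₀ (one_le_sz c A)

theorem PBd.mono {f : Matrix ι ι ℂ → Matrix α β ℂ} (h : PBd c S e f) (he : e ≤ e') :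
    PBd c S e' f := by
  obtain ⟨C, hC, h⟩ := h
  exact ⟨C, hC, fun A hA i j => (h A hA i j).trans
    (mul_le_mul_of_nonneg_left (pow_le_pow_right₀ (one_le_sz c A) he) hC)⟩

theorem PBd.congr {f g : Matrix ι ι ℂ → Matrix α β ℂ} (h : PBd c S e f)
    (hfg : ∀ A ∈ S, f A = g A) : PBd c S e g := by
  obtain ⟨C, hC, h⟩ := h
  exact ⟨C, hC, fun A hA i j => by rw [← hfg A hA]; exact h A hA i j⟩

theorem PBd.const (B : Matrix α β ℂ) [Finite α] [Finite β] : PBd c S 0 (fun _ => B) := by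
  classical
  have := Fintype.ofFinite α
  have := Fintype.ofFinite β
  refine ⟨∑ i, ∑ j, ‖B i j‖, Finset.sum_nonneg fun i _ => Finset.sum_nonneg fun j _ =>
    norm_nonneg _, fun A _ i j => ?_⟩
  rw [pow_zero, mul_one]
  have h1 : ‖B i j‖ ≤ ∑ j, ‖B i j‖ :=
    Finset.single_le_sum (f := fun j => ‖B i j‖) (fun j _ => norm_nonneg _) (Finset.mem_univ j)
  have h2 : ∑ j, ‖B i j‖ ≤ ∑ i, ∑ j, ‖B i j‖ :=
    Finset.single_le_sum (f := fun i => ∑ j, ‖B i j‖)
      (fun i _ => Finset.sum_nonneg fun j _ => norm_nonneg _) (Finset.mem_univ i)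
  exact h1.trans h2

theorem PBd.id : PBd c S 1 (fun A => A) :=
  ⟨1, zero_le_one, fun A _ i j => by
    have := W0_le c A i j
    have := norm_nonneg (A⁻¹ i j)
    have := norm_nonneg (AD19.pg c A i j)
    rw [one_mul, pow_one]
    linarith⟩

theorem PBd.inv : PBd c S 1 (fun A => A⁻¹) :=
  ⟨1, zero_le_one, fun A _ i j => by
    have := W0_le c A i j
    have := norm_nonneg (A i j)
    have := norm_nonneg (AD19.pg c A i j)
    rw [one_mul, pow_one]
    linarith⟩

theorem PBd.pg : PBd c S 1 (pg c) :=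
  ⟨1, zero_le_one, fun A _ i j => by
    have := W0_le c A i j
    have := norm_nonneg (A i j)
    have := norm_nonneg (A⁻¹ i j)
    rw [one_mul, pow_one]
    linarith⟩

theorem PBd.add {f g : Matrix ι ι ℂ → Matrix α β ℂ} (h : PBd c S e f) (h' : PBd c S e g) :
    PBd c S e (fun A => f A + g A) := by
  obtain ⟨C, hC, h⟩ := h
  obtain ⟨C', hC', h'⟩ := h'
  refine ⟨C + C', add_nonneg hC hC', fun A hA i j => ?_⟩
  show ‖(f A + g A) i j‖ ≤ _
  rw [Matrix.add_apply, add_mul]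
  exact (norm_add_le _ _).trans (add_le_add (h A hA i j) (h' A hA i j))

theorem PBd.sub {f g : Matrix ι ι ℂ → Matrix α β ℂ} (h : PBd c S e f) (h' : PBd c S e g) :
    PBd c S e (fun A => f A - g A) := by
  obtain ⟨C, hC, h⟩ := h
  obtain ⟨C', hC', h'⟩ := h'
  refine ⟨C + C', add_nonneg hC hC', fun A hA i j => ?_⟩
  show ‖(f A - g A) i j‖ ≤ _
  rw [Matrix.sub_apply, add_mul]
  exact (norm_sub_le _ _).trans (add_le_add (h A hA i j) (h' A hA i j))

theorem PBd.smul (a : ℂ) {f : Matrix ι ι ℂ → Matrix α β ℂ} (h : PBd c S e f) :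
    PBd c S e (fun A => a • f A) := by
  obtain ⟨C, hC, h⟩ := h
  refine ⟨‖a‖ * C, by positivity, fun A hA i j => ?_⟩
  show ‖(a • f A) i j‖ ≤ _
  rw [Matrix.smul_apply, norm_smul, mul_assoc]
  exact mul_le_mul_of_nonneg_left (h A hA i j) (norm_nonneg a)

theorem PBd.mul [Fintype β] {f : Matrix ι ι ℂ → Matrix α β ℂ}
    {g : Matrix ι ι ℂ → Matrix β γ ℂ} (h : PBd c S e f) (h' : PBd c S e' g) :
    PBd c S (e + e') (fun A => f A * g A) := by
  obtain ⟨C, hC, h⟩ := h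
  obtain ⟨C', hC', h'⟩ := h'
  refine ⟨Fintype.card β * (C * C'), by positivity, fun A hA i j => ?_⟩
  show ‖(f A * g A) i j‖ ≤ _
  rw [Matrix.mul_apply]
  refine (norm_sum_le _ _).trans ?_
  have hk : ∀ k ∈ (Finset.univ : Finset β), ‖f A i k * g A k j‖ ≤
      (C * C') * sz c A ^ (e + e') := by
    intro k _
    rw [norm_mul, pow_add]
    have := mul_le_mul (h A hA i k) (h' A hA k j) (norm_nonneg _)
      (mul_nonneg hC (W0_sz_nonneg c A e))
    linarith
  refine (Finset.sum_le_sum hk).trans (le_of_eq ?_)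
  rw [Finset.sum_const, Finset.card_univ, nsmul_eq_mul]
  ring

theorem PBd.sum {κ : Type*} (s : Finset κ) {f : κ → Matrix ι ι ℂ → Matrix α β ℂ}
    (h : ∀ i ∈ s, PBd c S e (f i)) : PBd c S e (fun A => ∑ i ∈ s, f i A) := by
  classical
  induction s using Finset.induction_on with
  | empty =>
    refine ⟨0, le_rfl, fun A _ i j => ?_⟩
    show ‖(∑ i ∈ (∅ : Finset κ), f i A) i j‖ ≤ _
    rw [Finset.sum_empty, Matrix.zero_apply, norm_zero, zero_mul]
  | insert a s ha ih =>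
    have h1 := PBd.add (h a (Finset.mem_insert_self a s))
      (ih fun i hi => h i (Finset.mem_insert_of_mem hi))
    refine PBd.congr h1 fun A _ => ?_
    rw [Finset.sum_insert ha]

theorem PBd.conj {f : Matrix ι ι ℂ → Matrix α β ℂ} (h : PBd c S e f) :
    PBd c S e (fun A => (f A).map (starRingEnd ℂ)) := by
  obtain ⟨C, hC, h⟩ := h
  refine ⟨C, hC, fun A hA i j => ?_⟩
  show ‖((f A).map (starRingEnd ℂ)) i j‖ ≤ _
  rw [Matrix.map_apply, RCLike.norm_conj]
  exact h A hA i j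

theorem PBd.transpose {f : Matrix ι ι ℂ → Matrix α β ℂ} (h : PBd c S e f) :
    PBd c S e (fun A => (f A)ᵀ) := by
  obtain ⟨C, hC, h⟩ := h
  exact ⟨C, hC, fun A hA i j => h A hA j i⟩

theorem PBd.conjTranspose {f : Matrix ι ι ℂ → Matrix α β ℂ} (h : PBd c S e f) :
    PBd c S e (fun A => (f A)ᴴ) := by
  obtain ⟨C, hC, h⟩ := h
  refine ⟨C, hC, fun A hA i j => ?_⟩
  show ‖((f A)ᴴ) i j‖ ≤ _
  rw [Matrix.conjTranspose_apply, norm_star]
  exact h A hA j i

theorem PBd.submatrix {α' β' : Type} (r : α' → α) (q : β' → β)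
    {f : Matrix ι ι ℂ → Matrix α β ℂ} (h : PBd c S e f) :
    PBd c S e (fun A => (f A).submatrix r q) := by
  obtain ⟨C, hC, h⟩ := h
  exact ⟨C, hC, fun A hA i j => h A hA (r i) (q j)⟩

theorem PBd.dg {f : Matrix ι ι ℂ → Matrix ι ι ℂ} (h : PBd c S e f) :
    PBd c S e (fun A => dg wt (f A)) := by
  obtain ⟨C, hC, h⟩ := h
  refine ⟨C, hC, fun A hA i j => ?_⟩
  show ‖(if wt i = wt j then f A i j else 0)‖ ≤ _
  split_ifs
  · exact h A hA i j
  · rw [norm_zero]
    exact mul_nonneg hC (W0_sz_nonneg c A e)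

theorem W0_pow [Fintype α] [DecidableEq α] {f : Matrix ι ι ℂ → Matrix α α ℂ}
    (h : PBd c S e f) (k : ℕ) : PBd c S (k * e) (fun A => f A ^ k) := by
  induction k with
  | zero =>
    rw [Nat.zero_mul]
    simp only [pow_zero]
    exact PBd.const 1
  | succ k ih =>
    have h1 := PBd.mul ih h
    rw [Nat.succ_mul]
    simp only [pow_succ]
    exact h1

theorem PBd.aeval [Fintype α] [DecidableEq α] {f : Matrix ι ι ℂ → Matrix α α ℂ}
    (h : PBd c S e f) {q : Polynomial ℂ} {n : ℕ} (hq : q.natDegree ≤ n) :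
    PBd c S (n * e) (fun A => Polynomial.aeval (f A) q) := by
  have h1 : PBd c S (n * e) (fun A => ∑ k ∈ Finset.range (n + 1), q.coeff k • f A ^ k) := by
    apply PBd.sum
    intro k hk
    rw [Finset.mem_range] at hk
    exact PBd.mono (PBd.smul _ (W0_pow h k)) (Nat.mul_le_mul_right e (by omega))
  refine PBd.congr h1 fun A _ => ?_
  rw [Polynomial.aeval_eq_sum_range' (Nat.lt_succ_of_le hq)]

theorem PBd.det [Fintype α] [DecidableEq α] {f : Matrix ι ι ℂ → Matrix α α ℂ}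
    (h : PBd c S e f) : ∃ C : ℝ, 0 ≤ C ∧ ∀ A ∈ S, ‖(f A).det‖ ≤ C * sz c A ^ (Fintype.card α * e) := by
  obtain ⟨C, hC, h⟩ := h
  refine ⟨(Fintype.card α).factorial * C ^ Fintype.card α, by positivity, fun A hA => ?_⟩
  rw [Matrix.det_apply]
  refine (norm_sum_le _ _).trans ?_
  have hσ : ∀ σ ∈ (Finset.univ : Finset (Equiv.Perm α)),
      ‖Equiv.Perm.sign σ • ∏ i, f A (σ i) i‖ ≤ (C * sz c A ^ e) ^ Fintype.card α := by
    intro σ _
    have h1 : ‖Equiv.Perm.sign σ • ∏ i, f A (σ i) i‖ = ‖∏ i, f A (σ i) i‖ := by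
      rcases Int.units_eq_one_or (Equiv.Perm.sign σ) with hs | hs
      · rw [hs, one_smul]
      · rw [hs, Units.neg_smul, one_smul, norm_neg]
    rw [h1, norm_prod]
    refine (Finset.prod_le_prod (fun i _ => norm_nonneg _) fun i _ => h A hA (σ i) i).trans
      (le_of_eq ?_)
    rw [Finset.prod_const, Finset.card_univ]
  refine (Finset.sum_le_sum hσ).trans (le_of_eq ?_)
  rw [Finset.sum_const, Finset.card_univ, Fintype.card_perm, nsmul_eq_mul, mul_pow, ← pow_mul,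
    Nat.mul_comm e]
  ring

theorem PBd.adj [Fintype α] [DecidableEq α] {f : Matrix ι ι ℂ → Matrix α α ℂ}
    (h : PBd c S e f) : PBd c S (Fintype.card α * e) (fun A => (f A).adjugate) := by
  have h1 : ∀ i j : α, ∃ C : ℝ, 0 ≤ C ∧ ∀ A ∈ S,
      ‖((f A).updateRow j (Pi.single i 1)).det‖ ≤ C * sz c A ^ (Fintype.card α * e) := by
    intro i j
    apply PBd.det (f := fun A => (f A).updateRow j (Pi.single i 1))
    obtain ⟨C, hC, h⟩ := h
    refine ⟨C + 1, by positivity, fun A hA k l => ?_⟩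
    show ‖((f A).updateRow j (Pi.single i 1)) k l‖ ≤ _
    have hs := W0_one_le_pow c A e
    have hCs : 0 ≤ C * sz c A ^ e := mul_nonneg hC (W0_sz_nonneg c A e)
    by_cases hk : k = j
    · subst hk
      rw [Matrix.updateRow_self]
      have : ‖(Pi.single i (1 : ℂ) : α → ℂ) l‖ ≤ 1 := by
        rw [Pi.single_apply]
        split_ifs <;> simp
      linarith
    · rw [Matrix.updateRow_ne hk]
      have := h A hA k l
      linarith
  choose C hC0 hC using h1
  refine ⟨∑ i, ∑ j, C i j, Finset.sum_nonneg fun i _ => Finset.sum_nonneg fun j _ => hC0 i j,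
    fun A hA i j => ?_⟩
  show ‖((f A).adjugate) i j‖ ≤ _
  rw [Matrix.adjugate_apply]
  refine (hC i j A hA).trans (mul_le_mul_of_nonneg_right ?_ (W0_sz_nonneg c A _))
  have h1 : C i j ≤ ∑ j, C i j :=
    Finset.single_le_sum (f := fun j => C i j) (fun j _ => hC0 i j) (Finset.mem_univ j)
  have h2 : ∑ j, C i j ≤ ∑ i, ∑ j, C i j :=
    Finset.single_le_sum (f := fun i => ∑ j, C i j)
      (fun i _ => Finset.sum_nonneg fun j _ => hC0 i j) (Finset.mem_univ i)
  exact h1.trans h2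

end AD67
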