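import Pool.Agent.LibAD67.W0
import Pool.Agent.LibAD67.U4

/-!
Row W1: the Hodge projectors are polynomially bounded.

S = {A | MHS wt p (Q.map (algebraMap ℚ ℝ)) A} everywhere.

PLAN. P_poly: for a ∈ Icc (-K) K take the Lagrange polynomial q with q(a) = 1, q(b) = 0 for the other
b ∈ Icc (-K) K, natDegree ≤ 2K (`Lagrange.basis (Finset.Icc (-K) K) (fun b => (b : ℂ)) a`,
`Lagrange.degree_basis`, card = 2K+1): aeval (PG K P) q = aeval (∑ b • P b) q = ∑ q(b) • P b
(B06_PG_mul: PG * P b = b • P b, so aeval PG q * P b = q(b) • P b; sum over b with hP.sum) = P a. For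
other a: q = 0 and P a = 0 (supp).
P_bd: P_poly, PBd.aeval PBd.pg, PBd.congr (pg c A = PG c.K (PPg wt p c.s A) by rfl, exists_GrP).
Fa_bd: finite sum. FB_bd: submatrix of dg. LB_bd: `(dg wt A)⁻¹ = dg wt A⁻¹` (MW38.Col_dg_inv; MHS gives
unit, tri), PBd.inv, PBd.dg, submatrix.
-/

open Matrix Complex
open MW38 (Fl Tri blk dg)

namespace AD67

open ZQ38 AD19

variable {ι : Type} [Fintype ι] [DecidableEq ι] {wt p : ι → ℤ} {c : Par wt p}
  {Q : Matrix ι ι ℚ}

/-- all graded-polarized mixed Hodge structures -/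
def SQ (wt p : ι → ℤ) (Q : Matrix ι ι ℚ) : Set (Matrix ι ι ℂ) :=
  {A | MW38.MHS wt p (Q.map (algebraMap ℚ ℝ)) A}

private theorem W1_pow {K : ℕ} {A : Matrix ι ι ℂ} {P : ℤ → Matrix ι ι ℂ} (hP : GrP wt p K A P)
    (b : ℤ) (n : ℕ) : PG K P ^ n * P b = ((b : ℂ) ^ n) • P b := by
  induction n with
  | zero => rw [pow_zero, one_mul, pow_zero, one_smul]
  | succ n ih =>
    rw [pow_succ, Matrix.mul_assoc, B06_PG_mul hP, Matrix.mul_smul, ih, smul_smul, pow_succ,
      mul_comm]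

private theorem W1_aeval {K : ℕ} {A : Matrix ι ι ℂ} {P : ℤ → Matrix ι ι ℂ} (hP : GrP wt p K A P)
    (b : ℤ) (q : Polynomial ℂ) :
    Polynomial.aeval (PG K P) q * P b = (q.eval (b : ℂ)) • P b := by
  induction q using Polynomial.induction_on' with
  | add q r hq hr => rw [map_add, add_mul, hq, hr, Polynomial.eval_add, add_smul]
  | monomial n c =>
    rw [Polynomial.aeval_monomial, Polynomial.eval_monomial, Matrix.mul_assoc, W1_pow hP,
      Matrix.mul_smul, ← Algebra.smul_def, smul_smul, mul_comm]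

private theorem W1_sum {K : ℕ} {A : Matrix ι ι ℂ} {P : ℤ → Matrix ι ι ℂ} (hP : GrP wt p K A P)
    (q : Polynomial ℂ) : Polynomial.aeval (PG K P) q =
      ∑ b ∈ Finset.Icc (-(K : ℤ)) K, (q.eval (b : ℂ)) • P b := by
  calc Polynomial.aeval (PG K P) q = Polynomial.aeval (PG K P) q * 1 := (mul_one _).symm
    _ = Polynomial.aeval (PG K P) q * ∑ b ∈ Finset.Icc (-(K : ℤ)) K, P b := by rw [hP.sum]
    _ = _ := by
        rw [Finset.mul_sum]
        exact Finset.sum_congr rfl fun b _ => W1_aeval hP b q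

theorem P_poly (K : ℕ) (a : ℤ) : ∃ q : Polynomial ℂ, q.natDegree ≤ 2 * K ∧
    ∀ (A : Matrix ι ι ℂ) (P : ℤ → Matrix ι ι ℂ), GrP wt p K A P →
      P a = Polynomial.aeval (PG K P) q := by
  by_cases ha : a ∈ Finset.Icc (-(K : ℤ)) K
  · have hinj : Set.InjOn (fun b : ℤ => (b : ℂ)) (Finset.Icc (-(K : ℤ)) K : Finset ℤ) :=
      fun x _ y _ hxy => Int.cast_injective hxy
    refine ⟨Lagrange.basis (Finset.Icc (-(K : ℤ)) K) (fun b : ℤ => (b : ℂ)) a, ?_, ?_⟩
    · refine Polynomial.natDegree_le_of_degree_le ?_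
      rw [Lagrange.degree_basis hinj ha, Int.card_Icc]
      have : ((K : ℤ) + 1 - -(K : ℤ)).toNat - 1 = 2 * K := by omega
      rw [this]
    · intro A P hP
      rw [W1_sum hP, Finset.sum_eq_single_of_mem a ha]
      · rw [show ((a : ℤ) : ℂ) = (fun b : ℤ => (b : ℂ)) a from rfl,
          Lagrange.eval_basis_self hinj ha, one_smul]
      · intro b hb hba
        rw [show ((b : ℤ) : ℂ) = (fun b : ℤ => (b : ℂ)) b from rfl,
          Lagrange.eval_basis_of_ne (Ne.symm hba) hb, zero_smul]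
  · refine ⟨0, by simp, fun A P hP => ?_⟩
    rw [map_zero]
    apply hP.supp
    rw [Finset.mem_Icc, not_and_or, not_le, not_le] at ha
    rw [lt_abs]
    omega

theorem P_bd (c : Par wt p) (Q : Matrix ι ι ℚ) (a : ℤ) :
    PBd c (SQ wt p Q) (2 * c.K) (fun A => PPg wt p c.s A a) := by
  obtain ⟨q, hq, hq'⟩ := P_poly (wt := wt) (p := p) c.K a
  refine ((PBd.pg.aeval hq).mono (by rw [mul_one])).congr fun A hA => ?_
  exact (hq' A _ (exists_GrP hA c.hs c.hK)).symm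

theorem Pge_bd (c : Par wt p) (Q : Matrix ι ι ℚ) (a : ℤ) :
    PBd c (SQ wt p Q) (2 * c.K) (fun A => Pge c.K (PPg wt p c.s A) a) ∧
    PBd c (SQ wt p Q) (2 * c.K) (fun A => Pls c.K (PPg wt p c.s A) a) :=
  ⟨PBd.sum _ (f := fun b A => PPg wt p c.s A b) fun b _ => P_bd c Q b,
    PBd.sum _ (f := fun b A => PPg wt p c.s A b) fun b _ => P_bd c Q b⟩

theorem dgi_bd (c : Par wt p) (Q : Matrix ι ι ℚ) :
    PBd c (SQ wt p Q) 1 (fun A => (dg wt A)⁻¹) :=
  (PBd.dg PBd.inv).congr fun A hA =>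
    (MW38.Col_dg_inv (show MW38.MHS wt p (Q.map (algebraMap ℚ ℝ)) A from hA).unit
      (show MW38.MHS wt p (Q.map (algebraMap ℚ ℝ)) A from hA).tri).symm

theorem LB_bd (c : Par wt p) (Q : Matrix ι ι ℚ) (a : ℤ) :
    PBd c (SQ wt p Q) 1 (fun A => LB wt p a A) :=
  PBd.submatrix (fun j : {j // a ≤ p j} => (j : ι)) (fun i : ι => i) (dgi_bd c Q)

end AD67
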