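import Pool.Agent.LibAD67.W1

/-!
Row W1b: upper bound of the potential.

PLAN. gi_bd: gram_inv (with `ZW67.polG hA c.hs c.hK`): the inverse of the transposed gram matrix is
LB * Pge * const * conj(LB)ᵀ: exponent 1 + 2K + 0 + 1.
upt_le: for every a: det (gramᵀ⁻¹) = (det gram)⁻¹, ‖..‖ ≤ C sz ^ (card {j // a ≤ p j} * (2K+2)) (PBd.det), so
- log ‖det gram‖ ≤ log C' + card ι * (2K+2) * log sz (C' ≥ 1; card subtype ≤ card ι, log sz ≥ 0); sum
over the 2K+1 values of a.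
-/

open Matrix Complex
open MW38 (Fl Tri blk dg)

namespace AD67

open ZQ38 AD19

variable {ι : Type} [Fintype ι] [DecidableEq ι] {wt p : ι → ℤ} {c : Par wt p}
  {Q : Matrix ι ι ℚ}

theorem gi_bd (c : Par wt p) (Q : Matrix ι ι ℚ) (a : ℤ) :
    PBd c (SQ wt p Q) (2 * c.K + 2) (fun A => ((gram (GQ wt Q) (FB wt p a A))ᵀ)⁻¹) := by
  have h1 : PBd c (SQ wt p Q) 0
      (fun _ => ((SP38.cm (dgR wt (Q.map (algebraMap ℚ ℝ))))ᵀ)⁻¹) := PBd.const _
  have h2 := (((LB_bd c Q a).mul (Pge_bd c Q a).1).mul h1).mul (LB_bd c Q a).conj.transpose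
  refine (h2.mono (by omega)).congr fun A hA => ?_
  exact ((gram_inv (ZW67.polG hA c.hs c.hK) a).2).symm

theorem upt_le (c : Par wt p) (Q : Matrix ι ι ℚ) : ∃ C : ℝ, ∀ A ∈ SQ wt p Q,
    upt c Q A ≤ C + ((2 * c.K + 1) * (Fintype.card ι * (2 * c.K + 2)) : ℕ) *
      Real.log (sz c A) := by
  have key : ∀ a : ℤ, ∃ C : ℝ, ∀ A ∈ SQ wt p Q,
      -Real.log ‖(gram (GQ wt Q) (FB wt p a A)).det‖ ≤ C + ((Fintype.card ι * (2 * c.K + 2) : ℕ) : ℝ) *
        Real.log (sz c A) := by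
    intro a
    obtain ⟨C, hC0, hC⟩ := (gi_bd c Q a).det
    refine ⟨Real.log (C + 1), fun A hA => ?_⟩
    have hu := (gram_inv (ZW67.polG hA c.hs c.hK) a).1
    have hu' : IsUnit (gram (GQ wt Q) (FB wt p a A)).det := hu
    have hne : ‖(gram (GQ wt Q) (FB wt p a A)).det‖ ≠ 0 := norm_ne_zero_iff.2 hu'.ne_zero
    have h1 := hC A hA
    have h2 : (((gram (GQ wt Q) (FB wt p a A))ᵀ)⁻¹).det = ((gram (GQ wt Q) (FB wt p a A)).det)⁻¹ := by
      rw [Matrix.det_nonsing_inv, Matrix.det_transpose, Ring.inverse_eq_inv']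
    rw [h2, norm_inv] at h1
    have hsz : 1 ≤ sz c A := one_le_sz c A
    have hsz0 : 0 < sz c A := by linarith
    have hcard : Fintype.card {j // a ≤ p j} * (2 * c.K + 2) ≤ Fintype.card ι * (2 * c.K + 2) :=
      Nat.mul_le_mul_right _ (Fintype.card_subtype_le _)
    have h3 : ‖(gram (GQ wt Q) (FB wt p a A)).det‖⁻¹ ≤
        (C + 1) * sz c A ^ (Fintype.card ι * (2 * c.K + 2)) := by
      refine h1.trans ?_
      refine mul_le_mul (by linarith) (pow_le_pow_right₀ hsz hcard) (by positivity) (by linarith)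
    have h4 : 0 < ‖(gram (GQ wt Q) (FB wt p a A)).det‖⁻¹ := by positivity
    have h5 := Real.log_le_log h4 h3
    rw [Real.log_inv, Real.log_mul (by linarith) (by positivity), Real.log_pow] at h5
    exact h5
  choose C hC using key
  refine ⟨∑ a ∈ Finset.Icc (-(c.K : ℤ)) c.K, C a, fun A hA => ?_⟩
  unfold upt
  rw [← Finset.sum_neg_distrib]
  have hcard : (Finset.Icc (-(c.K : ℤ)) c.K).card = 2 * c.K + 1 := by
    rw [Int.card_Icc]
    omega
  calc _ ≤ ∑ a ∈ Finset.Icc (-(c.K : ℤ)) c.K, (C a + ((Fintype.card ι * (2 * c.K + 2) : ℕ) : ℝ) *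
        Real.log (sz c A)) := Finset.sum_le_sum fun a _ => hC a A hA
    _ = _ := by
      rw [Finset.sum_add_distrib, Finset.sum_const, hcard, nsmul_eq_mul]
      push_cast
      ring

end AD67
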