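import Pool.Agent.LibAD67.W1

/-!
Row W2: `h` is polynomially bounded.

eh c = (J + 2) (2K + 2), N = card ι.

PLAN. Lm_bd: Lm wt A = A * (dg wt A)⁻¹ (1 + 1). Lmb_bd: Lm wt (bar A) = bar (Lm wt A) (B12c_Lm_bar).
Dd_bd by induction on k: Dd 0 = (Lm - Lm') * P a * Ewt: 2 + 2K + 0; Dd (k+1) adds at most 2 + 2K
(PBd.mono for the other term): exponent (k+1) (2K+2). Hd_bd: for range J: ≤ (J+1) (2K+2).
hh_bd: finite sum.
-/

open Matrix Complex
open MW38 (Fl Tri blk dg)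

namespace AD67

open ZQ38 AD19

variable {ι : Type} [Fintype ι] [DecidableEq ι] {wt p : ι → ℤ} {c : Par wt p}
  {Q : Matrix ι ι ℚ}

/-- the exponent of `h` -/
def eh (c : Par wt p) : ℕ := (c.J + 2) * (2 * c.K + 2)

theorem Lm_bd (c : Par wt p) (Q : Matrix ι ι ℚ) : PBd c (SQ wt p Q) 2 (fun A => Lm wt A) ∧
    PBd c (SQ wt p Q) 2 (fun A => Lm wt (bar A)) := by
  have h1 : PBd c (SQ wt p Q) (1 + 1) (fun A => Lm wt A) := PBd.mul PBd.id (dgi_bd c Q)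
  refine ⟨h1, PBd.congr (PBd.conj h1) fun A hA => ?_⟩
  show bar (Lm wt A) = Lm wt (bar A)
  rw [B12c_Lm_bar hA.unit hA.tri]

theorem W2_step (c : Par wt p) (Q : Matrix ι ι ℚ) (a l : ℤ) (k : ℕ)
    (h : PBd c (SQ wt p Q) ((k + 1) * (2 * c.K + 2))
      (fun A => Dd wt c.K A (PPg wt p c.s A) a l k)) (b : ℤ) :
    PBd c (SQ wt p Q) ((k + 2) * (2 * c.K + 2)) (fun A => Lm wt A *
      Pge c.K (PPg wt p c.s A) a * Ewt wt b * Dd wt c.K A (PPg wt p c.s A) a l k) ∧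
    PBd c (SQ wt p Q) ((k + 2) * (2 * c.K + 2)) (fun A => Lm wt (bar A) *
      Pls c.K (PPg wt p c.s A) a * Ewt wt b * Dd wt c.K A (PPg wt p c.s A) a l k) := by
  have he : 2 + 2 * c.K + 0 + (k + 1) * (2 * c.K + 2) ≤ (k + 2) * (2 * c.K + 2) := by
    have : (k + 2) * (2 * c.K + 2) = (k + 1) * (2 * c.K + 2) + (2 * c.K + 2) := by ring
    omega
  exact ⟨(PBd.mul (PBd.mul (PBd.mul (Lm_bd c Q).1 (Pge_bd c Q a).1) (PBd.const _)) h).mono he,
    (PBd.mul (PBd.mul (PBd.mul (Lm_bd c Q).2 (Pge_bd c Q a).2) (PBd.const _)) h).mono he⟩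

theorem Dd_bd (c : Par wt p) (Q : Matrix ι ι ℚ) (a l : ℤ) (k : ℕ) :
    PBd c (SQ wt p Q) ((k + 1) * (2 * c.K + 2))
      (fun A => Dd wt c.K A (PPg wt p c.s A) a l k) := by
  induction k with
  | zero =>
    have h1 : PBd c (SQ wt p Q) (2 + 2 * c.K + 0) (fun A => (Lm wt A - Lm wt (bar A)) *
        PPg wt p c.s A a * Ewt wt l) :=
      PBd.mul (PBd.mul (PBd.sub (Lm_bd c Q).1 (Lm_bd c Q).2) (P_bd c Q a)) (PBd.const _)
    exact h1.mono (by omega)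
  | succ k ih =>
    have h1 := W2_step c Q a l k ih (l - (k + 1))
    have he : (k + 1) * (2 * c.K + 2) ≤ (k + 2) * (2 * c.K + 2) :=
      Nat.mul_le_mul_right _ (by omega)
    exact PBd.sub (PBd.sub (ih.mono he) h1.1) h1.2

theorem W2_Hd (c : Par wt p) (Q : Matrix ι ι ℚ) (a l : ℤ) :
    PBd c (SQ wt p Q) (eh c) (fun A => Hd wt c.K A (PPg wt p c.s A) c.J a l) := by
  have h1 : PBd c (SQ wt p Q) (2 + 2 * c.K + 0) (fun A => Lm wt A *
      PPg wt p c.s A a * Ewt wt l) :=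
    PBd.mul (PBd.mul (Lm_bd c Q).1 (P_bd c Q a)) (PBd.const _)
  have he : 2 + 2 * c.K + 0 ≤ eh c := by
    have : 1 * (2 * c.K + 2) ≤ (c.J + 2) * (2 * c.K + 2) := Nat.mul_le_mul_right _ (by omega)
    unfold eh
    omega
  refine PBd.sub (h1.mono he) (PBd.sum _ fun j hj => ?_)
  refine (W2_step c Q a l j (Dd_bd c Q a l j) (l - (j + 1))).1.mono ?_
  rw [Finset.mem_range] at hj
  exact Nat.mul_le_mul_right _ (by omega)

theorem hh_bd (c : Par wt p) (Q : Matrix ι ι ℚ) : PBd c (SQ wt p Q) (eh c) (hh c) :=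
  PBd.sum _ fun a _ => PBd.sum _ fun l _ => W2_Hd c Q a l

end AD67
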