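import Pool.Agent.LibAD67.W2

/-!
Row W2b: the inverse of `h` and the metric are polynomially bounded.

PLAN. hhi_bd: hh is unipotent: (HH_delH (exists_GrP ..) c.hJ).un, det = 1 (see the proof of
Un.isUnit in LibZQ38/B04b.lean, or Matrix.BlockTriangular.det), so hh⁻¹ = adjugate hh (Matrix.inv_def), PBd.adj.
MM_bd: MM = (cm ..)ᵀ * ((∑ (I^(2a)) • P a) * diagonal). MMi_bd: MM⁻¹ = CC⁻¹ * ((cm ..)ᵀ)⁻¹ and CC⁻¹ =
diagonal (I ^ (wt i)) * ∑ (I^(-2a)) • P a (hP.mul, hP.sum).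
-/

open Matrix Complex
open MW38 (Fl Tri blk dg)

namespace AD67

open ZQ38 AD19

variable {ι : Type} [Fintype ι] [DecidableEq ι] {wt p : ι → ℤ} {c : Par wt p}
  {Q : Matrix ι ι ℚ}

private theorem W2b_det {g : Matrix ι ι ℂ} (hg : Un wt g) : g.det = 1 := by
  have hb : g.BlockTriangular wt := by
    intro i j hij
    rw [hg i j (le_of_lt hij), if_neg]
    rintro rfl
    exact lt_irrefl _ hij
  rw [hb.det]
  refine Finset.prod_eq_one fun a _ => ?_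
  have h1 : g.toSquareBlock wt a = 1 := by
    ext ⟨i, hi⟩ ⟨j, hj⟩
    rw [Matrix.toSquareBlock_def, Matrix.of_apply, hg i j (by rw [hi, hj]), Matrix.one_apply]
    simp
  rw [h1, Matrix.det_one]

private theorem W2b_sum {K : ℕ} {A : Matrix ι ι ℂ} {P : ℤ → Matrix ι ι ℂ} (h : GrP wt p K A P) :
    (∑ a ∈ Finset.Icc (-(K : ℤ)) K, (I ^ (2 * a)) • P a) *
      (∑ a ∈ Finset.Icc (-(K : ℤ)) K, (I ^ (-(2 * a))) • P a) = 1 := by
  rw [Finset.sum_mul, ← h.sum]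
  refine Finset.sum_congr rfl fun a ha => ?_
  rw [Finset.mul_sum, Finset.sum_eq_single a]
  · rw [smul_mul_assoc, mul_smul_comm, smul_smul, h.mul, if_pos rfl, ← zpow_add₀ I_ne_zero]
    simp
  · intro b _ hb
    rw [smul_mul_assoc, mul_smul_comm, h.mul, if_neg (Ne.symm hb)]
    simp
  · intro h'
    exact absurd ha h'

theorem hh_facts (c : Par wt p) {A : Matrix ι ι ℂ} (hA : A ∈ SQ wt p Q) :
    Un wt (hh c A) ∧ (hh c A).det = 1 ∧ DelH wt p A (PPg wt p c.s A) (hh c A) := by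
  have hG : GrP wt p c.K A (PPg wt p c.s A) := exists_GrP hA c.hs c.hK
  have hD : DelH wt p A (PPg wt p c.s A) (hh c A) := HH_delH hG c.hJ
  exact ⟨hD.un, W2b_det hD.un, hD⟩

theorem hhi_bd (c : Par wt p) (Q : Matrix ι ι ℚ) :
    PBd c (SQ wt p Q) (Fintype.card ι * eh c) (fun A => (hh c A)⁻¹) := by
  refine (hh_bd c Q).adj.congr fun A hA => ?_
  rw [Matrix.inv_def, (hh_facts c hA).2.1, Ring.inverse_one, one_smul]

theorem MM_bd (c : Par wt p) (Q : Matrix ι ι ℚ) : PBd c (SQ wt p Q) (2 * c.K)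
    (fun A => ZW67.MM wt c.K (Q.map (algebraMap ℚ ℝ)) (PPg wt p c.s A)) := by
  have h1 : PBd c (SQ wt p Q) (2 * c.K)
      (fun A => ∑ a ∈ Finset.Icc (-(c.K : ℤ)) c.K, (I ^ (2 * a)) • PPg wt p c.s A a) :=
    PBd.sum _ fun a _ => (P_bd c Q a).smul _
  have h2 : PBd c (SQ wt p Q) 0 (fun _ => Matrix.diagonal fun i : ι => I ^ (-wt i)) :=
    PBd.const _
  have h3 : PBd c (SQ wt p Q) 0
      (fun _ => (SP38.cm (dgR wt (Q.map (algebraMap ℚ ℝ))))ᵀ) := PBd.const _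
  exact (h3.mul (h1.mul h2)).mono (by omega)

theorem MMi_bd (c : Par wt p) (Q : Matrix ι ι ℚ) : PBd c (SQ wt p Q) (2 * c.K)
    (fun A => (ZW67.MM wt c.K (Q.map (algebraMap ℚ ℝ)) (PPg wt p c.s A))⁻¹) := by
  have h1 : PBd c (SQ wt p Q) (2 * c.K)
      (fun A => ∑ a ∈ Finset.Icc (-(c.K : ℤ)) c.K, (I ^ (-(2 * a))) • PPg wt p c.s A a) :=
    PBd.sum _ fun a _ => (P_bd c Q a).smul _
  have h2 : PBd c (SQ wt p Q) 0 (fun _ => (Matrix.diagonal fun i : ι => I ^ (-wt i))⁻¹) :=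
    PBd.const _
  have h3 : PBd c (SQ wt p Q) 0
      (fun _ => ((SP38.cm (dgR wt (Q.map (algebraMap ℚ ℝ))))ᵀ)⁻¹) := PBd.const _
  refine (((h2.mul h1).mul h3).mono (by omega)).congr fun A hA => ?_
  have hG : GrP wt p c.K A (PPg wt p c.s A) := exists_GrP hA c.hs c.hK
  rw [ZW67.MM, Matrix.mul_inv_rev, ZW67.CC, Matrix.mul_inv_rev,
    Matrix.inv_eq_right_inv (W2b_sum hG)]

end AD67
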