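import Pool.Agent.LibAD67.W5
import Pool.Agent.LibAD19.N3

/-!
Row W5b: the Hodge metric of `𝔲 / 𝔫` is the restriction of the one of the graded pieces.

Notation: M = ZW67.MM wt c.K (Q.map ..) (PPg wt p c.s A), D = Dp c P A, j = P.d.j, w = P.d.w.

PLAN. jC_D: `ZW67.JE.jC_D` (je = X67_je P.d, pt_op (N3), (HH ..).un): jC j (D *ᵥ v) = [pg, jC j v].
For v_a = LP (2K) D a *ᵥ v: D *ᵥ v_a = a • v_a (`ZW67.LP_left` with pt_poly), so jC j v_a has type a and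
weight w (JE.jC_wt), and `ZW67.PolG.QE_eq` (polG hA c.hs c.hK) gives
hE M (jC j v_a) (jC j v) = I^(2a-w) * QE (cm Q) (jC j v_a) ((jC j v).map conj)
= I^(2a-w) * bil QJ v_a (cj v) (ZW67.jC_bar, ZW67.bil_QJ). Sum over a ∈ Icc (-2K) (2K) (∑ v_a = v: LP_sum;
hE_add_left / a sum version): hE M (jC j v) (jC j v) = ∑ I^(2a-w) bil QJ v_a (cj v)
= star v ⬝ᵥ (metr .. *ᵥ v) (metr = ∑ I^(2a-w) • (cm QJᵀ * P a); P.QW = QJ by X67_QJ, rfl).
qf_Rm: H = pt_hd (N3). metr M' is positive definite (H.posDef), Rm is idempotent and self-adjoint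
(US38.Rm_Rm, US38.adj_Rm): qf M' v = qf M' (Rm v) + qf M' (v - Rm v) ≥ qf M' (Rm v).
-/

open Matrix Complex
open MW38 (Fl Tri blk dg)

namespace AD67

open ZQ38 AD19

variable {ι : Type} [Fintype ι] [DecidableEq ι] {wt p : ι → ℤ} {c : Par wt p}
  {Q : Matrix ι ι ℚ} {m n : Submodule ℚ (Matrix ι ι ℚ)} {A : Matrix ι ι ℂ}

theorem W5b_sum {κ : Type*} (s : Finset κ) {M B : Matrix ι ι ℂ} (f : κ → Matrix ι ι ℂ) :
    hE M (∑ a ∈ s, f a) B = ∑ a ∈ s, hE M (f a) B := by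
  simp only [hE, Matrix.mul_sum, Matrix.trace_sum]

theorem qf_hE (hA : MW38.MHS wt p (Q.map (algebraMap ℚ ℝ)) A) (hlie : IsLie m)
    (htri : ∀ B ∈ m, Tri wt B) (hm : mtLie wt p A ≤ m) (P : Pk wt Q m n) (v : Fin P.d.r → ℂ) :
    SP38.qf (SP38.metr P.d.w (2 * c.K) P.QW (fun a => ZW67.LP (2 * c.K) (Dp c P A) a)) v =
      (hE (ZW67.MM wt c.K (Q.map (algebraMap ℚ ℝ)) (PPg wt p c.s A)) (ZW67.jC P.d.j v)
        (ZW67.jC P.d.j v)).re := by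
  obtain ⟨hgr, hdel, hoP, -⟩ := pt_op (c := c) hA hm
  have hpol := ZW67.polG hA c.hs c.hK
  have je := X67_je P.d
  have hD : ∀ v, ZW67.jC P.d.j (Dp c P A *ᵥ v) =
      PG c.K (PPg wt p c.s A) * ZW67.jC P.d.j v - ZW67.jC P.d.j v * PG c.K (PPg wt p c.s A) :=
    fun v => je.jC_D hgr hdel.un hoP v
  have hp := (pt_poly (c := c) hA hlie htri hm P).1
  have H := pt_hd (c := c) hA hlie htri hm P
  have key : ∀ a : ℤ, I ^ (2 * a - P.d.w) *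
      SP38.bil P.QW (ZW67.LP (2 * c.K) (Dp c P A) a *ᵥ v)
        (SP38.cj (ZW67.LP (2 * c.K) (Dp c P A) a *ᵥ v)) =
      hE (ZW67.MM wt c.K (Q.map (algebraMap ℚ ℝ)) (PPg wt p c.s A))
        (ZW67.jC P.d.j (ZW67.LP (2 * c.K) (Dp c P A) a *ᵥ v)) (ZW67.jC P.d.j v) := by
    intro a
    rw [← H.hd1_bil_piece a v v]
    have h1 : PG c.K (PPg wt p c.s A) *
        ZW67.jC P.d.j (ZW67.LP (2 * c.K) (Dp c P A) a *ᵥ v) -
        ZW67.jC P.d.j (ZW67.LP (2 * c.K) (Dp c P A) a *ᵥ v) * PG c.K (PPg wt p c.s A) =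
        (a : ℂ) • ZW67.jC P.d.j (ZW67.LP (2 * c.K) (Dp c P A) a *ᵥ v) := by
      rw [← hD, Matrix.mulVec_mulVec, ZW67.LP_left hp, Matrix.smul_mulVec, ZW67.jC_smul]
    rw [hE, ← hpol.QE_eq (B := ZW67.jC P.d.j v) (je.jC_wt _) h1, ZW67.jC_bar, ← ZW67.bil_QJ]
    rfl
  rw [SP38.qf, H.hd1_form]
  congr 1
  rw [Finset.sum_congr rfl fun a _ => key a, ← W5b_sum, ← ZW67.jC_sum, ← Matrix.sum_mulVec,
    ZW67.LP_sum, Matrix.one_mulVec]

theorem qf_Rm (hA : MW38.MHS wt p (Q.map (algebraMap ℚ ℝ)) A) (hlie : IsLie m)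
    (htri : ∀ B ∈ m, Tri wt B) (hm : mtLie wt p A ≤ m) (P : Pk wt Q m n) (v : Fin P.d.r → ℂ) :
    SP38.qf (SP38.metr P.d.w (2 * c.K) P.QW (fun a => ZW67.LP (2 * c.K) (Dp c P A) a))
      (US38.Rm P.d.w (fun a => ZW67.LP (2 * c.K) (Dp c P A) a) *ᵥ v) ≤
    SP38.qf (SP38.metr P.d.w (2 * c.K) P.QW (fun a => ZW67.LP (2 * c.K) (Dp c P A) a)) v := by
  have H := pt_hd (c := c) hA hlie htri hm P
  rw [H.qf_sum, H.qf_sum v]
  refine Finset.sum_le_sum fun a _ => ?_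
  rw [Matrix.mulVec_mulVec, (US38.Rm_P H a).2]
  split_ifs with h1
  · exact le_rfl
  · rw [Matrix.zero_mulVec]
    have h2 : SP38.qf (SP38.metr P.d.w (2 * c.K) P.QW
        (fun a => ZW67.LP (2 * c.K) (Dp c P A) a)) 0 = 0 := by
      simp [SP38.qf]
    rw [h2]
    exact SP38.qf_nonneg H.posDef _

end AD67
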