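import Pool.Agent.LibAD67.U6b
import Pool.Agent.LibAD67.W5b
import Pool.Agent.LibAD19.N3

/-!
Row W3: the energy density of `𝔲 / 𝔫` is at most a constant times the one of the graded pieces.

PLAN. je: `ZW67.JE` from X67_je P.d. At z write X = DZ (fun z => Dp c P (Ψ z)) z, θ = DZ (pg c Ψ) z,
M = metr P.d.w (2K) P.QW (LP (Dp ..)), v ∈ ℂ^r.
jC_DZ: for all z' ∈ D: jC j (Dp c P (Ψ z') *ᵥ v) = pg * jC j v - jC j v * pg (`ZW67.JE.jC_D` with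
pt_op (N3), hh unipotent); take DZ (jC j is linear: entries of jC j (x z) are finite sums ∑ x_a(z) c_a;
DZ of pg * const - const * pg): jC j (X *ᵥ v) = θ * jC j v - jC j v * θ.
qf_hE (row W5b): qf M v = (hE .. (jC j v) (jC j v)).re. hE_br (row W5): hE of the commutator
[θ, B] is at most 4 hE θ hE B. So qf M (X *ᵥ v) ≤ 4 * EG * qf M v (EG c Q Ψ z = (hE θ θ).re by rfl), and
`SP38.hs_le_of_qf` gives Ef = hs M X ≤ r * (4 * EG). r ≤ (card ι)^2: P.d.j is an injective linear map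
(Fin r → ℚ) → Matrix ι ι ℚ (X67_je P.d).inj, LinearMap.finrank_le_finrank_of_injective,
Module.finrank_matrix). EG ≥ 0 (EG_nonneg).
-/

open Matrix Complex Filter Topology
open MW38 (Fl Tri blk dg)
open scoped ContDiff

namespace AD67

open ZQ38 AD19

variable {ι : Type} [Fintype ι] [DecidableEq ι] {wt p : ι → ℤ} {c : Par wt p}
  {Q : Matrix ι ι ℚ} {Ω : Set ℂ} {Ψ : ℂ → Matrix ι ι ℂ} {z : ℂ}
  {m n : Submodule ℚ (Matrix ι ι ℚ)}

theorem W3_dz_sum {κ : Type*} (s : Finset κ) (a : κ → ℂ) {f : κ → ℂ → ℂ} {z : ℂ}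
    (h : ∀ k ∈ s, DifferentiableAt ℝ (f k) z) :
    SP38.dz (fun z => ∑ k ∈ s, a k * f k z) z = ∑ k ∈ s, a k * SP38.dz (f k) z := by
  rw [SP38.WirtM_dz_sum (f := fun k z => a k * f k z) s
    (fun k hk => (differentiableAt_const (a k)).mul (h k hk))]
  exact Finset.sum_congr rfl fun k hk => SP38.WirtM_dz_smul (a k) (h k hk)

theorem W3_dz_congr {f g : ℂ → ℂ} (h : f =ᶠ[𝓝 z] g) : SP38.dz f z = SP38.dz g z := by
  simp only [SP38.dz]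
  rw [h.fderiv_eq]

theorem W3_jC {r : ℕ} (j : (Fin r → ℚ) →ₗ[ℚ] Matrix ι ι ℚ) (X : Matrix (Fin r) (Fin r) ℂ)
    (v : Fin r → ℂ) (i k : ι) :
    ZW67.jC j (X *ᵥ v) i k = ∑ x : Fin r × Fin r,
      (v x.2 * ((j (Pi.single x.1 1)).map (algebraMap ℚ ℂ)) i k) * X x.1 x.2 := by
  rw [Fintype.sum_prod_type]
  simp only [ZW67.jC, Matrix.sum_apply, Matrix.smul_apply, smul_eq_mul, Matrix.mulVec, dotProduct]
  refine Finset.sum_congr rfl fun a _ => ?_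
  rw [Finset.sum_mul]
  refine Finset.sum_congr rfl fun b _ => ?_
  ring

theorem W3_com (X J : Matrix ι ι ℂ) (i k : ι) :
    (X * J - J * X) i k = (∑ l, J l k * X i l) - ∑ l, J i l * X l k := by
  rw [Matrix.sub_apply, Matrix.mul_apply, Matrix.mul_apply]
  rw [show (∑ l, X i l * J l k) = ∑ l, J l k * X i l from
    Finset.sum_congr rfl fun l _ => mul_comm _ _]

theorem W3_pg (hv : VE wt p Q Ω Ψ) : AnE Ω (fun z => pg c (Ψ z)) := by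
  have h : AnE Ω (fun z => ∑ a ∈ Finset.Icc (-(c.K : ℤ)) c.K, (a : ℂ) • PPg wt p c.s (Ψ z) a) :=
    AnE.sum _ fun a _ => AnE.smul _ (hv.anP a)
  exact h

theorem r_le (P : Pk wt Q m n) : (P.d.r : ℝ) ≤ (Fintype.card ι : ℝ) ^ 2 := by
  have h1 : Module.finrank ℚ (Fin P.d.r → ℚ) ≤ Module.finrank ℚ (Matrix ι ι ℚ) :=
    LinearMap.finrank_le_finrank_of_injective (X67_je P.d).inj
  rw [Module.finrank_fin_fun, Module.finrank_matrix, Module.finrank_self, mul_one] at h1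
  have h2 : (P.d.r : ℝ) ≤ ((Fintype.card ι * Fintype.card ι : ℕ) : ℝ) := by exact_mod_cast h1
  rw [Nat.cast_mul] at h2
  rw [sq]
  exact h2

theorem jC_DZ (hΩ : IsOpen Ω) (hv : VE wt p Q Ω Ψ) (hlie : IsLie m)
    (htri : ∀ B ∈ m, Tri wt B) (hm : ∀ z ∈ Ω, mtLie wt p (Ψ z) ≤ m) (P : Pk wt Q m n)
    (hz : z ∈ Ω) (v : Fin P.d.r → ℂ) :
    ZW67.jC P.d.j (SP38.DZ (fun z => Dp c P (Ψ z)) z *ᵥ v) =
      SP38.DZ (fun z => pg c (Ψ z)) z * ZW67.jC P.d.j v -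
        ZW67.jC P.d.j v * SP38.DZ (fun z => pg c (Ψ z)) z := by
  have hD : ∀ a b, DifferentiableAt ℝ (fun z => Dp c P (Ψ z) a b) z := fun a b =>
    (hv.anD (c := c) P a b z hz).differentiableAt
  have hg : ∀ a b, DifferentiableAt ℝ (fun z => pg c (Ψ z) a b) z := fun a b =>
    (W3_pg (c := c) hv a b z hz).differentiableAt
  have h1 : ∀ z' ∈ Ω, ZW67.jC P.d.j (Dp c P (Ψ z') *ᵥ v) =
      pg c (Ψ z') * ZW67.jC P.d.j v - ZW67.jC P.d.j v * pg c (Ψ z') := by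
    intro z' hz'
    obtain ⟨g1, g2, g3, g4⟩ := pt_op (c := c) (hv.mhs z' hz') (hm z' hz')
    exact (X67_je P.d).jC_D g1 g2.un g3 v
  ext i k
  rw [W3_jC, W3_com]
  have h2 : (fun z' => ∑ x : Fin P.d.r × Fin P.d.r,
      (v x.2 * ((P.d.j (Pi.single x.1 1)).map (algebraMap ℚ ℂ)) i k) * Dp c P (Ψ z') x.1 x.2)
      =ᶠ[𝓝 z] fun z' => (∑ l, ZW67.jC P.d.j v l k * pg c (Ψ z') i l) -
        ∑ l, ZW67.jC P.d.j v i l * pg c (Ψ z') l k := by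
    filter_upwards [hΩ.mem_nhds hz] with z' hz'
    rw [← W3_jC, ← W3_com, h1 z' hz']
  have h3 := W3_dz_congr h2
  have e1 : SP38.dz (fun z' => ∑ x : Fin P.d.r × Fin P.d.r,
      (v x.2 * ((P.d.j (Pi.single x.1 1)).map (algebraMap ℚ ℂ)) i k) * Dp c P (Ψ z') x.1 x.2) z =
      ∑ x : Fin P.d.r × Fin P.d.r,
      (v x.2 * ((P.d.j (Pi.single x.1 1)).map (algebraMap ℚ ℂ)) i k) *
        SP38.dz (fun z' => Dp c P (Ψ z') x.1 x.2) z :=
    W3_dz_sum _ _ (fun x _ => hD x.1 x.2)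
  have e2 : SP38.dz (fun z' => ∑ l, ZW67.jC P.d.j v l k * pg c (Ψ z') i l) z =
      ∑ l, ZW67.jC P.d.j v l k * SP38.dz (fun z' => pg c (Ψ z') i l) z :=
    W3_dz_sum _ _ (fun l _ => hg i l)
  have e3 : SP38.dz (fun z' => ∑ l, ZW67.jC P.d.j v i l * pg c (Ψ z') l k) z =
      ∑ l, ZW67.jC P.d.j v i l * SP38.dz (fun z' => pg c (Ψ z') l k) z :=
    W3_dz_sum _ _ (fun l _ => hg l k)
  have e4 : SP38.dz (fun z' => (∑ l, ZW67.jC P.d.j v l k * pg c (Ψ z') i l) -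
        ∑ l, ZW67.jC P.d.j v i l * pg c (Ψ z') l k) z =
      SP38.dz (fun z' => ∑ l, ZW67.jC P.d.j v l k * pg c (Ψ z') i l) z -
        SP38.dz (fun z' => ∑ l, ZW67.jC P.d.j v i l * pg c (Ψ z') l k) z :=
    SP38.WirtM_dz_sub
      (DifferentiableAt.fun_sum fun l _ => (differentiableAt_const _).mul (hg i l))
      (DifferentiableAt.fun_sum fun l _ => (differentiableAt_const _).mul (hg l k))
  rw [e1, e4, e2, e3] at h3
  exact h3

theorem Ef_le (hΩ : IsOpen Ω) (hv : VE wt p Q Ω Ψ) (hlie : IsLie m)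
    (htri : ∀ B ∈ m, Tri wt B) (hm : ∀ z ∈ Ω, mtLie wt p (Ψ z) ≤ m) (P : Pk wt Q m n)
    (hz : z ∈ Ω) : Ef c P Ψ z ≤ 4 * (Fintype.card ι : ℝ) ^ 2 * EG c Q Ψ z := by
  have hA := hv.mhs z hz
  have hMp := (pt_hd (c := c) hA hlie htri (hm z hz) P).posDef
  have hMM := (ZW67.polG hA c.hs c.hK).posDef
  have h1 : ∀ v, SP38.qf
      (SP38.metr P.d.w (2 * c.K) P.QW (fun a => ZW67.LP (2 * c.K) (Dp c P (Ψ z)) a))
      (SP38.DZ (fun z => Dp c P (Ψ z)) z *ᵥ v) ≤ (4 * EG c Q Ψ z) * SP38.qf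
      (SP38.metr P.d.w (2 * c.K) P.QW (fun a => ZW67.LP (2 * c.K) (Dp c P (Ψ z)) a)) v := by
    intro v
    rw [qf_hE (c := c) hA hlie htri (hm z hz) P v,
      qf_hE (c := c) hA hlie htri (hm z hz) P (SP38.DZ (fun z => Dp c P (Ψ z)) z *ᵥ v),
      jC_DZ hΩ hv hlie htri hm P hz v]
    exact hE_br hMM
  have h2 : Ef c P Ψ z ≤ P.d.r * (4 * EG c Q Ψ z) := SP38.hs_le_of_qf hMp _ h1
  have h3 := r_le P
  have h4 : 0 ≤ EG c Q Ψ z := EG_nonneg hΩ hv hz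
  calc Ef c P Ψ z ≤ P.d.r * (4 * EG c Q Ψ z) := h2
    _ ≤ (Fintype.card ι : ℝ) ^ 2 * (4 * EG c Q Ψ z) :=
      mul_le_mul_of_nonneg_right h3 (by linarith)
    _ = 4 * (Fintype.card ι : ℝ) ^ 2 * EG c Q Ψ z := by ring

end AD67
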