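import Pool.Agent.LibAD67.UDef

/-!
Row W5: the hermitian form on the endomorphisms of the graded pieces.

`hE M A B = tr (M⁻¹ Bᴴ M A)` for a positive definite matrix `M`.

PLAN. M = Rᴴ * R with R invertible (`ZW67.exists_sqrt`). Then hE M A B = tr ((R B R⁻¹)ᴴ (R A R⁻¹))
(see the proof of ZW67.PolG.QE_pos). hE_comm: conjugate transpose of the trace. hE_nonneg. hE_pyth:
expand hE (A + B) (A + B), the cross terms are hE A B = 0 and hE B A = conj (hE A B) = 0.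
hE_br: with t = R θ R⁻¹, b = R B R⁻¹: ‖t b - b t‖_F ≤ 2 ‖t‖_F ‖b‖_F, ‖x‖_F² = re tr (xᴴ x) = ∑ |x_ij|²;
submultiplicativity by Cauchy-Schwarz (or Matrix.frobenius norm: `Matrix.frobenius_nnnorm_mul`,
local instance Matrix.frobeniusNormedRing).
-/

open Matrix Complex
open MW38 (Fl Tri blk dg)
open scoped ComplexOrder

namespace AD67

variable {ι : Type} [Fintype ι] [DecidableEq ι]

/-- the hermitian form -/
noncomputable def hE (M A B : Matrix ι ι ℂ) : ℂ := Matrix.trace (M⁻¹ * Bᴴ * M * A)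

variable {M A A' B : Matrix ι ι ℂ}

theorem hE_add_left : hE M (A + A') B = hE M A B + hE M A' B := by
  unfold hE
  rw [Matrix.mul_add, Matrix.trace_add]

theorem hE_smul_left (a : ℂ) : hE M (a • A) B = a * hE M A B := by
  unfold hE
  rw [Matrix.mul_smul, Matrix.trace_smul, smul_eq_mul]

theorem W5_sqrt {M : Matrix ι ι ℂ} (hM : M.PosDef) :
    ∃ R : Matrix ι ι ℂ, IsUnit R ∧ M = Rᴴ * R := by
  open scoped MatrixOrder in
  obtain ⟨R, hR⟩ := CStarAlgebra.nonneg_iff_eq_star_mul_self.mp hM.posSemidef.nonneg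
  refine ⟨R, ?_, hR⟩
  have h1 := hM.isUnit
  rw [Matrix.isUnit_iff_isUnit_det] at h1 ⊢
  rw [hR, Matrix.det_mul] at h1
  exact isUnit_of_mul_isUnit_right h1

theorem W5_key {M : Matrix ι ι ℂ} (hM : M.PosDef) : ∃ R : Matrix ι ι ℂ, R⁻¹ * R = 1 ∧
    ∀ A B : Matrix ι ι ℂ, hE M A B = Matrix.trace ((R * B * R⁻¹)ᴴ * (R * A * R⁻¹)) := by
  obtain ⟨R, hR, hRR⟩ := W5_sqrt hM
  have hRd := (Matrix.isUnit_iff_isUnit_det _).1 hR
  refine ⟨R, Matrix.nonsing_inv_mul _ hRd, fun A B => ?_⟩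
  unfold hE
  rw [hRR, Matrix.mul_inv_rev, Matrix.conjTranspose_mul, Matrix.conjTranspose_mul,
    Matrix.conjTranspose_nonsing_inv]
  have e2 : R⁻¹ * (Rᴴ)⁻¹ * Bᴴ * (Rᴴ * R) * A = R⁻¹ * ((Rᴴ)⁻¹ * Bᴴ * Rᴴ * R * A) := by
    simp only [Matrix.mul_assoc]
  rw [e2, Matrix.trace_mul_comm]
  refine congrArg Matrix.trace ?_
  simp only [Matrix.mul_assoc]

theorem hE_comm (hM : M.PosDef) : hE M B A = (starRingEnd ℂ) (hE M A B) := by
  obtain ⟨R, -, h⟩ := W5_key hM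
  rw [h, h]
  show _ = star (Matrix.trace ((R * B * R⁻¹)ᴴ * (R * A * R⁻¹)))
  rw [← Matrix.trace_conjTranspose]
  refine congrArg Matrix.trace ?_
  rw [Matrix.conjTranspose_mul (R * B * R⁻¹)ᴴ, Matrix.conjTranspose_conjTranspose]

theorem hE_nonneg (hM : M.PosDef) : 0 ≤ (hE M A A).re ∧ (hE M A A).im = 0 := by
  obtain ⟨R, -, h⟩ := W5_key hM
  have h1 : 0 ≤ hE M A A := by
    rw [h]
    exact (Matrix.posSemidef_conjTranspose_mul_self (R * A * R⁻¹)).trace_nonneg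
  rw [Complex.le_def] at h1
  exact ⟨h1.1, h1.2.symm⟩

theorem W5_add_right : hE M A (B + A') = hE M A B + hE M A A' := by
  unfold hE
  rw [Matrix.conjTranspose_add, Matrix.mul_add, Matrix.add_mul, Matrix.add_mul, Matrix.trace_add]

/-- Pythagoras -/
theorem hE_pyth (hM : M.PosDef) (h : hE M A B = 0) :
    (hE M B B).re ≤ (hE M (A + B) (A + B)).re := by
  have h1 : hE M B A = 0 := by rw [hE_comm hM, h, map_zero]
  rw [hE_add_left, W5_add_right, W5_add_right, h, h1, add_zero, zero_add, Complex.add_re]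
  have h2 := (hE_nonneg (A := A) hM).1
  linarith

omit [DecidableEq ι] in
theorem W5_F (X : Matrix ι ι ℂ) : (Matrix.trace (Xᴴ * X)).re = ∑ i, ∑ j, ‖X i j‖ ^ 2 := by
  rw [Matrix.trace, Complex.re_sum, Finset.sum_comm]
  refine Finset.sum_congr rfl fun j _ => ?_
  rw [Matrix.diag_apply, Matrix.mul_apply, Complex.re_sum]
  refine Finset.sum_congr rfl fun i _ => ?_
  rw [Matrix.conjTranspose_apply, Complex.sq_norm, Complex.normSq_apply, Complex.mul_re]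
  show (X i j).re * (X i j).re - (-(X i j).im) * (X i j).im = _
  ring

omit [DecidableEq ι] in
theorem W5_mul (X Y : Matrix ι ι ℂ) : ∑ i, ∑ j, ‖(X * Y) i j‖ ^ 2 ≤
    (∑ i, ∑ j, ‖X i j‖ ^ 2) * ∑ i, ∑ j, ‖Y i j‖ ^ 2 := by
  have h1 : ∀ i j, ‖(X * Y) i j‖ ^ 2 ≤ (∑ k, ‖X i k‖ ^ 2) * ∑ k, ‖Y k j‖ ^ 2 := by
    intro i j
    have h2 : ‖(X * Y) i j‖ ≤ ∑ k, ‖X i k‖ * ‖Y k j‖ := by
      rw [Matrix.mul_apply]
      refine (norm_sum_le _ _).trans (le_of_eq ?_)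
      exact Finset.sum_congr rfl fun k _ => norm_mul _ _
    exact (pow_le_pow_left₀ (norm_nonneg _) h2 2).trans
      (Finset.sum_mul_sq_le_sq_mul_sq _ _ _)
  refine (Finset.sum_le_sum fun i _ => Finset.sum_le_sum fun j _ => h1 i j).trans (le_of_eq ?_)
  rw [Finset.sum_comm (f := fun i j => ‖Y i j‖ ^ 2), Finset.sum_mul_sum]

omit [DecidableEq ι] in
theorem W5_sub (X Y : Matrix ι ι ℂ) : ∑ i, ∑ j, ‖(X - Y) i j‖ ^ 2 ≤
    2 * (∑ i, ∑ j, ‖X i j‖ ^ 2) + 2 * ∑ i, ∑ j, ‖Y i j‖ ^ 2 := by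
  rw [Finset.mul_sum, Finset.mul_sum, ← Finset.sum_add_distrib]
  refine Finset.sum_le_sum fun i _ => ?_
  rw [Finset.mul_sum, Finset.mul_sum, ← Finset.sum_add_distrib]
  refine Finset.sum_le_sum fun j _ => ?_
  have h1 : ‖(X - Y) i j‖ ≤ ‖X i j‖ + ‖Y i j‖ := norm_sub_le _ _
  have h2 := pow_le_pow_left₀ (norm_nonneg _) h1 2
  nlinarith [sq_nonneg (‖X i j‖ - ‖Y i j‖)]

/-- the norm of a commutator -/
theorem hE_br (hM : M.PosDef) :
    (hE M (A * B - B * A) (A * B - B * A)).re ≤ 4 * (hE M A A).re * (hE M B B).re := by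
  obtain ⟨R, hR, h⟩ := W5_key hM
  have h1 : ∀ P Q : Matrix ι ι ℂ, R * (P * Q) * R⁻¹ = (R * P * R⁻¹) * (R * Q * R⁻¹) := by
    intro P Q
    calc R * (P * Q) * R⁻¹ = R * P * 1 * Q * R⁻¹ := by
          rw [Matrix.mul_one]
          simp only [Matrix.mul_assoc]
      _ = (R * P * R⁻¹) * (R * Q * R⁻¹) := by
          rw [← hR]
          simp only [Matrix.mul_assoc]
  have h2 : R * (A * B - B * A) * R⁻¹ = (R * A * R⁻¹) * (R * B * R⁻¹) -
      (R * B * R⁻¹) * (R * A * R⁻¹) := by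
    rw [Matrix.mul_sub, Matrix.sub_mul, h1, h1]
  rw [h, h, h, h2, W5_F, W5_F, W5_F]
  have h3 := W5_sub ((R * A * R⁻¹) * (R * B * R⁻¹)) ((R * B * R⁻¹) * (R * A * R⁻¹))
  have h4 := W5_mul (R * A * R⁻¹) (R * B * R⁻¹)
  have h5 := W5_mul (R * B * R⁻¹) (R * A * R⁻¹)
  nlinarith

end AD67
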