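import Pool.Agent.LibAD67.UDef
import Pool.Agent.LibAD19.N3

/-!
Row W6: the class of `Im Y` in `𝔲 / 𝔫`, where `Y = h Dwt h⁻¹`.

Notation: h = hh c A, u = m ⊓ Low ℚ wt, w = P.d.w, lam = P.d.lam, WW = ZL19.WW, Y = h Dwt h⁻¹.

PLAN. Y = oP + oQ ∈ cx m (oP_add_oQ, pt_op (N3)); bar Y ∈ cx m (cx is stable under conjugation: mem_cx_iff or
span_induction; ZL19.cjm_mem). Y - Dwt ∈ Low ℂ (Y_sub_Dwt), the same for bar Y, so ImY ∈ Low ℂ wt = cx (Low ℚ wt)
(cx_low), and cx_inf: ImY_mem.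
imv_ep: ep = lamC lam (Y - t₀), lamC is ℂ-linear (W1_lam, lamC_sub / lamC_smul in LibZQ38/W1.lean) and
commutes with conjugation (entries of lam are rational): cj (ep) = lamC lam (bar Y - t₀), so
imv (ep) = (2I)⁻¹ • (ep - cj ep) = lamC lam (ImY) (US38.del_imv).
syC_zet: h is unipotent and zet has exact weight w: the entries of h * zet * h⁻¹ with wt i - wt k = w are those of zet.
-/

open Matrix Complex
open MW38 (Fl Tri blk dg)

namespace AD67

open ZQ38 AD19

variable {ι : Type} [Fintype ι] [DecidableEq ι] {wt p : ι → ℤ} {c : Par wt p}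
  {Q : Matrix ι ι ℚ} {m n : Submodule ℚ (Matrix ι ι ℚ)} {A : Matrix ι ι ℂ}

/-- the imaginary part of the grading `Y` -/
noncomputable def ImY (c : Par wt p) (A : Matrix ι ι ℂ) : Matrix ι ι ℂ :=
  (2 * I)⁻¹ • (hh c A * Dwt wt * (hh c A)⁻¹ - bar (hh c A * Dwt wt * (hh c A)⁻¹))

/-- the part of weight `w` -/
def syC (wt : ι → ℤ) (w : ℤ) (X : Matrix ι ι ℂ) : Matrix ι ι ℂ :=
  fun i k => if wt i - wt k = w then X i k else 0

/-- the part of weight `w` of `h⁻¹ (Im Y) h` -/
noncomputable def zet (c : Par wt p) (w : ℤ) (A : Matrix ι ι ℂ) : Matrix ι ι ℂ :=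
  syC wt w ((hh c A)⁻¹ * ImY c A * hh c A)

private theorem W6_un_inv {g : Matrix ι ι ℂ} (hg : Un wt g) : Un wt g⁻¹ := by
  have hu : IsUnit g := Un.isUnit hg
  have hdet : IsUnit g.det := (Matrix.isUnit_iff_isUnit_det g).1 hu
  have ht : Tri wt g := B06_un_tri hg
  have hti : Tri wt g⁻¹ := ht.inv hu
  intro i j hij
  have h1 : (g * g⁻¹) i j = (1 : Matrix ι ι ℂ) i j := by rw [Matrix.mul_nonsing_inv _ hdet]
  rw [Matrix.mul_apply, Finset.sum_eq_single i, hg i i le_rfl, if_pos rfl, one_mul,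
    Matrix.one_apply] at h1
  · exact h1
  · intro k _ hk
    rcases le_or_gt (wt k) (wt i) with h | h
    · rw [hg i k h, if_neg (Ne.symm hk), zero_mul]
    · rw [hti k j (by omega), mul_zero]
  · intro h
    exact absurd (Finset.mem_univ i) h

theorem ImY_mem (hA : MW38.MHS wt p (Q.map (algebraMap ℚ ℝ)) A)
    (hm : mtLie wt p A ≤ m) : ImY c A ∈ cx (m ⊓ Low ℚ wt) := by
  obtain ⟨-, hD, hP, hQ⟩ := pt_op (c := c) hA hm
  have hY : hh c A * Dwt wt * (hh c A)⁻¹ ∈ cx m := by
    rw [← oP_add_oQ (wt := wt) (hh c A) c.K (PPg wt p c.s A)]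
    exact Submodule.add_mem _ hP hQ
  have hb := bar_mem_cx hY
  rw [cx_inf, cx_low]
  refine ⟨Submodule.smul_mem _ _ (Submodule.sub_mem _ hY hb), Submodule.smul_mem _ _ ?_⟩
  have h1 := Y_sub_Dwt hD.un
  intro i j hij
  have h2 := h1 i j hij
  rw [Matrix.sub_apply, sub_eq_zero] at h2
  have h3 : bar (hh c A * Dwt wt * (hh c A)⁻¹) i j =
      (starRingEnd ℂ) ((hh c A * Dwt wt * (hh c A)⁻¹) i j) := rfl
  have h4 : (starRingEnd ℂ) (Dwt wt i j) = Dwt wt i j := by
    rw [Dwt, Matrix.diagonal_apply]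
    split_ifs
    · exact map_intCast _ _
    · exact map_zero _
  rw [Matrix.sub_apply, h3, h2, h4, sub_self]

theorem imv_ep (P : Pk wt Q m n) : US38.imv (ep c P A) = lamC P.d.lam (ImY c A) := by
  funext t
  have h1 : ep c P A t = lamC P.d.lam (hh c A * Dwt wt * (hh c A)⁻¹) t -
      ((P.d.lam P.t₀ t : ℚ) : ℂ) := by
    unfold ep
    rw [lamC_sub, lamC_rat, Pi.sub_apply]
  have h2 : lamC P.d.lam (ImY c A) t = (2 * I)⁻¹ *
      (lamC P.d.lam (hh c A * Dwt wt * (hh c A)⁻¹) t -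
        (starRingEnd ℂ) (lamC P.d.lam (hh c A * Dwt wt * (hh c A)⁻¹) t)) := by
    unfold ImY
    rw [lamC_smul, lamC_sub, lamC_bar, Pi.smul_apply, Pi.sub_apply, smul_eq_mul]
  rw [h2, US38.imv, h1, Complex.sub_im, Complex.sub_conj]
  have h3 : (((P.d.lam P.t₀ t : ℚ) : ℂ)).im = 0 := Complex.ratCast_im _
  rw [h3, sub_zero]
  have h4 : (2 * I : ℂ) ≠ 0 := mul_ne_zero two_ne_zero I_ne_zero
  field_simp
  push_cast
  ring

theorem syC_zet (hA : MW38.MHS wt p (Q.map (algebraMap ℚ ℝ)) A) (w : ℤ) :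
    syC wt w (hh c A * zet c w A * (hh c A)⁻¹) = zet c w A := by
  have hG : GrP wt p c.K A (PPg wt p c.s A) := exists_GrP hA c.hs c.hK
  have hD : DelH wt p A (PPg wt p c.s A) (hh c A) := HH_delH hG c.hJ
  have hun := hD.un
  have hun' := W6_un_inv hun
  have hz : ∀ a b, wt a - wt b ≠ w → zet c w A a b = 0 := by
    intro a b hab
    unfold zet syC
    rw [if_neg hab]
  ext i k
  unfold syC
  by_cases hik : wt i - wt k = w
  · rw [if_pos hik, Matrix.mul_apply, Finset.sum_eq_single k]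
    · rw [hun' k k le_rfl, if_pos rfl, mul_one, Matrix.mul_apply, Finset.sum_eq_single i]
      · rw [hun i i le_rfl, if_pos rfl, one_mul]
      · intro a _ ha
        rcases le_or_gt (wt a) (wt i) with h | h
        · rw [hun i a h, if_neg (Ne.symm ha), zero_mul]
        · rw [hz a k (by omega), mul_zero]
      · intro h
        exact absurd (Finset.mem_univ i) h
    · intro b _ hb
      rcases le_or_gt (wt k) (wt b) with h | h
      · rw [hun' b k h, if_neg hb, mul_zero]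
      · rw [Matrix.mul_apply, Finset.sum_eq_zero, zero_mul]
        intro a _
        rcases le_or_gt (wt a) (wt i) with h' | h'
        · rw [hun i a h']
          by_cases hia : i = a
          · subst hia
            rw [hz i b (by omega), mul_zero]
          · rw [if_neg hia, zero_mul]
        · rw [hz a b (by omega), mul_zero]
    · intro h
      exact absurd (Finset.mem_univ k) h
  · rw [if_neg hik, hz i k hik]

end AD67
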