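import Pool.Agent.LibAD67.W6
import Pool.Agent.LibAD67.W5b

/-!
Row W6b: the embedding `j` of `𝔲 / 𝔫` is the orthogonal complement of `𝔫`, over `ℂ`.

Notation: u = m ⊓ Low ℚ wt, w = P.d.w, j = P.d.j, lam = P.d.lam, WW = ZL19.WW,
M = ZW67.MM wt c.K (Q.map ..) (PPg wt p c.s A).

PLAN. symC: span_induction on X ∈ cx (u ⊓ WW w): for rational X use JD.sym (P.d.jd.sym), `symb` and `syC` of
X.map agree, `ZW67.jC_rat`, lamC of a rational matrix (lamC_rat in LibZQ38/W1.lean); sums and multiples are clear.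
perpC: the same from JD.perp, bilinear in both arguments (ZW67.QE_add_left etc., ZW67.jC_decomp, ZW67.QE_map,
ZW67.cm_map; ZQ38.QE and ZW67.QE over ℚ agree by rfl).
-/

open Matrix Complex
open MW38 (Fl Tri blk dg)

namespace AD67

open ZQ38 AD19

variable {ι : Type} [Fintype ι] [DecidableEq ι] {wt p : ι → ℤ} {c : Par wt p}
  {Q : Matrix ι ι ℚ} {m n : Submodule ℚ (Matrix ι ι ℚ)} {A : Matrix ι ι ℂ}

theorem W6b_add (w : ℤ) (A B : Matrix ι ι ℂ) : syC wt w (A + B) = syC wt w A + syC wt w B := by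
  ext i k
  simp only [syC, Matrix.add_apply]
  split_ifs
  · rfl
  · rw [add_zero]

theorem W6b_smul (w : ℤ) (a : ℂ) (A : Matrix ι ι ℂ) : syC wt w (a • A) = a • syC wt w A := by
  ext i k
  simp only [syC, Matrix.smul_apply, smul_eq_mul]
  split_ifs
  · rfl
  · rw [mul_zero]

theorem W6b_zero (w : ℤ) : syC wt w (0 : Matrix ι ι ℂ) = 0 := by
  ext i k
  simp only [syC, Matrix.zero_apply, ite_self]

theorem W6b_rat (w : ℤ) (x : Matrix ι ι ℚ) :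
    syC wt w (x.map (algebraMap ℚ ℂ)) = (symb wt w x).map (algebraMap ℚ ℂ) := by
  ext i k
  rw [Matrix.map_apply]
  unfold syC symb
  split_ifs
  · rfl
  · rw [map_zero]

theorem W6b_lamC_zero {r : ℕ} (lam : Matrix ι ι ℚ →ₗ[ℚ] (Fin r → ℚ)) :
    lamC lam (0 : Matrix ι ι ℂ) = 0 := by
  have h1 := lamC_smul (lam := lam) 0 (0 : Matrix ι ι ℂ)
  rwa [zero_smul, zero_smul] at h1

theorem symC (P : Pk wt Q m n) {X : Matrix ι ι ℂ}
    (hX : X ∈ cx ((m ⊓ Low ℚ wt) ⊓ ZL19.WW wt P.d.w)) :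
    ∃ Y ∈ cx (n ⊓ ZL19.WW wt P.d.w),
      syC wt P.d.w X - ZW67.jC P.d.j (lamC P.d.lam X) = syC wt P.d.w Y := by
  refine Submodule.span_induction (p := fun X _ => ∃ Y ∈ cx (n ⊓ ZL19.WW wt P.d.w),
      syC wt P.d.w X - ZW67.jC P.d.j (lamC P.d.lam X) = syC wt P.d.w Y) ?_ ?_ ?_ ?_ hX
  · rintro _ ⟨x, hx, rfl⟩
    obtain ⟨y, hy, hyw, hyx⟩ := P.d.jd.sym x hx.1 hx.2
    refine ⟨y.map (algebraMap ℚ ℂ), mem_cx_of_mem (Submodule.mem_inf.2 ⟨hy, hyw⟩), ?_⟩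
    show syC wt P.d.w (x.map (algebraMap ℚ ℂ)) -
      ZW67.jC P.d.j (lamC P.d.lam (x.map (algebraMap ℚ ℂ))) = syC wt P.d.w (y.map (algebraMap ℚ ℂ))
    rw [W6b_rat, W6b_rat, lamC_rat, ZW67.jC_rat, ← hyx]
    ext i k
    simp only [Matrix.sub_apply, Matrix.map_apply, map_sub]
  · refine ⟨0, Submodule.zero_mem _, ?_⟩
    rw [W6b_zero, W6b_lamC_zero, ZW67.jC_zero, sub_zero]
  · rintro X₁ X₂ - - ⟨Y₁, h₁, e₁⟩ ⟨Y₂, h₂, e₂⟩
    refine ⟨Y₁ + Y₂, Submodule.add_mem _ h₁ h₂, ?_⟩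
    rw [W6b_add, W6b_add, lamC_add, ZW67.jC_add, ← e₁, ← e₂]
    abel
  · rintro a X₁ - ⟨Y₁, h₁, e₁⟩
    refine ⟨a • Y₁, Submodule.smul_mem _ _ h₁, ?_⟩
    rw [W6b_smul, W6b_smul, lamC_smul, ZW67.jC_smul, ← e₁, smul_sub]

theorem perpC (P : Pk wt Q m n) {Y : Matrix ι ι ℂ} (hY : Y ∈ cx (n ⊓ ZL19.WW wt P.d.w))
    (v : Fin P.d.r → ℂ) :
    ZW67.QE wt (SP38.cm (Q.map (algebraMap ℚ ℝ))) (syC wt P.d.w Y) (ZW67.jC P.d.j v) = 0 := by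
  refine Submodule.span_induction (p := fun Y _ =>
    ZW67.QE wt (SP38.cm (Q.map (algebraMap ℚ ℝ))) (syC wt P.d.w Y) (ZW67.jC P.d.j v) = 0)
    ?_ ?_ ?_ ?_ hY
  · rintro _ ⟨y, hy, rfl⟩
    show ZW67.QE wt (SP38.cm (Q.map (algebraMap ℚ ℝ)))
      (syC wt P.d.w (y.map (algebraMap ℚ ℂ))) (ZW67.jC P.d.j v) = 0
    rw [ZW67.cm_map, W6b_rat, ZW67.jC_decomp, ZW67.QE_sum_right]
    refine Finset.sum_eq_zero fun a _ => ?_
    have h := P.d.jd.perp (Pi.single a 1) y hy.1 hy.2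
    have h' : ZW67.QE wt Q (symb wt P.d.w y) (P.d.j (Pi.single a 1)) = 0 := h
    rw [ZW67.QE_smul_right, ZW67.jC_single, ZW67.QE_map, h', map_zero, mul_zero]
  · rw [W6b_zero, ZW67.QE_zero_left]
  · intro Y₁ Y₂ _ _ h₁ h₂
    rw [W6b_add, ZW67.QE_add_left, h₁, h₂, add_zero]
  · intro a Y₁ _ h₁
    rw [W6b_smul, ZW67.QE_smul_left, h₁, mul_zero]

end AD67
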